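import Mathlib

-- part Pool.Agent.Lib.MP_9dc2ba_co.Large.Defs
section

/-!
Definitions for the asymptotic ordering theorem: the design data, lines, triangle
decompositions, sparsity.
-/

open Finset

set_option linter.unusedSectionVars false

namespace Pool.Agent.Lib.MP_9dc2ba_co.Large

/-- An extremal unordered triple array with at most as many rows as columns, seen from the
symbols: `A x` is the set of rows (colours) and `B x` the set of columns containing `x`. -/
structure Des (I J X : Type*) [Fintype I] [Fintype J] [Fintype X] [DecidableEq I]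
    [DecidableEq J] where
  A : X → Finset I
  B : X → Finset J
  n : ℕ
  lam : ℕ
  cardA : ∀ x, #(A x) = n
  cardB : ∀ x, #(B x) = n
  cardI : Fintype.card I = n + lam
  cardX : Fintype.card X + 1 = Fintype.card I + Fintype.card J
  degJ : ∀ j, #{x | j ∈ B x} = n + lam
  degI : ∀ i, #{x | i ∈ A x} = Fintype.card J
  rc : ∀ i j, #{x | i ∈ A x ∧ j ∈ B x} = n
  cc : ∀ j j', j ≠ j' → #{x | j ∈ B x ∧ j' ∈ B x} = lam
  rr : ∀ i i', i ≠ i' → #{x | i ∈ A x ∧ i' ∈ A x} + n = Fintype.card J
  par : lam * Fintype.card J + n = n * lam + n * n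
  le : Fintype.card I ≤ Fintype.card J

/-- Lines: cells, (symbol, colour) pairs and (column, symbol) pairs. -/
inductive Ln (I J X : Type*) where
  | cel (i : I) (j : J) : Ln I J X
  | sym (x : X) (i : I) : Ln I J X
  | edg (j : J) (x : X) : Ln I J X
  deriving DecidableEq, Fintype

export Ln (cel sym edg)

variable {I J X : Type*}

/-- The three lines of a triangle. -/
def tri (t : I × J × X) : Multiset (Ln I J X) :=
  {cel t.1 t.2.1, sym t.2.2 t.1, edg t.2.1 t.2.2}

/-- A multiset of lines is a sum of triangles. -/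
def Dec (m : Multiset (Ln I J X)) : Prop := ∃ T : Multiset (I × J × X), m = T.bind tri

/-- A finite set of lines is a disjoint union of triangles. -/
def DecF (S : Finset (Ln I J X)) : Prop := Dec S.val

theorem Dec.zero : Dec (0 : Multiset (Ln I J X)) := ⟨0, by simp⟩

theorem Dec.add {m m' : Multiset (Ln I J X)} (h : Dec m) (h' : Dec m') : Dec (m + m') := by
  obtain ⟨T, rfl⟩ := h
  obtain ⟨T', rfl⟩ := h'
  exact ⟨T + T', by simp⟩

theorem Dec.tri (i : I) (j : J) (x : X) : Dec ({cel i j, sym x i, edg j x} : Multiset _) :=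
  ⟨{(i, j, x)}, by rw [Multiset.singleton_bind]; rfl⟩

theorem Dec.sum {α : Type*} (s : Finset α) (f : α → Multiset (Ln I J X))
    (h : ∀ a ∈ s, Dec (f a)) : Dec (∑ a ∈ s, f a) := by
  classical
  induction s using Finset.induction_on with
  | empty => simpa using Dec.zero
  | insert a s ha ih =>
    rw [sum_insert ha]
    exact (h a (mem_insert_self _ _)).add (ih fun b hb => h b (mem_insert_of_mem hb))

/-- All lines of `Z` are cells. -/
def OnlyCel (Z : Finset (Ln I J X)) : Prop := ∀ l ∈ Z, ∃ i j, l = cel i j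

variable [DecidableEq I] [DecidableEq J] [DecidableEq X]

theorem DecF.union {S S' : Finset (Ln I J X)} (h : DecF S) (h' : DecF S') (hd : Disjoint S S') :
    DecF (S ∪ S') := by
  unfold DecF
  rw [← disjUnion_eq_union _ _ hd]
  exact Dec.add h h'

/-- The three lines of a triangle, as a finite set. -/
def triF (t : I × J × X) : Finset (Ln I J X) :=
  {cel t.1 t.2.1, sym t.2.2 t.1, edg t.2.1 t.2.2}

theorem triF_val (t : I × J × X) : (triF t).val = tri t := by
  simp [triF, tri, Multiset.ndinsert_of_notMem]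

theorem biUnion_val_eq_sum {α β : Type*} [DecidableEq β] (s : Finset α) (f : α → Finset β)
    (h : ∀ a ∈ s, ∀ b ∈ s, a ≠ b → Disjoint (f a) (f b)) :
    (s.biUnion f).val = ∑ a ∈ s, (f a).val := by
  have hp : Set.PairwiseDisjoint (↑s : Set α) f := fun a ha b hb hab => h a ha b hb hab
  rw [← disjiUnion_eq_biUnion _ _ hp, disjiUnion_val, Multiset.bind, Multiset.join]
  rfl

theorem decF_biUnion (T : Finset (I × J × X))
    (h : ∀ a ∈ T, ∀ b ∈ T, a ≠ b → Disjoint (triF a) (triF b)) : DecF (T.biUnion triF) := by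
  unfold DecF
  rw [biUnion_val_eq_sum _ _ h]
  exact Dec.sum _ _ fun t _ => by rw [triF_val]; exact Dec.tri _ _ _

variable [Fintype I] [Fintype J] [Fintype X]

/-- Cells of `U` in column `j`. -/
def cJ (U : Finset (Ln I J X)) (j : J) : ℕ := #{i | cel i j ∈ U}
/-- Cells of `U` in row `i`. -/
def cI (U : Finset (Ln I J X)) (i : I) : ℕ := #{j | cel i j ∈ U}
/-- Colour lines of `U` at the symbol `x`. -/
def sX (U : Finset (Ln I J X)) (x : X) : ℕ := #{i | sym x i ∈ U}
/-- Symbol lines of `U` of colour `i`. -/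
def sI (U : Finset (Ln I J X)) (i : I) : ℕ := #{x | sym x i ∈ U}
/-- Edges of `U` at the column `j`. -/
def eJ (U : Finset (Ln I J X)) (j : J) : ℕ := #{x | edg j x ∈ U}
/-- Edges of `U` at the symbol `x`. -/
def eX (U : Finset (Ln I J X)) (x : X) : ℕ := #{j | edg j x ∈ U}
/-- Cells of `U` of colour `i` in the columns containing `x`. -/
def cN (D : Des I J X) (U : Finset (Ln I J X)) (x : X) (i : I) : ℕ :=
  #{j | j ∈ D.B x ∧ cel i j ∈ U}
/-- Symbol lines of `U` of colour `i` at the symbols of column `j`. -/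
def sN (D : Des I J X) (U : Finset (Ln I J X)) (j : J) (i : I) : ℕ :=
  #{x | j ∈ D.B x ∧ sym x i ∈ U}

/-- Local sparsity of a set of lines. -/
structure Sparse (D : Des I J X) (U : Finset (Ln I J X)) (t : ℝ) : Prop where
  cJ : ∀ j, (cJ U j : ℝ) ≤ t
  sX : ∀ x, (sX U x : ℝ) ≤ t
  eJ : ∀ j, (eJ U j : ℝ) ≤ t
  eX : ∀ x, (eX U x : ℝ) ≤ t
  cN : ∀ x i, (cN D U x i : ℝ) ≤ t
  sN : ∀ j i, (sN D U j i : ℝ) ≤ t

/-- The lines present in the design. -/
def Valid (D : Des I J X) : Ln I J X → Prop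
  | .cel _ _ => True
  | .sym x i => i ∈ D.A x
  | .edg j x => j ∈ D.B x

instance (D : Des I J X) : DecidablePred (Valid D) := fun l => by
  cases l <;> unfold Valid <;> infer_instance

/-- The finite set of all lines of the design. -/
def valid (D : Des I J X) : Finset (Ln I J X) := {l | Valid D l}

@[simp] theorem cel_mem_valid (D : Des I J X) (i : I) (j : J) : cel i j ∈ valid D := by
  simp [valid, Valid]
@[simp] theorem sym_mem_valid (D : Des I J X) (x : X) (i : I) :
    sym x i ∈ valid D ↔ i ∈ D.A x := by simp [valid, Valid]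
@[simp] theorem edg_mem_valid (D : Des I J X) (j : J) (x : X) :
    edg j x ∈ valid D ↔ j ∈ D.B x := by simp [valid, Valid]

/-- A fractional triangle decomposition of `M` with weights at most `b` and error `δ`. -/
structure FracDec (M : Finset (Ln I J X)) (y : I → J → X → ℝ) (b δ : ℝ) : Prop where
  nonneg : ∀ i j x, 0 ≤ y i j x
  le : ∀ i j x, y i j x ≤ b
  supp : ∀ i j x, y i j x ≠ 0 → cel i j ∈ M ∧ sym x i ∈ M ∧ edg j x ∈ M
  cel : ∀ i j, cel i j ∈ M → |∑ x, y i j x - 1| ≤ δ
  sym : ∀ x i, sym x i ∈ M → |∑ j, y i j x - 1| ≤ δ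
  edg : ∀ j x, edg j x ∈ M → |∑ i, y i j x - 1| ≤ δ

/-- Column `j` has many symbols containing the colours `a` and `b`. -/
def PG (D : Des I J X) (j : J) (a b : I) : Prop :=
  (D.n : ℝ) / 3 ≤ #{x | j ∈ D.B x ∧ a ∈ D.A x ∧ b ∈ D.A x}

/-- Column `j` has many symbols containing the colours `a`, `b` and `k`. -/
def TG (D : Des I J X) (j : J) (a b k : I) : Prop :=
  (D.n : ℝ) / 9 ≤ #{x | j ∈ D.B x ∧ a ∈ D.A x ∧ b ∈ D.A x ∧ k ∈ D.A x}

/-- Many symbols contain the colours `a`, `b` and `k`. -/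
def GG (D : Des I J X) (a b k : I) : Prop :=
  (Fintype.card J : ℝ) / 9 ≤ #{x | a ∈ D.A x ∧ b ∈ D.A x ∧ k ∈ D.A x}

/-! ### Balance of decomposable sets -/

theorem Dec.sum_map_eq_zero {m : Multiset (Ln I J X)} (h : Dec m) (w : Ln I J X → ℤ)
    (hw : ∀ i j x, w (cel i j) + w (sym x i) + w (edg j x) = 0) : (m.map w).sum = 0 := by
  obtain ⟨T, rfl⟩ := h
  induction T using Multiset.induction_on with
  | empty => simp
  | cons t T ih =>
    have := hw t.1 t.2.1 t.2.2
    rw [Multiset.cons_bind, Multiset.map_add, Multiset.sum_add, ih]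
    simp only [Large.tri, Multiset.insert_eq_cons, Multiset.map_cons, Multiset.map_singleton, Multiset.sum_cons,
      Multiset.sum_singleton]
    omega

theorem sum_ite_eq_card {α β : Type*} [Fintype α] [DecidableEq β] (S : Finset β) (f : α → β)
    (hf : Function.Injective f) (p : β → Prop) [DecidablePred p] (hp : ∀ l, p l ↔ ∃ a, l = f a) :
    ∑ l ∈ S, (if p l then (1 : ℤ) else 0) = (#{a | f a ∈ S} : ℕ) := by
  rw [sum_boole]
  congr 1
  symm
  apply card_bij (fun a _ => f a)
  · intro a ha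
    simp only [mem_filter, mem_univ, true_and] at ha ⊢
    exact ⟨ha, (hp _).2 ⟨a, rfl⟩⟩
  · intro a _ b _ h
    exact hf h
  · intro l hl
    simp only [mem_filter] at hl
    obtain ⟨a, rfl⟩ := (hp _).1 hl.2
    exact ⟨a, by simp [hl.1], rfl⟩

theorem DecF.balJ {S : Finset (Ln I J X)} (h : DecF S) (j : J) : cJ S j = eJ S j := by
  classical
  have := Dec.sum_map_eq_zero h
    (fun l => (if ∃ i, l = cel i j then 1 else 0) - (if ∃ x, l = edg j x then 1 else 0))
    (by intro i j' x; by_cases hj : j' = j <;> simp [hj])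
  change ∑ l ∈ S, _ = _ at this
  rw [sum_sub_distrib, sum_ite_eq_card S (fun i => cel i j) (fun a b h => by simpa using h) _
    (fun _ => Iff.rfl), sum_ite_eq_card S (fun x => edg j x) (fun a b h => by simpa using h) _
    (fun _ => Iff.rfl)] at this
  unfold cJ eJ
  omega

theorem DecF.balI {S : Finset (Ln I J X)} (h : DecF S) (i : I) : cI S i = sI S i := by
  classical
  have := Dec.sum_map_eq_zero h
    (fun l => (if ∃ j, l = cel i j then 1 else 0) - (if ∃ x, l = sym x i then 1 else 0))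
    (by intro i' j x; by_cases hj : i' = i <;> simp [hj])
  change ∑ l ∈ S, _ = _ at this
  rw [sum_sub_distrib, sum_ite_eq_card S (fun j => cel i j) (fun a b h => by simpa using h) _
    (fun _ => Iff.rfl), sum_ite_eq_card S (fun x => sym x i) (fun a b h => by simpa using h) _
    (fun _ => Iff.rfl)] at this
  unfold cI sI
  omega

theorem DecF.balX {S : Finset (Ln I J X)} (h : DecF S) (x : X) : sX S x = eX S x := by
  classical
  have := Dec.sum_map_eq_zero h
    (fun l => (if ∃ i, l = sym x i then 1 else 0) - (if ∃ j, l = edg j x then 1 else 0))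
    (by intro i j x'; by_cases hj : x' = x <;> simp [hj])
  change ∑ l ∈ S, _ = _ at this
  rw [sum_sub_distrib, sum_ite_eq_card S (fun i => sym x i) (fun a b h => by simpa using h) _
    (fun _ => Iff.rfl), sum_ite_eq_card S (fun j => edg j x) (fun a b h => by simpa using h) _
    (fun _ => Iff.rfl)] at this
  unfold sX eX
  omega

/-! ### Monotonicity and subadditivity -/

theorem card_mem_mono {α β : Type*} [Fintype α] [DecidableEq β] (p : α → Prop) [DecidablePred p]
    (f : α → β) {U U' : Finset β} (h : U ⊆ U') :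
    #{a | p a ∧ f a ∈ U} ≤ #{a | p a ∧ f a ∈ U'} :=
  card_le_card fun a ha => by
    simp only [mem_filter, mem_univ, true_and] at ha ⊢
    exact ⟨ha.1, h ha.2⟩

theorem card_mem_mono' {α β : Type*} [Fintype α] [DecidableEq β]
    (f : α → β) {U U' : Finset β} (h : U ⊆ U') : #{a | f a ∈ U} ≤ #{a | f a ∈ U'} :=
  card_le_card fun a ha => by
    simp only [mem_filter, mem_univ, true_and] at ha ⊢
    exact h ha

theorem card_mem_union {α β : Type*} [Fintype α] [DecidableEq β] (p : α → Prop) [DecidablePred p]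
    (f : α → β) (U U' : Finset β) :
    #{a | p a ∧ f a ∈ U ∪ U'} ≤ #{a | p a ∧ f a ∈ U} + #{a | p a ∧ f a ∈ U'} := by
  classical
  refine le_trans (card_le_card ?_) (card_union_le _ _)
  intro a ha
  simp only [mem_filter, mem_univ, true_and, mem_union] at ha ⊢
  tauto

theorem card_mem_union' {α β : Type*} [Fintype α] [DecidableEq β]
    (f : α → β) (U U' : Finset β) :
    #{a | f a ∈ U ∪ U'} ≤ #{a | f a ∈ U} + #{a | f a ∈ U'} := by
  classical
  refine le_trans (card_le_card ?_) (card_union_le _ _)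
  intro a ha
  simpa only [mem_filter, mem_univ, true_and, mem_union] using ha

theorem card_mem_union_of_disjoint {α β : Type*} [Fintype α] [DecidableEq β]
    (f : α → β) {U U' : Finset β} (h : Disjoint U U') :
    #{a | f a ∈ U ∪ U'} = #{a | f a ∈ U} + #{a | f a ∈ U'} := by
  classical
  rw [← card_union_of_disjoint]
  · congr 1
    ext a
    simp
  · rw [disjoint_left]
    intro a ha ha'
    simp only [mem_filter, mem_univ, true_and] at ha ha'
    exact disjoint_left.1 h ha ha'

theorem Sparse.mono {D : Des I J X} {U U' : Finset (Ln I J X)} {t t' : ℝ} (h : Sparse D U t)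
    (hU : U' ⊆ U) (ht : t ≤ t') : Sparse D U' t' where
  cJ j := le_trans (by exact_mod_cast card_mem_mono' _ hU) ((h.cJ j).trans ht)
  sX j := le_trans (by exact_mod_cast card_mem_mono' _ hU) ((h.sX j).trans ht)
  eJ j := le_trans (by exact_mod_cast card_mem_mono' _ hU) ((h.eJ j).trans ht)
  eX j := le_trans (by exact_mod_cast card_mem_mono' _ hU) ((h.eX j).trans ht)
  cN x i := le_trans (by exact_mod_cast card_mem_mono _ _ hU) ((h.cN x i).trans ht)
  sN x i := le_trans (by exact_mod_cast card_mem_mono _ _ hU) ((h.sN x i).trans ht)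

theorem Sparse.union {D : Des I J X} {U U' : Finset (Ln I J X)} {t t' : ℝ} (h : Sparse D U t)
    (h' : Sparse D U' t') : Sparse D (U ∪ U') (t + t') where
  cJ j := le_trans (by exact_mod_cast card_mem_union' _ U U') (add_le_add (h.cJ j) (h'.cJ j))
  sX j := le_trans (by exact_mod_cast card_mem_union' _ U U') (add_le_add (h.sX j) (h'.sX j))
  eJ j := le_trans (by exact_mod_cast card_mem_union' _ U U') (add_le_add (h.eJ j) (h'.eJ j))
  eX j := le_trans (by exact_mod_cast card_mem_union' _ U U') (add_le_add (h.eX j) (h'.eX j))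
  cN x i := le_trans (by exact_mod_cast card_mem_union _ _ U U')
    (add_le_add (h.cN x i) (h'.cN x i))
  sN x i := le_trans (by exact_mod_cast card_mem_union _ _ U U')
    (add_le_add (h.sN x i) (h'.sN x i))

theorem Sparse.empty (D : Des I J X) : Sparse D ∅ 0 := by
  constructor <;> intros <;> simp [Large.cJ, Large.sX, Large.eJ, Large.eX, Large.cN, Large.sN]

end Pool.Agent.Lib.MP_9dc2ba_co.Large
end

-- part Pool.Agent.Lib.MP_9dc2ba_co.Large.Defs2
section

/-!
Definitions for the absorber: shift networks, the cube of hub colours, abstract circuits.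
-/

open Finset

set_option linter.unusedSectionVars false

namespace Pool.Agent.Lib.MP_9dc2ba_co.Large

/-- The cyclic shift by `2 ^ ℓ` of the positions of a network of width `2 ^ h`. -/
def sh (h ℓ : ℕ) : Equiv.Perm (Fin (2 ^ h)) := Equiv.addRight (Fin.ofNat (2 ^ h) (2 ^ ℓ))

/-- The vertices of the `h`-cube. -/
abbrev Cube (h : ℕ) := Fin h → Bool

/-- Flip the coordinate `d`. -/
def flip {h : ℕ} (d : Fin h) (v : Cube h) : Cube h := Function.update v d (!v d)

/-- The coordinates below `d` from `u`, the others from `p`. -/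
def mix {h : ℕ} (d : ℕ) (u p : Cube h) : Cube h := fun b => if (b : ℕ) < d then u b else p b

/-- Oriented squares of the cube: two different directions and a starting vertex. -/
abbrev Sq (h : ℕ) := {q : Fin h × Fin h × Cube h // q.1 ≠ q.2.1}

/-- The four directed edges of an oriented square. -/
def fwd {h : ℕ} (q : Sq h) : Multiset (Cube h × Cube h) :=
  {(q.1.2.2, flip q.1.1 q.1.2.2),
    (flip q.1.1 q.1.2.2, flip q.1.2.1 (flip q.1.1 q.1.2.2)),
    (flip q.1.2.1 (flip q.1.1 q.1.2.2), flip q.1.2.1 q.1.2.2),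
    (flip q.1.2.1 q.1.2.2, q.1.2.2)}

/-- The graph on colours: the cube on the hub colours and a pendant edge at every other colour. -/
def Adj {I : Type*} {h : ℕ} (ι : Cube h ↪ I) (π : I → Cube h) (a b : I) : Prop :=
  (∃ d v, a = ι v ∧ b = ι (flip d v)) ∨ (a ∉ Set.range ι ∧ b = ι (π a)) ∨
    (b ∉ Set.range ι ∧ a = ι (π b))

variable {I J X : Type*} [Fintype I] [Fintype J] [Fintype X] [DecidableEq I] [DecidableEq J]
  [DecidableEq X]

/-- An abstract circuit: column nodes `N` with palettes, tripods `T` (a symbol with three colours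
and three legs, leg `0` possibly at a given column), wires `W` with two colours. -/
structure Circ (I J N T W : Type*) where
  pal : N → Finset I
  tc : T → Fin 3 → I
  leg : T → Fin 3 → J ⊕ N
  wa : W → I
  wb : W → I
  w0 : W → N
  w1 : W → N

/-- A circuit without wires, with open terminals `Tm`. -/
structure OCirc (I J N T Tm : Type*) where
  pal : N → Finset I
  tc : T → Fin 3 → I
  leg : T → Fin 3 → J ⊕ N
  node : Tm → N
  ca : Tm → I
  cb : Tm → I

variable {N T W Tm : Type*} [Fintype N] [Fintype T] [Fintype W] [Fintype Tm] [DecidableEq N]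
  [DecidableEq T] [DecidableEq W] [DecidableEq Tm]

/-- The abstract cells to be covered: the given cells `m` and all palettes. -/
def needOf (pal : N → Finset I) (m : Multiset (I × J)) : Multiset (I × (J ⊕ N)) :=
  m.map (fun p => (p.1, Sum.inl p.2)) + ∑ ν, (pal ν).val.map (fun i => (i, Sum.inr ν))

/-- The abstract cells covered by the tripods in the state `s`. -/
def tripOf (tc : T → Fin 3 → I) (leg : T → Fin 3 → J ⊕ N) (s : T → Fin 3) :
    Multiset (I × (J ⊕ N)) :=
  ∑ τ, ∑ k : Fin 3, {(tc τ (Equiv.swap 0 (s τ) k), leg τ k)}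

/-- The abstract cells covered by the wires in the state `o`. -/
def Circ.wireOf (C : Circ I J N T W) (o : W → Bool) : Multiset (I × (J ⊕ N)) :=
  ∑ w, ({(if o w then C.wb w else C.wa w, Sum.inr (C.w0 w))} +
    {(if o w then C.wa w else C.wb w, Sum.inr (C.w1 w))})

/-- The state of a terminal: (the colour not left open, the colour left open). -/
def OCirc.st (O : OCirc I J N T Tm) (σ : Tm → Bool) (t : Tm) : I × I :=
  if σ t then (O.cb t, O.ca t) else (O.ca t, O.cb t)

/-- The abstract cells left open at the terminals in the state `σ`. -/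
def OCirc.termOf (O : OCirc I J N T Tm) (σ : Tm → Bool) : Multiset (I × (J ⊕ N)) :=
  ∑ t, {((O.st σ t).2, Sum.inr (O.node t))}

/-- Shape and load conditions on nodes and tripods. -/
structure BaseOk (D : Des I J X) (pal : N → Finset I) (tc : T → Fin 3 → I)
    (leg : T → Fin 3 → J ⊕ N) (s : ℕ) (β : ℝ) : Prop where
  tc_inj : ∀ τ, Function.Injective (tc τ)
  leg_root : ∀ τ k j, leg τ k = Sum.inl j → k = 0
  leg_inj : ∀ τ k τ' k' ν, leg τ k = Sum.inr ν → leg τ' k' = Sum.inr ν → τ = τ' ∧ k = k'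
  tg : ∀ τ j, leg τ 0 = Sum.inl j → TG D j (tc τ 0) (tc τ 1) (tc τ 2)
  gg : ∀ τ ν, leg τ 0 = Sum.inr ν → GG D (tc τ 0) (tc τ 1) (tc τ 2)
  pal_card : ∀ ν, #(pal ν) ≤ s
  rootload : ∀ j, (#{τ | leg τ 0 = Sum.inl j} : ℝ) ≤ β * D.n
  tload : ∀ i, (#{τ | ∃ k, tc τ k = i} : ℝ) ≤ β * Fintype.card J
  nload : ∀ i, (#{ν | i ∈ pal ν} : ℝ) ≤ β * Fintype.card J

/-- Shape and load conditions on a circuit. -/
structure Circ.Ok (D : Des I J X) (C : Circ I J N T W) (s : ℕ) (β : ℝ) : Prop where
  base : BaseOk D C.pal C.tc C.leg s β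
  w_ne : ∀ w, C.wa w ≠ C.wb w
  w0_card : ∀ ν, #{w | C.w0 w = ν} ≤ s
  w1_card : ∀ ν, #{w | C.w1 w = ν} ≤ s
  w_meet : ∀ w, C.w0 w ≠ C.w1 w ∧ (C.pal (C.w0 w) ∩ C.pal (C.w1 w)).Nonempty
  wload : ∀ i, (#{w | C.wa w = i ∨ C.wb w = i} : ℝ) ≤ β * Fintype.card J

/-- The lines added for a symbol with colours `C` and possibly an edge to a column. -/
def symLn (C : Finset I) (root : Option J) (y : X) : Finset (Ln I J X) :=
  C.image (fun i => sym y i) ∪ root.toFinset.image (fun j => edg j y)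

/-- The lines added for a column with palette `P` and possibly an edge to a symbol. -/
def colLn (P : Finset I) (anc : Option X) (q : J) : Finset (Ln I J X) :=
  P.image (fun i => cel i q) ∪ anc.toFinset.image (fun y => edg q y)

end Pool.Agent.Lib.MP_9dc2ba_co.Large
end

-- part Pool.Agent.Lib.MP_9dc2ba_co.Large.Design
section

/-!
The symmetric design behind an extremal unordered triple array: parameters, the dual property,
the mixing inequality and its consequences.
-/

open Finset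

set_option linter.unusedSectionVars false

namespace Pool.Agent.Lib.MP_9dc2ba_co.Large

variable {I J X : Type*} [Fintype I] [Fintype J] [Fintype X] [DecidableEq I] [DecidableEq J]
  [DecidableEq X]

namespace Des
variable (D : Des I J X)

theorem lam_pos (hn : 2 ≤ D.n) : 1 ≤ D.lam := by
  have := D.par
  by_contra h
  have h0 : D.lam = 0 := by omega
  rw [h0] at this
  nlinarith

theorem lam_lt (hn : 2 ≤ D.n) : D.lam < D.n := by
  have h1 := D.par
  have h2 := D.le
  rw [D.cardI] at h2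
  by_contra h
  push Not at h
  have : D.lam * (D.n + D.lam) ≤ D.lam * Fintype.card J := Nat.mul_le_mul_left _ h2
  nlinarith

theorem n_le_r : D.n ≤ Fintype.card I := by rw [D.cardI]; omega

theorem n_le_c : D.n ≤ Fintype.card J := D.n_le_r.trans D.le

theorem r_le (hn : 2 ≤ D.n) : Fintype.card I ≤ 2 * D.n := by
  have := D.lam_lt hn
  rw [D.cardI]; omega

theorem sq_le (hn : 2 ≤ D.n) : D.n * D.n ≤ Fintype.card J * D.lam := by
  have h1 := D.par
  have h2 := D.lam_pos hn
  nlinarith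

theorem le_sq : Fintype.card J * D.lam ≤ 2 * (D.n * D.n) := by
  have h1 := D.par
  have h2 := D.le
  rw [D.cardI] at h2
  have h3 : D.lam * (D.n + D.lam) ≤ D.lam * Fintype.card J := Nat.mul_le_mul_left _ h2
  have : D.lam ≤ D.n := by
    by_contra h
    push Not at h
    nlinarith
  nlinarith

theorem c_le (hn : 2 ≤ D.n) : Fintype.card J ≤ 2 * (D.n * D.n) := by
  have h1 := D.le_sq
  have h2 := D.lam_pos hn
  nlinarith

include D in
theorem v_le : Fintype.card X ≤ 2 * Fintype.card J := by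
  have := D.cardX
  have := D.le
  omega

theorem miss_one (i : I) (j : J) : #{x | j ∈ D.B x ∧ i ∉ D.A x} = D.lam := by
  have h1 := D.degJ j
  have h2 := D.rc i j
  have h3 := card_filter_add_card_filter_not (s := ({x | j ∈ D.B x} : Finset X))
    (fun x => i ∈ D.A x)
  rw [filter_filter, filter_filter, h1] at h3
  have : ({x | j ∈ D.B x ∧ i ∈ D.A x} : Finset X) = ({x | i ∈ D.A x ∧ j ∈ D.B x} : Finset X) := by
    ext; simp [and_comm]
  rw [this, h2] at h3
  omega

theorem miss_zero (i : I) : #{x | i ∉ D.A x} + 1 = D.n + D.lam := by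
  have h1 := D.degI i
  have h3 := card_filter_add_card_filter_not (s := (univ : Finset X)) (fun x => i ∈ D.A x)
  have := D.cardX
  have := D.cardI
  rw [card_univ] at h3
  omega

theorem miss_two {i i' : I} (h : i ≠ i') : #{x | i ∉ D.A x ∧ i' ∉ D.A x} + 1 = D.lam := by
  have h1 := D.miss_zero i
  have h2 := D.degI i'
  have h3 := D.rr i' i h.symm
  have h4 := card_filter_add_card_filter_not (s := ({x | i ∉ D.A x} : Finset X))
    (fun x => i' ∈ D.A x)
  have h5 := card_filter_add_card_filter_not (s := ({x | i' ∈ D.A x} : Finset X))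
    (fun x => i ∈ D.A x)
  rw [filter_filter, filter_filter] at h4 h5
  have : ({x | i ∉ D.A x ∧ i' ∈ D.A x} : Finset X) =
      ({x | i' ∈ D.A x ∧ i ∉ D.A x} : Finset X) := by
    ext; simp [and_comm]
  rw [this] at h4
  omega

/-- Incidence of the symmetric design restricted to the blocks other than the deleted one. -/
noncomputable def inc (p : I ⊕ J) (x : X) : ℝ :=
  match p with
  | Sum.inl i => if i ∉ D.A x then 1 else 0
  | Sum.inr j => if j ∈ D.B x then 1 else 0

/-- Incidence with the deleted block. -/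
def inc0 (p : I ⊕ J) : ℝ :=
  match p with
  | Sum.inl _ => 1
  | Sum.inr _ => 0

theorem sum_inc (x : X) : ∑ p, D.inc p x = D.n + D.lam := by
  rw [Fintype.sum_sum_type]
  simp only [inc, sum_boole]
  have h1 : ({i | i ∉ D.A x} : Finset I) = (D.A x)ᶜ := by ext; simp
  have h2 : ({j | j ∈ D.B x} : Finset J) = D.B x := by ext; simp
  rw [h1, h2, card_compl, D.cardA, D.cardB, D.cardI]
  simp [add_comm]

theorem inc_sq (p : I ⊕ J) (x : X) : D.inc p x * D.inc p x = D.inc p x := by
  cases p <;> simp only [inc] <;> split_ifs <;> simp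

theorem gram (p q : I ⊕ J) : ∑ x, D.inc p x * D.inc q x + inc0 p * inc0 q =
    D.lam + if p = q then (D.n : ℝ) else 0 := by
  have key : ∀ (P Q : X → Prop) [DecidablePred P] [DecidablePred Q],
      ∑ x, (if P x then (1 : ℝ) else 0) * (if Q x then 1 else 0) = #{x | P x ∧ Q x} := by
    intro P Q _ _
    rw [← sum_boole]
    refine sum_congr rfl fun x _ => ?_
    by_cases h1 : P x <;> by_cases h2 : Q x <;> simp [h1, h2]
  rcases p with i | j <;> rcases q with i' | j' <;> simp only [inc, inc0, key]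
  · by_cases h : i = i'
    · subst h
      have := D.miss_zero i
      simp only [and_self, if_true]
      have h2 : ((#{x | i ∉ D.A x} : ℕ) : ℝ) + 1 = D.n + D.lam := by exact_mod_cast this
      linarith
    · have := D.miss_two h
      have h2 : ((#{x | i ∉ D.A x ∧ i' ∉ D.A x} : ℕ) : ℝ) + 1 = D.lam := by exact_mod_cast this
      simp [h, h2]
  · have := D.miss_one i j'
    have h2 : ({x | i ∉ D.A x ∧ j' ∈ D.B x} : Finset X) =
        ({x | j' ∈ D.B x ∧ i ∉ D.A x} : Finset X) := by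
      ext; simp [and_comm]
    simp [h2, this]
  · simp [D.miss_one i' j]
  · by_cases h : j = j'
    · subst h
      simp [D.degJ j, add_comm]
    · simp [D.cc j j' h, h]

theorem sum_inc_row (p : I ⊕ J) : ∑ x, D.inc p x + inc0 p = D.n + D.lam := by
  have := D.gram p p
  simp only [inc_sq, if_true] at this
  have h2 : (inc0 p : ℝ) * inc0 p = inc0 p := by cases p <;> simp [inc0]
  linarith

theorem inc0_dot (x : X) : ∑ p, inc0 p * D.inc p x = D.lam := by
  rw [Fintype.sum_sum_type]
  simp only [inc, inc0, one_mul, zero_mul, sum_const_zero, add_zero, sum_boole]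
  have h1 : ({i | i ∉ D.A x} : Finset I) = (D.A x)ᶜ := by ext; simp
  rw [h1, card_compl, D.cardA, D.cardI]
  simp

theorem dot_eq {x x' : X} (h : x ≠ x') : ∑ p, D.inc p x * D.inc p x' = D.lam := by
  set g : X → ℝ := fun y => ∑ p, D.inc p x * D.inc p y with hg
  have hr : (Fintype.card I : ℝ) = D.n + D.lam := by exact_mod_cast D.cardI
  have hv : (Fintype.card X : ℝ) + 1 = Fintype.card I + Fintype.card J := by
    exact_mod_cast D.cardX
  have hp : (D.lam : ℝ) * Fintype.card J + D.n = D.n * D.lam + D.n * D.n := by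
    exact_mod_cast D.par
  have gx : g x = D.n + D.lam := by simp only [hg, inc_sq, sum_inc]
  have s1 : ∑ y, g y = (D.n + D.lam) ^ 2 - D.lam := by
    simp only [hg]
    rw [sum_comm]
    have : ∀ p, ∑ y, D.inc p x * D.inc p y = (D.n + D.lam) * D.inc p x - inc0 p * D.inc p x := by
      intro p
      rw [← mul_sum, ← D.sum_inc_row p]; ring
    simp only [this, sum_sub_distrib, ← mul_sum, sum_inc, inc0_dot]
    ring
  have s2 : ∑ y, g y ^ 2 = D.lam * (D.n + D.lam) ^ 2 + D.n * (D.n + D.lam) - D.lam ^ 2 := by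
    have e1 : ∀ y, g y ^ 2 = ∑ p, ∑ q, D.inc p x * D.inc q x * (D.inc p y * D.inc q y) := by
      intro y
      simp only [hg, sq, sum_mul_sum]
      exact sum_congr rfl fun p _ => sum_congr rfl fun q _ => by ring
    simp only [e1]
    rw [sum_comm]
    have e2 : ∀ p, ∑ y, ∑ q, D.inc p x * D.inc q x * (D.inc p y * D.inc q y) =
        D.lam * (D.n + D.lam) * D.inc p x + D.n * D.inc p x - D.lam * (inc0 p * D.inc p x) := by
      intro p
      rw [sum_comm]
      have e3 : ∀ q, ∑ y, D.inc p x * D.inc q x * (D.inc p y * D.inc q y) =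
          D.lam * D.inc p x * D.inc q x + (if p = q then D.n * D.inc p x * D.inc q x else 0) -
            inc0 p * D.inc p x * (inc0 q * D.inc q x) := by
        intro q
        rw [← mul_sum, eq_sub_of_add_eq (D.gram p q)]
        split_ifs <;> ring
      simp only [e3, sum_sub_distrib, sum_add_distrib, ← mul_sum, sum_inc, inc0_dot, sum_ite_eq,
        mem_univ, if_true]
      have := D.inc_sq p x
      linear_combination D.n * this
    simp only [e2, sum_sub_distrib, sum_add_distrib, ← mul_sum, sum_inc, inc0_dot]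
    ring
  have s3 : ∑ y, (g y - D.lam) ^ 2 = D.n ^ 2 := by
    have : ∀ y, (g y - D.lam) ^ 2 = g y ^ 2 - 2 * D.lam * g y + D.lam ^ 2 := fun y => by ring
    simp only [this, sum_add_distrib, sum_sub_distrib, ← mul_sum, s1, s2, sum_const, card_univ,
      nsmul_eq_mul]
    have : (Fintype.card X : ℝ) = D.n + D.lam + Fintype.card J - 1 := by linarith
    rw [this]
    linear_combination D.lam * hp
  have s4 : (g x - D.lam) ^ 2 + (g x' - D.lam) ^ 2 ≤ ∑ y, (g y - D.lam) ^ 2 := by
    rw [← sum_pair (f := fun y => (g y - D.lam) ^ 2) h]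
    exact sum_le_sum_of_subset_of_nonneg (subset_univ _) fun _ _ _ => sq_nonneg _
  rw [s3, gx] at s4
  have : (g x' - D.lam) ^ 2 ≤ 0 := by nlinarith
  have : g x' - D.lam = 0 := by nlinarith [sq_nonneg (g x' - D.lam)]
  change g x' = _
  linarith

theorem dual (_hn : 2 ≤ D.n) {x x' : X} (h : x ≠ x') :
    #(D.B x ∩ D.B x') + #((D.A x)ᶜ ∩ (D.A x')ᶜ) = D.lam := by
  have := D.dot_eq h
  rw [Fintype.sum_sum_type] at this
  have e1 : ∑ i, D.inc (Sum.inl i) x * D.inc (Sum.inl i) x' = #((D.A x)ᶜ ∩ (D.A x')ᶜ) := by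
    rw [card_eq_sum_ones, Nat.cast_sum, ← Fintype.sum_ite_mem ((D.A x)ᶜ ∩ (D.A x')ᶜ)]
    refine sum_congr rfl fun i _ => ?_
    by_cases h1 : i ∈ D.A x <;> by_cases h2 : i ∈ D.A x' <;> simp [inc, h1, h2]
  have e2 : ∑ j, D.inc (Sum.inr j) x * D.inc (Sum.inr j) x' = #(D.B x ∩ D.B x') := by
    rw [card_eq_sum_ones, Nat.cast_sum, ← Fintype.sum_ite_mem (D.B x ∩ D.B x')]
    refine sum_congr rfl fun i _ => ?_
    by_cases h1 : i ∈ D.B x <;> by_cases h2 : i ∈ D.B x' <;> simp [inc, h1, h2]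
  rw [e1, e2, add_comm] at this
  exact_mod_cast this

theorem codeg_le (hn : 2 ≤ D.n) {x x' : X} (h : x ≠ x') : #(D.B x ∩ D.B x') ≤ D.lam := by
  have := D.dual hn h
  omega

/-- the density `r / (r + c)` -/
noncomputable def rho (_D : Des I J X) : ℝ :=
  (Fintype.card I : ℝ) / (Fintype.card I + Fintype.card J)

theorem rho_nonneg : 0 ≤ D.rho := by unfold rho; positivity

theorem rho_le : D.rho ≤ 1 / 2 := by
  unfold rho
  have h : (Fintype.card I : ℝ) ≤ Fintype.card J := by exact_mod_cast D.le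
  rcases eq_or_lt_of_le (show (0 : ℝ) ≤ Fintype.card I + Fintype.card J by positivity) with h0 | h0
  · rw [← h0]; simp
  · rw [div_le_iff₀ h0]; linarith

theorem rho_mul (hn : 2 ≤ D.n) :
    D.rho * (Fintype.card I + Fintype.card J) = Fintype.card I := by
  unfold rho
  have : (2 : ℝ) ≤ Fintype.card I := by exact_mod_cast hn.trans D.n_le_r
  field_simp

theorem lam_le_rho (hn : 2 ≤ D.n) : (D.lam : ℝ) ≤ D.rho * Fintype.card I := by
  have hr : (Fintype.card I : ℝ) = D.n + D.lam := by exact_mod_cast D.cardI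
  have hp : (D.lam : ℝ) * Fintype.card J + D.n = D.n * D.lam + D.n * D.n := by
    exact_mod_cast D.par
  have h2 : (2 : ℝ) ≤ Fintype.card I := by exact_mod_cast hn.trans D.n_le_r
  have hN : (0 : ℝ) < Fintype.card I + Fintype.card J := by positivity
  unfold rho
  rw [div_mul_eq_mul_div, le_div_iff₀ hN, hr]
  have : (0 : ℝ) ≤ D.n := by positivity
  nlinarith

theorem mixing (hn : 2 ≤ D.n) (S : Finset X) :
    ∑ j, ((#{x ∈ S | j ∈ D.B x} : ℝ) - D.rho * #S) ^ 2 +
      ∑ i, ((#{x ∈ S | i ∉ D.A x} : ℝ) - D.rho * #S) ^ 2 ≤ D.n * #S := by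
  set f : I ⊕ J → ℝ := fun p => ∑ x ∈ S, D.inc p x with hf
  have e0 : ∑ j, ((#{x ∈ S | j ∈ D.B x} : ℝ) - D.rho * #S) ^ 2 +
      ∑ i, ((#{x ∈ S | i ∉ D.A x} : ℝ) - D.rho * #S) ^ 2 = ∑ p, (f p - D.rho * #S) ^ 2 := by
    rw [Fintype.sum_sum_type, add_comm]
    simp only [hf, inc, sum_boole]
  have hr : (Fintype.card I : ℝ) = D.n + D.lam := by exact_mod_cast D.cardI
  have s1 : ∑ p, f p = (D.n + D.lam) * #S := by
    simp only [hf]
    rw [sum_comm]
    simp only [sum_inc, sum_const, nsmul_eq_mul, mul_comm]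
  have s2 : ∑ p, f p ^ 2 = D.lam * #S ^ 2 + D.n * #S := by
    simp only [hf, sq, sum_mul_sum]
    rw [sum_comm]
    have : ∀ x ∈ S, ∑ p, ∑ y ∈ S, D.inc p x * D.inc p y = D.lam * #S + D.n := by
      intro x hx
      rw [sum_comm]
      have : ∀ y ∈ S, ∑ p, D.inc p x * D.inc p y = D.lam + if x = y then (D.n : ℝ) else 0 := by
        intro y _
        split_ifs with h
        · subst h
          simp only [inc_sq, sum_inc]; ring
        · rw [D.dot_eq h]; simp
      rw [sum_congr rfl this, sum_add_distrib, sum_ite_eq, if_pos hx]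
      simp [mul_comm]
    rw [sum_congr rfl this]
    simp only [sum_const, nsmul_eq_mul]
    ring
  rw [e0]
  have : ∀ p, (f p - D.rho * #S) ^ 2 = f p ^ 2 - 2 * (D.rho * #S) * f p + (D.rho * #S) ^ 2 :=
    fun p => by ring
  simp only [this, sum_add_distrib, sum_sub_distrib, ← mul_sum, s1, s2, sum_const, card_univ,
    nsmul_eq_mul, Fintype.card_sum, Nat.cast_add]
  have h1 := D.rho_mul hn
  have h2 := D.lam_le_rho hn
  have h3 : ((Fintype.card I : ℝ) + Fintype.card J) * (D.rho * #S) ^ 2 =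
      D.rho * Fintype.card I * #S ^ 2 := by
    calc _ = D.rho * (Fintype.card I + Fintype.card J) * D.rho * #S ^ 2 := by ring
      _ = _ := by rw [h1]; ring
  rw [h3, ← hr]
  nlinarith [sq_nonneg (#S : ℝ)]

theorem pg_symm {j : J} {a b : I} (h : PG D j a b) : PG D j b a := by
  unfold PG at *
  convert h using 3
  ext; simp only [mem_filter, mem_univ, true_and]; tauto

theorem tg_swap12 {j : J} {a b k : I} (h : TG D j a b k) : TG D j b a k := by
  unfold TG at *
  convert h using 3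
  ext; simp only [mem_filter, mem_univ, true_and]; tauto

theorem tg_swap23 {j : J} {a b k : I} (h : TG D j a b k) : TG D j a k b := by
  unfold TG at *
  convert h using 3
  ext; simp only [mem_filter, mem_univ, true_and]; tauto

theorem gg_swap12 {a b k : I} (h : GG D a b k) : GG D b a k := by
  unfold GG at *
  convert h using 3
  ext; simp only [mem_filter, mem_univ, true_and]; tauto

theorem gg_swap23 {a b k : I} (h : GG D a b k) : GG D a k b := by
  unfold GG at *
  convert h using 3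
  ext; simp only [mem_filter, mem_univ, true_and]; tauto

theorem card_mul_le_of_sq {α : Type*} [Fintype α] (f : α → ℝ) (B : Finset α) (d M : ℝ)
    (hd : 0 ≤ d) (hB : ∀ a ∈ B, d ≤ |f a|) (hM : ∑ a, f a ^ 2 ≤ M) : #B * d ^ 2 ≤ M := by
  calc (#B : ℝ) * d ^ 2 = ∑ _a ∈ B, d ^ 2 := by simp
    _ ≤ ∑ a ∈ B, f a ^ 2 := sum_le_sum fun a ha => by
        rw [← sq_abs (f a)]
        exact pow_le_pow_left₀ hd (hB a ha) 2
    _ ≤ ∑ a, f a ^ 2 := sum_le_sum_of_subset_of_nonneg (subset_univ _) fun _ _ _ => sq_nonneg _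
    _ ≤ M := hM

/-- All but few colours are contained in a third of the symbols of a given set. -/
theorem bad_colour (hn : 2 ≤ D.n) (S : Finset X) (B : Finset I)
    (hB : ∀ i ∈ B, (#{x ∈ S | i ∈ D.A x} : ℝ) < #S / 3) : (#B : ℝ) * #S ≤ 36 * D.n := by
  have h1 := D.mixing hn S
  have h2 : ∑ i, ((#{x ∈ S | i ∉ D.A x} : ℝ) - D.rho * #S) ^ 2 ≤ D.n * #S :=
    le_trans (le_add_of_nonneg_left (sum_nonneg fun _ _ => sq_nonneg _)) h1
  have h3 := card_mul_le_of_sq _ B (#S / 6) _ (by positivity) (fun i hi => by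
    have h4 := card_filter_add_card_filter_not (s := S) (fun x => i ∈ D.A x)
    have h5 : ((#{x ∈ S | i ∈ D.A x} : ℕ) : ℝ) + (#{x ∈ S | i ∉ D.A x} : ℕ) = #S := by
      exact_mod_cast h4
    have h6 := hB i hi
    have h7 := mul_le_mul_of_nonneg_right D.rho_le (Nat.cast_nonneg (α := ℝ) #S)
    exact le_trans (by linarith) (le_abs_self _)) h2
  rcases Nat.eq_zero_or_pos #S with h0 | h0
  · rw [h0]; simp
  · have h0' : (0 : ℝ) < #S := by exact_mod_cast h0
    have : ((#B : ℝ) * #S) * #S ≤ (36 * D.n) * #S := by nlinarith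
    exact le_of_mul_le_mul_right this h0'

open Classical in
theorem bad_pg_colour (hn : 100 ≤ D.n) (j : J) (a : I) : #{b | ¬ PG D j a b} ≤ 36 := by
  have hS : #{x | j ∈ D.B x ∧ a ∈ D.A x} = D.n := by
    rw [← D.rc a j]; congr 1; ext; simp [and_comm]
  have := D.bad_colour (by omega) {x | j ∈ D.B x ∧ a ∈ D.A x} {b | ¬ PG D j a b} (fun i hi => by
    simp only [mem_filter, mem_univ, true_and, PG, not_le] at hi
    rw [hS, filter_filter]
    simpa only [and_assoc] using hi)
  rw [hS] at this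
  have hn' : (100 : ℝ) ≤ D.n := by exact_mod_cast hn
  have : ((#{b | ¬ PG D j a b} : ℕ) : ℝ) ≤ 36 := by nlinarith
  exact_mod_cast this

open Classical in
theorem bad_tg (hn : 100 ≤ D.n) {j : J} {a b : I} (h : PG D j a b) :
    #{k | ¬ TG D j a b k} ≤ 108 := by
  unfold PG at h
  have := D.bad_colour (by omega) {x | j ∈ D.B x ∧ a ∈ D.A x ∧ b ∈ D.A x} {k | ¬ TG D j a b k}
    (fun i hi => by
      simp only [mem_filter, mem_univ, true_and, TG, not_le] at hi
      rw [filter_filter]
      simp only [and_assoc]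
      linarith)
  have hn' : (100 : ℝ) ≤ D.n := by exact_mod_cast hn
  have h2 := mul_le_mul_of_nonneg_left h (Nat.cast_nonneg (α := ℝ) #{k | ¬ TG D j a b k})
  have : ((#{k | ¬ TG D j a b k} : ℕ) : ℝ) ≤ 108 := by nlinarith
  exact_mod_cast this

open Classical in
theorem bad_gg (hn : 100 ≤ D.n) {a b : I} (h : a ≠ b) : #{k | ¬ GG D a b k} ≤ 108 := by
  have h1 := D.rr a b h
  have h2 := D.par
  have h3 := D.lam_lt (by omega)
  have h4 := D.n_le_c
  have h5 : Fintype.card J ≤ 3 * #{x | a ∈ D.A x ∧ b ∈ D.A x} := by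
    set m := #{x | a ∈ D.A x ∧ b ∈ D.A x}
    rw [← h1] at h2 ⊢
    have : D.n ≤ m + 1 := by
      by_contra hc
      push Not at hc
      nlinarith
    omega
  have h5' : (Fintype.card J : ℝ) ≤ 3 * (#{x | a ∈ D.A x ∧ b ∈ D.A x} : ℕ) := by exact_mod_cast h5
  have := D.bad_colour (by omega) {x | a ∈ D.A x ∧ b ∈ D.A x} {k | ¬ GG D a b k}
    (fun i hi => by
      simp only [mem_filter, mem_univ, true_and, GG, not_le] at hi
      rw [filter_filter]
      simp only [and_assoc]
      linarith)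
  have hn' : (100 : ℝ) ≤ D.n := by exact_mod_cast hn
  have h4' : (D.n : ℝ) ≤ Fintype.card J := by exact_mod_cast h4
  have h2 := mul_le_mul_of_nonneg_left (h4'.trans h5')
    (Nat.cast_nonneg (α := ℝ) #{k | ¬ GG D a b k})
  have : ((#{k | ¬ GG D a b k} : ℕ) : ℝ) ≤ 108 := by nlinarith
  exact_mod_cast this

open Classical in
theorem bad_pg_column (hn : 100 ≤ D.n) {a b : I} (h : a ≠ b) : #{j | ¬ PG D j a b} ≤ 49 := by
  set S : Finset X := {x | a ∉ D.A x ∧ b ∉ D.A x} with hS
  have hS1 : (#S : ℝ) + 1 = D.lam := by exact_mod_cast D.miss_two h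
  have h1 := D.mixing (by omega) S
  have h2 : ∑ j, ((#{x ∈ S | j ∈ D.B x} : ℝ) - D.rho * #S) ^ 2 ≤ D.n * #S :=
    le_trans (le_add_of_nonneg_right (sum_nonneg fun _ _ => sq_nonneg _)) h1
  have hn' : (100 : ℝ) ≤ D.n := by exact_mod_cast hn
  have hl : (D.lam : ℝ) ≤ D.n := by exact_mod_cast (D.lam_lt (by omega)).le
  have hl0 : (0 : ℝ) ≤ D.lam := by positivity
  have hr : (Fintype.card I : ℝ) = D.n + D.lam := by exact_mod_cast D.cardI
  have hρ := D.lam_le_rho (by omega)
  have hρ2 := D.rho_le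
  have hρ0 := D.rho_nonneg
  rw [hr] at hρ
  have key : (D.n : ℝ) / 2 ≤ D.n - D.lam + D.rho * D.lam := by
    have : (D.n : ℝ) / 2 * (D.n + D.lam) ≤ (D.n - D.lam + D.rho * D.lam) * (D.n + D.lam) := by
      nlinarith [mul_le_mul_of_nonneg_left hρ hl0]
    exact le_of_mul_le_mul_right this (by linarith)
  have h3 := card_mul_le_of_sq _ {j | ¬ PG D j a b} (D.n / 7) _ (by positivity) (fun j hj => by
    simp only [mem_filter, mem_univ, true_and, PG, not_le] at hj
    have e1 := card_filter_add_card_filter_not (s := ({x | j ∈ D.B x ∧ a ∈ D.A x} : Finset X))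
      (fun x => b ∈ D.A x)
    have e2 := card_filter_add_card_filter_not (s := ({x | j ∈ D.B x ∧ b ∉ D.A x} : Finset X))
      (fun x => a ∈ D.A x)
    have e3 : #{x | j ∈ D.B x ∧ a ∈ D.A x} = D.n := by
      rw [← D.rc a j]; congr 1; ext; simp [and_comm]
    rw [filter_filter, filter_filter] at e1 e2
    rw [e3] at e1
    rw [D.miss_one] at e2
    have e4 : ({x | (j ∈ D.B x ∧ b ∉ D.A x) ∧ a ∈ D.A x} : Finset X) =
        ({x | (j ∈ D.B x ∧ a ∈ D.A x) ∧ b ∉ D.A x} : Finset X) := by ext; simp; tauto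
    have e5 : ({x | (j ∈ D.B x ∧ b ∉ D.A x) ∧ a ∉ D.A x} : Finset X) =
        ({x ∈ S | j ∈ D.B x} : Finset X) := by
      ext; simp [hS]; tauto
    rw [e4, e5] at e2
    simp only [and_assoc] at e1 e2
    have e6 : ((#{x | j ∈ D.B x ∧ a ∈ D.A x ∧ b ∈ D.A x} : ℕ) : ℝ) + D.lam =
        D.n + (#{x ∈ S | j ∈ D.B x} : ℕ) := by
      have : #{x | j ∈ D.B x ∧ a ∈ D.A x ∧ b ∈ D.A x} + D.lam = D.n + #{x ∈ S | j ∈ D.B x} := by
        omega
      exact_mod_cast this
    rw [abs_sub_comm]
    refine le_trans ?_ (le_abs_self _)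
    have : (#S : ℝ) = D.lam - 1 := by linarith
    rw [this]
    nlinarith) h2
  have : ((#{j | ¬ PG D j a b} : ℕ) : ℝ) ≤ 49 := by
    have h4 : ((#{j | ¬ PG D j a b} : ℕ) : ℝ) * (D.n / 7) ^ 2 ≤ 49 * (D.n / 7) ^ 2 := by
      nlinarith
    exact le_of_mul_le_mul_right h4 (by positivity)
  exact_mod_cast this

theorem cI_le (hn : 2 ≤ D.n) {U : Finset (Ln I J X)} {t : ℝ} (ht : 0 ≤ t)
    (h : ∀ x i, (cN D U x i : ℝ) ≤ t) (i : I) :
    (cI U i : ℝ) ≤ 2 * t * Fintype.card J / D.n := by
  have e : ∑ x, cN D U x i = cI U i * (D.n + D.lam) := by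
    unfold cN cI
    simp only [card_filter]
    rw [sum_comm, sum_mul]
    refine sum_congr rfl fun j _ => ?_
    by_cases hj : cel i j ∈ U
    · simp only [hj, and_true, if_true, one_mul]
      rw [← D.degJ j, card_filter]
    · simp [hj]
  have e' : (cI U i : ℝ) * (D.n + D.lam) ≤ Fintype.card X * t := by
    have : ((∑ x, cN D U x i : ℕ) : ℝ) ≤ Fintype.card X * t := by
      push_cast
      calc _ ≤ ∑ _x : X, t := sum_le_sum fun x _ => h x i
        _ = _ := by simp
    rw [e] at this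
    exact_mod_cast this
  have hv : (Fintype.card X : ℝ) ≤ 2 * Fintype.card J := by exact_mod_cast D.v_le
  have hn' : (2 : ℝ) ≤ D.n := by exact_mod_cast hn
  rw [le_div_iff₀ (by linarith)]
  have h0 : (0 : ℝ) ≤ cI U i * D.lam := by positivity
  nlinarith

theorem sI_le (hn : 2 ≤ D.n) {U : Finset (Ln I J X)} {t : ℝ}
    (h : ∀ j i, (sN D U j i : ℝ) ≤ t) (i : I) :
    (sI U i : ℝ) ≤ t * Fintype.card J / D.n := by
  have e : ∑ j, sN D U j i = sI U i * D.n := by
    unfold sN sI
    simp only [card_filter]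
    rw [sum_comm, sum_mul]
    refine sum_congr rfl fun x _ => ?_
    by_cases hx : sym x i ∈ U
    · simp only [hx, and_true, if_true, one_mul]
      rw [← D.cardB x, ← card_filter]
      congr 1; ext; simp
    · simp [hx]
  have e' : (sI U i : ℝ) * D.n ≤ Fintype.card J * t := by
    have : ((∑ j, sN D U j i : ℕ) : ℝ) ≤ Fintype.card J * t := by
      push_cast
      calc _ ≤ ∑ _j : J, t := sum_le_sum fun j _ => h j i
        _ = _ := by simp
    rw [e] at this
    exact_mod_cast this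
  have hn' : (2 : ℝ) ≤ D.n := by exact_mod_cast hn
  rw [le_div_iff₀ (by linarith)]
  linarith

end Des

end Pool.Agent.Lib.MP_9dc2ba_co.Large
end

-- part Pool.Agent.Lib.MP_9dc2ba_co.Large.Prob
section

/-!
The derandomised random greedy process and the placement of sets of lines.
-/

open Finset

set_option linter.unusedSectionVars false

namespace Pool.Agent.Lib.MP_9dc2ba_co.Large

theorem exp_le_one_add_two_mul {x : ℝ} (h0 : 0 ≤ x) (h1 : x ≤ 1) : Real.exp x ≤ 1 + 2 * x := by
  have := Real.abs_exp_sub_one_sub_id_le (x := x) (by rw [abs_of_nonneg h0]; exact h1)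
  have h2 := (abs_le.1 this).2
  nlinarith

theorem greedy_aux {T O K : Type*} [Fintype T] [Fintype K] [DecidableEq T] [Nonempty O]
    (ok : T → O → Prop)
    (cmp : T → O → T → O → Prop) (hsymm : ∀ τ o τ' o', cmp τ o τ' o' → cmp τ' o' τ o)
    (w : T → O → K → ℝ) (B L : ℝ) (hB : 0 < B) (hw : ∀ τ o k, ok τ o → 0 ≤ w τ o k ∧ w τ o k ≤ B)
    (μ : T → K → ℝ) (hμ : ∀ τ k, 0 ≤ μ τ k) (thr : K → ℝ)
    (hL : (Fintype.card K : ℝ) < Real.exp L) (hthr : ∀ k, 2 * ∑ τ, μ τ k + B * L ≤ thr k)
    (step : ∀ (S : Finset T) (f : S → O) (τ : T), τ ∉ S → (∀ a : S, ok a (f a)) →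
      (∀ k, ∑ a : S, w a (f a) k ≤ thr k) →
      ∃ Ω : Finset O, Ω.Nonempty ∧ (∀ o ∈ Ω, ok τ o ∧ ∀ a : S, cmp τ o a (f a)) ∧
        ∀ k, ∑ o ∈ Ω, w τ o k ≤ μ τ k * #Ω) :
    ∃ f : T → O, (∀ τ, ok τ (f τ)) ∧ (∀ τ τ', τ ≠ τ' → cmp τ (f τ) τ' (f τ')) ∧
      ∀ k, ∑ τ, w τ (f τ) k ≤ thr k := by
  have bound : ∀ (S : Finset T) (f : T → O),
      ∑ k, Real.exp ((∑ a ∈ S, w a (f a) k - 2 * ∑ a ∈ S, μ a k) / B - L) < 1 →
      ∀ k, ∑ a ∈ S, w a (f a) k ≤ thr k := by
    intro S f h k
    have h1 : Real.exp ((∑ a ∈ S, w a (f a) k - 2 * ∑ a ∈ S, μ a k) / B - L) < 1 :=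
      lt_of_le_of_lt (single_le_sum (f := fun k => Real.exp
        ((∑ a ∈ S, w a (f a) k - 2 * ∑ a ∈ S, μ a k) / B - L))
        (fun _ _ => (Real.exp_pos _).le) (mem_univ k)) h
    rw [Real.exp_lt_one_iff, sub_neg, div_lt_iff₀ hB] at h1
    have h2 : ∑ a ∈ S, μ a k ≤ ∑ a, μ a k :=
      sum_le_sum_of_subset_of_nonneg (subset_univ _) fun a _ _ => hμ a k
    have := hthr k
    linarith
  have main : ∀ S : Finset T, ∃ f : T → O, (∀ a ∈ S, ok a (f a)) ∧
      (∀ a ∈ S, ∀ b ∈ S, a ≠ b → cmp a (f a) b (f b)) ∧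
      ∑ k, Real.exp ((∑ a ∈ S, w a (f a) k - 2 * ∑ a ∈ S, μ a k) / B - L) < 1 := by
    intro S
    induction S using Finset.induction_on with
    | empty =>
      refine ⟨fun _ => Classical.arbitrary O, by simp, by simp, ?_⟩
      simp only [sum_empty, mul_zero, sub_zero, zero_div, zero_sub, sum_const, card_univ,
        nsmul_eq_mul, Real.exp_neg]
      rw [← div_eq_mul_inv, div_lt_one (Real.exp_pos _)]
      exact hL
    | insert τ S hτ ih =>
      obtain ⟨f, h1, h2, h3⟩ := ih
      obtain ⟨Ω, hne, hΩ, hav⟩ := step S (fun a => f a) τ hτ (fun a => h1 a a.2)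
        (fun k => by
          rw [sum_coe_sort S (fun a => w a (f a) k)]
          exact bound S f h3 k)
      set E : K → ℝ := fun k =>
        Real.exp ((∑ a ∈ S, w a (f a) k - 2 * ∑ a ∈ S, μ a k) / B - L) with hE
      have key : ∑ o ∈ Ω, ∑ k, E k * Real.exp ((w τ o k - 2 * μ τ k) / B) ≤
          ∑ _o ∈ Ω, ∑ k, E k := by
        rw [sum_comm, sum_comm (s := Ω)]
        refine sum_le_sum fun k _ => ?_
        rw [← mul_sum, sum_const, nsmul_eq_mul, mul_comm (#Ω : ℝ)]
        refine mul_le_mul_of_nonneg_left ?_ (Real.exp_pos _).le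
        have e1 : ∀ o ∈ Ω, Real.exp ((w τ o k - 2 * μ τ k) / B) ≤
            (1 + 2 * (w τ o k / B)) * Real.exp (-(2 * μ τ k / B)) := by
          intro o ho
          rw [sub_div, sub_eq_add_neg, Real.exp_add]
          refine mul_le_mul_of_nonneg_right ?_ (Real.exp_pos _).le
          have := hw τ o k (hΩ o ho).1
          exact exp_le_one_add_two_mul (div_nonneg this.1 hB.le) ((div_le_one hB).2 this.2)
        refine (sum_le_sum e1).trans ?_
        rw [← sum_mul, sum_add_distrib, ← mul_sum, ← sum_div, sum_const, nsmul_eq_mul, mul_one]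
        have e2 : (∑ o ∈ Ω, w τ o k) / B ≤ μ τ k * #Ω / B :=
          div_le_div_of_nonneg_right (hav k) hB.le
        have e3 : (1 + 2 * μ τ k / B) * Real.exp (-(2 * μ τ k / B)) ≤ 1 := by
          rw [Real.exp_neg, ← div_eq_mul_inv, div_le_one (Real.exp_pos _), add_comm]
          exact Real.add_one_le_exp _
        calc _ ≤ ((#Ω : ℝ) + 2 * (μ τ k * #Ω / B)) * Real.exp (-(2 * μ τ k / B)) :=
              mul_le_mul_of_nonneg_right (by linarith) (Real.exp_pos _).le
          _ = #Ω * ((1 + 2 * μ τ k / B) * Real.exp (-(2 * μ τ k / B))) := by ring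
          _ ≤ #Ω * 1 := mul_le_mul_of_nonneg_left e3 (Nat.cast_nonneg _)
          _ = _ := mul_one _
      obtain ⟨o, ho, hle⟩ := exists_le_of_sum_le hne key
      have hf : ∀ a ∈ S, Function.update f τ o a = f a := fun a ha =>
        Function.update_of_ne (ne_of_mem_of_not_mem ha hτ) _ _
      refine ⟨Function.update f τ o, ?_, ?_, lt_of_le_of_lt (le_of_eq ?_) (hle.trans_lt h3)⟩
      · intro a ha
        rcases mem_insert.1 ha with rfl | ha
        · simpa using (hΩ o ho).1
        · rw [hf a ha]; exact h1 a ha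
      · intro a ha b hb hab
        rcases mem_insert.1 ha with ha' | ha' <;> rcases mem_insert.1 hb with hb' | hb'
        · exact absurd (ha'.trans hb'.symm) hab
        · rw [hf b hb', ha', Function.update_self]
          exact (hΩ o ho).2 ⟨b, hb'⟩
        · rw [hf a ha', hb', Function.update_self]
          exact hsymm _ _ _ _ ((hΩ o ho).2 ⟨a, ha'⟩)
        · rw [hf a ha', hf b hb']
          exact h2 a ha' b hb' hab
      · refine sum_congr rfl fun k _ => ?_
        rw [sum_insert hτ, sum_insert hτ, Function.update_self, hE, ← Real.exp_add,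
          sum_congr rfl fun a ha => by rw [hf a ha]]
        congr 1
        ring
  obtain ⟨f, h1, h2, h3⟩ := main univ
  exact ⟨f, fun τ => h1 τ (mem_univ _), fun τ τ' h => h2 τ (mem_univ _) τ' (mem_univ _) h,
    bound univ f h3⟩

theorem greedy {T O K : Type*} [Fintype T] [Fintype K] (ok : T → O → Prop)
    (cmp : T → O → T → O → Prop) (hsymm : ∀ τ o τ' o', cmp τ o τ' o' → cmp τ' o' τ o)
    (w : T → O → K → ℝ) (B L : ℝ) (hB : 0 < B) (hw : ∀ τ o k, ok τ o → 0 ≤ w τ o k ∧ w τ o k ≤ B)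
    (μ : T → K → ℝ) (hμ : ∀ τ k, 0 ≤ μ τ k) (thr : K → ℝ)
    (hL : (Fintype.card K : ℝ) < Real.exp L) (hthr : ∀ k, 2 * ∑ τ, μ τ k + B * L ≤ thr k)
    (step : ∀ (S : Finset T) (f : S → O) (τ : T), τ ∉ S → (∀ a : S, ok a (f a)) →
      (∀ k, ∑ a : S, w a (f a) k ≤ thr k) →
      ∃ Ω : Finset O, Ω.Nonempty ∧ (∀ o ∈ Ω, ok τ o ∧ ∀ a : S, cmp τ o a (f a)) ∧
        ∀ k, ∑ o ∈ Ω, w τ o k ≤ μ τ k * #Ω) :
    ∃ f : T → O, (∀ τ, ok τ (f τ)) ∧ (∀ τ τ', τ ≠ τ' → cmp τ (f τ) τ' (f τ')) ∧
      ∀ k, ∑ τ, w τ (f τ) k ≤ thr k := by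
  classical
  have h0 : ∀ k, 0 ≤ thr k := by
    intro k
    have h1 : (1 : ℝ) ≤ Fintype.card K := by
      exact_mod_cast Fintype.card_pos_iff.2 ⟨k⟩
    have h2 : 0 < L := Real.one_lt_exp_iff.1 (h1.trans_lt hL)
    have h3 : 0 ≤ ∑ τ, μ τ k := sum_nonneg fun τ _ => hμ τ k
    have := hthr k
    nlinarith
  rcases isEmpty_or_nonempty T with hT | ⟨⟨τ⟩⟩
  · exact ⟨fun τ => hT.elim τ, fun τ => hT.elim τ, fun τ => hT.elim τ, fun k => by simpa using h0 k⟩
  · obtain ⟨Ω, ⟨o, _⟩, _⟩ := step ∅ (fun a => absurd a.2 (notMem_empty _)) τ (notMem_empty _)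
      (fun a => absurd a.2 (notMem_empty _)) (fun k => by simpa using h0 k)
    have : Nonempty O := ⟨o⟩
    exact greedy_aux ok cmp hsymm w B L hB hw μ hμ thr hL hthr step

variable {I J X : Type*} [Fintype I] [Fintype J] [Fintype X] [DecidableEq I] [DecidableEq J]
  [DecidableEq X]

/-- The keys of the sparsity condition. -/
abbrev Key (I J X : Type*) := J ⊕ X ⊕ J ⊕ X ⊕ (X × I) ⊕ (J × I)

/-- The counter of a key. -/
def cnt (D : Des I J X) (U : Finset (Ln I J X)) : Key I J X → ℕ
  | .inl j => cJ U j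
  | .inr (.inl x) => sX U x
  | .inr (.inr (.inl j)) => eJ U j
  | .inr (.inr (.inr (.inl x))) => eX U x
  | .inr (.inr (.inr (.inr (.inl p)))) => cN D U p.1 p.2
  | .inr (.inr (.inr (.inr (.inr p)))) => sN D U p.1 p.2

theorem sparse_of_cnt {D : Des I J X} {U : Finset (Ln I J X)} {t : ℝ}
    (h : ∀ k, (cnt D U k : ℝ) ≤ t) : Sparse D U t :=
  ⟨fun j => h (.inl j), fun x => h (.inr (.inl x)), fun j => h (.inr (.inr (.inl j))),
    fun x => h (.inr (.inr (.inr (.inl x)))),
    fun x i => h (.inr (.inr (.inr (.inr (.inl (x, i)))))),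
    fun j i => h (.inr (.inr (.inr (.inr (.inr (j, i))))))⟩

theorem card_mem_le_card {α β : Type*} [Fintype α] [DecidableEq β] (p : α → Prop)
    [DecidablePred p] (f : α → β) (hf : Function.Injective f) (U : Finset β) :
    #{a | p a ∧ f a ∈ U} ≤ #U :=
  card_le_card_of_injOn f (fun a ha => by
    simp only [coe_filter, mem_univ, true_and, Set.mem_ofPred_eq] at ha
    exact ha.2) hf.injOn

theorem card_mem_le_card' {α β : Type*} [Fintype α] [DecidableEq β]
    (f : α → β) (hf : Function.Injective f) (U : Finset β) : #{a | f a ∈ U} ≤ #U := by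
  simpa using card_mem_le_card (fun _ => True) f hf U

theorem cnt_le_card (D : Des I J X) (U : Finset (Ln I J X)) (k : Key I J X) : cnt D U k ≤ #U := by
  rcases k with j | x | j | x | p | p
  · exact card_mem_le_card' _ (fun a b h => by simpa using h) U
  · exact card_mem_le_card' _ (fun a b h => by simpa using h) U
  · exact card_mem_le_card' _ (fun a b h => by simpa using h) U
  · exact card_mem_le_card' _ (fun a b h => by simpa using h) U
  · exact card_mem_le_card _ _ (fun a b h => by simpa using h) U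
  · exact card_mem_le_card _ _ (fun a b h => by simpa using h) U

theorem cnt_union (D : Des I J X) (U U' : Finset (Ln I J X)) (k : Key I J X) :
    cnt D (U ∪ U') k ≤ cnt D U k + cnt D U' k := by
  rcases k with j | x | j | x | p | p
  · exact card_mem_union' _ U U'
  · exact card_mem_union' _ U U'
  · exact card_mem_union' _ U U'
  · exact card_mem_union' _ U U'
  · exact card_mem_union _ _ U U'
  · exact card_mem_union _ _ U U'

theorem cnt_biUnion (D : Des I J X) {α : Type*} (s : Finset α) (f : α → Finset (Ln I J X))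
    (k : Key I J X) : cnt D (s.biUnion f) k ≤ ∑ a ∈ s, cnt D (f a) k := by
  classical
  induction s using Finset.induction_on with
  | empty =>
    have := cnt_le_card D (∅ : Finset (Ln I J X)) k
    simpa using this
  | insert a s ha ih =>
    rw [biUnion_insert, sum_insert ha]
    exact (cnt_union D _ _ k).trans (Nat.add_le_add_left ih _)

theorem card_key_lt (D : Des I J X) (hn : 100 ≤ D.n) : Fintype.card (Key I J X) < D.n ^ 6 := by
  simp only [Fintype.card_sum, Fintype.card_prod]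
  have h1 := D.r_le (by omega)
  have h2 := D.c_le (by omega)
  have h3 := D.v_le
  have h4 : Fintype.card X ≤ 4 * (D.n * D.n) := by omega
  have h5 := Nat.mul_le_mul h4 h1
  have h6 := Nat.mul_le_mul h2 h1
  have h7 : D.n * D.n ≤ D.n * D.n * D.n := Nat.le_mul_of_pos_right _ (by omega)
  have h8 : D.n ^ 6 = (D.n * D.n * D.n) * (D.n * D.n * D.n) := by ring
  have h9 : 100 ≤ D.n * D.n * D.n := by nlinarith
  have h10 := Nat.mul_le_mul_right (D.n * D.n * D.n) h9
  rw [h8]
  nlinarith

theorem place (D : Des I J X) (hn : 100 ≤ D.n) {T O : Type*} [Fintype T] [DecidableEq T]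
    (ln : T → O → Finset (Ln I J X)) (Cand : T → Finset O) (m : T → ℝ) (hm : ∀ τ, 0 < m τ)
    (U0 : Finset (Ln I J X)) (t0 t b B L : ℝ) (hU0 : Sparse D U0 t0) (hB0 : 0 < B)
    (hB : ∀ τ, ∀ o ∈ Cand τ, (#(ln τ o) : ℝ) ≤ B)
    (hav : ∀ U, Sparse D U (t0 + t) → ∀ τ, m τ ≤ #{o ∈ Cand τ | Disjoint (ln τ o) U})
    (l1 : ∀ j, ∑ τ, (∑ o ∈ Cand τ, (cJ (ln τ o) j : ℝ)) / m τ ≤ b)
    (l2 : ∀ x, ∑ τ, (∑ o ∈ Cand τ, (sX (ln τ o) x : ℝ)) / m τ ≤ b)
    (l3 : ∀ j, ∑ τ, (∑ o ∈ Cand τ, (eJ (ln τ o) j : ℝ)) / m τ ≤ b)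
    (l4 : ∀ x, ∑ τ, (∑ o ∈ Cand τ, (eX (ln τ o) x : ℝ)) / m τ ≤ b)
    (l5 : ∀ x i, ∑ τ, (∑ o ∈ Cand τ, (cN D (ln τ o) x i : ℝ)) / m τ ≤ b)
    (l6 : ∀ j i, ∑ τ, (∑ o ∈ Cand τ, (sN D (ln τ o) j i : ℝ)) / m τ ≤ b)
    (hL : (D.n : ℝ) ^ 6 ≤ Real.exp L) (ht : 2 * b + B * L ≤ t) :
    ∃ f : T → O, (∀ τ, f τ ∈ Cand τ ∧ Disjoint (ln τ (f τ)) U0) ∧
      (∀ τ τ', τ ≠ τ' → Disjoint (ln τ (f τ)) (ln τ' (f τ'))) ∧
      Sparse D (univ.biUnion fun τ => ln τ (f τ)) t := by
  classical
  have hl : ∀ k, ∑ τ, (∑ o ∈ Cand τ, (cnt D (ln τ o) k : ℝ)) / m τ ≤ b := by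
    intro k
    rcases k with j | x | j | x | p | p
    exacts [l1 j, l2 x, l3 j, l4 x, l5 p.1 p.2, l6 p.1 p.2]
  obtain ⟨f, h1, h2, h3⟩ := greedy (T := T) (O := O) (K := Key I J X)
    (fun τ o => o ∈ Cand τ ∧ Disjoint (ln τ o) U0)
    (fun τ o τ' o' => Disjoint (ln τ o) (ln τ' o')) (fun _ _ _ _ h => h.symm)
    (fun τ o k => cnt D (ln τ o) k) B L hB0
    (fun τ o k h => ⟨Nat.cast_nonneg _,
      le_trans (by exact_mod_cast cnt_le_card D _ k) (hB τ o h.1)⟩)
    (fun τ k => (∑ o ∈ Cand τ, (cnt D (ln τ o) k : ℝ)) / m τ)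
    (fun τ k => div_nonneg (sum_nonneg fun _ _ => Nat.cast_nonneg _) (hm τ).le) (fun _ => t)
    (lt_of_lt_of_le (by exact_mod_cast card_key_lt D hn) hL)
    (fun k => by have := hl k; linarith)
    (fun S f τ _ _ hc => by
      have hs : Sparse D (univ.biUnion fun a : S => ln a (f a)) t := sparse_of_cnt fun k =>
        le_trans (by exact_mod_cast cnt_biUnion D _ _ k) (hc k)
      have h4 := hav _ (hU0.union hs) τ
      refine ⟨{o ∈ Cand τ | Disjoint (ln τ o) (U0 ∪ univ.biUnion fun a : S => ln a (f a))},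
        card_pos.1 (by exact_mod_cast (hm τ).trans_le h4), fun o ho => ?_, fun k => ?_⟩
      · rw [mem_filter, disjoint_union_right, disjoint_biUnion_right] at ho
        exact ⟨⟨ho.1, ho.2.1⟩, fun a => ho.2.2 a (mem_univ _)⟩
      · have h5 : (0 : ℝ) ≤ ∑ o ∈ Cand τ, (cnt D (ln τ o) k : ℝ) :=
          sum_nonneg fun _ _ => Nat.cast_nonneg _
        refine le_trans (sum_le_sum_of_subset_of_nonneg (filter_subset _ _)
          fun _ _ _ => Nat.cast_nonneg _) ?_
        rw [div_mul_eq_mul_div, le_div_iff₀ (hm τ)]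
        exact mul_le_mul_of_nonneg_left h4 h5)
  exact ⟨f, h1, h2, sparse_of_cnt fun k =>
    le_trans (by exact_mod_cast cnt_biUnion D _ _ k) (h3 k)⟩

end Pool.Agent.Lib.MP_9dc2ba_co.Large
end
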