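import Mathlib
import Pool.Agent.Lib.MP_9dc2ba_co.Large.Prob

-- part Pool.Agent.Lib.MP_9dc2ba_co.Large.NetLoc
section

/-!
The concentrator network of one edge of colours: nodes, tripods, wires, states and the local
covering identity.
-/

open Finset

set_option linter.unusedSectionVars false

namespace Pool.Agent.Lib.MP_9dc2ba_co.Large

namespace Net

variable {I : Type*} [DecidableEq I] {h : ℕ}

/-- Tripods of the network: forks (`true`) and merges (`false`). -/
abbrev LT (h : ℕ) := Bool × Fin h × Fin (2 ^ h)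

/-- Nodes: legs of tripods, stations, dead ends (`false` input, `true` output). -/
abbrev LN (h : ℕ) := (LT h × Fin 3) ⊕ (Fin (h + 1) × Fin (2 ^ h)) ⊕ (Bool × Fin (2 ^ h))

/-- Wires: inner wires, the four wires of a layer, the input and output wires. -/
abbrev LW (h : ℕ) := LT h ⊕ (Fin 4 × Fin h × Fin (2 ^ h)) ⊕ (Bool × Fin (2 ^ h))

instance instDecLT : DecidableEq (LT h) := inferInstance

instance instDecLN : DecidableEq (LN h) := inferInstance

instance instDecLW : DecidableEq (LW h) := inferInstance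

/-- Colours of the tripods. -/
def ltc (a b k : I) (f : Bool) : Fin 3 → I := if f then ![a, b, k] else ![b, a, k]

/-- Palettes. -/
def lpal (a b k : I) (occ : Finset (Fin (2 ^ h))) (m : ℕ) : LN h → Finset I
  | .inl p => if p.2 = 1 then {a, b} else {a, b, k}
  | .inr (.inl _) => {a, b}
  | .inr (.inr p) => if p.1 then (if (p.2 : ℕ) < m then {a} else {b})
      else (if p.2 ∈ occ then ∅ else {a})

/-- First colour of a wire. -/
def lwa (a k : I) : LW h → I
  | .inl _ => k
  | .inr _ => a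

/-- Second colour of a wire. -/
def lwb (a b : I) : LW h → I
  | .inl τ => if τ.1 then b else a
  | .inr _ => b

/-- Upstream end of a wire. -/
def lw0 : LW h → LN h
  | .inl τ => .inl (τ, 0)
  | .inr (.inl p) => ![.inr (.inl (p.2.1.castSucc, p.2.2)), .inl ((true, p.2.1, p.2.2), 1),
      .inl ((true, p.2.1, sh h p.2.1 p.2.2), 2), .inl ((false, p.2.1, p.2.2), 0)] p.1
  | .inr (.inr p) => if p.1 then .inr (.inl (Fin.last h, p.2)) else .inr (.inr (false, p.2))

/-- Downstream end of a wire. -/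
def lw1 : LW h → LN h
  | .inl τ => .inl (τ, 2)
  | .inr (.inl p) => ![.inl ((true, p.2.1, p.2.2), 0), .inl ((false, p.2.1, p.2.2), 1),
      .inl ((false, p.2.1, p.2.2), 2), .inr (.inl (p.2.1.succ, p.2.2))] p.1
  | .inr (.inr p) => if p.1 then .inr (.inr (true, p.2)) else .inr (.inl (0, p.2))

/-- States of the tripods. -/
def lst (fs ms : ℕ → Fin (2 ^ h) → Fin 3) (τ : LT h) : Fin 3 :=
  if τ.1 then fs τ.2.1 τ.2.2 else ms τ.2.1 τ.2.2

/-- States of the wires. -/
def lo (act : ℕ → Fin (2 ^ h) → Bool) (fs ms : ℕ → Fin (2 ^ h) → Fin 3) : LW h → Bool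
  | .inl τ => decide (lst fs ms τ = 2)
  | .inr (.inl p) => ![act p.2.1 p.2.2, decide (fs p.2.1 p.2.2 = 1),
      decide (ms p.2.1 p.2.2 = 2), act (p.2.1 + 1) p.2.2] p.1
  | .inr (.inr p) => if p.1 then act h p.2 else act 0 p.2

variable {M : Type*} [AddCommMonoid M]

theorem mf {a b k : I} (hab : a ≠ b) (hka : k ≠ a) (hkb : k ≠ b) (c : I → Fin 3 → M)
    (f : Bool) (s : Fin 3) :
    ∑ j : Fin 3, ∑ i ∈ (if j = 1 then ({a, b} : Finset I) else {a, b, k}), c i j =
      ∑ j : Fin 3, c (ltc a b k f (Equiv.swap 0 s j)) j +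
        (c (if s = 2 then (if f then b else a) else k) 0 +
          c (if s = 2 then k else (if f then b else a)) 2) +
        ∑ j : Fin 3, c (if s = j then (if f then b else a) else (if f then a else b)) j := by
  have h1 : ∀ j, ∑ i ∈ ({a, b} : Finset I), c i j = c a j + c b j := fun j => sum_pair hab
  have h2 : ∀ j, ∑ i ∈ ({a, b, k} : Finset I), c i j = c a j + c b j + c k j := by
    intro j
    rw [sum_insert (by simp [hab, hka.symm]), sum_pair hkb.symm, add_assoc]
  have e01 : Equiv.swap (0 : Fin 3) 1 2 = 2 := by decide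
  have e02 : Equiv.swap (0 : Fin 3) 2 1 = 1 := by decide
  have hs : s = 0 ∨ s = 1 ∨ s = 2 := by omega
  rcases hs with rfl | rfl | rfl <;> cases f <;>
    simp [Fin.sum_univ_three, h1, h2, ltc, e01, e02] <;> abel

theorem loc {a b k : I} (hab : a ≠ b) (hka : k ≠ a) (hkb : k ≠ b) (occ : Finset (Fin (2 ^ h)))
    (m : ℕ) (c : I → LN h → M) (act : ℕ → Fin (2 ^ h) → Bool) (fs ms : ℕ → Fin (2 ^ h) → Fin 3)
    (h0 : ∀ t, act 0 t = true → t ∈ occ) (hend : ∀ t, act h t = true ↔ (t : ℕ) < m)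
    (hl : ∀ ℓ < h, ∀ t, (fs ℓ t ≠ 0 ↔ act ℓ t = true) ∧ (ms ℓ t ≠ 0 ↔ act (ℓ + 1) t = true) ∧
        (ms ℓ t = 1 ↔ fs ℓ t = 1) ∧ (ms ℓ t = 2 ↔ fs ℓ (sh h ℓ t) = 2)) :
    ∑ ν : LN h, ∑ i ∈ lpal a b k occ m ν, c i ν +
        ∑ t ∈ occ, c (if act 0 t then b else a) (.inr (.inr (false, t))) =
      ∑ τ : LT h, ∑ j : Fin 3, c (ltc a b k τ.1 (Equiv.swap 0 (lst fs ms τ) j)) (.inl (τ, j)) +
        ∑ w : LW h, (c (if lo act fs ms w then lwb a b w else lwa a k w) (lw0 w) +
          c (if lo act fs ms w then lwa a k w else lwb a b w) (lw1 w)) := by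
  -- the tripod nodes
  have e1 : ∑ p : LT h × Fin 3, ∑ i ∈ lpal a b k occ m (.inl p), c i (.inl p) =
      ∑ τ : LT h, ∑ j : Fin 3, c (ltc a b k τ.1 (Equiv.swap 0 (lst fs ms τ) j)) (.inl (τ, j)) +
      ∑ τ : LT h, (c (if lo act fs ms (.inl τ) then lwb a b (.inl τ : LW h) else
          lwa a k (.inl τ : LW h)) (lw0 (.inl τ)) +
        c (if lo act fs ms (.inl τ) then lwa a k (.inl τ : LW h) else lwb a b (.inl τ : LW h))
          (lw1 (.inl τ))) +
      ∑ τ : LT h, ∑ j : Fin 3, c (if lst fs ms τ = j then (if τ.1 then b else a) else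
        (if τ.1 then a else b)) (.inl (τ, j)) := by
    rw [Fintype.sum_prod_type, ← sum_add_distrib, ← sum_add_distrib]
    refine sum_congr rfl fun τ _ => ?_
    have := mf hab hka hkb (fun i j => c i (.inl (τ, j))) τ.1 (lst fs ms τ)
    simpa only [lpal, lo, lwa, lwb, lw0, lw1, decide_eq_true_eq] using this
  -- the stations
  have e2 : ∑ p : Fin (h + 1) × Fin (2 ^ h), ∑ i ∈ lpal a b k occ m (.inr (.inl p)),
        c i (.inr (.inl p)) =
      (∑ l : Fin h, ∑ t, c (if act l t then b else a) (.inr (.inl (l.castSucc, t))) +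
        ∑ t, c (if act h t then b else a) (.inr (.inl (Fin.last h, t)))) +
      (∑ t, c (if act 0 t then a else b) (.inr (.inl (0, t))) +
        ∑ l : Fin h, ∑ t, c (if act (l + 1) t then a else b) (.inr (.inl (l.succ, t)))) := by
    have e3 : ∑ p : Fin (h + 1) × Fin (2 ^ h), ∑ i ∈ lpal a b k occ m (.inr (.inl p)),
        c i (.inr (.inl p)) =
        ∑ l : Fin (h + 1), ∑ t, c (if act l t then b else a) (.inr (.inl (l, t))) +
        ∑ l : Fin (h + 1), ∑ t, c (if act l t then a else b) (.inr (.inl (l, t))) := by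
      rw [Fintype.sum_prod_type, ← sum_add_distrib]
      refine sum_congr rfl fun l _ => ?_
      rw [← sum_add_distrib]
      refine sum_congr rfl fun t _ => ?_
      simp only [lpal]
      rw [sum_pair hab]
      cases act l t <;> simp [add_comm]
    rw [e3]
    congr 1
    · rw [Fin.sum_univ_castSucc]
      simp
    · rw [Fin.sum_univ_succ]
      rfl
  -- the dead ends
  have e4 : ∑ p : Bool × Fin (2 ^ h), ∑ i ∈ lpal a b k occ m (.inr (.inr p)),
        c i (.inr (.inr p)) + ∑ t ∈ occ, c (if act 0 t then b else a) (.inr (.inr (false, t))) =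
      ∑ t, c (if act h t then a else b) (.inr (.inr (true, t))) +
        ∑ t, c (if act 0 t then b else a) (.inr (.inr (false, t))) := by
    rw [Fintype.sum_prod_type, Fintype.sum_bool, add_assoc]
    congr 1
    · refine sum_congr rfl fun t _ => ?_
      by_cases ht : (t : ℕ) < m
      · simp [lpal, ht, (hend t).2 ht]
      · have : act h t = false := by simpa using fun h' => ht ((hend t).1 h')
        simp [lpal, ht, this]
    · have : ∑ t ∈ occ, c (if act 0 t then b else a) (.inr (.inr (false, t))) =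
          ∑ t, if t ∈ occ then c (if act 0 t then b else a) (.inr (.inr (false, t))) else 0 := by
        rw [← sum_filter]
        congr 1
        ext t
        simp
      rw [this, ← sum_add_distrib]
      refine sum_congr rfl fun t _ => ?_
      by_cases ht : t ∈ occ
      · simp [lpal, ht]
      · have : act 0 t = false := by simpa using fun h' => ht (h0 t h')
        simp [lpal, ht, this]
  -- the open cells of the tripod nodes
  have e5 : ∑ τ : LT h, ∑ j : Fin 3, c (if lst fs ms τ = j then (if τ.1 then b else a) else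
        (if τ.1 then a else b)) (.inl (τ, j)) =
      (∑ l : Fin h, ∑ t, c (if act l t then a else b) (.inl ((true, l, t), 0)) +
        ∑ l : Fin h, ∑ t, c (if fs l t = 1 then b else a) (.inl ((true, l, t), 1)) +
        ∑ l : Fin h, ∑ t, c (if ms l t = 2 then b else a) (.inl ((true, l, sh h l t), 2))) +
      (∑ l : Fin h, ∑ t, c (if act (l + 1) t then b else a) (.inl ((false, l, t), 0)) +
        ∑ l : Fin h, ∑ t, c (if fs l t = 1 then a else b) (.inl ((false, l, t), 1)) +
        ∑ l : Fin h, ∑ t, c (if ms l t = 2 then a else b) (.inl ((false, l, t), 2))) := by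
    rw [Fintype.sum_prod_type, Fintype.sum_bool]
    simp only [Fintype.sum_prod_type, Fin.sum_univ_three, sum_add_distrib, lst, if_true,
      Bool.false_eq_true, if_false]
    congr 1
    · congr 1
      · congr 1
        refine sum_congr rfl fun l _ => sum_congr rfl fun t _ => ?_
        have := (hl l l.2 t).1
        by_cases h1 : fs l t = 0
        · have h2 : act l t = false := by simpa [h1] using this
          simp [h1, h2]
        · simp [h1, this.1 h1]
      · refine sum_congr rfl fun l _ => ?_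
        rw [← Equiv.sum_comp (sh h l)]
        refine sum_congr rfl fun t _ => ?_
        simp only [(hl l l.2 t).2.2.2]
    · congr 1
      congr 1
      · refine sum_congr rfl fun l _ => sum_congr rfl fun t _ => ?_
        have := (hl l l.2 t).2.1
        by_cases h1 : ms l t = 0
        · have h2 : act (l + 1) t = false := by simpa [h1] using this
          simp [h1, h2]
        · simp [h1, this.1 h1]
      · refine sum_congr rfl fun l _ => sum_congr rfl fun t _ => ?_
        simp only [(hl l l.2 t).2.2.1]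
  -- the wires of the layers
  have e6 : ∑ p : Fin 4 × Fin h × Fin (2 ^ h),
      (c (if lo act fs ms (.inr (.inl p)) then lwb a b (.inr (.inl p) : LW h) else
          lwa a k (.inr (.inl p) : LW h)) (lw0 (.inr (.inl p))) +
        c (if lo act fs ms (.inr (.inl p)) then lwa a k (.inr (.inl p) : LW h) else
          lwb a b (.inr (.inl p) : LW h)) (lw1 (.inr (.inl p)))) =
      (∑ l : Fin h, ∑ t, c (if act l t then b else a) (.inr (.inl (l.castSucc, t))) +
        ∑ l : Fin h, ∑ t, c (if fs l t = 1 then b else a) (.inl ((true, l, t), 1)) +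
        ∑ l : Fin h, ∑ t, c (if ms l t = 2 then b else a) (.inl ((true, l, sh h l t), 2)) +
        ∑ l : Fin h, ∑ t, c (if act (l + 1) t then b else a) (.inl ((false, l, t), 0))) +
      (∑ l : Fin h, ∑ t, c (if act l t then a else b) (.inl ((true, l, t), 0)) +
        ∑ l : Fin h, ∑ t, c (if fs l t = 1 then a else b) (.inl ((false, l, t), 1)) +
        ∑ l : Fin h, ∑ t, c (if ms l t = 2 then a else b) (.inl ((false, l, t), 2)) +
        ∑ l : Fin h, ∑ t, c (if act (l + 1) t then a else b) (.inr (.inl (l.succ, t)))) := by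
    simp only [Fintype.sum_prod_type, Fin.sum_univ_four, sum_add_distrib, lo, lwa,
      lwb, lw0, lw1, Matrix.cons_val_zero, Matrix.cons_val_one, Matrix.cons_val,
      decide_eq_true_eq]
    rfl
  have e7 : ∑ p : Bool × Fin (2 ^ h),
      (c (if lo act fs ms (.inr (.inr p)) then lwb a b (.inr (.inr p) : LW h) else
          lwa a k (.inr (.inr p) : LW h)) (lw0 (.inr (.inr p))) +
        c (if lo act fs ms (.inr (.inr p)) then lwa a k (.inr (.inr p) : LW h) else
          lwb a b (.inr (.inr p) : LW h)) (lw1 (.inr (.inr p)))) =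
      (∑ t, c (if act h t then b else a) (.inr (.inl (Fin.last h, t))) +
        ∑ t, c (if act 0 t then b else a) (.inr (.inr (false, t)))) +
      (∑ t, c (if act h t then a else b) (.inr (.inr (true, t))) +
        ∑ t, c (if act 0 t then a else b) (.inr (.inl (0, t)))) := by
    simp only [Fintype.sum_prod_type, Fintype.sum_bool, sum_add_distrib]
    rfl
  rw [Fintype.sum_sum_type, Fintype.sum_sum_type, e1, e2, add_assoc, add_assoc _ _ (∑ t ∈ occ, _),
    e4, e5, Fintype.sum_sum_type, Fintype.sum_sum_type, e6, e7]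
  abel

theorem ltc_inj {a b k : I} (hab : a ≠ b) (hka : k ≠ a) (hkb : k ≠ b) (f : Bool) :
    Function.Injective (ltc a b k f) := by
  intro i j hij
  cases f <;> fin_cases i <;> fin_cases j <;> simp_all [ltc, eq_comm]

theorem ltc_mem (a b k : I) (f : Bool) (j : Fin 3) :
    a = ltc a b k f j ∨ b = ltc a b k f j ∨ k = ltc a b k f j := by
  cases f <;> fin_cases j <;> simp [ltc]

theorem lpal_sub (a b k : I) (occ : Finset (Fin (2 ^ h))) (m : ℕ) (ν : LN h) :
    lpal a b k occ m ν ⊆ {a, b, k} := by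
  rcases ν with p | p | p <;> simp only [lpal] <;> (try split_ifs) <;> intro i <;> simp <;> tauto

theorem lpal_card (a b k : I) (occ : Finset (Fin (2 ^ h))) (m : ℕ) (ν : LN h) :
    #(lpal a b k occ m ν) ≤ 3 := (card_le_card (lpal_sub a b k occ m ν)).trans card_le_three

theorem lw_ne {a b k : I} (hab : a ≠ b) (hka : k ≠ a) (hkb : k ≠ b) (w : LW h) :
    lwa a k w ≠ lwb a b w := by
  rcases w with ⟨f, p⟩ | p
  · cases f <;> simp [lwa, lwb, hka, hkb]
  · simp [lwa, lwb, hab]

theorem lw_mem (a b k : I) (w : LW h) {i : I} (hi : lwa a k w = i ∨ lwb a b w = i) :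
    a = i ∨ b = i ∨ k = i := by
  rcases w with ⟨f, p⟩ | p
  · cases f <;> simp only [lwa, lwb, if_true, Bool.false_eq_true, if_false] at hi <;> tauto
  · simp only [lwa, lwb] at hi
    tauto

theorem lw0_inj (w w' : LW h) (hw : lw0 w = lw0 w') (hl : w.isLeft = w'.isLeft) : w = w' := by
  rcases w with τ | ⟨j, l, t⟩ | ⟨f, t⟩ <;> rcases w' with τ' | ⟨j', l', t'⟩ | ⟨f', t'⟩ <;>
    (try fin_cases j) <;> (try fin_cases j') <;> (try cases f) <;> (try cases f') <;>
    simp_all [lw0, Fin.castSucc_ne_last, (Fin.castSucc_ne_last _).symm]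
  obtain ⟨rfl, h2⟩ := hw
  exact (sh h l).injective h2

theorem lw1_inj (w w' : LW h) (hw : lw1 w = lw1 w') (hl : w.isLeft = w'.isLeft) : w = w' := by
  rcases w with τ | ⟨j, l, t⟩ | ⟨f, t⟩ <;> rcases w' with τ' | ⟨j', l', t'⟩ | ⟨f', t'⟩ <;>
    (try fin_cases j) <;> (try fin_cases j') <;> (try cases f) <;> (try cases f') <;>
    simp_all [lw1, Fin.succ_ne_zero, (Fin.succ_ne_zero _).symm]

theorem lw01_ne (w : LW h) : lw0 w ≠ lw1 w := by
  rcases w with τ | ⟨j, l, t⟩ | ⟨f, t⟩ <;> (try fin_cases j) <;> (try cases f) <;> simp [lw0, lw1]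

theorem lw1_ne (w : LW h) (t : Fin (2 ^ h)) : lw1 w ≠ .inr (.inr (false, t)) := by
  rcases w with τ | ⟨j, l, t⟩ | ⟨f, t⟩ <;> (try fin_cases j) <;> (try cases f) <;> simp [lw1]

theorem lw0_eq (w : LW h) (t : Fin (2 ^ h)) (hw : lw0 w = .inr (.inr (false, t))) :
    w = .inr (.inr (false, t)) := by
  rcases w with τ | ⟨j, l, t⟩ | ⟨f, t⟩ <;> (try fin_cases j) <;> (try cases f) <;> simp_all [lw0]

theorem lw_meet (a b k : I) (occ : Finset (Fin (2 ^ h))) (m : ℕ) (w : LW h)
    (hw : ∀ t ∈ occ, w ≠ .inr (.inr (false, t))) :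
    (lpal a b k occ m (lw0 w) ∩ lpal a b k occ m (lw1 w)).Nonempty := by
  rcases w with τ | ⟨j, l, t⟩ | ⟨f, t⟩
  · exact ⟨a, by simp [lw0, lw1, lpal]⟩
  · exact ⟨a, by fin_cases j <;> simp [lw0, lw1, lpal]⟩
  · cases f
    · have : t ∉ occ := fun ht => hw t ht rfl
      exact ⟨a, by simp [lw0, lw1, lpal, this]⟩
    · by_cases ht : (t : ℕ) < m
      · exact ⟨a, by simp [lw0, lw1, lpal, ht]⟩
      · exact ⟨b, by simp [lw0, lw1, lpal, ht]⟩

theorem card_LT : Fintype.card (LT h) ≤ 8 * (h + 1) * 2 ^ h := by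
  simp only [Fintype.card_prod, Fintype.card_bool, Fintype.card_fin]
  nlinarith [Nat.zero_le (h * 2 ^ h), Nat.zero_le (2 ^ h)]

theorem card_LN : Fintype.card (LN h) ≤ 8 * (h + 1) * 2 ^ h := by
  simp only [Fintype.card_sum, Fintype.card_prod, Fintype.card_bool, Fintype.card_fin]
  nlinarith [Nat.zero_le (h * 2 ^ h), Nat.zero_le (2 ^ h)]

theorem card_LW : Fintype.card (LW h) ≤ 8 * (h + 1) * 2 ^ h := by
  simp only [Fintype.card_sum, Fintype.card_prod, Fintype.card_bool, Fintype.card_fin]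
  nlinarith [Nat.zero_le (h * 2 ^ h), Nat.zero_le (2 ^ h)]

end Net

end Pool.Agent.Lib.MP_9dc2ba_co.Large
end

-- part Pool.Agent.Lib.MP_9dc2ba_co.Large.NetCore
section

/-!
The circuit obtained from an open circuit by attaching a concentrator network for every edge
of colours.
-/

open Finset

set_option linter.unusedSectionVars false

namespace Pool.Agent.Lib.MP_9dc2ba_co.Large

namespace Net

variable {I J X : Type*} [Fintype I] [Fintype J] [Fintype X] [DecidableEq I] [DecidableEq J]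
  [DecidableEq X] {N T Tm E : Type*} [Fintype N] [Fintype T] [Fintype Tm] [Fintype E]
  [DecidableEq N] [DecidableEq T] [DecidableEq Tm] [DecidableEq E] {h : ℕ}

theorem card_sum_le {A L : Type*} [Fintype A] [Fintype L] [DecidableEq A] [DecidableEq L]
    (P : A ⊕ E × L → Prop) [DecidablePred P] (Q : A → Prop) [DecidablePred Q] (R : E → Prop)
    [DecidablePred R] (hQ : ∀ a, P (.inl a) → Q a) (hR : ∀ e l, P (.inr (e, l)) → R e) :
    #{x | P x} ≤ #{a | Q a} + #{e | R e} * Fintype.card L := by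
  have : ({x | P x} : Finset _) ⊆ ({a | Q a} : Finset A).disjSum (({e | R e} : Finset E) ×ˢ univ) := by
    rintro (a | ⟨e, l⟩) hx <;> simp only [mem_filter, mem_univ, true_and] at hx
    · simpa using hQ a hx
    · simpa using hR e l hx
  refine (card_le_card this).trans ?_
  rw [card_disjSum, card_product, card_univ]

theorem card_prod_le {L : Type*} [Fintype L] [DecidableEq L]
    (P : E × L → Prop) [DecidablePred P] (R : E → Prop)
    [DecidablePred R] (hR : ∀ e l, P (e, l) → R e) :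
    #{x | P x} ≤ #{e | R e} * Fintype.card L := by
  have : ({x | P x} : Finset _) ⊆ ({e | R e} : Finset E) ×ˢ univ := by
    rintro ⟨e, l⟩ hx
    simp only [mem_filter, mem_univ, true_and] at hx
    simpa using hR e l hx
  refine (card_le_card this).trans ?_
  rw [card_product, card_univ]

/-- The occupied input positions of the network of `e`. -/
def occ (ed : Tm → E) (pos : Tm → Fin (2 ^ h)) (e : E) : Finset (Fin (2 ^ h)) :=
  ({τ | ed τ = e} : Finset Tm).image pos

open Classical in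
/-- The nodes of the network of `e`, occupied inputs being replaced by the terminals. -/
noncomputable def nd (node : Tm → N) (ed : Tm → E) (pos : Tm → Fin (2 ^ h)) (e : E) (ν : LN h) :
    N ⊕ E × LN h :=
  if hp : ∃ τ, ed τ = e ∧ ν = .inr (.inr (false, pos τ)) then .inl (node hp.choose)
  else .inr (e, ν)

theorem nd_term (node : Tm → N) {ed : Tm → E} {pos : Tm → Fin (2 ^ h)}
    (hinj : ∀ τ τ', ed τ = ed τ' → pos τ = pos τ' → τ = τ') (τ : Tm) :
    nd node ed pos (ed τ) (.inr (.inr (false, pos τ))) = .inl (node τ) := by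
  have hp : ∃ τ', ed τ' = ed τ ∧
      (.inr (.inr (false, pos τ)) : LN h) = .inr (.inr (false, pos τ')) := ⟨τ, rfl, rfl⟩
  rw [nd, dif_pos hp]
  have := hp.choose_spec
  rw [hinj hp.choose τ this.1 (by simpa using this.2.symm)]

theorem nd_cases (node : Tm → N) {ed : Tm → E} {pos : Tm → Fin (2 ^ h)}
    (hinj : ∀ τ τ', ed τ = ed τ' → pos τ = pos τ' → τ = τ') (e : E) (ν : LN h) :
    (∃ τ, ed τ = e ∧ ν = .inr (.inr (false, pos τ)) ∧ nd node ed pos e ν = .inl (node τ)) ∨
      ((∀ t ∈ occ ed pos e, ν ≠ .inr (.inr (false, t))) ∧ nd node ed pos e ν = .inr (e, ν)) := by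
  by_cases hp : ∃ τ, ed τ = e ∧ ν = .inr (.inr (false, pos τ))
  · obtain ⟨τ, rfl, rfl⟩ := hp
    exact Or.inl ⟨τ, rfl, rfl, nd_term node hinj τ⟩
  · refine Or.inr ⟨?_, by rw [nd, dif_neg hp]⟩
    intro t ht hν
    simp only [occ, mem_image, mem_filter, mem_univ, true_and] at ht
    obtain ⟨τ, h1, rfl⟩ := ht
    exact hp ⟨τ, h1, hν⟩

theorem nd_of_ne (node : Tm → N) {ed : Tm → E} {pos : Tm → Fin (2 ^ h)} (e : E) (ν : LN h)
    (hν : ∀ t, ν ≠ .inr (.inr (false, t))) : nd node ed pos e ν = .inr (e, ν) := by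
  rw [nd, dif_neg]
  rintro ⟨τ, -, h2⟩
  exact hν _ h2

/-- The closed circuit. -/
noncomputable def circ (O : OCirc I J N T Tm) (al be κ : E → I) (ed : Tm → E)
    (pos : Tm → Fin (2 ^ h)) (m : E → ℕ) :
    Circ I J (N ⊕ E × LN h) (T ⊕ E × LT h) (E × LW h) where
  pal := Sum.elim O.pal fun p => lpal (al p.1) (be p.1) (κ p.1) (occ ed pos p.1) (m p.1) p.2
  tc := Sum.elim O.tc fun p => ltc (al p.1) (be p.1) (κ p.1) p.2.1
  leg := Sum.elim (fun τ k => Sum.map id Sum.inl (O.leg τ k))
    fun p k => .inr (.inr (p.1, .inl (p.2, k)))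
  wa p := lwa (al p.1) (κ p.1) p.2
  wb p := lwb (al p.1) (be p.1) p.2
  w0 p := nd O.node ed pos p.1 (lw0 p.2)
  w1 p := .inr (p.1, lw1 p.2)

theorem card_fib_le_two (f : LW h → LN h)
    (hf : ∀ w w', f w = f w' → w.isLeft = w'.isLeft → w = w') (ν : LN h) :
    #{w | f w = ν} ≤ 2 := by
  have : #{w | f w = ν} ≤ #(univ : Finset Bool) := by
    refine card_le_card_of_injOn (fun w => w.isLeft) (fun _ _ => mem_coe.2 (mem_univ _)) ?_
    intro w hw w' hw' hl
    simp only [coe_filter, mem_univ, true_and, Set.mem_ofPred_eq] at hw hw'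
    exact hf w w' (hw.trans hw'.symm) hl
  simpa using this

theorem circ_ok (D : Des I J X) (O : OCirc I J N T Tm) (al be κ : E → I) (ed : Tm → E)
    (pos : Tm → Fin (2 ^ h)) (m : E → ℕ) (s g : ℕ) (hs : 3 ≤ s) (β β' : ℝ) (hββ : β ≤ β')
    (hO : BaseOk D O.pal O.tc O.leg s β) (hnode : ∀ ν, #{τ | O.node τ = ν} ≤ s)
    (hne : ∀ τ, O.cb τ ∈ O.pal (O.node τ))
    (hinj : ∀ τ τ', ed τ = ed τ' → pos τ = pos τ' → τ = τ')
    (hab : ∀ e, al e ≠ be e) (hka : ∀ e, κ e ≠ al e) (hkb : ∀ e, κ e ≠ be e)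
    (hgg : ∀ e, GG D (al e) (be e) (κ e) ∧ GG D (be e) (al e) (κ e))
    (hcb : ∀ τ, O.cb τ = al (ed τ) ∨ O.cb τ = be (ed τ))
    (hload : ∀ i, #{e | al e = i ∨ be e = i ∨ κ e = i} ≤ 4 * g)
    (hβ' : β * Fintype.card J + 32 * g * (h + 1) * 2 ^ h ≤ β' * Fintype.card J) :
    (circ O al be κ ed pos m).Ok D s β' := by
  have key : ∀ (i : I) (x y z : ℕ), (x : ℝ) ≤ β * Fintype.card J → z ≤ 8 * (h + 1) * 2 ^ h →
      y ≤ x + #{e | al e = i ∨ be e = i ∨ κ e = i} * z → (y : ℝ) ≤ β' * Fintype.card J := by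
    intro i x y z hx hz hy
    have h1 : y ≤ x + 32 * g * (h + 1) * 2 ^ h := by
      refine hy.trans (Nat.add_le_add_left ?_ _)
      calc _ ≤ (4 * g) * (8 * (h + 1) * 2 ^ h) := Nat.mul_le_mul (hload i) hz
        _ = _ := by ring
    have h2 : (y : ℝ) ≤ x + 32 * g * (h + 1) * 2 ^ h := by exact_mod_cast h1
    linarith
  have hβ0 : ∀ i : I, ((0 : ℕ) : ℝ) ≤ β * Fintype.card J := fun i =>
    le_trans (by exact_mod_cast Nat.zero_le _) (hO.nload i)
  refine ⟨⟨?_, ?_, ?_, ?_, ?_, ?_, ?_, ?_, ?_⟩, ?_, ?_, ?_, ?_, ?_⟩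
  · rintro (τ | ⟨e, τ⟩)
    · exact hO.tc_inj τ
    · exact ltc_inj (hab e) (hka e) (hkb e) _
  · rintro (τ | ⟨e, τ⟩) k j hk
    · refine hO.leg_root τ k j ?_
      simp only [circ, Sum.elim_inl] at hk
      rcases hl : O.leg τ k with j' | ν <;> simp_all
    · simp [circ] at hk
  · rintro (τ | ⟨e, τ⟩) k (τ' | ⟨e', τ'⟩) k' ν h1 h2 <;>
      simp only [circ, Sum.elim_inl, Sum.elim_inr] at h1 h2
    · rcases hl : O.leg τ k with j | ν1 <;> rw [hl] at h1
      · simp at h1
      rcases hl' : O.leg τ' k' with j' | ν2 <;> rw [hl'] at h2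
      · simp at h2
      have : ν1 = ν2 := by simpa using h1.trans h2.symm
      subst this
      obtain ⟨rfl, rfl⟩ := hO.leg_inj τ k τ' k' ν1 hl hl'
      exact ⟨rfl, rfl⟩
    · rcases hl : O.leg τ k with j | ν1 <;> rw [hl, ← h2] at h1 <;> simp at h1
    · rcases hl : O.leg τ' k' with j | ν1 <;> rw [hl, ← h1] at h2 <;> simp at h2
    · have := h1.trans h2.symm
      simp only [Sum.inr.injEq, Prod.mk.injEq, Sum.inl.injEq] at this ⊢
      tauto
  · rintro (τ | ⟨e, τ⟩) j hk
    · refine hO.tg τ j ?_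
      simp only [circ, Sum.elim_inl] at hk
      rcases hl : O.leg τ 0 with j' | ν <;> simp_all
    · simp [circ] at hk
  · rintro (τ | ⟨e, f, τ⟩) ν hk
    · simp only [circ, Sum.elim_inl] at hk
      rcases hl : O.leg τ 0 with j' | ν'
      · simp [hl] at hk
      · exact hO.gg τ ν' hl
    · cases f
      · exact (hgg e).2
      · exact (hgg e).1
  · rintro (ν | ⟨e, ν⟩)
    · exact hO.pal_card ν
    · exact (lpal_card _ _ _ _ _ _).trans hs
  · intro j
    have h1 := card_sum_le (E := E) (L := LT h)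
      (fun τ => (circ O al be κ ed pos m).leg τ 0 = Sum.inl j) (fun τ => O.leg τ 0 = Sum.inl j)
      (fun _ => False) (by
        intro τ hk
        simp only [circ, Sum.elim_inl] at hk
        rcases hl : O.leg τ 0 with j' | ν <;> simp_all) (by
        intro e l hk
        simp [circ] at hk)
    simp only [filter_false, card_empty, zero_mul, add_zero] at h1
    have h2 := hO.rootload j
    have h3 : β * D.n ≤ β' * D.n := mul_le_mul_of_nonneg_right hββ (by positivity)
    exact le_trans (by exact_mod_cast h1) (h2.trans h3)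
  · intro i
    refine key i _ _ _ (hO.tload i) card_LT (card_sum_le _ _ _ (fun τ hk => hk) ?_)
    rintro e l ⟨k, rfl⟩
    exact ltc_mem _ _ _ _ _
  · intro i
    refine key i _ _ _ (hO.nload i) card_LN (card_sum_le _ _ _ (fun τ hk => hk) ?_)
    intro e l hi
    have := lpal_sub _ _ _ _ _ _ hi
    simp only [mem_insert, mem_singleton] at this
    tauto
  · rintro ⟨e, w⟩
    exact lw_ne (hab e) (hka e) (hkb e) w
  · rintro (ν | ⟨e, ν⟩)
    · refine le_trans (card_le_card ?_) ((card_image_le (s := ({τ | O.node τ = ν} : Finset Tm))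
        (f := fun τ => ((ed τ, .inr (.inr (false, pos τ))) : E × LW h))).trans (hnode ν))
      rintro ⟨e, w⟩ hw
      simp only [circ, mem_filter, mem_univ, true_and, mem_image] at hw ⊢
      rcases nd_cases O.node hinj e (lw0 w) with ⟨τ, rfl, h2, h3⟩ | ⟨-, h3⟩
      · rw [h3] at hw
        exact ⟨τ, by simpa using hw, by rw [lw0_eq w _ h2]⟩
      · simp [h3] at hw
    · refine le_trans (card_le_card ?_) ((card_image_le (s := ({w | lw0 w = ν} : Finset (LW h)))
        (f := fun w => ((e, w) : E × LW h))).trans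
          ((card_fib_le_two lw0 lw0_inj ν).trans (by omega)))
      rintro ⟨e', w⟩ hw
      simp only [circ, mem_filter, mem_univ, true_and, mem_image] at hw ⊢
      rcases nd_cases O.node hinj e' (lw0 w) with ⟨τ, rfl, h2, h3⟩ | ⟨-, h3⟩
      · simp [h3] at hw
      · rw [h3] at hw
        simp only [Sum.inr.injEq, Prod.mk.injEq] at hw
        exact ⟨w, hw.2, by rw [hw.1]⟩
  · rintro (ν | ⟨e, ν⟩)
    · simp [circ]
    · refine le_trans (card_le_card ?_) ((card_image_le (s := ({w | lw1 w = ν} : Finset (LW h)))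
        (f := fun w => ((e, w) : E × LW h))).trans
          ((card_fib_le_two lw1 lw1_inj ν).trans (by omega)))
      rintro ⟨e', w⟩ hw
      simp only [circ, mem_filter, mem_univ, true_and, mem_image, Sum.inr.injEq,
        Prod.mk.injEq] at hw ⊢
      exact ⟨w, hw.2, hw.1.symm, rfl⟩
  · rintro ⟨e, w⟩
    simp only [circ]
    rcases nd_cases O.node hinj e (lw0 w) with ⟨τ, rfl, h2, h3⟩ | ⟨h2, h3⟩
    · rw [h3, lw0_eq w _ h2]
      refine ⟨by simp, O.cb τ, ?_⟩
      simpa [lw1, lpal, hne τ] using hcb τ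
    · rw [h3]
      refine ⟨by simpa using lw01_ne w, ?_⟩
      refine lw_meet _ _ _ _ _ w fun t ht hw => h2 t ht ?_
      rw [hw]
      rfl
  · intro i
    refine key i 0 _ _ (hβ0 i) card_LW ?_
    rw [zero_add]
    exact card_prod_le _ _ fun e w hw => lw_mem _ _ _ w hw

theorem val_map_eq_sum {α β : Type*} (s : Finset α) (f : α → β) :
    s.val.map f = ∑ i ∈ s, ({f i} : Multiset β) := by
  conv_lhs => rw [← Multiset.sum_map_singleton (s.val.map f), Multiset.map_map]
  rfl

theorem mset_map_sum {α β γ : Type*} (s : Finset γ) (f : α → β) (g : γ → Multiset α) :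
    (∑ x ∈ s, g x).map f = ∑ x ∈ s, (g x).map f :=
  map_sum (Multiset.mapAddMonoidHom f) g s

theorem circ_transfer (O : OCirc I J N T Tm) (al be κ : E → I) (ed : Tm → E)
    (pos : Tm → Fin (2 ^ h)) (m : E → ℕ)
    (hconc : ∀ S : Finset (Fin (2 ^ h)),
      ∃ (act : ℕ → Fin (2 ^ h) → Bool) (fs ms : ℕ → Fin (2 ^ h) → Fin 3),
      (∀ t, act 0 t = true ↔ t ∈ S) ∧ (∀ t, act h t = true ↔ (t : ℕ) < #S) ∧
      ∀ ℓ < h, ∀ t, (fs ℓ t ≠ 0 ↔ act ℓ t = true) ∧ (ms ℓ t ≠ 0 ↔ act (ℓ + 1) t = true) ∧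
        (ms ℓ t = 1 ↔ fs ℓ t = 1) ∧ (ms ℓ t = 2 ↔ fs ℓ (sh h ℓ t) = 2))
    (hinj : ∀ τ τ', ed τ = ed τ' → pos τ = pos τ' → τ = τ')
    (hab : ∀ e, al e ≠ be e) (hka : ∀ e, κ e ≠ al e) (hkb : ∀ e, κ e ≠ be e)
    (mm : Multiset (I × J)) (st : T → Fin 3) (σ : Tm → Bool)
    (hst : ∀ τ, (O.st σ τ).2 = al (ed τ) ∨ (O.st σ τ).2 = be (ed τ))
    (hm : ∀ e, #{τ | ed τ = e ∧ (O.st σ τ).2 = be e} = m e)
    (heq : needOf O.pal mm = tripOf O.tc O.leg st + O.termOf σ) :
    ∃ st' o, needOf (circ O al be κ ed pos m).pal mm =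
      tripOf (circ O al be κ ed pos m).tc (circ O al be κ ed pos m).leg st' +
        (circ O al be κ ed pos m).wireOf o := by
  set S : E → Finset (Fin (2 ^ h)) := fun e =>
    ({τ | ed τ = e ∧ (O.st σ τ).2 = be e} : Finset Tm).image pos with hS
  have hSc : ∀ e, #(S e) = m e := by
    intro e
    rw [← hm e]
    refine card_image_of_injOn fun τ h1 τ' h2 hp => ?_
    simp only [coe_filter, mem_univ, true_and, Set.mem_ofPred_eq] at h1 h2
    exact hinj τ τ' (h1.1.trans h2.1.symm) hp
  have hSo : ∀ e, S e ⊆ occ ed pos e := fun e => image_subset_image fun τ hτ => by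
    simp only [mem_filter, mem_univ, true_and] at hτ ⊢
    exact hτ.1
  have hSm : ∀ τ, pos τ ∈ S (ed τ) ↔ (O.st σ τ).2 = be (ed τ) := by
    intro τ
    simp only [hS, mem_image, mem_filter, mem_univ, true_and]
    constructor
    · rintro ⟨τ', ⟨h1, h2⟩, h3⟩
      rw [← hinj τ' τ h1 h3] at h2 ⊢
      exact h2
    · exact fun h1 => ⟨τ, ⟨rfl, h1⟩, rfl⟩
  choose act fs ms h0 hend hl using fun e => hconc (S e)
  refine ⟨Sum.elim st fun p => lst (fs p.1) (ms p.1) p.2,
    fun p => lo (act p.1) (fs p.1) (ms p.1) p.2, ?_⟩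
  set G : I × (J ⊕ N) → I × (J ⊕ (N ⊕ E × LN h)) := fun p => (p.1, Sum.map id Sum.inl p.2)
    with hG
  set c : E → I → LN h → Multiset (I × (J ⊕ (N ⊕ E × LN h))) :=
    fun e i ν => {(i, Sum.inr (nd O.node ed pos e ν))} with hc
  have hloc := fun e => loc (hab e) (hka e) (hkb e) (occ ed pos e) (m e) (c e) (act e) (fs e)
    (ms e) (fun t ht => hSo e ((h0 e t).1 ht)) (fun t => by rw [hend e t, hSc e]) (hl e)
  have hsum := sum_congr (rfl : (univ : Finset E) = univ) fun e _ => hloc e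
  rw [sum_add_distrib, sum_add_distrib] at hsum
  have e1 : needOf (circ O al be κ ed pos m).pal mm = (needOf O.pal mm).map G +
      ∑ e, ∑ ν : LN h, ∑ i ∈ lpal (al e) (be e) (κ e) (occ ed pos e) (m e) ν, c e i ν := by
    rw [needOf, needOf, Fintype.sum_sum_type, Multiset.map_add, Multiset.map_map, add_assoc,
      mset_map_sum, Fintype.sum_prod_type]
    refine congrArg₂ (· + ·) rfl (congrArg₂ (· + ·) ?_ ?_)
    · refine sum_congr rfl fun ν _ => ?_
      rw [Multiset.map_map]
      rfl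
    · refine sum_congr rfl fun e _ => sum_congr rfl fun ν _ => ?_
      rw [val_map_eq_sum]
      rcases nd_cases O.node hinj e ν with ⟨τ, rfl, rfl, -⟩ | ⟨-, h3⟩
      · have : pos τ ∈ occ ed pos (ed τ) := mem_image_of_mem _ (by simp)
        simp [circ, lpal, this]
      · simp only [hc, h3]
        rfl
  have e2 : (O.termOf σ).map G = ∑ e, ∑ t ∈ occ ed pos e,
      c e (if act e 0 t then be e else al e) (.inr (.inr (false, t))) := by
    rw [OCirc.termOf, mset_map_sum, ← sum_fiberwise univ ed]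
    refine sum_congr rfl fun e _ => ?_
    rw [occ, sum_image]
    · refine sum_congr rfl fun τ hτ => ?_
      simp only [mem_filter, mem_univ, true_and] at hτ
      subst hτ
      simp only [hc, hG, nd_term O.node hinj, Multiset.map_singleton, Sum.map_inr, h0, hSm]
      rcases hst τ with h1 | h1
      · simp [h1, hab]
      · simp [h1]
    · intro τ h1 τ' h2 hp
      simp only [coe_filter, mem_univ, true_and, Set.mem_ofPred_eq] at h1 h2
      exact hinj τ τ' (h1.trans h2.symm) hp
  have e3 : tripOf (circ O al be κ ed pos m).tc (circ O al be κ ed pos m).leg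
      (Sum.elim st fun p => lst (fs p.1) (ms p.1) p.2) = (tripOf O.tc O.leg st).map G +
      ∑ e, ∑ τ : LT h, ∑ j : Fin 3, c e (ltc (al e) (be e) (κ e) τ.1
        (Equiv.swap 0 (lst (fs e) (ms e) τ) j)) (.inl (τ, j)) := by
    rw [tripOf, tripOf, Fintype.sum_sum_type, mset_map_sum, Fintype.sum_prod_type]
    refine congrArg₂ (· + ·) ?_ ?_
    · refine sum_congr rfl fun τ _ => ?_
      rw [mset_map_sum]
      rfl
    · refine sum_congr rfl fun e _ => sum_congr rfl fun τ _ => sum_congr rfl fun j _ => ?_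
      simp only [hc]
      rw [nd_of_ne _ _ _ (by simp)]
      rfl
  have e4 : (circ O al be κ ed pos m).wireOf (fun p => lo (act p.1) (fs p.1) (ms p.1) p.2) =
      ∑ e, ∑ w : LW h, (c e (if lo (act e) (fs e) (ms e) w then lwb (al e) (be e) w
        else lwa (al e) (κ e) w) (lw0 w) + c e (if lo (act e) (fs e) (ms e) w then
        lwa (al e) (κ e) w else lwb (al e) (be e) w) (lw1 w)) := by
    rw [Circ.wireOf, Fintype.sum_prod_type]
    refine sum_congr rfl fun e _ => sum_congr rfl fun w _ => ?_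
    simp only [hc]
    rw [nd_of_ne _ _ (lw1 w) (lw1_ne w)]
    rfl
  rw [e1, e3, e4, heq, Multiset.map_add, e2, add_assoc, add_assoc, ← hsum, add_comm (∑ e, _)]

theorem exists_pos (ed : Tm → E) (W : ℕ) (hW : ∀ e, #{τ | ed τ = e} ≤ W) :
    ∃ pos : Tm → Fin W, ∀ τ τ', ed τ = ed τ' → pos τ = pos τ' → τ = τ' := by
  have : ∀ e, Nonempty ({τ // ed τ = e} ↪ Fin W) := fun e =>
    Function.Embedding.nonempty_of_card_le (by simpa [Fintype.card_subtype] using hW e)
  set emb := fun e => Classical.choice (this e)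
  have hpos : ∀ e τ (h : ed τ = e), emb (ed τ) ⟨τ, rfl⟩ = emb e ⟨τ, h⟩ := by
    intro e τ h
    subst h
    rfl
  refine ⟨fun τ => emb (ed τ) ⟨τ, rfl⟩, fun τ τ' h1 h2 => ?_⟩
  simp only [hpos _ τ h1] at h2
  simpa using (emb _).injective h2

theorem exists_kappa (good : E → Finset I) (g : ℕ) (hE : Fintype.card E ≤ g * Fintype.card I)
    (hgood : ∀ e, Fintype.card I ≤ 2 * #(good e)) :
    ∃ κ : E → I, (∀ e, κ e ∈ good e) ∧ ∀ i, #{e | κ e = i} ≤ 2 * g := by
  obtain ⟨f, hf, hm⟩ := (all_card_le_biUnion_card_iff_exists_injective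
    (fun e => good e ×ˢ (univ : Finset (Fin (2 * g))))).1 (by
      intro A
      rcases A.eq_empty_or_nonempty with rfl | ⟨e, he⟩
      · simp
      · refine (card_le_univ A).trans (hE.trans (le_trans ?_
          (card_le_card (subset_biUnion_of_mem _ he))))
        rw [card_product, card_univ, Fintype.card_fin]
        nlinarith [hgood e, Nat.zero_le g])
  refine ⟨fun e => (f e).1, fun e => (mem_product.1 (hm e)).1, fun i => ?_⟩
  have : #{e | (f e).1 = i} ≤ #(univ : Finset (Fin (2 * g))) := by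
    refine card_le_card_of_injOn (fun e => (f e).2) (fun _ _ => mem_coe.2 (mem_univ _)) ?_
    intro e h1 e' h2 h3
    simp only [coe_filter, mem_univ, true_and, Set.mem_ofPred_eq] at h1 h2
    exact hf (Prod.ext (h1.trans h2.symm) h3)
  simpa using this

/-- The edges of a graph on the colours. -/
abbrev Ed (adj : I → I → Prop) :=
  {p : I × I // adj p.1 p.2 ∧ Fintype.equivFin I p.1 < Fintype.equivFin I p.2}

theorem gg_swap {D : Des I J X} {a b k : I} (h : GG D a b k) : GG D b a k := by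
  unfold GG at h ⊢
  simpa only [and_left_comm] using h

open Classical in
theorem exists_circ (D : Des I J X) (hn : 10 ^ 4 ≤ D.n) (O : OCirc I J N T Tm)
    (σ0 : Tm → Bool) (s g : ℕ) (hs : 3 ≤ s) (β β' : ℝ)
    (hO : BaseOk D O.pal O.tc O.leg s β) (hnode : ∀ ν, #{τ | O.node τ = ν} ≤ s)
    (hne : ∀ τ, O.cb τ ∈ O.pal (O.node τ))
    (adj : I → I → Prop) [DecidableRel adj] (hsymm : ∀ a b, adj a b → adj b a)
    (hirr : ∀ a, ¬ adj a a) (hdeg : ∀ a, #{b | adj a b} ≤ g) (hadj : ∀ τ, adj (O.ca τ) (O.cb τ))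
    (hW : ∀ a b, #{τ | (O.ca τ = a ∧ O.cb τ = b) ∨ (O.ca τ = b ∧ O.cb τ = a)} ≤ 2 ^ h)
    (hβ' : β * Fintype.card J + 32 * g * (h + 1) * 2 ^ h ≤ β' * Fintype.card J)
    (hconc : ∀ S : Finset (Fin (2 ^ h)),
      ∃ (act : ℕ → Fin (2 ^ h) → Bool) (fs ms : ℕ → Fin (2 ^ h) → Fin 3),
      (∀ t, act 0 t = true ↔ t ∈ S) ∧ (∀ t, act h t = true ↔ (t : ℕ) < #S) ∧
      ∀ ℓ < h, ∀ t, (fs ℓ t ≠ 0 ↔ act ℓ t = true) ∧ (ms ℓ t ≠ 0 ↔ act (ℓ + 1) t = true) ∧
        (ms ℓ t = 1 ↔ fs ℓ t = 1) ∧ (ms ℓ t = 2 ↔ fs ℓ (sh h ℓ t) = 2))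
    (hbad : ∀ a b : I, a ≠ b → #{k | ¬ GG D a b k} ≤ 108) :
    ∃ C : Circ I J (N ⊕ Ed adj × LN h) (T ⊕ Ed adj × LT h) (Ed adj × LW h), C.Ok D s β' ∧
      ∀ m st σ, needOf O.pal m = tripOf O.tc O.leg st + O.termOf σ →
        univ.val.map (O.st σ) = univ.val.map (O.st σ0) →
        ∃ st' o, needOf C.pal m = tripOf C.tc C.leg st' + C.wireOf o := by
  set al : Ed adj → I := fun e => e.1.1 with hal
  set be : Ed adj → I := fun e => e.1.2 with hbe
  have hab : ∀ e, al e ≠ be e := fun e he => hirr (be e) (by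
    have := e.2.1
    rwa [show e.1.1 = be e from he] at this)
  have hext : ∀ e e', al e = al e' → be e = be e' → e = e' := fun e e' h1 h2 =>
    Subtype.ext (Prod.ext h1 h2)
  have hopp : ∀ e e', al e = be e' → be e = al e' → False := by
    intro e e' h1 h2
    have h3 := e.2.2
    have h4 := e'.2.2
    rw [show e.1.1 = e'.1.2 from h1, show e.1.2 = e'.1.1 from h2] at h3
    exact lt_asymm h3 h4
  have hed : ∀ τ, ∃ e, (O.ca τ = al e ∧ O.cb τ = be e) ∨ (O.ca τ = be e ∧ O.cb τ = al e) := by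
    intro τ
    rcases lt_trichotomy (Fintype.equivFin I (O.ca τ)) (Fintype.equivFin I (O.cb τ)) with
      h1 | h1 | h1
    · exact ⟨⟨(O.ca τ, O.cb τ), hadj τ, h1⟩, Or.inl ⟨rfl, rfl⟩⟩
    · have h2 := hadj τ
      rw [(Fintype.equivFin I).injective h1] at h2
      exact absurd h2 (hirr _)
    · exact ⟨⟨(O.cb τ, O.ca τ), hsymm _ _ (hadj τ), h1⟩, Or.inr ⟨rfl, rfl⟩⟩
  choose ed hed using hed
  obtain ⟨pos, hinj⟩ := exists_pos ed (2 ^ h) fun e => le_trans (card_le_card fun τ hτ => by
    simp only [mem_filter, mem_univ, true_and] at hτ ⊢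
    rw [← hτ]
    exact hed τ) (hW (al e) (be e))
  have hal1 : ∀ i, #{e | al e = i} ≤ g := by
    intro i
    refine le_trans (card_le_card_of_injOn be ?_ ?_) (hdeg i)
    · intro e he
      simp only [coe_filter, mem_univ, true_and, Set.mem_ofPred_eq] at he ⊢
      rw [← he]
      exact e.2.1
    · intro e h1 e' h2 h3
      simp only [coe_filter, mem_univ, true_and, Set.mem_ofPred_eq] at h1 h2
      exact hext e e' (h1.trans h2.symm) h3
  have hbe1 : ∀ i, #{e | be e = i} ≤ g := by
    intro i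
    refine le_trans (card_le_card_of_injOn al ?_ ?_) (hdeg i)
    · intro e he
      simp only [coe_filter, mem_univ, true_and, Set.mem_ofPred_eq] at he ⊢
      rw [← he]
      exact hsymm _ _ e.2.1
    · intro e h1 e' h2 h3
      simp only [coe_filter, mem_univ, true_and, Set.mem_ofPred_eq] at h1 h2
      exact hext e e' h3 (h1.trans h2.symm)
  have hI : 10 ^ 4 ≤ Fintype.card I := by
    rw [D.cardI]
    omega
  obtain ⟨κ, hκ, hκ1⟩ := exists_kappa
    (fun e => (({k | ¬ GG D (al e) (be e) k} : Finset I) ∪ {al e, be e})ᶜ) g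
    (by simpa using (card_le_mul_card_image_of_maps_to (s := univ) (t := univ) (f := al)
      (fun _ _ => mem_univ _) g fun i _ => hal1 i))
    (by
      intro e
      have h1 := hbad _ _ (hab e)
      have h2 := card_union_le ({k | ¬ GG D (al e) (be e) k} : Finset I) {al e, be e}
      have h3 : #({al e, be e} : Finset I) ≤ 2 := card_le_two
      rw [card_compl]
      omega)
  simp only [mem_compl, mem_union, mem_filter, mem_univ, true_and, mem_insert, mem_singleton,
    not_or, not_not] at hκ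
  have hload : ∀ i, #{e | al e = i ∨ be e = i ∨ κ e = i} ≤ 4 * g := by
    intro i
    rw [filter_or, filter_or]
    have h1 := card_union_le ({e | al e = i} : Finset (Ed adj))
      (({e | be e = i} : Finset (Ed adj)) ∪ ({e | κ e = i} : Finset (Ed adj)))
    have h2 := card_union_le ({e | be e = i} : Finset (Ed adj)) {e | κ e = i}
    have := hal1 i
    have := hbe1 i
    have := hκ1 i
    omega
  have hJ : (0 : ℝ) < Fintype.card J := by
    have := D.le
    exact_mod_cast (by omega : 0 < Fintype.card J)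
  have hββ : β ≤ β' := by
    refine le_of_mul_le_mul_right ?_ hJ
    have : (0 : ℝ) ≤ 32 * g * (h + 1) * 2 ^ h := by positivity
    linarith
  have hst : ∀ σ τ, O.st σ τ = (al (ed τ), be (ed τ)) ∨ O.st σ τ = (be (ed τ), al (ed τ)) := by
    intro σ τ
    unfold OCirc.st
    rcases hed τ with ⟨h1, h2⟩ | ⟨h1, h2⟩ <;> rw [h1, h2] <;> split_ifs <;> simp
  have hcount : ∀ σ e, #{τ | ed τ = e ∧ (O.st σ τ).2 = be e} =
      (univ.val.map (O.st σ)).count (al e, be e) := by
    intro σ e
    rw [Multiset.count_map, ← filter_val, card_val]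
    congr 1
    ext τ
    simp only [mem_filter, mem_univ, true_and]
    constructor
    · rintro ⟨rfl, h2⟩
      rcases hst σ τ with h1 | h1
      · exact h1.symm
      · rw [h1] at h2
        exact absurd h2 (hab _)
    · intro h2
      refine ⟨?_, by rw [← h2]⟩
      rcases hst σ τ with h1 | h1 <;> rw [h1, Prod.mk.injEq] at h2
      · exact (hext _ _ h2.1 h2.2).symm
      · exact (hopp _ _ h2.1 h2.2).elim
  refine ⟨circ O al be κ ed pos fun e => #{τ | ed τ = e ∧ (O.st σ0 τ).2 = be e},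
    circ_ok D O al be κ ed pos _ s g hs β β' hββ hO hnode hne hinj hab (fun e => (hκ e).2.1)
      (fun e => (hκ e).2.2) (fun e => ⟨(hκ e).1, gg_swap (hκ e).1⟩)
      (fun τ => by rcases hed τ with h1 | h1 <;> simp [h1.2]) hload hβ', ?_⟩
  intro m st σ heq hσ
  refine circ_transfer O al be κ ed pos _ hconc hinj hab (fun e => (hκ e).2.1)
    (fun e => (hκ e).2.2) m st σ (fun τ => ?_) (fun e => by rw [hcount, hcount, hσ]) heq
  rcases hst σ τ with h1 | h1 <;> simp [h1]

end Net

end Pool.Agent.Lib.MP_9dc2ba_co.Large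
end
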