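import Mathlib
import Pool.Agent.Lib.MP_9dc2ba_co.Large.Prob

-- part Pool.Agent.Lib.MP_9dc2ba_co.Large.Route
section

/-!
Shift networks: the cyclic shifts, and the concentrator that moves a set of positions to an
initial segment.
-/

open Finset

namespace Pool.Agent.Lib.MP_9dc2ba_co.Large

theorem route_sh_val {h ℓ : ℕ} (hℓ : ℓ < h) (t : Fin (2 ^ h)) :
    (sh h ℓ t : ℕ) = (t + 2 ^ ℓ) % 2 ^ h := by
  have h1 : 2 ^ ℓ < 2 ^ h := Nat.pow_lt_pow_right (by norm_num) hℓ
  simp only [sh, Equiv.coe_addRight, Fin.val_add, Fin.val_ofNat, Nat.mod_eq_of_lt h1]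

theorem route_sh_cases {h ℓ : ℕ} (hℓ : ℓ < h) (t : Fin (2 ^ h)) :
    ((t : ℕ) + 2 ^ ℓ < 2 ^ h ∧ (sh h ℓ t : ℕ) = t + 2 ^ ℓ) ∨
      (2 ^ h ≤ (t : ℕ) + 2 ^ ℓ ∧ (sh h ℓ t : ℕ) + 2 ^ h = t + 2 ^ ℓ) := by
  have h1 : 2 ^ ℓ < 2 ^ h := Nat.pow_lt_pow_right (by norm_num) hℓ
  have ht := t.2
  rw [route_sh_val hℓ]
  rcases lt_or_ge ((t : ℕ) + 2 ^ ℓ) (2 ^ h) with h2 | h2
  · exact Or.inl ⟨h2, Nat.mod_eq_of_lt h2⟩
  · refine Or.inr ⟨h2, ?_⟩
    rw [Nat.mod_eq_sub_mod h2, Nat.mod_eq_of_lt (by omega)]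
    omega

theorem sh_ne {h ℓ : ℕ} (hℓ : ℓ < h) (t : Fin (2 ^ h)) : sh h ℓ t ≠ t := by
  intro he
  have h1 : 2 ^ ℓ < 2 ^ h := Nat.pow_lt_pow_right (by norm_num) hℓ
  have h0 : 0 < 2 ^ ℓ := by positivity
  have h2 := route_sh_cases hℓ t
  rw [he] at h2
  omega

theorem sh_parity {h : ℕ} (hh : 1 ≤ h) (t : Fin (2 ^ h)) :
    (sh h 0 t : ℕ) % 2 ≠ (t : ℕ) % 2 := by
  have h2 := route_sh_cases (ℓ := 0) hh t
  obtain ⟨k, rfl⟩ : ∃ k, h = k + 1 := ⟨h - 1, by omega⟩
  have h3 : 2 ^ (k + 1) = 2 * 2 ^ k := by ring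
  have h4 : 2 ^ 0 = 1 := rfl
  omega

theorem route_add_le {c : ℕ} (e : Fin c → ℕ) (he : StrictMono e) :
    ∀ (j : ℕ) (k k' : Fin c), (k' : ℕ) = k + j → e k + j ≤ e k' := by
  intro j
  induction j with
  | zero =>
    intro k k' hk
    have : k' = k := Fin.ext (by omega)
    simp [this]
  | succ j ih =>
    intro k k' hk
    have h1 := ih k ⟨k + j, by have := k'.2; omega⟩ rfl
    have h2 : e ⟨k + j, by have := k'.2; omega⟩ < e k' := he (by simp only [Fin.lt_def]; omega)
    omega

theorem route_le {c : ℕ} (e : Fin c → ℕ) (he : StrictMono e) (k : Fin c) : (k : ℕ) ≤ e k := by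
  have := route_add_le e he k ⟨0, by have := k.2; omega⟩ k (by simp)
  omega

/-- The position at level `ℓ` of the element of rank `k`. -/
def routePos {c : ℕ} (e : Fin c → ℕ) (ℓ : ℕ) (k : Fin c) : ℕ :=
  k + 2 ^ ℓ * ((e k - k) / 2 ^ ℓ)

/-- The element of rank `k` is shifted between the levels `ℓ` and `ℓ + 1`. -/
def routeBit {c : ℕ} (e : Fin c → ℕ) (ℓ : ℕ) (k : Fin c) : ℕ := (e k - k) / 2 ^ ℓ % 2

theorem routePos_succ {c : ℕ} (e : Fin c → ℕ) (ℓ : ℕ) (k : Fin c) :
    routePos e ℓ k = routePos e (ℓ + 1) k + 2 ^ ℓ * routeBit e ℓ k := by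
  unfold routePos routeBit
  rw [pow_succ, ← Nat.div_div_eq_div_mul]
  generalize (e k - k) / 2 ^ ℓ = q
  have : q = 2 * (q / 2) + q % 2 := (Nat.div_add_mod q 2).symm
  calc (k : ℕ) + 2 ^ ℓ * q = k + 2 ^ ℓ * (2 * (q / 2) + q % 2) := by rw [← this]
    _ = _ := by ring

theorem routePos_le {c : ℕ} (e : Fin c → ℕ) (he : StrictMono e) (ℓ : ℕ) (k : Fin c) :
    routePos e ℓ k ≤ e k := by
  have h1 := route_le e he k
  have h2 := Nat.mul_div_le (e k - k) (2 ^ ℓ)
  unfold routePos
  omega

theorem routePos_strictMono {c : ℕ} (e : Fin c → ℕ) (he : StrictMono e) (ℓ : ℕ) :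
    StrictMono (routePos e ℓ) := by
  intro k k' hk
  have hk' : (k : ℕ) < k' := hk
  have h1 := route_add_le e he (k' - k) k k' (by omega)
  have h2 := route_le e he k
  have h3 : (e k - k) / 2 ^ ℓ ≤ (e k' - k') / 2 ^ ℓ := Nat.div_le_div_right (by omega)
  have h4 := Nat.mul_le_mul_left (2 ^ ℓ) h3
  unfold routePos
  omega

theorem conc (h : ℕ) (S : Finset (Fin (2 ^ h))) :
    ∃ (act : ℕ → Fin (2 ^ h) → Bool) (fs ms : ℕ → Fin (2 ^ h) → Fin 3),
      (∀ t, act 0 t = true ↔ t ∈ S) ∧ (∀ t, act h t = true ↔ (t : ℕ) < #S) ∧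
      ∀ ℓ < h, ∀ t, (fs ℓ t ≠ 0 ↔ act ℓ t = true) ∧ (ms ℓ t ≠ 0 ↔ act (ℓ + 1) t = true) ∧
        (ms ℓ t = 1 ↔ fs ℓ t = 1) ∧ (ms ℓ t = 2 ↔ fs ℓ (sh h ℓ t) = 2) := by
  classical
  set e : Fin #S → ℕ := fun k => (S.orderEmbOfFin rfl k : ℕ) with he_def
  have he : StrictMono e := fun k k' hk => (S.orderEmbOfFin rfl).strictMono hk
  have helt : ∀ k, e k < 2 ^ h := fun k => (S.orderEmbOfFin rfl k).2
  have hinj : ∀ ℓ, Function.Injective (routePos e ℓ) := fun ℓ =>
    (routePos_strictMono e he ℓ).injective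
  let fs : ℕ → Fin (2 ^ h) → Fin 3 := fun ℓ t =>
    if ∃ k, routePos e ℓ k = t ∧ routeBit e ℓ k = 1 then 2
    else if ∃ k, routePos e ℓ k = t then 1 else 0
  have fs2 : ∀ ℓ t, fs ℓ t = 2 ↔ ∃ k, routePos e ℓ k = t ∧ routeBit e ℓ k = 1 := by
    intro ℓ t
    simp only [fs]
    split_ifs with h1 h2 <;> simp [h1]
  have fs1 : ∀ ℓ t, fs ℓ t = 1 ↔ ∃ k, routePos e ℓ k = t ∧ routeBit e ℓ k = 0 := by
    intro ℓ t
    simp only [fs]
    split_ifs with h1 h2
    · obtain ⟨k, hk, hb⟩ := h1
      refine iff_of_false (by decide) ?_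
      rintro ⟨k', hk', hb'⟩
      have := hinj ℓ (hk.trans hk'.symm)
      subst this
      omega
    · obtain ⟨k, hk⟩ := h2
      refine iff_of_true rfl ⟨k, hk, ?_⟩
      have h3 : routeBit e ℓ k ≠ 1 := fun hb => h1 ⟨k, hk, hb⟩
      have h4 : routeBit e ℓ k < 2 := Nat.mod_lt _ (by norm_num)
      omega
    · refine iff_of_false (by decide) ?_
      rintro ⟨k, hk, -⟩
      exact h2 ⟨k, hk⟩
  have fs1' : ∀ ℓ t, fs ℓ t = 1 ↔ ∃ k, routePos e (ℓ + 1) k = t ∧ routeBit e ℓ k = 0 := by
    intro ℓ t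
    rw [fs1]
    refine exists_congr fun k => and_congr_left fun hb => ?_
    rw [routePos_succ e ℓ k, hb]
    simp
  have fs2' : ∀ ℓ < h, ∀ t, fs ℓ (sh h ℓ t) = 2 ↔
      ∃ k, routePos e (ℓ + 1) k = t ∧ routeBit e ℓ k = 1 := by
    intro ℓ hℓ t
    rw [fs2]
    refine exists_congr fun k => and_congr_left fun hb => ?_
    have h1 := routePos_succ e ℓ k
    have h2 := route_sh_cases hℓ t
    have h3 := routePos_le e he ℓ k
    have h4 := helt k
    have h5 := t.2
    rw [hb, mul_one] at h1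
    omega
  refine ⟨fun ℓ t => decide (∃ k, routePos e ℓ k = t), fs,
    fun ℓ t => if fs ℓ t = 1 then 1 else if fs ℓ (sh h ℓ t) = 2 then 2 else 0, ?_, ?_, ?_⟩
  · intro t
    have h1 : ∀ k, routePos e 0 k = e k := by
      intro k
      have := route_le e he k
      simp only [routePos, pow_zero, Nat.div_one, one_mul]
      omega
    simp only [decide_eq_true_eq, h1]
    have h2 := S.range_orderEmbOfFin rfl
    rw [← mem_coe, ← h2]
    exact exists_congr fun k => Fin.val_inj
  · intro t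
    have h1 : ∀ k, routePos e h k = k := by
      intro k
      have := helt k
      simp only [routePos]
      rw [Nat.div_eq_of_lt (by omega)]
      simp
    simp only [decide_eq_true_eq, h1]
    exact ⟨fun ⟨k, hk⟩ => hk ▸ k.2, fun ht => ⟨⟨t, ht⟩, rfl⟩⟩
  · intro ℓ hℓ t
    have hex : ¬ (fs ℓ t = 1 ∧ fs ℓ (sh h ℓ t) = 2) := by
      rw [fs1', fs2' ℓ hℓ]
      rintro ⟨⟨k, hk, hb⟩, ⟨k', hk', hb'⟩⟩
      have := hinj (ℓ + 1) (hk.trans hk'.symm)
      subst this
      omega
    refine ⟨?_, ?_, ?_, ?_⟩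
    · simp only [fs, decide_eq_true_eq]
      split_ifs with h1 h2
      · obtain ⟨k, hk, -⟩ := h1
        exact iff_of_true (by decide) ⟨k, hk⟩
      · exact iff_of_true (by decide) h2
      · exact iff_of_false (by decide) h2
    · simp only [decide_eq_true_eq]
      split_ifs with h1 h2
      · obtain ⟨k, hk, -⟩ := (fs1' ℓ t).1 h1
        exact iff_of_true (by decide) ⟨k, hk⟩
      · obtain ⟨k, hk, -⟩ := (fs2' ℓ hℓ t).1 h2
        exact iff_of_true (by decide) ⟨k, hk⟩
      · refine iff_of_false (by decide) ?_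
        rintro ⟨k, hk⟩
        have h4 : routeBit e ℓ k < 2 := Nat.mod_lt _ (by norm_num)
        rw [fs1'] at h1
        rw [fs2' ℓ hℓ] at h2
        rcases Nat.lt_succ_iff_lt_or_eq.1 h4 with h5 | h5
        · exact h1 ⟨k, hk, by omega⟩
        · exact h2 ⟨k, hk, h5⟩
    · simp only
      split_ifs with h1 h2 <;> simp [h1]
    · simp only
      split_ifs with h1 h2
      · exact iff_of_false (by decide) fun h2 => hex ⟨h1, h2⟩
      · simp [h2]
      · simp [h2]

end Pool.Agent.Lib.MP_9dc2ba_co.Large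
end

-- part Pool.Agent.Lib.MP_9dc2ba_co.Large.Base
section

/-!
The base circuit of the absorber: shift networks at the columns, signal columns along the cube of
hub colours, square converters.
-/

open Finset

set_option linter.unusedSectionVars false

namespace Pool.Agent.Lib.MP_9dc2ba_co.Large.Ab

theorem mmap_sum {α β γ : Type*} (s : Finset α) (f : α → Multiset β) (g : β → γ) :
    (∑ a ∈ s, f a).map g = ∑ a ∈ s, (f a).map g :=
  map_sum (Multiset.mapAddMonoidHom g) f s

theorem sum_sing {α β : Type*} (s : Finset α) (f : α → β) :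
    ∑ a ∈ s, ({f a} : Multiset β) = s.val.map f := by
  classical
  induction s using Finset.induction_on with
  | empty => simp
  | insert a s ha ih => rw [sum_insert ha, ih, insert_val_of_notMem ha]; simp

section walk
variable {I : Type*} [DecidableEq I]

/-- The steps of a walk, forwards or backwards. -/
def wpairs (G : ℕ → I) (K : ℕ) (b : Bool) : Multiset (I × I) :=
  ∑ d ∈ range K, if G (d + 1) ≠ G d then {if b then (G (d + 1), G d) else (G d, G (d + 1))} else 0

/-- The ends of the steps of a walk. -/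
def wopen (G : ℕ → I) (K : ℕ) (b : Bool) : Multiset I :=
  ∑ d ∈ range K, if G (d + 1) ≠ G d then {if b then G d else G (d + 1)} else 0

theorem wpairs_snd (G : ℕ → I) (K : ℕ) (b : Bool) : (wpairs G K b).map Prod.snd = wopen G K b := by
  unfold wpairs wopen
  rw [mmap_sum]
  refine sum_congr rfl fun d _ => ?_
  split_ifs <;> simp

theorem wpairs_sym (G : ℕ → I) (K : ℕ) (b b' : Bool) :
    wpairs G K b + (wpairs G K b).map Prod.swap = wpairs G K b' + (wpairs G K b').map Prod.swap := by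
  unfold wpairs
  rw [mmap_sum, mmap_sum, ← sum_add_distrib, ← sum_add_distrib]
  refine sum_congr rfl fun d _ => ?_
  by_cases h : G (d + 1) ≠ G d
  · simp only [if_pos h, Multiset.map_singleton]
    cases b <;> cases b' <;> simp only [Bool.false_eq_true, if_true, if_false, Prod.swap_prod_mk]
    all_goals exact add_comm _ _
  · simp only [if_neg h]

theorem wopen_tele (G : ℕ → I) (K : ℕ) :
    {G 0} + wopen G K false = {G K} + wopen G K true := by
  unfold wopen
  induction K with
  | zero => simp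
  | succ K ih =>
    rw [sum_range_succ, sum_range_succ, ← add_assoc, ih]
    by_cases h : G (K + 1) = G K
    · simp [h]
    · simp only [ne_eq, h, not_false_eq_true, if_true, Bool.false_eq_true, if_false]
      abel

theorem mem_wpairs {G : ℕ → I} {K : ℕ} {b : Bool} {q : I × I} (h : q ∈ wpairs G K b) :
    ∃ d < K, G (d + 1) ≠ G d ∧ (q = (G (d + 1), G d) ∨ q = (G d, G (d + 1))) := by
  unfold wpairs at h
  rw [Multiset.mem_sum] at h
  obtain ⟨d, hd, h⟩ := h
  refine ⟨d, mem_range.1 hd, ?_⟩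
  split_ifs at h with h1 h2
  · exact ⟨h1, Or.inl (Multiset.mem_singleton.1 h)⟩
  · exact ⟨h1, Or.inr (Multiset.mem_singleton.1 h)⟩
  · simp at h

theorem mem_wopen_false {G : ℕ → I} {K : ℕ} {i : I} :
    i ∈ wopen G K false ↔ ∃ d < K, G (d + 1) ≠ G d ∧ i = G (d + 1) := by
  unfold wopen
  rw [Multiset.mem_sum]
  refine exists_congr fun d => ?_
  by_cases h : G (d + 1) = G d <;> simp [h]

theorem card_wpairs_le (G : ℕ → I) (K : ℕ) (b : Bool) : (wpairs G K b).card ≤ K := by
  unfold wpairs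
  rw [Multiset.card_sum]
  calc _ ≤ ∑ _d ∈ range K, 1 := sum_le_sum fun d _ => by split_ifs <;> simp
    _ = K := by simp

theorem card_wopen_le (G : ℕ → I) (K : ℕ) (b : Bool) : (wopen G K b).card ≤ K := by
  rw [← wpairs_snd, Multiset.card_map]
  exact card_wpairs_le G K b

theorem wopen_false_eq (G : ℕ → I) (K : ℕ) :
    wopen G K false = (({d ∈ range K | G (d + 1) ≠ G d} : Finset ℕ).val).map
      (fun d => G (d + 1)) := by
  unfold wopen
  rw [← sum_filter]
  simp only [Bool.false_eq_true, if_false]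
  exact sum_sing _ _

theorem nodup_walk (G : ℕ → I) (K : ℕ)
    (hG : ∀ a c b, a ≤ c → c ≤ b → G a = G b → G c = G a) :
    ({G 0} + wopen G K false).Nodup := by
  rw [Multiset.singleton_add, Multiset.nodup_cons]
  constructor
  · rw [mem_wopen_false]
    rintro ⟨d, -, h1, h2⟩
    exact h1 (h2.symm.trans (hG 0 d (d + 1) (by omega) (by omega) h2).symm)
  · rw [wopen_false_eq]
    refine Multiset.Nodup.map_on ?_ (Finset.nodup _)
    have key : ∀ d d', d < d' → G (d' + 1) ≠ G d' → G (d + 1) ≠ G (d' + 1) := by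
      intro d d' h h1 h2
      exact h1 (h2.symm.trans (hG (d + 1) d' (d' + 1) h (by omega) h2).symm)
    intro d hd d' hd' h
    have hd1 := (mem_filter.1 (Finset.mem_def.2 hd)).2
    have hd2 := (mem_filter.1 (Finset.mem_def.2 hd')).2
    rcases lt_trichotomy d d' with h1 | h1 | h1
    · exact absurd h (key _ _ h1 hd2)
    · exact h1
    · exact absurd h.symm (key _ _ h1 hd1)

end walk

section cube
variable {h : ℕ}

theorem flip_flip (d : Fin h) (v : Cube h) : flip d (flip d v) = v := by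
  unfold flip
  simp

theorem flip_ne (d : Fin h) (v : Cube h) : flip d v ≠ v := by
  intro h1
  have := congrFun h1 d
  simp [flip] at this

theorem flip_comm {d e : Fin h} (hde : d ≠ e) (v : Cube h) :
    flip d (flip e v) = flip e (flip d v) := by
  unfold flip
  rw [Function.update_of_ne hde, Function.update_of_ne hde.symm, Function.update_comm hde]

theorem flip_apply_ne {d e : Fin h} (hde : e ≠ d) (v : Cube h) : flip d v e = v e := by
  unfold flip
  rw [Function.update_of_ne hde]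

theorem flip_apply_self (d : Fin h) (v : Cube h) : flip d v d = !v d := by
  unfold flip
  rw [Function.update_self]

theorem mix_zero (u p : Cube h) : mix 0 u p = p := by
  ext b; simp [mix]

theorem mix_ge {d : ℕ} (hd : h ≤ d) (u p : Cube h) : mix d u p = u := by
  ext b
  have := b.2
  simp only [mix]
  rw [if_pos (by omega)]

theorem mix_between {a c b : ℕ} (h1 : a ≤ c) (h2 : c ≤ b) {u p : Cube h}
    (he : mix a u p = mix b u p) : mix c u p = mix a u p := by
  ext x
  have := congrFun he x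
  simp only [mix] at this ⊢
  split_ifs at this ⊢ <;> first | rfl | omega | exact this | exact this.symm

theorem mix_succ (d : ℕ) (u p : Cube h) (hne : mix (d + 1) u p ≠ mix d u p) :
    ∃ e, mix (d + 1) u p = flip e (mix d u p) := by
  by_cases hd : d < h
  · refine ⟨⟨d, hd⟩, ?_⟩
    have h1 : ∀ x : Fin h, x ≠ ⟨d, hd⟩ → mix (d + 1) u p x = mix d u p x := by
      intro x hx
      have : (x : ℕ) ≠ d := fun h => hx (Fin.ext h)
      simp only [mix]
      split_ifs <;> first | rfl | omega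
    ext x
    by_cases hx : x = ⟨d, hd⟩
    · subst hx
      rw [flip_apply_self]
      by_contra hc
      apply hne
      ext y
      by_cases hy : y = ⟨d, hd⟩
      · subst hy
        revert hc
        cases mix (d + 1) u p ⟨d, hd⟩ <;> cases mix d u p ⟨d, hd⟩ <;> simp
      · exact h1 y hy
    · rw [flip_apply_ne hx, h1 x hx]
  · exact absurd ((mix_ge (by omega) u p).trans (mix_ge (by omega) u p).symm) hne

/-- The vertices of an oriented square. -/
def sqv (q : Sq h) : ℕ → Cube h
  | 1 => flip q.1.1 q.1.2.2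
  | 2 => flip q.1.2.1 (flip q.1.1 q.1.2.2)
  | 3 => flip q.1.2.1 q.1.2.2
  | _ => q.1.2.2

theorem sqv_ge (q : Sq h) (d : ℕ) : sqv q (d + 4) = q.1.2.2 := rfl

variable {I : Type*} [DecidableEq I] (ι : Cube h ↪ I) (π : I → Cube h)

theorem adj_symm (a b : I) (hab : Adj ι π a b) : Adj ι π b a := by
  rcases hab with ⟨d, v, h1, h2⟩ | h1 | h1
  · exact Or.inl ⟨d, flip d v, h2, by rw [flip_flip, h1]⟩
  · exact Or.inr (Or.inr h1)
  · exact Or.inr (Or.inl h1)

theorem adj_irrefl (a : I) : ¬ Adj ι π a a := by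
  rintro (⟨d, v, h1, h2⟩ | h1 | h1)
  · exact flip_ne d v (ι.injective (h2.symm.trans h1))
  · exact h1.1 ⟨_, h1.2.symm⟩
  · exact h1.1 ⟨_, h1.2.symm⟩

theorem adj_deg [Fintype I] [DecidableRel (Adj ι π)] (hπ : ∀ v, π (ι v) = v)
    (hfib : ∀ v, #{i | π i = v} ≤ 2) (a : I) : #{b | Adj ι π a b} ≤ h + 3 := by
  have : ({b | Adj ι π a b} : Finset I) ⊆
      (univ.image (fun d => ι (flip d (π a))) ∪ {ι (π a)}) ∪
        ({i | π i = π a} : Finset I) := by
    intro b hb
    simp only [mem_filter, mem_univ, true_and, mem_union, mem_image, mem_singleton] at hb ⊢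
    rcases hb with ⟨d, v, h1, h2⟩ | h1 | h1
    · exact Or.inl (Or.inl ⟨d, by rw [h1, hπ, h2]⟩)
    · exact Or.inl (Or.inr h1.2)
    · exact Or.inr (by rw [h1.2, hπ])
  have h1 := card_le_card this
  have h2 := card_union_le (univ.image (fun d => ι (flip d (π a))) ∪ {ι (π a)})
    ({i | π i = π a} : Finset I)
  have h3 := card_union_le (univ.image (fun d => ι (flip d (π a)))) {ι (π a)}
  have h4 := card_image_le (s := univ) (f := fun d => ι (flip d (π a)))
  have h5 := hfib (π a)
  simp only [card_univ, Fintype.card_fin, card_singleton] at h3 h4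
  omega

/-- The walk from the colour `p` to the hub colour `u`. -/
def sigWalk (p u : I) : ℕ → I
  | 0 => p
  | d + 1 => ι (mix d (π u) (π p))

theorem sigWalk_noreturn (hπ : ∀ v, π (ι v) = v) (p u : I) (a c b : ℕ) (h1 : a ≤ c) (h2 : c ≤ b)
    (he : sigWalk ι π p u a = sigWalk ι π p u b) : sigWalk ι π p u c = sigWalk ι π p u a := by
  rcases c with _ | c
  · obtain rfl : a = 0 := by omega
    rfl
  obtain ⟨b, rfl⟩ : ∃ b', b = b' + 1 := ⟨b - 1, by omega⟩
  rcases a with _ | a
  · simp only [sigWalk] at he ⊢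
    have h3 : mix 0 (π u) (π p) = mix b (π u) (π p) := by
      rw [mix_zero]
      conv_lhs => rw [he, hπ]
    rw [mix_between (Nat.zero_le c) (by omega) h3, h3]
    exact he.symm
  · simp only [sigWalk] at he ⊢
    rw [mix_between (by omega) (by omega) (ι.injective he)]

theorem sigWalk_end (hπ : ∀ v, π (ι v) = v) (p : I) {u : I} (hu : u ∈ Set.range ι) :
    sigWalk ι π p u (h + 4) = u := by
  obtain ⟨v, rfl⟩ := hu
  simp only [sigWalk]
  rw [mix_ge (by omega), hπ]

theorem sigWalk_adj (hπ : ∀ v, π (ι v) = v) (p u : I) (d : ℕ)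
    (hd : sigWalk ι π p u (d + 1) ≠ sigWalk ι π p u d) :
    Adj ι π (sigWalk ι π p u d) (sigWalk ι π p u (d + 1)) := by
  rcases d with _ | d
  · simp only [sigWalk, mix_zero] at hd ⊢
    refine Or.inr (Or.inl ⟨?_, rfl⟩)
    rintro ⟨v, rfl⟩
    exact hd (by rw [hπ])
  · simp only [sigWalk] at hd ⊢
    obtain ⟨e, he⟩ := mix_succ d (π u) (π p) (fun h => hd (by rw [h]))
    exact Or.inl ⟨e, _, rfl, by rw [he]⟩

/-- The closed walk around a square. -/
def sqWalk (q : Sq h) (d : ℕ) : I := ι (sqv q d)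

theorem sqWalk_adj (q : Sq h) (d : ℕ) (hd : sqWalk ι q (d + 1) ≠ sqWalk ι q d) :
    Adj ι π (sqWalk ι q d) (sqWalk ι q (d + 1)) := by
  unfold sqWalk at hd ⊢
  match d with
  | 0 => exact Or.inl ⟨_, _, rfl, rfl⟩
  | 1 => exact Or.inl ⟨_, _, rfl, rfl⟩
  | 2 => exact Or.inl ⟨q.1.1, _, rfl, by simp only [sqv]; rw [flip_comm q.2, flip_flip]⟩
  | 3 => exact Or.inl ⟨q.1.2.1, _, rfl, by simp only [sqv]; rw [flip_flip]⟩
  | d + 4 => exact absurd rfl hd

theorem sq_ne (q : Sq h) : sqv q 1 ≠ sqv q 0 ∧ sqv q 2 ≠ sqv q 1 ∧ sqv q 3 ≠ sqv q 2 ∧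
    sqv q 4 ≠ sqv q 3 ∧ sqv q 1 ≠ sqv q 3 ∧ sqv q 2 ≠ sqv q 4 := by
  obtain ⟨⟨d, e, w⟩, hde⟩ := q
  simp only [sqv]
  refine ⟨flip_ne _ _, flip_ne _ _, ?_, (flip_ne _ _).symm, ?_, ?_⟩
  · rw [← flip_comm hde]
    exact (flip_ne _ _).symm
  · intro h1
    have := congrFun h1 d
    rw [flip_apply_self, flip_apply_ne hde] at this
    simp at this
  · intro h1
    have := congrFun h1 d
    rw [flip_apply_ne hde, flip_apply_self] at this
    simp at this

theorem wpairs_sq (q : Sq h) (b : Bool) : wpairs (sqWalk ι q) (h + 4) b =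
    (fwd q).map (fun e => if b then (ι e.2, ι e.1) else (ι e.1, ι e.2)) := by
  unfold wpairs
  rw [add_comm h 4, sum_range_add, sum_eq_zero (s := range h) fun d _ => by
    rw [if_neg]
    rw [not_not, add_comm 4 d, add_right_comm]
    rfl]
  obtain ⟨h1, h2, h3, h4, -⟩ := sq_ne q
  simp only [sum_range_succ, range_zero, sum_empty, sqWalk, ne_eq, ι.injective.eq_iff, zero_add,
    Nat.reduceAdd, h1, h2, h3, h4, not_false_eq_true, if_true, add_zero, fwd,
    Multiset.insert_eq_cons, Multiset.map_cons, Multiset.map_singleton]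
  simp only [sqv, ← Multiset.singleton_add, add_assoc]

theorem wopen_sq (q : Sq h) (b : Bool) :
    wopen (sqWalk ι q) (h + 4) b = wopen (sqWalk ι q) (h + 4) false := by
  cases b
  · rfl
  · have := wopen_tele (sqWalk ι q) (h + 4)
    have h1 : sqWalk ι q (h + 4) = sqWalk ι q 0 := rfl
    rw [h1] at this
    exact (add_left_cancel this).symm

theorem nodup_sq (q : Sq h) : (wopen (sqWalk ι q) (h + 4) false).Nodup := by
  rw [← wpairs_snd, wpairs_sq]
  obtain ⟨h1, h2, h3, h4, h5, h6⟩ := sq_ne q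
  simp only [sqv] at h1 h2 h3 h4 h5 h6
  simp [fwd, h1, h2.symm, h3.symm, h4.symm, h5, h6]

end cube

end Pool.Agent.Lib.MP_9dc2ba_co.Large.Ab
end

-- part Pool.Agent.Lib.MP_9dc2ba_co.Large.Base2
section

/-!
The base circuit of the absorber and its state equation.
-/

open Finset

set_option linter.unusedSectionVars false

namespace Pool.Agent.Lib.MP_9dc2ba_co.Large.Ab

theorem root_eq {A : Type*} [AddCommMonoid A] (h0 : ℕ) (c : ℕ → Fin (2 ^ h0) → A)
    (act : ℕ → Fin (2 ^ h0) → Bool) (fs ms : ℕ → Fin (2 ^ h0) → Fin 3)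
    (H : ∀ ℓ < h0, ∀ t, (fs ℓ t ≠ 0 ↔ act ℓ t = true) ∧ (ms ℓ t ≠ 0 ↔ act (ℓ + 1) t = true) ∧
        (ms ℓ t = 1 ↔ fs ℓ t = 1) ∧ (ms ℓ t = 2 ↔ fs ℓ (sh h0 ℓ t) = 2)) (k : ℕ) (hk : k ≤ h0) :
    ∑ ℓ ∈ range k, ∑ t, ![c (ℓ + 1) t, c ℓ t, c ℓ (sh h0 ℓ t)] (ms ℓ t) +
        ∑ t, (if act k t then c k t else 0) =
      ∑ t, (if act 0 t then c 0 t else 0) + ∑ ℓ ∈ range k, ∑ t, c (ℓ + 1) t := by
  induction k with
  | zero => simp
  | succ k ih =>
    have H' := H k (by omega)
    have e1 : ∀ t, ![c (k + 1) t, c k t, c k (sh h0 k t)] (ms k t) +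
        (if act (k + 1) t then c (k + 1) t else 0) = c (k + 1) t + (if fs k t = 1 then c k t else 0) +
          (if fs k (sh h0 k t) = 2 then c k (sh h0 k t) else 0) := by
      intro t
      obtain ⟨-, h2, h3, h4⟩ := H' t
      simp only [← h2, ← h3, ← h4]
      generalize ms k t = s
      fin_cases s <;> simp [add_comm]
    have e2 : ∑ t, (if fs k t = 1 then c k t else 0) +
        ∑ t, (if fs k (sh h0 k t) = 2 then c k (sh h0 k t) else 0) =
        ∑ t, (if act k t then c k t else 0) := by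
      rw [Equiv.sum_comp (sh h0 k) (fun t => if fs k t = 2 then c k t else 0), ← sum_add_distrib]
      refine sum_congr rfl fun t _ => ?_
      simp only [← (H' t).1]
      generalize fs k t = s
      fin_cases s <;> simp
    rw [sum_range_succ, sum_range_succ, add_assoc, ← sum_add_distrib, sum_congr rfl fun t _ => e1 t,
      sum_add_distrib, sum_add_distrib, add_assoc, e2, ← add_assoc _ _ (∑ t, c (k + 1) t),
      ← ih (by omega)]
    abel

/-- Ports of the networks at the columns. -/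
abbrev Po (J : Type*) (h0 : ℕ) := J × Fin h0 × Fin (2 ^ h0)

/-- Signal columns and square converters. -/
abbrev Nd (J : Type*) (h h0 M : ℕ) := (Po J h0 × Bool) ⊕ (Sq h × Fin M)

variable {I J : Type*} [Fintype I] [Fintype J] [DecidableEq I] [DecidableEq J] {h h0 : ℕ}
  (ι : Cube h ↪ I) (π : I → Cube h) (col : J → ℕ → Fin (2 ^ h0) → I) (M : ℕ)

/-- The colour of the network node of a port. -/
def own (p : Po J h0) : I := col p.1 (p.2.1 + 1) p.2.2

/-- The colours of the two predecessors. -/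
def pre (p : Po J h0 × Bool) : I :=
  col p.1.1 p.1.2.1 (if p.2 then sh h0 p.1.2.1 p.1.2.2 else p.1.2.2)

/-- The walk of a node. -/
def walk : Nd J h h0 M → ℕ → I
  | .inl p => sigWalk ι π (pre col p) (own col p.1)
  | .inr q => sqWalk ι q.1

/-- The palette of a node. -/
def pm : Nd J h h0 M → Multiset I
  | .inl p => {pre col p} + wopen (walk ι π col M (.inl p)) (h + 4) false
  | .inr q => wopen (walk ι π col M (.inr q)) (h + 4) false

/-- The terminals. -/
abbrev Tm := {x : Nd J h h0 M × Fin (h + 4) //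
  walk ι π col M x.1 (x.2 + 1) ≠ walk ι π col M x.1 x.2}

/-- The base circuit. -/
def oc : OCirc I J (Nd J h h0 M) (Po J h0) (Tm ι π col M) where
  pal ν := (pm ι π col M ν).toFinset
  tc p := ![own col p, pre col (p, false), pre col (p, true)]
  leg p := ![.inl p.1, .inr (.inl (p, false)), .inr (.inl (p, true))]
  node τ := τ.1.1
  ca τ := walk ι π col M τ.1.1 τ.1.2
  cb τ := walk ι π col M τ.1.1 (τ.1.2 + 1)

theorem pm_nodup (hπ : ∀ v, π (ι v) = v) (ν : Nd J h h0 M) : (pm ι π col M ν).Nodup := by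
  rcases ν with p | q
  · exact nodup_walk _ _ (sigWalk_noreturn ι π hπ _ _)
  · exact nodup_sq ι q.1

theorem pal_val (hπ : ∀ v, π (ι v) = v) (ν : Nd J h h0 M) :
    ((oc ι π col M).pal ν).val = pm ι π col M ν := by
  change (pm ι π col M ν).toFinset.val = _
  rw [Multiset.toFinset_val, Multiset.dedup_eq_self.2 (pm_nodup ι π col M hπ ν)]

theorem sum_tm {A : Type*} [AddCommMonoid A] (F : Nd J h h0 M → ℕ → A) :
    ∑ τ : Tm ι π col M, F τ.1.1 τ.1.2 = ∑ ν, ∑ d ∈ range (h + 4),
      if walk ι π col M ν (d + 1) ≠ walk ι π col M ν d then F ν d else 0 := by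
  rw [← sum_subtype (s := univ.filter fun x : Nd J h h0 M × Fin (h + 4) =>
    walk ι π col M x.1 (x.2 + 1) ≠ walk ι π col M x.1 x.2) (by simp)
    (fun x : Nd J h h0 M × Fin (h + 4) => F x.1 x.2), sum_filter, Fintype.sum_prod_type]
  refine sum_congr rfl fun ν _ => ?_
  exact Fin.sum_univ_eq_sum_range
    (fun d => if walk ι π col M ν (d + 1) ≠ walk ι π col M ν d then F ν d else 0) (h + 4)

theorem st_eq (fl : Nd J h h0 M → Bool) :
    univ.val.map ((oc ι π col M).st fun τ => fl τ.1.1) =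
      ∑ ν, wpairs (walk ι π col M ν) (h + 4) (fl ν) := by
  rw [← sum_sing]
  exact sum_tm ι π col M (fun ν d => ({if fl ν then (walk ι π col M ν (d + 1), walk ι π col M ν d)
    else (walk ι π col M ν d, walk ι π col M ν (d + 1))} : Multiset (I × I)))

theorem termOf_eq (fl : Nd J h h0 M → Bool) :
    (oc ι π col M).termOf (fun τ => fl τ.1.1) =
      ∑ ν, (wopen (walk ι π col M ν) (h + 4) (fl ν)).map (fun i => (i, Sum.inr ν)) := by
  unfold OCirc.termOf
  refine Eq.trans (sum_congr rfl fun τ _ => ?_) ((sum_tm ι π col M (fun ν d =>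
    ({(if fl ν then walk ι π col M ν d else walk ι π col M ν (d + 1), Sum.inr ν)} :
      Multiset (I × (J ⊕ Nd J h h0 M))))).trans (sum_congr rfl fun ν _ => ?_))
  · simp only [OCirc.st, oc]
    split_ifs <;> rfl
  · unfold wopen
    rw [mmap_sum]
    refine sum_congr rfl fun d _ => ?_
    split_ifs <;> simp

/-- The flips of the nodes in a state. -/
def flOf (s : Po J h0 → Fin 3) (kf : Sq h × Fin M → Bool) : Nd J h h0 M → Bool
  | .inl p => if p.2 then decide (s p.1 = 2) else decide (s p.1 = 1)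
  | .inr q => kf q

theorem pm_sig (hπ : ∀ v, π (ι v) = v) (p : Po J h0 × Bool) (hp : own col p.1 ∈ Set.range ι)
    (b : Bool) : pm ι π col M (.inl p) =
      {if b then own col p.1 else pre col p} + wopen (walk ι π col M (.inl p)) (h + 4) b := by
  cases b
  · rfl
  · have := wopen_tele (walk ι π col M (.inl p)) (h + 4)
    simp only [walk, sigWalk_end ι π hπ _ hp] at this
    exact this

theorem state_eq (hπ : ∀ v, π (ι v) = v) (hown : ∀ p, own col p ∈ Set.range ι)
    (s : Po J h0 → Fin 3) (kf : Sq h × Fin M → Bool) :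
    needOf (oc ι π col M).pal (∑ p : Po J h0, {((oc ι π col M).tc p (s p), p.1)}) =
      tripOf (oc ι π col M).tc (oc ι π col M).leg s +
        (oc ι π col M).termOf (fun τ => flOf M s kf τ.1.1) := by
  rw [termOf_eq]
  unfold needOf tripOf
  simp only [pal_val ι π col M hπ]
  rw [Fintype.sum_sum_type, Fintype.sum_sum_type, mmap_sum, ← add_assoc, ← add_assoc]
  congr 1
  · rw [Fintype.sum_prod_type (f := fun p : Po J h0 × Bool => (pm ι π col M (.inl p)).map _),
      Fintype.sum_prod_type (f := fun p : Po J h0 × Bool => (wopen (walk ι π col M (.inl p)) (h + 4) (flOf M s kf (.inl p))).map _),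
      ← sum_add_distrib, ← sum_add_distrib]
    refine sum_congr rfl fun p _ => ?_
    rw [Fintype.sum_bool, Fintype.sum_bool, pm_sig ι π col M hπ (p, true) (hown p)
      (flOf M s kf (.inl (p, true))), pm_sig ι π col M hπ (p, false) (hown p)
      (flOf M s kf (.inl (p, false))), Multiset.map_add, Multiset.map_add, Fin.sum_univ_three]
    have e1 : (oc ι π col M).tc p (Equiv.swap 0 (s p) 1) =
        if flOf M s kf (.inl (p, false)) then own col p else pre col (p, false) := by
      simp only [flOf, oc]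
      generalize s p = k
      fin_cases k <;> simp [Equiv.swap_apply_def]
    have e2 : (oc ι π col M).tc p (Equiv.swap 0 (s p) 2) =
        if flOf M s kf (.inl (p, true)) then own col p else pre col (p, true) := by
      simp only [flOf, oc]
      generalize s p = k
      fin_cases k <;> simp [Equiv.swap_apply_def]
    rw [e1, e2, Equiv.swap_apply_left]
    simp only [Multiset.map_singleton]
    have l0 : (oc ι π col M).leg p 0 = .inl p.1 := rfl
    have l1 : (oc ι π col M).leg p 1 = .inr (.inl (p, false)) := rfl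
    have l2 : (oc ι π col M).leg p 2 = .inr (.inl (p, true)) := rfl
    rw [l0, l1, l2]
    abel
  · refine sum_congr rfl fun q _ => ?_
    simp only [pm, walk]
    rw [wopen_sq ι q.1 (flOf M s kf (.inr q))]

/-- The colours covered by the tripods do not depend on the state. -/
theorem trip_fst {N T : Type*} [Fintype T] (tc : T → Fin 3 → I) (leg : T → Fin 3 → J ⊕ N)
    (s : T → Fin 3) : (tripOf tc leg s).map Prod.fst = ∑ τ, ∑ k, {tc τ k} := by
  unfold tripOf
  rw [mmap_sum]
  refine sum_congr rfl fun τ _ => ?_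
  rw [mmap_sum]
  simp only [Multiset.map_singleton]
  exact Equiv.sum_comp (Equiv.swap 0 (s τ)) (fun k => ({tc τ k} : Multiset I))

theorem term_fst {N T Tm : Type*} [Fintype Tm] (O : OCirc I J N T Tm) (σ : Tm → Bool) :
    (O.termOf σ).map Prod.fst = (univ.val.map (O.st σ)).map Prod.snd := by
  unfold OCirc.termOf
  rw [sum_sing, Multiset.map_map, Multiset.map_map]
  rfl

theorem need_fst {N : Type*} [Fintype N] (pal : N → Finset I) (m : Multiset (I × J)) :
    (needOf pal m).map Prod.fst = m.map Prod.fst + ∑ ν, (pal ν).val := by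
  unfold needOf
  rw [Multiset.map_add, mmap_sum, Multiset.map_map]
  congr 1
  refine sum_congr rfl fun ν _ => ?_
  rw [Multiset.map_map]
  exact Multiset.map_id _

/-- The steps of all signal columns in the state `s`. -/
def sigP (s : Po J h0 → Fin 3) : Multiset (I × I) :=
  ∑ p : Po J h0 × Bool, wpairs (sigWalk ι π (pre col p) (own col p.1)) (h + 4)
    (if p.2 then decide (s p.1 = 2) else decide (s p.1 = 1))

theorem st_eq' (s : Po J h0 → Fin 3) (K : Sq h → ℕ) (hK : ∀ q, K q ≤ M) :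
    univ.val.map ((oc ι π col M).st fun τ => flOf M s (fun q => decide ((q.2 : ℕ) < K q.1)) τ.1.1) +
        ∑ q, K q • (fwd q).map (fun e => (ι e.1, ι e.2)) =
      sigP ι π col s + ∑ q, K q • (fwd q).map (fun e => (ι e.2, ι e.1)) +
        ∑ q : Sq h, M • (fwd q).map (fun e => (ι e.1, ι e.2)) := by
  rw [st_eq, Fintype.sum_sum_type, add_assoc, add_assoc]
  congr 1
  rw [Fintype.sum_prod_type, ← sum_add_distrib, ← sum_add_distrib]
  refine sum_congr rfl fun q _ => ?_
  simp only [walk, flOf, wpairs_sq]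
  rw [Fin.sum_univ_eq_sum_range (fun k => (fwd q).map fun e =>
    if decide (k < K q) = true then (ι e.2, ι e.1) else (ι e.1, ι e.2)) M]
  obtain ⟨r, rfl⟩ := Nat.exists_eq_add_of_le (hK q)
  rw [sum_range_add, sum_congr rfl (g := fun _ => (fwd q).map fun e => (ι e.2, ι e.1))
    (fun k hk => by simp [mem_range.1 hk]),
    sum_congr rfl (s₁ := range r) (g := fun _ => (fwd q).map fun e => (ι e.1, ι e.2))
    (fun k _ => by simp), sum_const, sum_const, card_range, card_range, add_smul]
  abel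

end Pool.Agent.Lib.MP_9dc2ba_co.Large.Ab
end

-- part Pool.Agent.Lib.MP_9dc2ba_co.Large.Round
section

/-!
Rounding of fractional flows and fractional matchings without increasing a linear cost.
-/

open Finset

set_option linter.unusedSectionVars false

namespace Pool.Agent.Lib.MP_9dc2ba_co.Large

section Flow

variable {E V : Type*} [Fintype E] [Fintype V] [DecidableEq V]

/-- The divergence of an edge weighting. -/
private noncomputable def rdiv (tl hd : E → V) (y : E → ℝ) (v : V) : ℝ :=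
  ∑ e with tl e = v, y e - ∑ e with hd e = v, y e

private theorem rdiv_sum (tl hd : E → V) (y : E → ℝ) : ∑ v, rdiv tl hd y v = 0 := by
  unfold rdiv
  rw [sum_sub_distrib, sum_fiberwise univ tl y, sum_fiberwise univ hd y, sub_self]

private theorem rdiv_add (tl hd : E → V) (y d : E → ℝ) (t : ℝ) (v : V) :
    rdiv tl hd (fun e => y e + t * d e) v = rdiv tl hd y v + t * rdiv tl hd d v := by
  unfold rdiv
  simp only [sum_add_distrib, ← mul_sum]
  ring

private theorem two_ends (tl hd : E → V) (y : E → ℝ) (F : Finset E)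
    (hF : ∀ e, e ∈ F ↔ Int.fract (y e) ≠ 0) (v : V) (k : ℤ) (hk : rdiv tl hd y v = k)
    (hv : v ∈ F.image tl ∪ F.image hd) : 2 ≤ #{e ∈ F | tl e = v} + #{e ∈ F | hd e = v} := by
  classical
  have key : ∀ g : E → V, ∑ e with g e = v, y e =
      ((∑ e with g e = v, ⌊y e⌋ : ℤ) : ℝ) + ∑ e ∈ F with g e = v, Int.fract (y e) := by
    intro g
    have h1 : ∑ e ∈ F with g e = v, Int.fract (y e) = ∑ e with g e = v, Int.fract (y e) := by
      apply sum_subset
      · intro e he
        simp only [mem_filter, mem_univ, true_and] at he ⊢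
        exact he.2
      · intro e he he'
        simp only [mem_filter, mem_univ, true_and, not_and] at he he'
        by_contra h
        exact he' ((hF e).2 h) he
    rw [h1, Int.cast_sum, ← sum_add_distrib]
    exact sum_congr rfl fun e _ => (Int.floor_add_fract _).symm
  obtain ⟨m, hm⟩ : ∃ m : ℤ, ∑ e ∈ F with tl e = v, Int.fract (y e) -
      ∑ e ∈ F with hd e = v, Int.fract (y e) = m := by
    refine ⟨k - (∑ e with tl e = v, ⌊y e⌋) + ∑ e with hd e = v, ⌊y e⌋, ?_⟩
    unfold rdiv at hk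
    rw [key tl, key hd] at hk
    push_cast at hk ⊢
    linarith
  have nint : ∀ e ∈ F, ∀ m : ℤ, Int.fract (y e) ≠ m := by
    intro e he m h
    have h0 := Int.fract_nonneg (y e)
    have h1 := Int.fract_lt_one (y e)
    have h2 := (hF e).1 he
    rw [h] at h0 h1 h2
    have a0 : (0 : ℤ) ≤ m := by exact_mod_cast h0
    have a1 : m < 1 := by exact_mod_cast h1
    have a2 : m ≠ 0 := by exact_mod_cast h2
    omega
  by_contra hlt
  have h1 : 1 ≤ #{e ∈ F | tl e = v} + #{e ∈ F | hd e = v} := by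
    rcases mem_union.1 hv with h | h
    · obtain ⟨e, he, rfl⟩ := mem_image.1 h
      have : 0 < #{e' ∈ F | tl e' = tl e} := card_pos.2 ⟨e, by simp [he]⟩
      omega
    · obtain ⟨e, he, rfl⟩ := mem_image.1 h
      have : 0 < #{e' ∈ F | hd e' = hd e} := card_pos.2 ⟨e, by simp [he]⟩
      omega
  rcases Nat.eq_zero_or_pos #{e ∈ F | tl e = v} with h | h
  · have h' : #{e ∈ F | hd e = v} = 1 := by omega
    obtain ⟨e, he⟩ := card_eq_one.1 h'
    have heF : e ∈ F := (mem_filter.1 (he ▸ mem_singleton_self e)).1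
    rw [card_eq_zero.1 h, he, sum_empty, sum_singleton] at hm
    exact nint e heF (-m) (by push_cast; linarith)
  · have h' : #{e ∈ F | hd e = v} = 0 := by omega
    have h'' : #{e ∈ F | tl e = v} = 1 := by omega
    obtain ⟨e, he⟩ := card_eq_one.1 h''
    have heF : e ∈ F := (mem_filter.1 (he ▸ mem_singleton_self e)).1
    rw [card_eq_zero.1 h', he, sum_empty, sum_singleton] at hm
    exact nint e heF m (by linarith)

private theorem kernel_vec (tl hd : E → V) (F : Finset E) (hne : F.Nonempty)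
    (h2 : ∀ v ∈ F.image tl ∪ F.image hd, 2 ≤ #{e ∈ F | tl e = v} + #{e ∈ F | hd e = v}) :
    ∃ d : E → ℝ, (∃ e, d e ≠ 0) ∧ (∀ e, e ∉ F → d e = 0) ∧ ∀ v, rdiv tl hd d v = 0 := by
  classical
  set T := F.image tl ∪ F.image hd with hT
  have hcard : #T ≤ #F := by
    have a1 : ∑ v ∈ T, #{e ∈ F | tl e = v} = #F :=
      (card_eq_sum_card_fiberwise (f := tl) fun e he =>
        mem_coe.2 (mem_union_left _ (mem_image_of_mem _ he))).symm
    have a2 : ∑ v ∈ T, #{e ∈ F | hd e = v} = #F :=
      (card_eq_sum_card_fiberwise (f := hd) fun e he =>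
        mem_coe.2 (mem_union_right _ (mem_image_of_mem _ he))).symm
    have a3 := sum_le_sum h2
    rw [sum_add_distrib, a1, a2, sum_const, smul_eq_mul] at a3
    omega
  obtain ⟨e0, he0⟩ := hne
  have hv0 : tl e0 ∈ T := mem_union_left _ (mem_image_of_mem _ he0)
  let ext : (F → ℝ) → E → ℝ := fun c e => if h : e ∈ F then c ⟨e, h⟩ else 0
  let Φ : (F → ℝ) →ₗ[ℝ] (T.erase (tl e0) → ℝ) :=
    { toFun := fun c v => rdiv tl hd (ext c) v
      map_add' := by
        intro c c'
        funext v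
        have : ext (c + c') = fun e => ext c e + 1 * ext c' e := by
          funext e
          by_cases h : e ∈ F <;> simp [ext, h]
        rw [this, rdiv_add, Pi.add_apply, one_mul]
      map_smul' := by
        intro t c
        funext v
        have : ext (t • c) = fun e => (fun _ => (0 : ℝ)) e + t * ext c e := by
          funext e
          by_cases h : e ∈ F <;> simp [ext, h]
        simp only [this, rdiv_add, Pi.smul_apply, RingHom.id_apply, smul_eq_mul]
        simp [rdiv] }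
  have hlt : Module.finrank ℝ (T.erase (tl e0) → ℝ) < Module.finrank ℝ (F → ℝ) := by
    rw [Module.finrank_fintype_fun_eq_card, Module.finrank_fintype_fun_eq_card, Fintype.card_coe,
      Fintype.card_coe, card_erase_of_mem hv0]
    have : 0 < #T := card_pos.2 ⟨_, hv0⟩
    omega
  obtain ⟨c, hc, hc0⟩ := Submodule.exists_mem_ne_zero_of_ne_bot
    (LinearMap.ker_ne_bot_of_finrank_lt (f := Φ) hlt)
  have hoff : ∀ e, e ∉ F → ext c e = 0 := fun e he => by simp [ext, he]
  have hother : ∀ v, v ≠ tl e0 → rdiv tl hd (ext c) v = 0 := by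
    intro v hv
    by_cases hvT : v ∈ T
    · exact congrFun (LinearMap.mem_ker.1 hc) ⟨v, mem_erase.2 ⟨hv, hvT⟩⟩
    · unfold rdiv
      rw [sum_eq_zero, sum_eq_zero, sub_self]
      · intro e he
        apply hoff
        intro heF
        exact hvT ((mem_filter.1 he).2 ▸ mem_union_right _ (mem_image_of_mem _ heF))
      · intro e he
        apply hoff
        intro heF
        exact hvT ((mem_filter.1 he).2 ▸ mem_union_left _ (mem_image_of_mem _ heF))
  refine ⟨ext c, ?_, hoff, fun v => ?_⟩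
  · obtain ⟨e, he⟩ := Function.ne_iff.1 hc0
    exact ⟨e, by simpa [ext, e.2] using he⟩
  · by_cases hv : v = tl e0
    · have := rdiv_sum tl hd (ext c)
      rw [← add_sum_erase _ _ (mem_univ v), sum_eq_zero fun w hw =>
        hother w (hv ▸ (mem_erase.1 hw).1), add_zero] at this
      exact this
    · exact hother v hv

private theorem move_step (y d : E → ℝ) (hd0 : ∃ e, d e ≠ 0) :
    ∃ t : ℝ, 0 ≤ t ∧ (∀ e, (⌊y e⌋ : ℝ) ≤ y e + t * d e ∧ y e + t * d e ≤ ⌈y e⌉) ∧
      ∃ e, d e ≠ 0 ∧ Int.fract (y e + t * d e) = 0 := by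
  classical
  let τ : E → ℝ := fun e => if 0 < d e then (⌈y e⌉ - y e) / d e else (⌊y e⌋ - y e) / d e
  obtain ⟨e1, he1⟩ := hd0
  obtain ⟨e0, he0, hmin⟩ := exists_min_image {e | d e ≠ 0} τ ⟨e1, by simpa using he1⟩
  have hde0 : d e0 ≠ 0 := by simpa using he0
  have hτ : ∀ e, 0 ≤ τ e := by
    intro e
    simp only [τ]
    split_ifs with h
    · exact div_nonneg (sub_nonneg.2 (Int.le_ceil _)) h.le
    · exact div_nonneg_of_nonpos (sub_nonpos.2 (Int.floor_le _)) (not_lt.1 h)
  refine ⟨τ e0, hτ e0, fun e => ?_, e0, hde0, ?_⟩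
  · have hf := Int.floor_le (y e)
    have hc := Int.le_ceil (y e)
    rcases lt_trichotomy (d e) 0 with h | h | h
    · have := hmin e (by simpa using h.ne)
      have h3 : τ e = (⌊y e⌋ - y e) / d e := by simp [τ, h.le]
      have h4 : τ e * d e = ⌊y e⌋ - y e := by rw [h3, div_mul_cancel₀ _ h.ne]
      constructor
      · nlinarith
      · nlinarith [hτ e0]
    · simp [h, hf, hc]
    · have := hmin e (by simpa using h.ne')
      have h3 : τ e = (⌈y e⌉ - y e) / d e := by simp [τ, h]
      have h4 : τ e * d e = ⌈y e⌉ - y e := by rw [h3, div_mul_cancel₀ _ h.ne']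
      constructor
      · nlinarith [hτ e0]
      · nlinarith
  · simp only [τ]
    split_ifs with h
    · rw [div_mul_cancel₀ _ hde0]
      simp
    · rw [div_mul_cancel₀ _ hde0]
      simp

private theorem round_aux (tl hd : E → V) (ℓ : E → ℝ) (n : ℕ) :
    ∀ y : E → ℝ, #{e | Int.fract (y e) ≠ 0} ≤ n → (∀ v, ∃ k : ℤ, rdiv tl hd y v = k) →
      ∃ z : E → ℤ, (∀ e, ⌊y e⌋ ≤ z e ∧ z e ≤ ⌈y e⌉) ∧
        (∀ v, rdiv tl hd (fun e => (z e : ℝ)) v = rdiv tl hd y v) ∧
        ∑ e, ℓ e * z e ≤ ∑ e, ℓ e * y e := by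
  classical
  have base : ∀ y : E → ℝ, #{e | Int.fract (y e) ≠ 0} = 0 →
      ∃ z : E → ℤ, (∀ e, ⌊y e⌋ ≤ z e ∧ z e ≤ ⌈y e⌉) ∧
        (∀ v, rdiv tl hd (fun e => (z e : ℝ)) v = rdiv tl hd y v) ∧
        ∑ e, ℓ e * z e ≤ ∑ e, ℓ e * y e := by
    intro y h
    have h1 : ∀ e, ((⌊y e⌋ : ℤ) : ℝ) = y e := by
      intro e
      have : Int.fract (y e) = 0 := by
        by_contra hh
        have : e ∈ ({e | Int.fract (y e) ≠ 0} : Finset E) := by simpa using hh
        rw [card_eq_zero.1 h] at this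
        simp at this
      have h2 := Int.floor_add_fract (y e)
      linarith
    refine ⟨fun e => ⌊y e⌋, fun e => ⟨le_rfl, Int.floor_le_ceil _⟩, fun v => ?_, ?_⟩
    · simp only [h1]
    · simp only [h1, le_refl]
  induction n with
  | zero => exact fun y h _ => base y (Nat.le_zero.1 h)
  | succ n ih =>
    intro y hn hint
    set F : Finset E := {e | Int.fract (y e) ≠ 0} with hFdef
    rcases F.eq_empty_or_nonempty with h | h
    · exact base y (by rw [← hFdef, h, card_empty])
    have hF : ∀ e, e ∈ F ↔ Int.fract (y e) ≠ 0 := fun e => by simp [hFdef]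
    obtain ⟨d, hd0, hdF, hdiv, hℓ⟩ : ∃ d : E → ℝ, (∃ e, d e ≠ 0) ∧ (∀ e, e ∉ F → d e = 0) ∧
        (∀ v, rdiv tl hd d v = 0) ∧ ∑ e, ℓ e * d e ≤ 0 := by
      obtain ⟨d, hd0, hdF, hdiv⟩ := kernel_vec tl hd F h fun v hv => by
        obtain ⟨k, hk⟩ := hint v
        exact two_ends tl hd y F hF v k hk hv
      rcases le_total (∑ e, ℓ e * d e) 0 with hl | hl
      · exact ⟨d, hd0, hdF, hdiv, hl⟩
      · refine ⟨fun e => - d e, ?_, fun e he => by simp [hdF e he], fun v => ?_, ?_⟩
        · obtain ⟨e, he⟩ := hd0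
          exact ⟨e, neg_ne_zero.2 he⟩
        · have := hdiv v
          unfold rdiv at this ⊢
          simp only [sum_neg_distrib]
          linarith
        · simp only [mul_neg, sum_neg_distrib]
          linarith
    obtain ⟨t, ht0, hbd, e0, he0, he0'⟩ := move_step y d hd0
    have hsub : ({e | Int.fract (y e + t * d e) ≠ 0} : Finset E) ⊆ F.erase e0 := by
      intro e he
      simp only [mem_filter, mem_univ, true_and] at he
      refine mem_erase.2 ⟨fun h => he (h ▸ he0'), ?_⟩
      by_contra hh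
      rw [hdF e hh, mul_zero, add_zero] at he
      exact hh ((hF e).2 he)
    have he0F : e0 ∈ F := by
      by_contra hh
      exact he0 (hdF e0 hh)
    have hc := card_le_card hsub
    rw [card_erase_of_mem he0F] at hc
    obtain ⟨z, hz1, hz2, hz3⟩ := ih (fun e => y e + t * d e) (by omega) fun v => by
      rw [rdiv_add, hdiv, mul_zero, add_zero]
      exact hint v
    refine ⟨z, fun e => ⟨(Int.le_floor.2 (hbd e).1).trans (hz1 e).1,
      (hz1 e).2.trans (Int.ceil_le.2 (hbd e).2)⟩, fun v => ?_, hz3.trans ?_⟩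
    · rw [hz2, rdiv_add, hdiv, mul_zero, add_zero]
    · have : ∑ e, ℓ e * (y e + t * d e) = ∑ e, ℓ e * y e + t * ∑ e, ℓ e * d e := by
        rw [mul_sum, ← sum_add_distrib]
        exact sum_congr rfl fun e _ => by ring
      rw [this]
      nlinarith

end Flow

theorem round_flow {E V : Type*} [Fintype E] [Fintype V] [DecidableEq V] (tl hd : E → V)
    (hne : ∀ e, tl e ≠ hd e) (y ℓ : E → ℝ)
    (hint : ∀ v, ∃ k : ℤ, ∑ e with tl e = v, y e - ∑ e with hd e = v, y e = k) :
    ∃ z : E → ℤ, (∀ e, ⌊y e⌋ ≤ z e ∧ z e ≤ ⌈y e⌉) ∧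
      (∀ v, ∑ e with tl e = v, (z e : ℝ) - ∑ e with hd e = v, (z e : ℝ) =
        ∑ e with tl e = v, y e - ∑ e with hd e = v, y e) ∧
      ∑ e, ℓ e * z e ≤ ∑ e, ℓ e * y e := by
  have _ := hne
  exact round_aux tl hd ℓ _ y le_rfl hint

theorem round_matching {α β : Type*} [Fintype α] [Fintype β] [DecidableEq α] [DecidableEq β]
    (u ℓ : α → β → ℝ) (h0 : ∀ a b, 0 ≤ u a b) (hr : ∀ a, ∑ b, u a b ≤ 1)
    (hc : ∀ b, ∑ a, u a b ≤ 1) :
    ∃ μ : Finset (α × β), (∀ p ∈ μ, u p.1 p.2 ≠ 0) ∧
      (∀ p ∈ μ, ∀ q ∈ μ, p.1 = q.1 ∨ p.2 = q.2 → p = q) ∧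
      ∑ a, ∑ b, u a b < #μ + 1 ∧ ∑ p ∈ μ, ℓ p.1 p.2 ≤ ∑ a, ∑ b, ℓ a b * u a b := by
  classical
  set U := ∑ a, ∑ b, u a b with hU
  let y : Option α × Option β → ℝ := fun e => match e with
    | (some a, some b) => u a b
    | (some a, none) => 1 - ∑ b, u a b
    | (none, some b) => 1 - ∑ a, u a b
    | (none, none) => U - ⌊U⌋
  let ℓ' : Option α × Option β → ℝ := fun e => match e with
    | (some a, some b) => ℓ a b
    | _ => 0
  let tl : Option α × Option β → Option α ⊕ Option β := fun e => Sum.inl e.1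
  let hd : Option α × Option β → Option α ⊕ Option β := fun e => Sum.inr e.2
  have hl : ∀ (f : Option α × Option β → ℝ) (a : Option α),
      ∑ e with tl e = Sum.inl a, f e - ∑ e with hd e = Sum.inl a, f e = ∑ b, f (a, b) := by
    intro f a
    rw [sum_filter, sum_filter, Fintype.sum_prod_type]
    simp [tl, hd]
  have hrr : ∀ (f : Option α × Option β → ℝ) (b : Option β),
      ∑ e with tl e = Sum.inr b, f e - ∑ e with hd e = Sum.inr b, f e = - ∑ a, f (a, b) := by
    intro f b
    rw [sum_filter, sum_filter, Fintype.sum_prod_type, Fintype.sum_prod_type]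
    simp [tl, hd]
  have s1 : ∀ a, ∑ b, y (some a, b) = 1 := fun a => by simp [y, Fintype.sum_option]
  have s2 : ∀ b, ∑ a, y (a, some b) = 1 := fun b => by simp [y, Fintype.sum_option]
  have s3 : ∑ b, y (none, b) = Fintype.card β - ⌊U⌋ := by
    simp only [y, Fintype.sum_option, sum_sub_distrib, sum_const, card_univ, nsmul_eq_mul, mul_one]
    rw [sum_comm, ← hU]
    ring
  have s4 : ∑ a, y (a, none) = Fintype.card α - ⌊U⌋ := by
    simp only [y, Fintype.sum_option, sum_sub_distrib, sum_const, card_univ, nsmul_eq_mul, mul_one]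
    rw [← hU]
    ring
  obtain ⟨z, hz1, hz2, hz3⟩ := round_flow tl hd (fun e => by simp [tl, hd]) y ℓ' fun v => by
    rcases v with (_ | a) | (_ | b)
    · exact ⟨Fintype.card β - ⌊U⌋, by rw [hl, s3]; push_cast; ring⟩
    · exact ⟨1, by rw [hl, s1]; simp⟩
    · exact ⟨-(Fintype.card α - ⌊U⌋), by rw [hrr, s4]; push_cast; ring⟩
    · exact ⟨-1, by rw [hrr, s2]; simp⟩
  have hy0 : ∀ e, 0 ≤ y e := by
    rintro ⟨_ | a, _ | b⟩
    · exact sub_nonneg.2 (Int.floor_le U)
    · exact sub_nonneg.2 (hc b)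
    · exact sub_nonneg.2 (hr a)
    · exact h0 a b
  have hz0 : ∀ e, 0 ≤ z e := fun e => (Int.floor_nonneg.2 (hy0 e)).trans (hz1 e).1
  have r1 : ∀ a, ∑ b, z (some a, b) = 1 := by
    intro a
    have := hz2 (Sum.inl (some a))
    rw [hl, hl, s1] at this
    exact_mod_cast this
  have r2 : ∀ b, ∑ a, z (a, some b) = 1 := by
    intro b
    have := hz2 (Sum.inr (some b))
    rw [hrr, hrr, s2, neg_inj] at this
    exact_mod_cast this
  have r3 : ∑ b, z (none, b) = Fintype.card β - ⌊U⌋ := by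
    have := hz2 (Sum.inl none)
    rw [hl, hl, s3] at this
    exact_mod_cast this
  have hz01 : ∀ a b, z (some a, some b) = 0 ∨ z (some a, some b) = 1 := by
    intro a b
    have h1 := single_le_sum (f := fun b => z (some a, b)) (fun b _ => hz0 _) (mem_univ (some b))
    have h2 := hz0 (some a, some b)
    rw [r1] at h1
    omega
  set μ : Finset (α × β) := {p | z (some p.1, some p.2) = 1} with hμ
  have hsum : ∀ f : α → β → ℝ,
      ∑ p ∈ μ, f p.1 p.2 = ∑ a, ∑ b, f a b * z (some a, some b) := by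
    intro f
    rw [hμ, sum_filter, Fintype.sum_prod_type]
    refine sum_congr rfl fun a _ => sum_congr rfl fun b _ => ?_
    rcases hz01 a b with h | h <;> simp [h]
  refine ⟨μ, fun p hp h => ?_, fun p hp q hq h => ?_, ?_, ?_⟩
  · have h1 : z (some p.1, some p.2) = 1 := by simpa [hμ] using hp
    have h2 := (hz1 (some p.1, some p.2)).2
    simp only [y, h, h1, Int.ceil_zero] at h2
    omega
  · have h1 : z (some p.1, some p.2) = 1 := by simpa [hμ] using hp
    have h2 : z (some q.1, some q.2) = 1 := by simpa [hμ] using hq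
    by_contra hpq
    rcases h with h | h
    · have hb : p.2 ≠ q.2 := fun h' => hpq (Prod.ext h h')
      have := add_le_sum (f := fun b => z (some p.1, b)) (fun b _ => hz0 _)
        (mem_univ (some p.2)) (mem_univ (some q.2)) (by simpa using hb)
      rw [r1, h1, h, h2] at this
      omega
    · have ha : p.1 ≠ q.1 := fun h' => hpq (Prod.ext h' h)
      have := add_le_sum (f := fun a => z (a, some p.2)) (fun b _ => hz0 _)
        (mem_univ (some p.1)) (mem_univ (some q.1)) (by simpa using ha)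
      rw [r2, h1, h, h2] at this
      omega
  · have h1 := hsum fun _ _ => 1
    simp only [sum_const, nsmul_eq_mul, mul_one, one_mul] at h1
    have h2 : ∑ a, ∑ b, z (some a, some b) = ⌊U⌋ + z (none, none) := by
      have h3 : ∑ b, ∑ a, z (a, some b) = Fintype.card β := by simp [r2]
      simp only [Fintype.sum_option, sum_add_distrib] at h3 r3
      rw [sum_comm]
      omega
    have h4 : (#μ : ℝ) = ⌊U⌋ + z (none, none) := by
      rw [h1]
      exact_mod_cast h2
    have h5 : (0 : ℝ) ≤ z (none, none) := by exact_mod_cast hz0 _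
    have h6 := Int.lt_floor_add_one U
    linarith
  · rw [hsum]
    simpa [Fintype.sum_prod_type, Fintype.sum_option, ℓ', y] using hz3

end Pool.Agent.Lib.MP_9dc2ba_co.Large
end
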