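import Mathlib
import Pool.Agent.Lib.MP_9dc2ba_co.Large.Prob

-- part Pool.Agent.Lib.MP_9dc2ba_co.Large.PlaceV
section

/-!
Placement of symbols (tripod centres) and of columns (nodes).
-/

open Finset

set_option linter.unusedSectionVars false

namespace Pool.Agent.Lib.MP_9dc2ba_co.Large

variable {I J X : Type*} [Fintype I] [Fintype J] [Fintype X] [DecidableEq I] [DecidableEq J]
  [DecidableEq X]

namespace PV

@[simp] theorem cel_symLn (C : Finset I) (r : Option J) (y : X) (i : I) (j : J) :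
    cel i j ∉ (symLn C r y : Finset (Ln I J X)) := by
  simp [symLn]

@[simp] theorem sym_symLn (C : Finset I) (r : Option J) (y x : X) (i : I) :
    sym x i ∈ (symLn C r y : Finset (Ln I J X)) ↔ y = x ∧ i ∈ C := by
  simp only [symLn, mem_union, mem_image, Ln.sym.injEq, reduceCtorEq, and_false, exists_false,
    or_false]
  constructor
  · rintro ⟨a, ha, h1, rfl⟩
    exact ⟨h1, ha⟩
  · rintro ⟨h1, h2⟩
    exact ⟨i, h2, h1, rfl⟩

@[simp] theorem edg_symLn (C : Finset I) (r : Option J) (y x : X) (j : J) :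
    edg j x ∈ (symLn C r y : Finset (Ln I J X)) ↔ r = some j ∧ y = x := by
  simp only [symLn, mem_union, mem_image, reduceCtorEq, and_false, exists_false, Ln.edg.injEq,
    false_or, Option.mem_toFinset, Option.mem_def]
  constructor
  · rintro ⟨a, ha, rfl, h1⟩
    exact ⟨ha, h1⟩
  · rintro ⟨h1, h2⟩
    exact ⟨j, h1, rfl, h2⟩

@[simp] theorem cel_colLn (P : Finset I) (a : Option X) (q j : J) (i : I) :
    cel i j ∈ (colLn P a q : Finset (Ln I J X)) ↔ q = j ∧ i ∈ P := by
  simp only [colLn, mem_union, mem_image, Ln.cel.injEq, reduceCtorEq, and_false, exists_false,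
    or_false]
  constructor
  · rintro ⟨b, hb, rfl, h1⟩
    exact ⟨h1, hb⟩
  · rintro ⟨h1, h2⟩
    exact ⟨i, h2, rfl, h1⟩

@[simp] theorem sym_colLn (P : Finset I) (a : Option X) (q : J) (x : X) (i : I) :
    sym x i ∉ (colLn P a q : Finset (Ln I J X)) := by
  simp [colLn]

@[simp] theorem edg_colLn (P : Finset I) (a : Option X) (q j : J) (x : X) :
    edg j x ∈ (colLn P a q : Finset (Ln I J X)) ↔ a = some x ∧ q = j := by
  simp only [colLn, mem_union, mem_image, reduceCtorEq, and_false, exists_false, Ln.edg.injEq,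
    false_or, Option.mem_toFinset, Option.mem_def]
  constructor
  · rintro ⟨b, hb, h1, rfl⟩
    exact ⟨hb, h1⟩
  · rintro ⟨h1, h2⟩
    exact ⟨x, h1, h2, rfl⟩

theorem card_opt_le {α : Type*} (r : Option α) : #r.toFinset ≤ 1 := by
  cases r <;> simp

theorem card_symLn (C : Finset I) (r : Option J) (y : X) :
    #(symLn C r y : Finset (Ln I J X)) ≤ #C + 1 :=
  (card_union_le _ _).trans (add_le_add card_image_le (card_image_le.trans (card_opt_le r)))

theorem card_colLn (P : Finset I) (a : Option X) (q : J) :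
    #(colLn P a q : Finset (Ln I J X)) ≤ #P + 1 :=
  (card_union_le _ _).trans (add_le_add card_image_le (card_image_le.trans (card_opt_le a)))

/-- A set contained in a singleton, empty unless `c`. -/
theorem card_le_ite {α : Type*} [Fintype α] (p : α → Prop) [DecidablePred p] (y : α) (c : Prop)
    [Decidable c] (h : ∀ a, p a → a = y ∧ c) : (#{a | p a} : ℝ) ≤ if c then 1 else 0 := by
  split_ifs with hc
  · have : #{a | p a} ≤ 1 := card_le_one.2 fun a ha b hb => by
      simp only [mem_filter, mem_univ, true_and] at ha hb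
      rw [(h a ha).1, (h b hb).1]
    exact_mod_cast this
  · have : ({a | p a} : Finset α) = ∅ := filter_eq_empty_iff.2 fun a _ ha => hc (h a ha).2
    simp [this]

/-- A set contained in `S`, empty unless `c`. -/
theorem card_le_ite' {α : Type*} [Fintype α] (p : α → Prop) [DecidablePred p] (S : Finset α)
    (c : Prop) [Decidable c] (h : ∀ a, p a → a ∈ S ∧ c) :
    (#{a | p a} : ℝ) ≤ if c then (#S : ℝ) else 0 := by
  split_ifs with hc
  · have : #{a | p a} ≤ #S := card_le_card fun a ha => by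
      simp only [mem_filter, mem_univ, true_and] at ha
      exact (h a ha).1
    exact_mod_cast this
  · have : ({a | p a} : Finset α) = ∅ := filter_eq_empty_iff.2 fun a _ ha => hc (h a ha).2
    simp [this]

theorem sum_ite_le {T : Type*} [Fintype T] (p : T → Prop) [DecidablePred p] (c K : ℝ)
    (hc : 0 ≤ c) (h : (#{τ | p τ} : ℝ) ≤ K) : ∑ τ, (if p τ then c else 0) ≤ K * c := by
  rw [← sum_filter, sum_const, nsmul_eq_mul]
  exact mul_le_mul_of_nonneg_right h hc

theorem card_root_le {T α : Type*} [Fintype T] [DecidableEq T] [DecidableEq α]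
    (root : T → Option α) (S : Finset α) (K : ℝ)
    (h : ∀ j, (#{τ | root τ = some j} : ℝ) ≤ K) :
    (#{τ | ∃ j ∈ S, root τ = some j} : ℝ) ≤ #S * K := by
  have h1 : ({τ | ∃ j ∈ S, root τ = some j} : Finset T) ⊆
      S.biUnion fun j => {τ | root τ = some j} := by
    intro τ hτ
    simpa using hτ
  have h2 := (card_le_card h1).trans card_biUnion_le
  calc (#{τ | ∃ j ∈ S, root τ = some j} : ℝ) ≤ ∑ j ∈ S, (#{τ | root τ = some j} : ℝ) := by
        exact_mod_cast h2
    _ ≤ ∑ _j ∈ S, K := sum_le_sum fun j _ => h j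
    _ = #S * K := by rw [sum_const, nsmul_eq_mul]

theorem sum_card_le {T : Type*} [Fintype T] (C : T → Finset I) (K : ℝ)
    (h : ∀ i, (#{τ | i ∈ C τ} : ℝ) ≤ K) : ∑ τ, (#(C τ) : ℝ) ≤ Fintype.card I * K := by
  have h1 : ∀ τ, (#(C τ) : ℝ) = ∑ i, if i ∈ C τ then (1 : ℝ) else 0 := fun τ => by simp
  simp only [h1]
  rw [sum_comm]
  calc ∑ i, ∑ τ, (if i ∈ C τ then (1 : ℝ) else 0) ≤ ∑ _i : I, K :=
        sum_le_sum fun i _ => by simpa using h i
    _ = Fintype.card I * K := by rw [sum_const, nsmul_eq_mul, card_univ]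

/-- Options that are not blocked. -/
theorem avail {O β : Type*} [DecidableEq O] [DecidableEq β] (Cand : Finset O) (ln : O → Finset β)
    (U : Finset β) (Bad : Finset O) (h : ∀ o ∈ Cand, ¬ Disjoint (ln o) U → o ∈ Bad) :
    (#Cand : ℝ) - #Bad ≤ #{o ∈ Cand | Disjoint (ln o) U} := by
  have h1 : Cand ⊆ {o ∈ Cand | Disjoint (ln o) U} ∪ Bad := by
    intro o ho
    by_cases hd : Disjoint (ln o) U
    · exact mem_union_left _ (mem_filter.2 ⟨ho, hd⟩)
    · exact mem_union_right _ (h o ho hd)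
  have h2 := (card_le_card h1).trans (card_union_le _ _)
  have h3 : (#Cand : ℝ) ≤ #{o ∈ Cand | Disjoint (ln o) U} + #Bad := by exact_mod_cast h2
  linarith

theorem card_biUnion_le_mul {α β : Type*} [DecidableEq β] (S : Finset α) (f : α → Finset β)
    (K : ℝ) (h : ∀ a ∈ S, (#(f a) : ℝ) ≤ K) : (#(S.biUnion f) : ℝ) ≤ #S * K := by
  calc (#(S.biUnion f) : ℝ) ≤ ∑ a ∈ S, (#(f a) : ℝ) := by exact_mod_cast card_biUnion_le
    _ ≤ ∑ _a ∈ S, K := sum_le_sum h
    _ = #S * K := by rw [sum_const, nsmul_eq_mul]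

theorem sum_point {O : Type*} [DecidableEq O] (Cand : Finset O) (x : O) (f : O → ℝ) (c : ℝ)
    (h : ∀ o ∈ Cand, f o ≤ if o = x then c else 0) :
    ∑ o ∈ Cand, f o ≤ if x ∈ Cand then c else 0 := by
  refine (sum_le_sum h).trans (le_of_eq ?_)
  rw [sum_ite_eq']

theorem sum_filt {O : Type*} (Cand : Finset O) (p : O → Prop) [DecidablePred p] (c : Prop)
    [Decidable c] (f : O → ℝ) (h : ∀ o ∈ Cand, f o ≤ if p o ∧ c then 1 else 0) :
    ∑ o ∈ Cand, f o ≤ if c then (#{o ∈ Cand | p o} : ℝ) else 0 := by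
  refine (sum_le_sum h).trans (le_of_eq ?_)
  by_cases hc : c <;> simp [hc]

theorem L_nonneg {n : ℕ} (hn : 100 ≤ n) {L : ℝ} (hL : (n : ℝ) ^ 6 ≤ Real.exp L) : 1 ≤ L := by
  have h1 : (100 : ℝ) ≤ n := by exact_mod_cast hn
  have h2 : (100 : ℝ) ^ 6 ≤ (n : ℝ) ^ 6 := by gcongr
  by_contra h
  push Not at h
  have h3 : Real.exp L < Real.exp 1 := Real.exp_lt_exp.2 h
  have h4 := Real.exp_one_lt_d9
  linarith

theorem sparse_nonneg {D : Des I J X} (hn : 100 ≤ D.n) {U : Finset (Ln I J X)} {t : ℝ}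
    (h : Sparse D U t) : 0 ≤ t := by
  have h1 : 0 < Fintype.card J := lt_of_lt_of_le (by omega) D.n_le_c
  obtain ⟨j⟩ := Fintype.card_pos_iff.1 h1
  exact le_trans (Nat.cast_nonneg _) (h.cJ j)

theorem colsym_le (D : Des I J X) (hn : 100 ≤ D.n) (j : J) (S : Finset X)
    (h : ∀ y ∈ S, j ∈ D.B y) : (#S : ℝ) ≤ 2 * D.n := by
  have h1 : S ⊆ ({y | j ∈ D.B y} : Finset X) := fun y hy => by simpa using h y hy
  have h2 := card_le_card h1
  rw [D.degJ] at h2
  have h3 := D.lam_lt (by omega)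
  have : #S ≤ 2 * D.n := by omega
  exact_mod_cast this

end PV

open PV

theorem place_sym (D : Des I J X) (hn : 100 ≤ D.n) {T : Type*} [Fintype T] [DecidableEq T]
    (C : T → Finset I) (root : T → Option J) (Cand : T → Finset X) (U0 : Finset (Ln I J X))
    (t0 t ml β L : ℝ) (hml0 : 0 < ml) (hml : ml ≤ D.n) (hβ : 0 ≤ β) (hC : ∀ τ, #(C τ) ≤ 3)
    (hCand : ∀ τ j, root τ = some j → ∀ y ∈ Cand τ, j ∈ D.B y)
    (hloc : ∀ τ j, root τ = some j → 2 * ml ≤ #(Cand τ))
    (hglob : ∀ τ, root τ = none → (Fintype.card J : ℝ) / 10 ≤ #(Cand τ))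
    (load1 : ∀ j, (#{τ | root τ = some j} : ℝ) ≤ β * D.n)
    (load2 : ∀ i, (#{τ | i ∈ C τ} : ℝ) ≤ β * Fintype.card J)
    (hU0 : Sparse D U0 t0) (hsm : 4 * (t0 + t) ≤ ml) (hsm' : 60 * (t0 + t) ≤ D.n)
    (hL : (D.n : ℝ) ^ 6 ≤ Real.exp L) (ht : 130 * β * D.n * (D.n / ml) + 4 * L ≤ t) :
    ∃ y : T → X, (∀ τ, y τ ∈ Cand τ ∧ Disjoint (symLn (C τ) (root τ) (y τ)) U0) ∧
      (∀ τ τ', τ ≠ τ' →
        Disjoint (symLn (C τ) (root τ) (y τ) : Finset (Ln I J X)) (symLn (C τ') (root τ') (y τ'))) ∧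
      Sparse D (univ.biUnion fun τ => symLn (C τ) (root τ) (y τ)) t := by
  have hN : (100 : ℝ) ≤ D.n := by exact_mod_cast hn
  have hc : (D.n : ℝ) ≤ Fintype.card J := by exact_mod_cast D.n_le_c
  have hr : (Fintype.card I : ℝ) ≤ 2 * D.n := by exact_mod_cast D.r_le (by omega)
  have hcl : (Fintype.card J : ℝ) * D.lam ≤ 2 * (D.n * D.n) := by exact_mod_cast D.le_sq
  set c : ℝ := (Fintype.card J : ℝ) with hcdef
  have hc0 : 0 < c := by linarith
  have hC' : ∀ τ, (#(C τ) : ℝ) ≤ 3 := fun τ => by exact_mod_cast hC τ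
  set q : ℝ := (D.n : ℝ) / ml with hq
  have hq1 : 1 ≤ q := (one_le_div hml0).2 hml
  have hβn : 0 ≤ β * D.n := by positivity
  have hb1 : β * D.n ≤ β * D.n * q := le_mul_of_one_le_right hβn hq1
  set m : T → ℝ := fun τ => if root τ = none then c / 20 else ml with hm
  have hm0 : ∀ τ, 0 < m τ := fun τ => by
    simp only [hm]
    split_ifs
    · positivity
    · exact hml0
  have hms : ∀ τ j, root τ = some j → m τ = ml := fun τ j h => by simp [hm, h]
  have hmn : ∀ τ, root τ = none → m τ = c / 20 := fun τ h => by simp [hm, h]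
  refine place D hn (fun τ y => symLn (C τ) (root τ) y) Cand m hm0 U0 t0 t (44 * (β * D.n * q)) 4 L
    hU0 (by norm_num) ?_ ?_ ?_ ?_ ?_ ?_ ?_ ?_ hL (by nlinarith)
  · intro τ o _
    have := card_symLn (X := X) (C τ) (root τ) o
    have h2 := hC τ
    exact_mod_cast (by omega : #(symLn (C τ) (root τ) o : Finset (Ln I J X)) ≤ 4)
  · intro U hU τ
    have ht0 := sparse_nonneg hn hU
    cases hro : root τ with
    | none =>
      rw [hmn τ hro]
      have h1 := avail (Cand τ) (fun y => (symLn (C τ) none y : Finset (Ln I J X))) U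
        ((C τ).biUnion fun i => {y | sym y i ∈ U}) (by
          intro o _ hd
          obtain ⟨l, hl, hlU⟩ := not_disjoint_iff.1 hd
          cases l with
          | cel i j => simp at hl
          | sym x i =>
            obtain ⟨rfl, hi⟩ := (sym_symLn _ _ _ _ _).1 hl
            simp only [mem_biUnion, mem_filter, mem_univ, true_and]
            exact ⟨i, hi, hlU⟩
          | edg j x => simp at hl)
      have h2 := card_biUnion_le_mul (C τ) (fun i => ({y | sym y i ∈ U} : Finset X))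
        ((t0 + t) * c / D.n) fun i _ => D.sI_le (by omega) hU.sN i
      have h3 : (t0 + t) * c / D.n ≤ c / 60 := by
        rw [div_le_div_iff₀ (by linarith) (by norm_num)]
        nlinarith
      have h4 : (#(C τ) : ℝ) * ((t0 + t) * c / D.n) ≤ 3 * (c / 60) :=
        mul_le_mul (hC' τ) h3 (by positivity) (by norm_num)
      have h5 := hglob τ hro
      linarith
    | some j =>
      rw [hms τ j hro]
      have h1 := avail (Cand τ) (fun y => (symLn (C τ) (some j) y : Finset (Ln I J X))) U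
        (((C τ).biUnion fun i => {y | j ∈ D.B y ∧ sym y i ∈ U}) ∪
          ({y | edg j y ∈ U} : Finset X)) (by
          intro o ho hd
          obtain ⟨l, hl, hlU⟩ := not_disjoint_iff.1 hd
          cases l with
          | cel i j => simp at hl
          | sym x i =>
            obtain ⟨rfl, hi⟩ := (sym_symLn _ _ _ _ _).1 hl
            simp only [mem_union, mem_biUnion, mem_filter, mem_univ, true_and]
            exact Or.inl ⟨i, hi, hCand τ j hro o ho, hlU⟩
          | edg j' x =>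
            obtain ⟨h1, rfl⟩ := (edg_symLn _ _ _ _ _).1 hl
            obtain rfl : j = j' := by simpa using h1
            simp only [mem_union, mem_filter, mem_univ, true_and]
            exact Or.inr hlU)
      have h2 := card_biUnion_le_mul (C τ) (fun i => ({y | j ∈ D.B y ∧ sym y i ∈ U} : Finset X))
        (t0 + t) fun i _ => hU.sN j i
      have h3 : (#({y | edg j y ∈ U} : Finset X) : ℝ) ≤ t0 + t := hU.eJ j
      have h4 : (#(C τ) : ℝ) * (t0 + t) ≤ 3 * (t0 + t) :=
        mul_le_mul_of_nonneg_right (hC' τ) ht0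
      have h5 := hloc τ j hro
      have h6 : (#(((C τ).biUnion fun i => ({y | j ∈ D.B y ∧ sym y i ∈ U} : Finset X)) ∪
          ({y | edg j y ∈ U} : Finset X)) : ℝ) ≤
          #((C τ).biUnion fun i => ({y | j ∈ D.B y ∧ sym y i ∈ U} : Finset X)) +
          #({y | edg j y ∈ U} : Finset X) := by exact_mod_cast card_union_le _ _
      linarith
  · intro j
    simp only [cJ, cel_symLn, filter_false, card_empty, Nat.cast_zero, sum_const_zero, zero_div]
    positivity
  · intro x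
    have key : ∀ τ, (∑ o ∈ Cand τ, (sX (symLn (C τ) (root τ) o : Finset (Ln I J X)) x : ℝ)) / m τ ≤
        (if ∃ j ∈ D.B x, root τ = some j then 3 / ml else 0) + #(C τ) * (20 / c) := by
      intro τ
      have h1 := sum_point (Cand τ) x
        (fun o => (sX (symLn (C τ) (root τ) o : Finset (Ln I J X)) x : ℝ)) (#(C τ)) fun o _ =>
          card_le_ite' _ _ _ fun i hi => ((sym_symLn _ _ _ _ _).1 hi).symm
      refine (div_le_div_of_nonneg_right h1 (hm0 τ).le).trans ?_
      have h0 : (0 : ℝ) ≤ #(C τ) * (20 / c) := by positivity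
      by_cases hx : x ∈ Cand τ
      · rw [if_pos hx]
        cases hro : root τ with
        | none =>
          rw [hmn τ hro]
          simp only [reduceCtorEq, and_false, exists_false, if_false, zero_add]
          exact le_of_eq (by field_simp)
        | some j =>
          rw [hms τ j hro, if_pos ⟨j, hCand τ j hro x hx, rfl⟩]
          have := div_le_div_of_nonneg_right (hC' τ) hml0.le
          linarith
      · rw [if_neg hx, zero_div]
        split_ifs
        · positivity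
        · linarith
    refine (sum_le_sum fun τ _ => key τ).trans ?_
    rw [sum_add_distrib, ← sum_mul]
    have h1 := sum_ite_le (fun τ => ∃ j ∈ D.B x, root τ = some j) (3 / ml) _ (by positivity)
      (card_root_le root (D.B x) _ load1)
    have h2 := mul_le_mul_of_nonneg_right (sum_card_le C _ load2) (by positivity : 0 ≤ 20 / c)
    rw [D.cardB] at h1
    have h3 : (D.n : ℝ) * (β * D.n) * (3 / ml) = 3 * (β * D.n * q) := by
      rw [hq]; field_simp
    have h4 : (Fintype.card I : ℝ) * (β * c) * (20 / c) = 20 * (β * Fintype.card I) := by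
      field_simp
    have h5 : β * (Fintype.card I : ℝ) ≤ β * (2 * D.n) := mul_le_mul_of_nonneg_left hr hβ
    linarith
  · intro j
    have key : ∀ τ, (∑ o ∈ Cand τ, (eJ (symLn (C τ) (root τ) o : Finset (Ln I J X)) j : ℝ)) / m τ ≤
        (if root τ = some j then 2 * D.n / ml else 0) := by
      intro τ
      have h1 := sum_filt (Cand τ) (fun _ => True) (root τ = some j)
        (fun o => (eJ (symLn (C τ) (root τ) o : Finset (Ln I J X)) j : ℝ)) fun o _ =>
          card_le_ite _ o _ fun x hx => by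
            have := (edg_symLn _ _ _ _ _).1 hx
            exact ⟨this.2.symm, trivial, this.1⟩
      refine (div_le_div_of_nonneg_right h1 (hm0 τ).le).trans ?_
      split_ifs with hro
      · rw [hms τ j hro]
        exact div_le_div_of_nonneg_right (colsym_le D hn j _ fun y hy =>
          hCand τ j hro y (mem_filter.1 hy).1) hml0.le
      · simp
    refine (sum_le_sum fun τ _ => key τ).trans ?_
    have h1 := sum_ite_le (fun τ => root τ = some j) (2 * D.n / ml) _ (by positivity) (load1 j)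
    have h3 : β * D.n * (2 * D.n / ml) = 2 * (β * D.n * q) := by
      rw [hq]; field_simp
    linarith
  · intro x
    have key : ∀ τ, (∑ o ∈ Cand τ, (eX (symLn (C τ) (root τ) o : Finset (Ln I J X)) x : ℝ)) / m τ ≤
        (if ∃ j ∈ D.B x, root τ = some j then 1 / ml else 0) := by
      intro τ
      cases hro : root τ with
      | none => simp [eX]
      | some j =>
        have h1 := sum_point (Cand τ) x
          (fun o => (eX (symLn (C τ) (some j) o : Finset (Ln I J X)) x : ℝ)) 1 fun o _ =>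
            card_le_ite _ j _ fun j' hj' => by
              have := (edg_symLn _ _ _ _ _).1 hj'
              exact ⟨(Option.some.inj this.1).symm, this.2⟩
        rw [hms τ j hro]
        refine (div_le_div_of_nonneg_right h1 hml0.le).trans ?_
        by_cases hx : x ∈ Cand τ
        · rw [if_pos hx, if_pos ⟨j, hCand τ j hro x hx, rfl⟩]
        · rw [if_neg hx, zero_div]
          split_ifs
          · positivity
          · exact le_rfl
    refine (sum_le_sum fun τ _ => key τ).trans ?_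
    have h1 := sum_ite_le (fun τ => ∃ j ∈ D.B x, root τ = some j) (1 / ml) _ (by positivity)
      (card_root_le root (D.B x) _ load1)
    rw [D.cardB] at h1
    have h3 : (D.n : ℝ) * (β * D.n) * (1 / ml) = β * D.n * q := by
      rw [hq]; field_simp
    linarith
  · intro x i
    simp only [cN, cel_symLn, and_false, filter_false, card_empty, Nat.cast_zero, sum_const_zero,
      zero_div]
    positivity
  · intro j i
    have key : ∀ τ,
        (∑ o ∈ Cand τ, (sN D (symLn (C τ) (root τ) o : Finset (Ln I J X)) j i : ℝ)) / m τ ≤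
        (if root τ = some j then 2 * D.n / ml else 0) +
          (if i ∈ C τ then D.lam / ml + 2 * D.n / (c / 20) else 0) := by
      intro τ
      have h1 := sum_filt (Cand τ) (fun o => j ∈ D.B o) (i ∈ C τ)
        (fun o => (sN D (symLn (C τ) (root τ) o : Finset (Ln I J X)) j i : ℝ)) fun o _ =>
          card_le_ite _ o _ fun x hx => by
            obtain ⟨rfl, hi⟩ := (sym_symLn _ _ _ _ _).1 hx.2
            exact ⟨rfl, hx.1, hi⟩
      refine (div_le_div_of_nonneg_right h1 (hm0 τ).le).trans ?_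
      have h2 := colsym_le D hn j {o ∈ Cand τ | j ∈ D.B o} fun y hy => (mem_filter.1 hy).2
      have p1 : (0 : ℝ) ≤ D.lam / ml := by positivity
      have p2 : (0 : ℝ) ≤ 2 * D.n / (c / 20) := by positivity
      have p3 : (0 : ℝ) ≤ 2 * D.n / ml := by positivity
      by_cases hi : i ∈ C τ
      · rw [if_pos hi, if_pos hi]
        cases hro : root τ with
        | none =>
          rw [hmn τ hro]
          have := div_le_div_of_nonneg_right h2 (by positivity : 0 ≤ c / 20)
          simp only [reduceCtorEq, if_false]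
          linarith
        | some j' =>
          rw [hms τ j' hro]
          by_cases hj : j' = j
          · rw [if_pos (by rw [hj])]
            have := div_le_div_of_nonneg_right h2 hml0.le
            linarith
          · have h3 : #{o ∈ Cand τ | j ∈ D.B o} ≤ D.lam := by
              rw [← D.cc j' j hj]
              refine card_le_card fun o ho => ?_
              simp only [mem_filter, mem_univ, true_and] at ho ⊢
              exact ⟨hCand τ j' hro o ho.1, ho.2⟩
            have h4 : (#{o ∈ Cand τ | j ∈ D.B o} : ℝ) ≤ D.lam := by exact_mod_cast h3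
            have := div_le_div_of_nonneg_right h4 hml0.le
            rw [if_neg (by simpa using hj)]
            linarith
      · rw [if_neg hi, if_neg hi, zero_div]
        split_ifs <;> linarith
    refine (sum_le_sum fun τ _ => key τ).trans ?_
    rw [sum_add_distrib]
    have h1 := sum_ite_le (fun τ => root τ = some j) (2 * D.n / ml) _ (by positivity) (load1 j)
    have h2 := sum_ite_le (fun τ => i ∈ C τ) (D.lam / ml + 2 * D.n / (c / 20)) _ (by positivity)
      (load2 i)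
    have h3 : β * D.n * (2 * D.n / ml) = 2 * (β * D.n * q) := by
      rw [hq]; field_simp
    have h4 : β * c * (D.lam / ml + 2 * D.n / (c / 20)) =
        β * (c * D.lam) / ml + 40 * (β * D.n) := by
      field_simp
      ring
    have h5 : β * (c * D.lam) / ml ≤ β * (2 * (D.n * D.n)) / ml := by gcongr
    have h6 : β * (2 * (D.n * D.n)) / ml = 2 * (β * D.n * q) := by
      rw [hq]; field_simp
    linarith

theorem place_col (D : Des I J X) (hn : 100 ≤ D.n) {T : Type*} [Fintype T] [DecidableEq T]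
    (P : T → Finset I) (anc : T → Option X) (Cand : T → Finset J) (U0 : Finset (Ln I J X))
    (s : ℕ) (hs : 1 ≤ s) (t0 t β L : ℝ) (hβ : 0 ≤ β) (hP : ∀ τ, #(P τ) ≤ s)
    (hCand : ∀ τ y, anc τ = some y → Cand τ ⊆ D.B y)
    (hloc : ∀ τ y, anc τ = some y → (D.n : ℝ) / 2 ≤ #(Cand τ))
    (hglob : ∀ τ, anc τ = none → (Fintype.card J : ℝ) / 2 ≤ #(Cand τ))
    (load1 : ∀ y, (#{τ | anc τ = some y} : ℝ) ≤ β * D.n)
    (load2 : ∀ i, (#{τ | i ∈ P τ} : ℝ) ≤ β * Fintype.card J)
    (hU0 : Sparse D U0 t0) (hsm : 8 * s * (t0 + t) ≤ D.n)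
    (hL : (D.n : ℝ) ^ 6 ≤ Real.exp L) (ht : 32 * s * β * D.n + 2 * s * L ≤ t) :
    ∃ φ : T → J, (∀ τ, φ τ ∈ Cand τ ∧ Disjoint (colLn (P τ) (anc τ) (φ τ)) U0) ∧
      (∀ τ τ', τ ≠ τ' →
        Disjoint (colLn (P τ) (anc τ) (φ τ) : Finset (Ln I J X)) (colLn (P τ') (anc τ') (φ τ'))) ∧
      Sparse D (univ.biUnion fun τ => colLn (P τ) (anc τ) (φ τ)) t := by
  have hN : (100 : ℝ) ≤ D.n := by exact_mod_cast hn
  have hN0 : (0 : ℝ) < D.n := by linarith
  have hc : (D.n : ℝ) ≤ Fintype.card J := by exact_mod_cast D.n_le_c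
  have hr : (Fintype.card I : ℝ) ≤ 2 * D.n := by exact_mod_cast D.r_le (by omega)
  have hcl : (Fintype.card J : ℝ) * D.lam ≤ 2 * (D.n * D.n) := by exact_mod_cast D.le_sq
  set c : ℝ := (Fintype.card J : ℝ) with hcdef
  have hc0 : 0 < c := by linarith
  have hP' : ∀ τ, (#(P τ) : ℝ) ≤ s := fun τ => by exact_mod_cast hP τ
  have hs' : (1 : ℝ) ≤ s := by exact_mod_cast hs
  have hβn : 0 ≤ β * D.n := by positivity
  have hb1 : β * D.n ≤ s * (β * D.n) := le_mul_of_one_le_left hβn hs'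
  have hL1 := L_nonneg hn hL
  set m : T → ℝ := fun τ => if anc τ = none then c / 4 else D.n / 4 with hm
  have hm0 : ∀ τ, 0 < m τ := fun τ => by
    simp only [hm]
    split_ifs <;> positivity
  have hms : ∀ τ y, anc τ = some y → m τ = D.n / 4 := fun τ j h => by simp [hm, h]
  have hmn : ∀ τ, anc τ = none → m τ = c / 4 := fun τ h => by simp [hm, h]
  have hsy : ∀ j, (#{τ | ∃ y ∈ ({y | j ∈ D.B y} : Finset X), anc τ = some y} : ℝ) ≤
      2 * D.n * (β * D.n) := fun j =>
    (card_root_le anc _ _ load1).trans (mul_le_mul_of_nonneg_right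
      (colsym_le D hn j _ fun y hy => by simpa using hy) hβn)
  have hCB : ∀ τ y, anc τ = some y → ∀ S ⊆ Cand τ, (#S : ℝ) ≤ D.n := fun τ y h S hS => by
    have := card_le_card (hS.trans (hCand τ y h))
    rw [D.cardB] at this
    exact_mod_cast this
  refine place D hn (fun τ q => colLn (P τ) (anc τ) q) Cand m hm0 U0 t0 t (16 * (s * (β * D.n)))
    (s + 1) L hU0 (by linarith) ?_ ?_ ?_ ?_ ?_ ?_ ?_ ?_ hL (by nlinarith)
  · intro τ o _
    have := card_colLn (P τ) (anc τ) o
    have h2 := hP τ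
    exact_mod_cast (by omega : #(colLn (P τ) (anc τ) o : Finset (Ln I J X)) ≤ s + 1)
  · intro U hU τ
    have ht0 := sparse_nonneg hn hU
    cases hro : anc τ with
    | none =>
      rw [hmn τ hro]
      have h1 := avail (Cand τ) (fun q => (colLn (P τ) none q : Finset (Ln I J X))) U
        ((P τ).biUnion fun i => {q | cel i q ∈ U}) (by
          intro o _ hd
          obtain ⟨l, hl, hlU⟩ := not_disjoint_iff.1 hd
          cases l with
          | cel i j =>
            obtain ⟨rfl, hi⟩ := (cel_colLn _ _ _ _ _).1 hl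
            simp only [mem_biUnion, mem_filter, mem_univ, true_and]
            exact ⟨i, hi, hlU⟩
          | sym x i => simp at hl
          | edg j x => simp at hl)
      have h2 := card_biUnion_le_mul (P τ) (fun i => ({q | cel i q ∈ U} : Finset J))
        (2 * (t0 + t) * c / D.n) fun i _ => D.cI_le (by omega) ht0 hU.cN i
      have h3 : (s : ℝ) * (2 * (t0 + t) * c / D.n) ≤ c / 4 := by
        rw [← mul_div_assoc, div_le_div_iff₀ hN0 (by norm_num)]
        nlinarith
      have h4 : (#(P τ) : ℝ) * (2 * (t0 + t) * c / D.n) ≤ s * (2 * (t0 + t) * c / D.n) :=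
        mul_le_mul_of_nonneg_right (hP' τ) (by positivity)
      have h5 := hglob τ hro
      linarith
    | some y =>
      rw [hms τ y hro]
      have h1 := avail (Cand τ) (fun q => (colLn (P τ) (some y) q : Finset (Ln I J X))) U
        (((P τ).biUnion fun i => {q | q ∈ D.B y ∧ cel i q ∈ U}) ∪
          ({q | edg q y ∈ U} : Finset J)) (by
          intro o ho hd
          obtain ⟨l, hl, hlU⟩ := not_disjoint_iff.1 hd
          cases l with
          | cel i j =>
            obtain ⟨rfl, hi⟩ := (cel_colLn _ _ _ _ _).1 hl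
            simp only [mem_union, mem_biUnion, mem_filter, mem_univ, true_and]
            exact Or.inl ⟨i, hi, hCand τ y hro ho, hlU⟩
          | sym x i => simp at hl
          | edg j' x =>
            obtain ⟨h1, rfl⟩ := (edg_colLn _ _ _ _ _).1 hl
            obtain rfl : y = x := by simpa using h1
            simp only [mem_union, mem_filter, mem_univ, true_and]
            exact Or.inr hlU)
      have h2 := card_biUnion_le_mul (P τ) (fun i => ({q | q ∈ D.B y ∧ cel i q ∈ U} : Finset J))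
        (t0 + t) fun i _ => hU.cN y i
      have h3 : (#({q | edg q y ∈ U} : Finset J) : ℝ) ≤ t0 + t := hU.eX y
      have h4 : (#(P τ) : ℝ) * (t0 + t) ≤ s * (t0 + t) :=
        mul_le_mul_of_nonneg_right (hP' τ) ht0
      have h5 := hloc τ y hro
      have h6 : (#(((P τ).biUnion fun i => ({q | q ∈ D.B y ∧ cel i q ∈ U} : Finset J)) ∪
          ({q | edg q y ∈ U} : Finset J)) : ℝ) ≤
          #((P τ).biUnion fun i => ({q | q ∈ D.B y ∧ cel i q ∈ U} : Finset J)) +
          #({q | edg q y ∈ U} : Finset J) := by exact_mod_cast card_union_le _ _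
      have h7 : t0 + t ≤ s * (t0 + t) := le_mul_of_one_le_left ht0 hs'
      linarith
  · intro j
    have key : ∀ τ, (∑ o ∈ Cand τ, (cJ (colLn (P τ) (anc τ) o : Finset (Ln I J X)) j : ℝ)) / m τ ≤
        (if ∃ y ∈ ({y | j ∈ D.B y} : Finset X), anc τ = some y then (s : ℝ) / (D.n / 4) else 0) +
          #(P τ) * (4 / c) := by
      intro τ
      have h1 := sum_point (Cand τ) j
        (fun o => (cJ (colLn (P τ) (anc τ) o : Finset (Ln I J X)) j : ℝ)) (#(P τ)) fun o _ =>
          card_le_ite' _ _ _ fun i hi => ((cel_colLn _ _ _ _ _).1 hi).symm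
      refine (div_le_div_of_nonneg_right h1 (hm0 τ).le).trans ?_
      have h0 : (0 : ℝ) ≤ #(P τ) * (4 / c) := by positivity
      by_cases hx : j ∈ Cand τ
      · rw [if_pos hx]
        cases hro : anc τ with
        | none =>
          rw [hmn τ hro]
          simp only [reduceCtorEq, and_false, exists_false, if_false, zero_add]
          exact le_of_eq (by field_simp)
        | some y =>
          rw [hms τ y hro, if_pos ⟨y, by simpa using hCand τ y hro hx, rfl⟩]
          have := div_le_div_of_nonneg_right (hP' τ) (by positivity : (0 : ℝ) ≤ D.n / 4)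
          linarith
      · rw [if_neg hx, zero_div]
        split_ifs
        · positivity
        · linarith
    refine (sum_le_sum fun τ _ => key τ).trans ?_
    rw [sum_add_distrib, ← sum_mul]
    have h1 := sum_ite_le (fun τ => ∃ y ∈ ({y | j ∈ D.B y} : Finset X), anc τ = some y)
      (s / (D.n / 4)) _ (by positivity) (hsy j)
    have h2 := mul_le_mul_of_nonneg_right (sum_card_le P _ load2) (by positivity : 0 ≤ 4 / c)
    have h3 : 2 * D.n * (β * D.n) * (s / (D.n / 4)) = 8 * (s * (β * D.n)) := by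
      field_simp
      ring
    have h4 : (Fintype.card I : ℝ) * (β * c) * (4 / c) = 4 * (β * Fintype.card I) := by
      field_simp
    have h5 : β * (Fintype.card I : ℝ) ≤ β * (2 * D.n) := mul_le_mul_of_nonneg_left hr hβ
    linarith
  · intro x
    simp only [sX, sym_colLn, filter_false, card_empty, Nat.cast_zero, sum_const_zero, zero_div]
    positivity
  · intro j
    have key : ∀ τ, (∑ o ∈ Cand τ, (eJ (colLn (P τ) (anc τ) o : Finset (Ln I J X)) j : ℝ)) / m τ ≤
        (if ∃ y ∈ ({y | j ∈ D.B y} : Finset X), anc τ = some y then (1 : ℝ) / (D.n / 4)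
          else 0) := by
      intro τ
      cases hro : anc τ with
      | none => simp [eJ]
      | some y =>
        have h1 := sum_point (Cand τ) j
          (fun o => (eJ (colLn (P τ) (some y) o : Finset (Ln I J X)) j : ℝ)) 1 fun o _ =>
            card_le_ite _ y _ fun j' hj' => by
              have := (edg_colLn _ _ _ _ _).1 hj'
              exact ⟨(Option.some.inj this.1).symm, this.2⟩
        rw [hms τ y hro]
        refine (div_le_div_of_nonneg_right h1 (by positivity)).trans ?_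
        by_cases hx : j ∈ Cand τ
        · rw [if_pos hx, if_pos ⟨y, by simpa using hCand τ y hro hx, rfl⟩]
        · rw [if_neg hx, zero_div]
          split_ifs
          · positivity
          · exact le_rfl
    refine (sum_le_sum fun τ _ => key τ).trans ?_
    have h1 := sum_ite_le (fun τ => ∃ y ∈ ({y | j ∈ D.B y} : Finset X), anc τ = some y)
      (1 / (D.n / 4)) _ (by positivity) (hsy j)
    have h3 : 2 * D.n * (β * D.n) * (1 / (D.n / 4)) = 8 * (β * D.n) := by
      field_simp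
      ring
    linarith
  · intro x
    have key : ∀ τ, (∑ o ∈ Cand τ, (eX (colLn (P τ) (anc τ) o : Finset (Ln I J X)) x : ℝ)) / m τ ≤
        (if anc τ = some x then 4 else 0) := by
      intro τ
      have h1 := sum_filt (Cand τ) (fun _ => True) (anc τ = some x)
        (fun o => (eX (colLn (P τ) (anc τ) o : Finset (Ln I J X)) x : ℝ)) fun o _ =>
          card_le_ite _ o _ fun j hj => by
            have := (edg_colLn _ _ _ _ _).1 hj
            exact ⟨this.2.symm, trivial, this.1⟩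
      refine (div_le_div_of_nonneg_right h1 (hm0 τ).le).trans ?_
      split_ifs with hro
      · rw [hms τ x hro, div_le_iff₀ (by positivity)]
        have := hCB τ x hro {o ∈ Cand τ | True} (filter_subset _ _)
        linarith
      · simp
    refine (sum_le_sum fun τ _ => key τ).trans ?_
    have h1 := sum_ite_le (fun τ => anc τ = some x) 4 _ (by positivity) (load1 x)
    linarith
  · intro x i
    have key : ∀ τ,
        (∑ o ∈ Cand τ, (cN D (colLn (P τ) (anc τ) o : Finset (Ln I J X)) x i : ℝ)) / m τ ≤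
        (if anc τ = some x then 4 else 0) +
          (if i ∈ P τ then D.lam / (D.n / 4) + D.n / (c / 4) else 0) := by
      intro τ
      have h1 := sum_filt (Cand τ) (fun o => o ∈ D.B x) (i ∈ P τ)
        (fun o => (cN D (colLn (P τ) (anc τ) o : Finset (Ln I J X)) x i : ℝ)) fun o _ =>
          card_le_ite _ o _ fun j hj => by
            obtain ⟨rfl, hi⟩ := (cel_colLn _ _ _ _ _).1 hj.2
            exact ⟨rfl, hj.1, hi⟩
      refine (div_le_div_of_nonneg_right h1 (hm0 τ).le).trans ?_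
      have h2 : (#{o ∈ Cand τ | o ∈ D.B x} : ℝ) ≤ D.n := by
        have : #{o ∈ Cand τ | o ∈ D.B x} ≤ #(D.B x) :=
          card_le_card fun o ho => (mem_filter.1 ho).2
        rw [D.cardB] at this
        exact_mod_cast this
      have p1 : (0 : ℝ) ≤ D.lam / (D.n / 4) := by positivity
      have p2 : (0 : ℝ) ≤ D.n / (c / 4) := by positivity
      by_cases hi : i ∈ P τ
      · rw [if_pos hi, if_pos hi]
        cases hro : anc τ with
        | none =>
          rw [hmn τ hro]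
          have := div_le_div_of_nonneg_right h2 (by positivity : 0 ≤ c / 4)
          simp only [reduceCtorEq, if_false]
          linarith
        | some y =>
          rw [hms τ y hro]
          by_cases hj : y = x
          · rw [if_pos (by rw [hj])]
            have : (#{o ∈ Cand τ | o ∈ D.B x} : ℝ) / (D.n / 4) ≤ 4 := by
              rw [div_le_iff₀ (by positivity)]
              linarith
            linarith
          · have h3 : #{o ∈ Cand τ | o ∈ D.B x} ≤ D.lam := by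
              refine le_trans (card_le_card fun o ho => ?_) (D.codeg_le (by omega) hj)
              exact mem_inter.2 ⟨hCand τ y hro (mem_filter.1 ho).1, (mem_filter.1 ho).2⟩
            have h4 : (#{o ∈ Cand τ | o ∈ D.B x} : ℝ) ≤ D.lam := by exact_mod_cast h3
            have := div_le_div_of_nonneg_right h4 (by positivity : (0 : ℝ) ≤ D.n / 4)
            rw [if_neg (by simpa using hj)]
            linarith
      · rw [if_neg hi, if_neg hi, zero_div]
        split_ifs <;> linarith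
    refine (sum_le_sum fun τ _ => key τ).trans ?_
    rw [sum_add_distrib]
    have h1 := sum_ite_le (fun τ => anc τ = some x) 4 _ (by positivity) (load1 x)
    have h2 := sum_ite_le (fun τ => i ∈ P τ) (D.lam / (D.n / 4) + D.n / (c / 4)) _ (by positivity)
      (load2 i)
    have h4 : β * c * (D.lam / (D.n / 4) + D.n / (c / 4)) =
        β * (c * D.lam) / (D.n / 4) + 4 * (β * D.n) := by
      field_simp
    have h5 : β * (c * D.lam) / (D.n / 4) ≤ β * (2 * (D.n * D.n)) / (D.n / 4) := by gcongr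
    have h6 : β * (2 * (D.n * D.n)) / (D.n / 4) = 8 * (β * D.n) := by
      field_simp
      ring
    linarith
  · intro j i
    simp only [sN, sym_colLn, and_false, filter_false, card_empty, Nat.cast_zero, sum_const_zero,
      zero_div]
    positivity

end Pool.Agent.Lib.MP_9dc2ba_co.Large
end

-- part Pool.Agent.Lib.MP_9dc2ba_co.Large.Wire
section

/-!
Placing the wires of the absorber.
-/

open Finset

set_option linter.unusedSectionVars false

namespace Pool.Agent.Lib.MP_9dc2ba_co.Large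

variable {I J X : Type*} [Fintype I] [Fintype J] [Fintype X] [DecidableEq I] [DecidableEq J]
  [DecidableEq X]

namespace Wire

open Classical in
/-- The indicator of a proposition. -/
noncomputable def ind (p : Prop) : ℝ := if p then 1 else 0

theorem ind_pos {p : Prop} (h : p) : ind p = 1 := if_pos h

theorem ind_neg {p : Prop} (h : ¬ p) : ind p = 0 := if_neg h

theorem ind_nonneg (p : Prop) : 0 ≤ ind p := by
  unfold ind
  split_ifs <;> norm_num

theorem sum_ind {α : Type*} (C : Finset α) (P : α → Prop) [DecidablePred P] :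
    ∑ o ∈ C, ind (P o) = #(C.filter P) := by
  rw [card_filter]
  push_cast
  exact sum_congr rfl fun o _ => by unfold ind; congr

theorem card_le_ind {α : Type*} [DecidableEq α] {S : Finset α} {p q r s : Prop} {u v w z : α}
    (h : ∀ x ∈ S, (p ∧ x = u) ∨ (q ∧ x = v) ∨ (r ∧ x = w) ∨ (s ∧ x = z)) :
    (#S : ℝ) ≤ ind p + ind q + ind r + ind s := by
  classical
  have h1 : ∀ (p : Prop) (u : α), (#(({u} : Finset α).filter fun _ => p) : ℝ) = ind p :=
    fun p u => by rw [← sum_ind, sum_singleton]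
  rw [← h1 p u, ← h1 q v, ← h1 r w, ← h1 s z]
  have h2 : S ⊆ (({u} : Finset α).filter fun _ => p) ∪ (({v} : Finset α).filter fun _ => q) ∪
      (({w} : Finset α).filter fun _ => r) ∪ (({z} : Finset α).filter fun _ => s) := fun x hx => by
    have := h x hx
    simp only [mem_union, mem_filter, mem_singleton]
    tauto
  exact_mod_cast (card_le_card h2).trans ((card_union_le _ _).trans (Nat.add_le_add_right
    ((card_union_le _ _).trans (Nat.add_le_add_right (card_union_le _ _) _)) _))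

theorem card_le_two_ind {α : Type*} [DecidableEq α] {S : Finset α} {p q : Prop} {u v : α}
    (h : ∀ x ∈ S, (p ∧ x = u) ∨ (q ∧ x = v)) : (#S : ℝ) ≤ ind p + ind q := by
  have := card_le_ind (S := S) (r := False) (s := False) (w := u) (z := u) fun x hx =>
    (h x hx).imp_right Or.inl
  rwa [ind_neg not_false, add_zero, add_zero] at this

/-- The ten lines of a wire. -/
def ln (a b : I) (j0 j1 : J) (o : X × J × X) : Finset (Ln I J X) :=
  {edg j0 o.1, edg o.2.1 o.1, edg o.2.1 o.2.2, edg j1 o.2.2, sym o.1 a, sym o.1 b, sym o.2.2 a,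
    sym o.2.2 b, cel a o.2.1, cel b o.2.1}

/-- The admissible positions of a wire. -/
def Cand (D : Des I J X) (a b : I) (j0 j1 : J) : Finset (X × J × X) :=
  {o | j0 ∈ D.B o.1 ∧ o.2.1 ∈ D.B o.1 ∧ j1 ∈ D.B o.2.2 ∧ o.2.1 ∈ D.B o.2.2 ∧ o.2.1 ≠ j0 ∧
    o.2.1 ≠ j1 ∧ o.1 ≠ o.2.2 ∧ a ∈ D.A o.1 ∧ b ∈ D.A o.1 ∧ a ∈ D.A o.2.2 ∧ b ∈ D.A o.2.2}

theorem mem_Cand {D : Des I J X} {a b : I} {j0 j1 : J} {o : X × J × X} : o ∈ Cand D a b j0 j1 ↔
    j0 ∈ D.B o.1 ∧ o.2.1 ∈ D.B o.1 ∧ j1 ∈ D.B o.2.2 ∧ o.2.1 ∈ D.B o.2.2 ∧ o.2.1 ≠ j0 ∧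
    o.2.1 ≠ j1 ∧ o.1 ≠ o.2.2 ∧ a ∈ D.A o.1 ∧ b ∈ D.A o.1 ∧ a ∈ D.A o.2.2 ∧ b ∈ D.A o.2.2 := by
  simp [Cand]

section lines
variable (D : Des I J X) (a b : I) (j0 j1 : J) (o : X × J × X)

theorem card_ln : (#(ln a b j0 j1 o) : ℝ) ≤ 10 := by
  have : #(ln a b j0 j1 o) ≤ 10 := by
    unfold ln
    repeat refine (card_insert_le _ _).trans (Nat.succ_le_succ ?_)
    exact (card_singleton _).le
  exact_mod_cast this

theorem cJ_ln (j : J) : (cJ (ln a b j0 j1 o) j : ℝ) ≤ ind (o.2.1 = j) + ind (o.2.1 = j) :=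
  card_le_two_ind (u := a) (v := b) fun i hi => by
    simp only [ln, mem_filter, mem_univ, true_and, mem_insert, mem_singleton, reduceCtorEq,
      false_or, Ln.cel.injEq] at hi
    tauto

theorem sX_ln (x : X) : (sX (ln a b j0 j1 o) x : ℝ) ≤
    ind (o.1 = x) + ind (o.1 = x) + ind (o.2.2 = x) + ind (o.2.2 = x) :=
  card_le_ind (u := a) (v := b) (w := a) (z := b) fun i hi => by
    simp only [ln, mem_filter, mem_univ, true_and, mem_insert, mem_singleton, reduceCtorEq,
      false_or, or_false, Ln.sym.injEq] at hi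
    tauto

theorem eJ_ln (j : J) : (eJ (ln a b j0 j1 o) j : ℝ) ≤
    ind (j0 = j) + ind (o.2.1 = j) + ind (o.2.1 = j) + ind (j1 = j) :=
  card_le_ind (u := o.1) (v := o.1) (w := o.2.2) (z := o.2.2) fun i hi => by
    simp only [ln, mem_filter, mem_univ, true_and, mem_insert, mem_singleton, reduceCtorEq,
      or_false, Ln.edg.injEq] at hi
    tauto

theorem eX_ln (x : X) : (eX (ln a b j0 j1 o) x : ℝ) ≤
    ind (o.1 = x) + ind (o.1 = x) + ind (o.2.2 = x) + ind (o.2.2 = x) :=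
  card_le_ind (u := j0) (v := o.2.1) (w := o.2.1) (z := j1) fun i hi => by
    simp only [ln, mem_filter, mem_univ, true_and, mem_insert, mem_singleton, reduceCtorEq,
      or_false, Ln.edg.injEq] at hi
    tauto

theorem cN_ln (x : X) (i : I) : (cN D (ln a b j0 j1 o) x i : ℝ) ≤
    ind ((a = i ∨ b = i) ∧ o.2.1 ∈ D.B x) := by
  have := card_le_two_ind (S := {j | j ∈ D.B x ∧ cel i j ∈ ln a b j0 j1 o}) (q := False)
    (p := (a = i ∨ b = i) ∧ o.2.1 ∈ D.B x) (u := o.2.1) (v := o.2.1) fun j hj => by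
      simp only [ln, mem_filter, mem_univ, true_and, mem_insert, mem_singleton, reduceCtorEq,
        false_or, Ln.cel.injEq] at hj
      obtain ⟨h, ⟨rfl, rfl⟩ | ⟨rfl, rfl⟩⟩ := hj <;> simp [h]
  rwa [ind_neg not_false, add_zero] at this

theorem sN_ln (j : J) (i : I) : (sN D (ln a b j0 j1 o) j i : ℝ) ≤
    ind ((a = i ∨ b = i) ∧ j ∈ D.B o.1) + ind ((a = i ∨ b = i) ∧ j ∈ D.B o.2.2) :=
  card_le_two_ind (u := o.1) (v := o.2.2) fun x hx => by
    simp only [ln, mem_filter, mem_univ, true_and, mem_insert, mem_singleton, reduceCtorEq,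
      false_or, or_false, Ln.sym.injEq] at hx
    obtain ⟨h, ⟨rfl, rfl⟩ | ⟨rfl, rfl⟩ | ⟨rfl, rfl⟩ | ⟨rfl, rfl⟩⟩ := hx <;> simp [h]

variable {D a b j0 j1 o}

theorem ln_valid (h : o ∈ Cand D a b j0 j1) : ln a b j0 j1 o ⊆ valid D := by
  rw [mem_Cand] at h
  simp only [ln, insert_subset_iff, singleton_subset_iff, edg_mem_valid, sym_mem_valid,
    cel_mem_valid]
  tauto

theorem ln_val (hab : a ≠ b) (h : o ∈ Cand D a b j0 j1) : (ln a b j0 j1 o).val =
    {edg j0 o.1, edg o.2.1 o.1, edg o.2.1 o.2.2, edg j1 o.2.2, sym o.1 a, sym o.1 b, sym o.2.2 a,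
      sym o.2.2 b, cel a o.2.1, cel b o.2.1} := by
  obtain ⟨-, -, -, -, h1, h2, h3, -⟩ := mem_Cand.1 h
  simp [ln, Multiset.ndinsert_of_notMem, hab, h1.symm, h2, h3]

theorem ln_dec (hab : a ≠ b) (h : o ∈ Cand D a b j0 j1) :
    Dec ((ln a b j0 j1 o).val + ({cel a j0} + {cel b j1})) ∧
      Dec ((ln a b j0 j1 o).val + ({cel b j0} + {cel a j1})) := by
  rw [ln_val hab h]
  constructor
  · convert (((Dec.tri a j0 o.1).add (Dec.tri b o.2.1 o.1)).add (Dec.tri a o.2.1 o.2.2)).add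
      (Dec.tri b j1 o.2.2) using 1
    simp only [Multiset.insert_eq_cons, ← Multiset.singleton_add]
    abel
  · convert (((Dec.tri b j0 o.1).add (Dec.tri a o.2.1 o.1)).add (Dec.tri b o.2.1 o.2.2)).add
      (Dec.tri a j1 o.2.2) using 1
    simp only [Multiset.insert_eq_cons, ← Multiset.singleton_add]
    abel

end lines

section count
variable (D : Des I J X)

theorem cnt (C : Finset (X × J × X)) (P : X × J × X → Prop) (f g : X × J × X → X)
    (hfg : ∀ o o', f o = f o' → o.2.1 = o'.2.1 → g o = g o' → o = o') (j : J) (Y : Finset X)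
    (F : X → Finset J) (h : ∀ o ∈ C, P o → f o ∈ Y ∧ o.2.1 ∈ F (f o) ∧ o.2.1 ≠ j ∧
      j ∈ D.B (g o) ∧ o.2.1 ∈ D.B (g o)) :
    ∑ o ∈ C, ind (P o) ≤ D.lam * ∑ x ∈ Y, (#(F x) : ℝ) := by
  classical
  rw [sum_ind]
  have h1 := card_le_mul_card_image_of_maps_to (s := C.filter P) (t := Y.sigma F)
    (f := fun o => ⟨f o, o.2.1⟩) (fun o ho => by
      obtain ⟨h1, h2⟩ := mem_filter.1 ho
      exact mem_sigma.2 ⟨(h o h1 h2).1, (h o h1 h2).2.1⟩) D.lam fun p _ => by
      by_cases hp : p.2 = j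
      · rw [card_eq_zero.2]
        · exact Nat.zero_le _
        · refine filter_eq_empty_iff.2 fun o ho e => ?_
          obtain ⟨h1, h2⟩ := mem_filter.1 ho
          exact (h o h1 h2).2.2.1 (by rw [← hp, ← e])
      · rw [← D.cc p.2 j hp]
        refine card_le_card_of_injOn g (fun o ho => ?_) fun o ho o' ho' e => ?_
        · obtain ⟨h0, rfl⟩ := mem_filter.1 ho
          obtain ⟨h1, h2⟩ := mem_filter.1 h0
          simpa using ⟨(h o h1 h2).2.2.2.2, (h o h1 h2).2.2.2.1⟩
        · have e' := (mem_filter.1 ho).2.trans (mem_filter.1 ho').2.symm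
          simp only [Sigma.mk.injEq, heq_eq_eq] at e'
          exact hfg o o' e'.1 e'.2 e
  rw [card_sigma] at h1
  exact_mod_cast h1

theorem cntL (C : Finset (X × J × X)) (P : X × J × X → Prop) (j : J) (Y : Finset X)
    (F : X → Finset J) (h : ∀ o ∈ C, P o → o.1 ∈ Y ∧ o.2.1 ∈ F o.1 ∧ o.2.1 ≠ j ∧
      j ∈ D.B o.2.2 ∧ o.2.1 ∈ D.B o.2.2) :
    ∑ o ∈ C, ind (P o) ≤ D.lam * ∑ x ∈ Y, (#(F x) : ℝ) :=
  cnt D C P (fun o => o.1) (fun o => o.2.2)
    (fun _ _ h1 h2 h3 => Prod.ext h1 (Prod.ext h2 h3)) j Y F h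

theorem cntR (C : Finset (X × J × X)) (P : X × J × X → Prop) (j : J) (Y : Finset X)
    (F : X → Finset J) (h : ∀ o ∈ C, P o → o.2.2 ∈ Y ∧ o.2.1 ∈ F o.2.2 ∧ o.2.1 ≠ j ∧
      j ∈ D.B o.1 ∧ o.2.1 ∈ D.B o.1) :
    ∑ o ∈ C, ind (P o) ≤ D.lam * ∑ x ∈ Y, (#(F x) : ℝ) :=
  cnt D C P (fun o => o.2.2) (fun o => o.1)
    (fun _ _ h1 h2 h3 => Prod.ext h3 (Prod.ext h2 h1)) j Y F h

theorem sum_B (Y : Finset X) : ∑ x ∈ Y, (#(D.B x) : ℝ) = #Y * D.n := by
  simp [D.cardB]

variable (a b : I) (j0 j1 : J)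

theorem c_q (j : J) : ∑ o ∈ Cand D a b j0 j1, ind (o.2.1 = j) ≤ D.lam * D.lam := by
  by_cases hj : j0 = j
  · rw [sum_eq_zero fun o ho => ind_neg (hj ▸ (mem_Cand.1 ho).2.2.2.2.1)]
    positivity
  · have := cntL D (Cand D a b j0 j1) (fun o => o.2.1 = j) j1 {x | j0 ∈ D.B x ∧ j ∈ D.B x}
      (fun _ => {j}) fun o ho e => by
        rw [mem_Cand] at ho
        subst e
        simp only [mem_filter, mem_univ, true_and, mem_singleton]
        tauto
    simpa [D.cc j0 j hj] using this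

theorem c_x1 (x : X) :
    ∑ o ∈ Cand D a b j0 j1, ind (o.1 = x) ≤ D.lam * D.n * ind (j0 ∈ D.B x) := by
  by_cases hj : j0 ∈ D.B x
  · have := cntL D (Cand D a b j0 j1) (fun o => o.1 = x) j1 {x} D.B fun o ho e => by
      rw [mem_Cand] at ho
      simp only [mem_singleton]
      tauto
    simpa [D.cardB, ind_pos hj] using this
  · rw [ind_neg hj, mul_zero]
    exact (sum_eq_zero fun o ho => ind_neg fun e : o.1 = x => hj (e ▸ (mem_Cand.1 ho).1)).le

theorem c_x2 (x : X) :
    ∑ o ∈ Cand D a b j0 j1, ind (o.2.2 = x) ≤ D.lam * D.n * ind (j1 ∈ D.B x) := by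
  by_cases hj : j1 ∈ D.B x
  · have := cntR D (Cand D a b j0 j1) (fun o => o.2.2 = x) j0 {x} D.B fun o ho e => by
      rw [mem_Cand] at ho
      simp only [mem_singleton]
      tauto
    simpa [D.cardB, ind_pos hj] using this
  · rw [ind_neg hj, mul_zero]
    exact (sum_eq_zero fun o ho => ind_neg fun e : o.2.2 = x =>
      hj (e ▸ (mem_Cand.1 ho).2.2.1)).le

theorem c_all (hn : 2 ≤ D.n) (p : Prop) :
    ∑ _o ∈ Cand D a b j0 j1, ind p ≤ 2 * D.lam * D.n ^ 2 * ind p := by
  have := cntL D (Cand D a b j0 j1) (fun _ => True) j1 {x | j0 ∈ D.B x} D.B fun o ho _ => by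
    rw [mem_Cand] at ho
    simp only [mem_filter, mem_univ, true_and]
    tauto
  rw [sum_B, D.degJ, sum_const, ind_pos trivial, nsmul_eq_mul, mul_one] at this
  rw [sum_const, nsmul_eq_mul]
  refine mul_le_mul_of_nonneg_right (this.trans ?_) (ind_nonneg p)
  have h1 : (D.lam : ℝ) ≤ D.n := by exact_mod_cast (D.lam_lt hn).le
  have h2 : (0 : ℝ) ≤ D.lam * D.n := by positivity
  push_cast
  nlinarith

theorem c_qB (x : X) (p : Prop) :
    ∑ o ∈ Cand D a b j0 j1, ind (p ∧ o.2.1 ∈ D.B x) ≤ D.lam * D.lam * D.n * ind p := by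
  by_cases hp : p
  · calc _ ≤ ∑ o ∈ Cand D a b j0 j1, ∑ j ∈ D.B x, ind (o.2.1 = j) := by
          refine sum_le_sum fun o _ => ?_
          by_cases h : o.2.1 ∈ D.B x
          · rw [ind_pos ⟨hp, h⟩, ← ind_pos (rfl : o.2.1 = o.2.1)]
            exact single_le_sum (f := fun j => ind (o.2.1 = j)) (fun _ _ => ind_nonneg _) h
          · rw [ind_neg fun e => h e.2]
            exact sum_nonneg fun _ _ => ind_nonneg _
      _ ≤ ∑ j ∈ D.B x, (D.lam * D.lam : ℝ) := by
          rw [sum_comm]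
          exact sum_le_sum fun j _ => c_q D a b j0 j1 j
      _ = _ := by rw [sum_const, D.cardB, ind_pos hp, nsmul_eq_mul]; ring
  · rw [sum_eq_zero fun o _ => ind_neg fun e => hp e.1, ind_neg hp, mul_zero]

theorem c_jB1 (hn : 2 ≤ D.n) (j : J) (p : Prop) :
    ∑ o ∈ Cand D a b j0 j1, ind (p ∧ j ∈ D.B o.1) ≤
      D.lam * D.lam * D.n * ind p + 2 * D.lam * D.n ^ 2 * ind (j0 = j) := by
  have h0 := ind_nonneg p
  by_cases hj : j0 = j
  · refine le_add_of_nonneg_of_le (by positivity) (le_trans (sum_le_sum fun o _ => ?_)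
      (c_all D a b j0 j1 hn _))
    rw [ind_pos hj]
    unfold ind
    split_ifs <;> norm_num
  · rw [ind_neg hj, mul_zero, add_zero]
    by_cases hp : p
    · have := cntL D (Cand D a b j0 j1) (fun o => p ∧ j ∈ D.B o.1) j1
        {x | j0 ∈ D.B x ∧ j ∈ D.B x} D.B fun o ho e => by
          rw [mem_Cand] at ho
          simp only [mem_filter, mem_univ, true_and]
          tauto
      rwa [sum_B, D.cc j0 j hj, ← mul_assoc, ← mul_one (_ * _ * _), ← ind_pos hp] at this
    · rw [sum_eq_zero fun o _ => ind_neg fun e => hp e.1, ind_neg hp, mul_zero]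

theorem c_jB2 (hn : 2 ≤ D.n) (j : J) (p : Prop) :
    ∑ o ∈ Cand D a b j0 j1, ind (p ∧ j ∈ D.B o.2.2) ≤
      D.lam * D.lam * D.n * ind p + 2 * D.lam * D.n ^ 2 * ind (j1 = j) := by
  have h0 := ind_nonneg p
  by_cases hj : j1 = j
  · refine le_add_of_nonneg_of_le (by positivity) (le_trans (sum_le_sum fun o _ => ?_)
      (c_all D a b j0 j1 hn _))
    rw [ind_pos hj]
    unfold ind
    split_ifs <;> norm_num
  · rw [ind_neg hj, mul_zero, add_zero]
    by_cases hp : p
    · have := cntR D (Cand D a b j0 j1) (fun o => p ∧ j ∈ D.B o.2.2) j0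
        {x | j1 ∈ D.B x ∧ j ∈ D.B x} D.B fun o ho e => by
          rw [mem_Cand] at ho
          simp only [mem_filter, mem_univ, true_and]
          tauto
      rwa [sum_B, D.cc j1 j hj, ← mul_assoc, ← mul_one (_ * _ * _), ← ind_pos hp] at this
    · rw [sum_eq_zero fun o _ => ind_neg fun e => hp e.1, ind_neg hp, mul_zero]

theorem sq_miss (hn : 10 ^ 4 ≤ D.n) {S : Finset X} {j : J} (hS : ∀ x ∈ S, j ∈ D.B x)
    (hs : (D.n : ℝ) / 9 ≤ #S) :
    ∑ i, (#{x ∈ S | i ∉ D.A x} : ℝ) ^ 2 ≤ 3 / 4 * D.lam * (#S : ℝ) ^ 2 := by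
  have hn' : (10 ^ 4 : ℝ) ≤ D.n := by exact_mod_cast hn
  have h1 : ∑ i, (#{x ∈ S | i ∉ D.A x} : ℝ) = #S * D.lam := by
    have e : ∀ x, ∑ i, ind (i ∉ D.A x) = D.lam := fun x => by
      rw [sum_ind]
      have : ({i | i ∉ D.A x} : Finset I) = (D.A x)ᶜ := by ext; simp
      rw [this, card_compl, D.cardA, D.cardI, Nat.add_sub_cancel_left]
    simp only [← sum_ind]
    rw [sum_comm]
    simp [e]
  have hl : (0 : ℝ) ≤ D.lam := Nat.cast_nonneg _
  have hs0 : (0 : ℝ) ≤ #S := Nat.cast_nonneg _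
  by_cases h36 : (36 : ℝ) ≤ D.lam
  · have h2 := D.mixing (by omega) S
    have h3 : 0 ≤ ∑ j, ((#{x ∈ S | j ∈ D.B x} : ℝ) - D.rho * #S) ^ 2 :=
      sum_nonneg fun _ _ => sq_nonneg _
    have h4 : ∑ i, ((#{x ∈ S | i ∉ D.A x} : ℝ) - D.rho * #S) ^ 2 =
        ∑ i, (#{x ∈ S | i ∉ D.A x} : ℝ) ^ 2 - 2 * (D.rho * #S) * (#S * D.lam) +
          Fintype.card I * (D.rho * #S) ^ 2 := by
      rw [← h1, mul_sum, ← sum_sub_distrib, ← nsmul_eq_mul, ← card_univ, ← sum_const,
        ← sum_add_distrib]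
      exact sum_congr rfl fun i _ => by ring
    have h5 := D.lam_le_rho (by omega)
    have h6 := D.rho_le
    have h7 := D.rho_nonneg
    have h8 : D.rho * (#S : ℝ) ^ 2 * D.lam ≤ D.rho * (#S : ℝ) ^ 2 * (D.rho * Fintype.card I) :=
      mul_le_mul_of_nonneg_left h5 (by positivity)
    have h9 : D.rho * (D.lam * (#S : ℝ) ^ 2) ≤ 1 / 2 * (D.lam * (#S : ℝ) ^ 2) :=
      mul_le_mul_of_nonneg_right h6 (by positivity)
    have h10 : 36 * (D.n / 9 : ℝ) ≤ D.lam * #S := mul_le_mul h36 hs (by positivity) hl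
    have h11 : 36 * (D.n / 9 : ℝ) * #S ≤ D.lam * #S * #S := mul_le_mul_of_nonneg_right h10 hs0
    nlinarith
  · have h2 : ∑ i, (#{x ∈ S | i ∉ D.A x} : ℝ) ^ 2 ≤ ∑ i, D.lam * (#{x ∈ S | i ∉ D.A x} : ℝ) := by
      refine sum_le_sum fun i _ => ?_
      rw [sq]
      refine mul_le_mul_of_nonneg_right ?_ (Nat.cast_nonneg _)
      rw [← D.miss_one i j]
      exact_mod_cast card_le_card fun x hx => by
        simp only [mem_filter, mem_univ, true_and] at hx ⊢
        exact ⟨hS x hx.1, hx.2⟩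
    rw [← mul_sum, h1] at h2
    have h3 : D.lam * #S * (D.lam : ℝ) ≤ D.lam * #S * (3 / 4 * #S) :=
      mul_le_mul_of_nonneg_left (by linarith) (by positivity)
    nlinarith

theorem card_paths (hn : 10 ^ 4 ≤ D.n) {S0 S1 : Finset X} (h0 : ∀ x ∈ S0, j0 ∈ D.B x)
    (h1 : ∀ x ∈ S1, j1 ∈ D.B x) (hd : Disjoint S0 S1) (hc : #S1 = #S0)
    (hs : (D.n : ℝ) / 9 ≤ #S0) : (D.lam : ℝ) * (#S0 : ℝ) ^ 2 / 4 ≤
      #{o : X × J × X | o.1 ∈ S0 ∧ o.2.2 ∈ S1 ∧ o.2.1 ∈ D.B o.1 ∧ o.2.1 ∈ D.B o.2.2} := by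
  have e1 : (#{o : X × J × X | o.1 ∈ S0 ∧ o.2.2 ∈ S1 ∧ o.2.1 ∈ D.B o.1 ∧ o.2.1 ∈ D.B o.2.2} : ℝ) =
      ∑ x ∈ S0, ∑ y ∈ S1, (#(D.B x ∩ D.B y) : ℝ) := by
    rw [card_eq_sum_card_fiberwise (f := fun o => (o.1, o.2.2)) (t := S0 ×ˢ S1)
      (fun o ho => by
        simp only [coe_filter, mem_univ, true_and, Set.mem_ofPred_eq] at ho
        exact mem_coe.2 (mem_product.2 ⟨ho.1, ho.2.1⟩)), sum_product]
    push_cast
    refine sum_congr rfl fun x hx => sum_congr rfl fun y hy => ?_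
    congr 1
    refine card_nbij' (fun o => o.2.1) (fun q => (x, q, y)) ?_ ?_ ?_ ?_
    · rintro ⟨x', q, y'⟩ ho
      simp only [coe_filter, mem_filter, mem_univ, true_and, Set.mem_ofPred_eq, Prod.mk.injEq] at ho
      obtain ⟨⟨-, -, h2, h3⟩, rfl, rfl⟩ := ho
      exact mem_coe.2 (mem_inter.2 ⟨h2, h3⟩)
    · intro q hq
      simpa [hx, hy] using hq
    · rintro ⟨x', q, y'⟩ ho
      simp only [coe_filter, mem_filter, mem_univ, true_and, Set.mem_ofPred_eq, Prod.mk.injEq] at ho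
      obtain ⟨-, rfl, rfl⟩ := ho
      rfl
    · intro q _
      rfl
  have e2 : ∀ x ∈ S0, ∀ y ∈ S1, (#(D.B x ∩ D.B y) : ℝ) =
      D.lam - ∑ i, ind (i ∉ D.A x) * ind (i ∉ D.A y) := fun x hx y hy => by
    have h2 := D.dual (by omega) (x := x) (x' := y) fun e => disjoint_left.1 hd hx (e ▸ hy)
    have h3 : ∑ i, ind (i ∉ D.A x) * ind (i ∉ D.A y) = #((D.A x)ᶜ ∩ (D.A y)ᶜ) := by
      have : (D.A x)ᶜ ∩ (D.A y)ᶜ = ({i | i ∉ D.A x ∧ i ∉ D.A y} : Finset I) := by ext; simp
      rw [this, ← sum_ind]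
      refine sum_congr rfl fun i _ => ?_
      by_cases h : i ∉ D.A x <;> by_cases h' : i ∉ D.A y <;> simp [ind, h, h']
    rw [h3, ← h2]
    push_cast
    ring
  have e3 : ∑ x ∈ S0, ∑ y ∈ S1, ∑ i, ind (i ∉ D.A x) * ind (i ∉ D.A y) =
      ∑ i, (#{x ∈ S0 | i ∉ D.A x} : ℝ) * #{x ∈ S1 | i ∉ D.A x} := by
    simp only [← sum_ind, sum_mul_sum]
    rw [sum_comm (s := univ)]
    exact sum_congr rfl fun x _ => sum_comm
  have e4 : ∑ i, (#{x ∈ S0 | i ∉ D.A x} : ℝ) * #{x ∈ S1 | i ∉ D.A x} ≤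
      (∑ i, (#{x ∈ S0 | i ∉ D.A x} : ℝ) ^ 2 + ∑ i, (#{x ∈ S1 | i ∉ D.A x} : ℝ) ^ 2) / 2 := by
    rw [← sum_add_distrib, sum_div]
    exact sum_le_sum fun i _ => by
      nlinarith [sq_nonneg ((#{x ∈ S0 | i ∉ D.A x} : ℝ) - #{x ∈ S1 | i ∉ D.A x})]
  have e5 := sq_miss D hn h0 hs
  have e6 := sq_miss D hn h1 (hc ▸ hs)
  rw [e1, sum_congr rfl fun x hx => sum_congr rfl (e2 x hx)]
  simp only [sum_sub_distrib, sum_const, nsmul_eq_mul]
  rw [e3, hc]
  rw [hc] at e6
  nlinarith

variable {D a b j0 j1}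

theorem card_free {U : Finset (Ln I J X)} {T : ℝ} (hU : Sparse D U T) {j : J} (h : PG D j a b) :
    (D.n : ℝ) / 3 - 3 * T ≤ #{x | j ∈ D.B x ∧ a ∈ D.A x ∧ b ∈ D.A x ∧ edg j x ∉ U ∧
      sym x a ∉ U ∧ sym x b ∉ U} := by
  have h1 : (#{x | j ∈ D.B x ∧ a ∈ D.A x ∧ b ∈ D.A x} : ℝ) ≤
      #{x | j ∈ D.B x ∧ a ∈ D.A x ∧ b ∈ D.A x ∧ edg j x ∉ U ∧ sym x a ∉ U ∧ sym x b ∉ U} +
        eJ U j + sN D U j a + sN D U j b := by
    simp only [eJ, sN, ← sum_ind, ← sum_add_distrib]
    refine sum_le_sum fun x _ => ?_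
    unfold ind
    split_ifs <;> first | tauto | norm_num
  have := hU.eJ j
  have := hU.sN j a
  have := hU.sN j b
  unfold PG at h
  linarith

theorem avail (hn : 10 ^ 4 ≤ D.n) (hj : j0 ≠ j1) (g0 : PG D j0 a b) (g1 : PG D j1 a b)
    {U : Finset (Ln I J X)} {T : ℝ} (hU : Sparse D U T) (hT : 500 * T ≤ D.n) :
    (D.lam : ℝ) * D.n ^ 2 / 600 ≤ #{o ∈ Cand D a b j0 j1 | Disjoint (ln a b j0 j1 o) U} := by
  have hn' : (10 ^ 4 : ℝ) ≤ D.n := by exact_mod_cast hn
  have hs1 : ((D.n / 8 : ℕ) : ℝ) ≤ D.n / 8 := Nat.cast_div_le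
  have hs2 : (D.n : ℝ) ≤ 8 * (D.n / 8 : ℕ) + 8 := by exact_mod_cast (by omega)
  obtain ⟨S0, hS0, c0⟩ := exists_subset_card_eq (n := D.n / 8)
    (s := {x | j0 ∈ D.B x ∧ a ∈ D.A x ∧ b ∈ D.A x ∧ edg j0 x ∉ U ∧ sym x a ∉ U ∧ sym x b ∉ U})
    (by exact_mod_cast (by linarith : ((D.n / 8 : ℕ) : ℝ) ≤ _).trans (card_free hU g0))
  obtain ⟨S1, hS1, c1⟩ := exists_subset_card_eq (n := D.n / 8)
    (s := ({x | j1 ∈ D.B x ∧ a ∈ D.A x ∧ b ∈ D.A x ∧ edg j1 x ∉ U ∧ sym x a ∉ U ∧ sym x b ∉ U} :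
      Finset X) \ S0)
    (by
      refine le_trans ?_ (le_card_sdiff _ _)
      rw [c0]
      apply Nat.le_sub_of_add_le
      exact_mod_cast (by linarith : ((D.n / 8 : ℕ) : ℝ) + (D.n / 8 : ℕ) ≤ _).trans
        (card_free hU g1))
  have m0 := fun x (hx : x ∈ S0) => (mem_filter.1 (hS0 hx)).2
  have m1 := fun x (hx : x ∈ S1) => (mem_filter.1 (mem_sdiff.1 (hS1 hx)).1).2
  have hd : Disjoint S0 S1 := disjoint_left.2 fun x hx hx' => (mem_sdiff.1 (hS1 hx')).2 hx
  have h1 := card_paths D j0 j1 hn (fun x hx => (m0 x hx).1) (fun x hx => (m1 x hx).1) hd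
    (c1.trans c0.symm) (by rw [c0]; linarith)
  set C : Finset (X × J × X) :=
    {o | o.1 ∈ S0 ∧ o.2.2 ∈ S1 ∧ o.2.1 ∈ D.B o.1 ∧ o.2.1 ∈ D.B o.2.2} with hC
  have mC : ∀ o ∈ C, o.1 ∈ S0 ∧ o.2.2 ∈ S1 ∧ o.2.1 ∈ D.B o.1 ∧ o.2.1 ∈ D.B o.2.2 :=
    fun o ho => (mem_filter.1 ho).2
  have b1 := cntL D C (fun o => o.2.1 = j0) j1 S0 (fun _ => {j0}) fun o ho e =>
    ⟨(mC o ho).1, mem_singleton.2 e, e ▸ hj, (m1 _ (mC o ho).2.1).1, (mC o ho).2.2.2⟩
  have b2 := cntR D C (fun o => o.2.1 = j1) j0 S1 (fun _ => {j1}) fun o ho e =>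
    ⟨(mC o ho).2.1, mem_singleton.2 e, e ▸ hj.symm, (m0 _ (mC o ho).1).1, (mC o ho).2.2.1⟩
  have b3 := cntL D C (fun o => o.2.1 ≠ j1 ∧ edg o.2.1 o.1 ∈ U) j1 S0 (fun x => {q | edg q x ∈ U})
    fun o ho e => ⟨(mC o ho).1, by simpa using e.2, e.1, (m1 _ (mC o ho).2.1).1, (mC o ho).2.2.2⟩
  have b4 := cntR D C (fun o => o.2.1 ≠ j0 ∧ edg o.2.1 o.2.2 ∈ U) j0 S1
    (fun x => {q | edg q x ∈ U}) fun o ho e =>
    ⟨(mC o ho).2.1, by simpa using e.2, e.1, (m0 _ (mC o ho).1).1, (mC o ho).2.2.1⟩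
  have b5 := fun i => cntL D C (fun o => o.2.1 ≠ j1 ∧ cel i o.2.1 ∈ U) j1 S0
    (fun x => {q | q ∈ D.B x ∧ cel i q ∈ U}) fun o ho e =>
    ⟨(mC o ho).1, by simpa using ⟨(mC o ho).2.2.1, e.2⟩, e.1, (m1 _ (mC o ho).2.1).1,
      (mC o ho).2.2.2⟩
  have hl : (0 : ℝ) ≤ D.lam := Nat.cast_nonneg _
  have k1 : ∀ S : Finset X, ∑ x ∈ S, (#({q | edg q x ∈ U} : Finset J) : ℝ) ≤ #S * T := fun S => by
    rw [← nsmul_eq_mul]
    exact sum_le_card_nsmul _ _ _ fun x _ => hU.eX x
  have k2 : ∀ i, ∑ x ∈ S0, (#({q | q ∈ D.B x ∧ cel i q ∈ U} : Finset J) : ℝ) ≤ #S0 * T :=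
    fun i => by
      rw [← nsmul_eq_mul]
      exact sum_le_card_nsmul _ _ _ fun x _ => hU.cN x i
  replace b3 := b3.trans (mul_le_mul_of_nonneg_left (k1 _) hl)
  replace b4 := b4.trans (mul_le_mul_of_nonneg_left (k1 _) hl)
  have b6 := (b5 a).trans (mul_le_mul_of_nonneg_left (k2 _) hl)
  have b7 := (b5 b).trans (mul_le_mul_of_nonneg_left (k2 _) hl)
  simp only [card_singleton, Nat.cast_one, sum_const, nsmul_eq_mul, mul_one] at b1 b2
  have h2 : (#C : ℝ) ≤ ∑ o ∈ C, (ind (o ∈ Cand D a b j0 j1 ∧ Disjoint (ln a b j0 j1 o) U) +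
      ind (o.2.1 = j0) + ind (o.2.1 = j1) + ind (o.2.1 ≠ j1 ∧ edg o.2.1 o.1 ∈ U) +
      ind (o.2.1 ≠ j0 ∧ edg o.2.1 o.2.2 ∈ U) + ind (o.2.1 ≠ j1 ∧ cel a o.2.1 ∈ U) +
      ind (o.2.1 ≠ j1 ∧ cel b o.2.1 ∈ U)) := by
    rw [card_eq_sum_ones, Nat.cast_sum]
    refine sum_le_sum fun o ho => ?_
    obtain ⟨p1, p2, p3, p4⟩ := mC o ho
    have q0 := m0 _ p1
    have q1 := m1 _ p2
    have p5 : o.1 ≠ o.2.2 := fun e => disjoint_left.1 hd p1 (e ▸ p2)
    have i1 := ind_nonneg (o ∈ Cand D a b j0 j1 ∧ Disjoint (ln a b j0 j1 o) U)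
    have i2 := ind_nonneg (o.2.1 = j0)
    have i3 := ind_nonneg (o.2.1 = j1)
    have i4 := ind_nonneg (o.2.1 ≠ j1 ∧ edg o.2.1 o.1 ∈ U)
    have i5 := ind_nonneg (o.2.1 ≠ j0 ∧ edg o.2.1 o.2.2 ∈ U)
    have i6 := ind_nonneg (o.2.1 ≠ j1 ∧ cel a o.2.1 ∈ U)
    have i7 := ind_nonneg (o.2.1 ≠ j1 ∧ cel b o.2.1 ∈ U)
    rw [Nat.cast_one]
    by_cases r2 : o.2.1 = j0
    · linarith [ind_pos r2]
    by_cases r3 : o.2.1 = j1
    · linarith [ind_pos r3]
    by_cases r4 : edg o.2.1 o.1 ∈ U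
    · linarith [ind_pos (And.intro (show o.2.1 ≠ j1 from r3) r4)]
    by_cases r5 : edg o.2.1 o.2.2 ∈ U
    · linarith [ind_pos (And.intro (show o.2.1 ≠ j0 from r2) r5)]
    by_cases r6 : cel a o.2.1 ∈ U
    · linarith [ind_pos (And.intro (show o.2.1 ≠ j1 from r3) r6)]
    by_cases r7 : cel b o.2.1 ∈ U
    · linarith [ind_pos (And.intro (show o.2.1 ≠ j1 from r3) r7)]
    have r1 : o ∈ Cand D a b j0 j1 ∧ Disjoint (ln a b j0 j1 o) U := by
      simp only [mem_Cand, ln, disjoint_insert_left, disjoint_singleton_left]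
      tauto
    linarith [ind_pos r1]
  have h3 : ∑ o ∈ C, ind (o ∈ Cand D a b j0 j1 ∧ Disjoint (ln a b j0 j1 o) U) ≤
      #{o ∈ Cand D a b j0 j1 | Disjoint (ln a b j0 j1 o) U} := by
    rw [sum_ind]
    exact_mod_cast card_le_card fun o ho => mem_filter.2 (mem_filter.1 ho).2
  simp only [sum_add_distrib] at h2
  rw [c0] at h1 b1 b3 b6 b7
  rw [c1] at b2 b4
  generalize ((D.n / 8 : ℕ) : ℝ) = s at *
  have h4 : (D.n : ℝ) ^ 2 / 600 ≤ s ^ 2 / 4 - 2 * s - 4 * (s * T) := by
    have h5 : (D.n : ℝ) / 9 * (D.n / 50) ≤ s * (s / 4 - 2 - 4 * T) :=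
      mul_le_mul (by linarith) (by linarith) (by positivity) (by linarith)
    nlinarith
  nlinarith [mul_le_mul_of_nonneg_left h4 hl]

end count

theorem sum_load {W α : Type*} [Fintype W] [DecidableEq α] (f : W → α) (S : Finset α) {k : ℝ}
    (h : ∀ j, (#{w | f w = j} : ℝ) ≤ k) : ∑ w, ind (f w ∈ S) ≤ #S * k := by
  rw [sum_ind, ← nsmul_eq_mul, card_eq_sum_card_fiberwise (f := f) (t := S)
    (s := {w | f w ∈ S}) fun w hw => (mem_filter.1 (mem_coe.1 hw)).2, Nat.cast_sum]
  refine sum_le_card_nsmul _ _ _ fun j _ => le_trans ?_ (h j)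
  exact_mod_cast card_le_card fun w hw => mem_filter.2 ⟨mem_univ _, (mem_filter.1 hw).2⟩

end Wire

open Wire in
theorem place_wire (D : Des I J X) (hn : 10 ^ 4 ≤ D.n) {W : Type*} [Fintype W] [DecidableEq W]
    (a b : W → I) (j0 j1 : W → J) (hab : ∀ w, a w ≠ b w) (hj : ∀ w, j0 w ≠ j1 w)
    (g0 : ∀ w, PG D (j0 w) (a w) (b w))
    (g1 : ∀ w, PG D (j1 w) (a w) (b w)) (U0 : Finset (Ln I J X)) (t0 t β L : ℝ) (hβ : 0 ≤ β)
    (load0 : ∀ j, (#{w | j0 w = j} : ℝ) ≤ β * D.n) (load1 : ∀ j, (#{w | j1 w = j} : ℝ) ≤ β * D.n)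
    (load2 : ∀ i, (#{w | a w = i ∨ b w = i} : ℝ) ≤ β * Fintype.card J)
    (hU0 : Sparse D U0 t0) (hsm : 500 * (t0 + t) ≤ D.n)
    (hL : (D.n : ℝ) ^ 6 ≤ Real.exp L) (ht : 10 ^ 4 * β * D.n + 10 * L ≤ t) :
    ∃ P : W → Finset (Ln I J X), (∀ w, P w ⊆ valid D ∧ Disjoint (P w) U0) ∧
      (∀ w w', w ≠ w' → Disjoint (P w) (P w')) ∧ Sparse D (univ.biUnion P) t ∧
      ∀ w, Dec ((P w).val + ({cel (a w) (j0 w)} + {cel (b w) (j1 w)})) ∧
        Dec ((P w).val + ({cel (b w) (j0 w)} + {cel (a w) (j1 w)})) := by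
  have hn2 : 2 ≤ D.n := by omega
  have hn' : (10 ^ 4 : ℝ) ≤ D.n := by exact_mod_cast hn
  have hl : (1 : ℝ) ≤ D.lam := by exact_mod_cast D.lam_pos hn2
  have hm : (0 : ℝ) < D.lam * D.n ^ 2 / 600 := by positivity
  have hc : (Fintype.card J : ℝ) * D.lam ≤ 2 * (D.n * D.n) := by exact_mod_cast D.le_sq
  have hc' : β * Fintype.card J * (D.lam * D.lam * D.n) ≤ 2 * (β * D.lam * D.n ^ 3) := by
    have := mul_le_mul_of_nonneg_left hc (show (0 : ℝ) ≤ β * D.lam * D.n by positivity)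
    nlinarith
  have hp : 0 ≤ β * D.lam * (D.n : ℝ) ^ 3 := by positivity
  have key : ∀ s : W → X × J × X → ℝ,
      ∑ w, ∑ o ∈ Cand D (a w) (b w) (j0 w) (j1 w), s w o ≤ 8 * (β * D.lam * D.n ^ 3) →
      ∑ w, (∑ o ∈ Cand D (a w) (b w) (j0 w) (j1 w), s w o) / (D.lam * D.n ^ 2 / 600) ≤
        4800 * β * D.n := fun s hs => by
    rw [← sum_div, div_le_iff₀ hm]
    linarith
  have sq : ∀ j, ∑ w, ∑ o ∈ Cand D (a w) (b w) (j0 w) (j1 w), ind (o.2.1 = j) ≤
      2 * (β * D.lam * D.n ^ 3) := fun j => by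
    have h1 := sum_load j0 univ load0
    simp only [ind_pos (mem_univ _), sum_const, nsmul_eq_mul, mul_one, card_univ] at h1
    refine (sum_le_sum fun w _ => c_q D _ _ _ _ j).trans ?_
    rw [sum_const, nsmul_eq_mul, card_univ]
    have := mul_le_mul_of_nonneg_right h1 (show (0 : ℝ) ≤ D.lam * D.lam by positivity)
    linarith
  have sx : ∀ (j : W → J) (x : X), (∀ q, (#{w | j w = q} : ℝ) ≤ β * D.n) →
      ∑ w, D.lam * D.n * ind (j w ∈ D.B x) ≤ β * D.lam * D.n ^ 3 := fun j x h => by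
    have h1 := sum_load j (D.B x) h
    rw [D.cardB] at h1
    rw [← mul_sum]
    have := mul_le_mul_of_nonneg_left h1 (show (0 : ℝ) ≤ D.lam * D.n by positivity)
    linarith
  have sx1 := fun x => (sum_le_sum fun w _ => c_x1 D (a w) (b w) (j0 w) (j1 w) x).trans
    (sx j0 x load0)
  have sx2 := fun x => (sum_le_sum fun w _ => c_x2 D (a w) (b w) (j0 w) (j1 w) x).trans
    (sx j1 x load1)
  have sj : ∀ (j : W → J) (q : J), (∀ q, (#{w | j w = q} : ℝ) ≤ β * D.n) →
      ∑ w, 2 * D.lam * D.n ^ 2 * ind (j w = q) ≤ 2 * (β * D.lam * D.n ^ 3) := fun j q h => by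
    rw [← mul_sum, sum_ind]
    have := mul_le_mul_of_nonneg_left (h q) (show (0 : ℝ) ≤ 2 * D.lam * D.n ^ 2 by positivity)
    linarith
  have si : ∀ i, ∑ w, D.lam * D.lam * D.n * ind (a w = i ∨ b w = i) ≤
      2 * (β * D.lam * D.n ^ 3) := fun i => by
    rw [← mul_sum, sum_ind]
    have := mul_le_mul_of_nonneg_left (load2 i)
      (show (0 : ℝ) ≤ D.lam * D.lam * D.n by positivity)
    linarith
  obtain ⟨f, h1, h2, h3⟩ := place D (by omega) (fun w => ln (a w) (b w) (j0 w) (j1 w))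
    (fun w => Cand D (a w) (b w) (j0 w) (j1 w)) (fun _ => D.lam * D.n ^ 2 / 600) (fun _ => hm)
    U0 t0 t (4800 * β * D.n) 10 L hU0 (by norm_num) (fun w o _ => card_ln _ _ _ _ _)
    (fun U hU w => avail hn (hj w) (g0 w) (g1 w) hU hsm)
    (fun j => key _ <| by
      refine (sum_le_sum fun w _ => sum_le_sum fun o _ => cJ_ln _ _ _ _ _ j).trans ?_
      simp only [sum_add_distrib]
      linarith [sq j])
    (fun x => key _ <| by
      refine (sum_le_sum fun w _ => sum_le_sum fun o _ => sX_ln _ _ _ _ _ x).trans ?_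
      simp only [sum_add_distrib]
      linarith [sx1 x, sx2 x])
    (fun j => key _ <| by
      refine (sum_le_sum fun w _ => sum_le_sum fun o _ => eJ_ln _ _ _ _ _ j).trans ?_
      simp only [sum_add_distrib]
      linarith [sq j, (sum_le_sum fun w _ => c_all D (a w) (b w) (j0 w) (j1 w) hn2 _).trans
        (sj j0 j load0), (sum_le_sum fun w _ => c_all D (a w) (b w) (j0 w) (j1 w) hn2 _).trans
        (sj j1 j load1)])
    (fun x => key _ <| by
      refine (sum_le_sum fun w _ => sum_le_sum fun o _ => eX_ln _ _ _ _ _ x).trans ?_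
      simp only [sum_add_distrib]
      linarith [sx1 x, sx2 x])
    (fun x i => key _ <| by
      refine (sum_le_sum fun w _ => sum_le_sum fun o _ => cN_ln D _ _ _ _ _ x i).trans ?_
      linarith [(sum_le_sum fun w _ => c_qB D (a w) (b w) (j0 w) (j1 w) x _).trans (si i)])
    (fun j i => key _ <| by
      refine (sum_le_sum fun w _ => sum_le_sum fun o _ => sN_ln D _ _ _ _ _ j i).trans ?_
      have e1 := sum_le_sum fun w (_ : w ∈ univ) =>
        c_jB1 D (a w) (b w) (j0 w) (j1 w) hn2 j (a w = i ∨ b w = i)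
      have e2 := sum_le_sum fun w (_ : w ∈ univ) =>
        c_jB2 D (a w) (b w) (j0 w) (j1 w) hn2 j (a w = i ∨ b w = i)
      simp only [sum_add_distrib] at e1 e2 ⊢
      linarith [si i, sj j0 j load0, sj j1 j load1])
    hL (by nlinarith [mul_nonneg hβ (Nat.cast_nonneg (α := ℝ) D.n)])
  exact ⟨fun w => ln (a w) (b w) (j0 w) (j1 w) (f w), fun w => ⟨ln_valid (h1 w).1, (h1 w).2⟩, h2,
    h3, fun w => ln_dec (hab w) (h1 w).1⟩

end Pool.Agent.Lib.MP_9dc2ba_co.Large
end
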