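import Mathlib
import Pool.Agent.Lib.MP_9dc2ba_co.Large.Wire
import Pool.Agent.Lib.MP_9dc2ba_co.Large.Prob
import Pool.Agent.Lib.MP_9dc2ba_co.Large.Round
import Pool.Agent.Lib.MP_9dc2ba_co.Large.NetCore

-- part Pool.Agent.Lib.MP_9dc2ba_co.Large.PlaceC
section

/-!
Placement of an abstract circuit.
-/

open Finset

set_option linter.unusedSectionVars false

namespace Pool.Agent.Lib.MP_9dc2ba_co.Large

variable {I J X : Type*} [Fintype I] [Fintype J] [Fintype X] [DecidableEq I] [DecidableEq J]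
  [DecidableEq X]

namespace PC

theorem sum_single {α β : Type*} (S : Finset α) (f : α → β) :
    ∑ a ∈ S, ({f a} : Multiset β) = S.val.map f := by
  rw [← Multiset.sum_map_singleton (S.val.map f), Multiset.map_map]
  rfl

theorem map_sum' {α β γ : Type*} (S : Finset α) (f : α → Multiset β) (g : β → γ) :
    (∑ a ∈ S, f a).map g = ∑ a ∈ S, (f a).map g :=
  map_sum (Multiset.mapAddMonoidHom g) f S

theorem union_val' {β : Type*} [DecidableEq β] {A B : Finset β} (h : Disjoint A B) :
    (A ∪ B).val = A.val + B.val := by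
  rw [← disjUnion_eq_union _ _ h]
  rfl

theorem symLn_val (tc : Fin 3 → I) (h : Function.Injective tc) (r : Option J) (y : X) :
    (symLn (univ.image tc) r y : Finset (Ln I J X)).val =
      ∑ k, {sym y (tc k)} + r.toFinset.val.map (fun j => edg j y) := by
  unfold symLn
  rw [union_val', image_image, image_val_of_injOn, image_val_of_injOn, sum_single]
  · rfl
  · intro a _ b _ hab
    simpa using hab
  · intro a _ b _ hab
    exact h (by simpa using hab)
  · rw [disjoint_left]
    intro l hl hl'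
    simp only [mem_image] at hl hl'
    obtain ⟨a, _, rfl⟩ := hl
    obtain ⟨b, _, hb⟩ := hl'
    cases hb

theorem colLn_val (P : Finset I) (a : Option X) (q : J) :
    (colLn P a q : Finset (Ln I J X)).val =
      P.val.map (fun i => cel i q) + a.toFinset.val.map (fun y => edg q y) := by
  unfold colLn
  rw [union_val', image_val_of_injOn, image_val_of_injOn]
  · intro a _ b _ hab
    simpa using hab
  · intro a _ b _ hab
    simpa using hab
  · rw [disjoint_left]
    intro l hl hl'
    simp only [mem_image] at hl hl'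
    obtain ⟨a, _, rfl⟩ := hl
    obtain ⟨b, _, hb⟩ := hl'
    cases hb

theorem card_le_of_disj {T α β : Type*} [Fintype T] [Fintype α] [DecidableEq β] (S : Finset T)
    (ln : T → Finset β) (hd : ∀ τ τ', τ ≠ τ' → Disjoint (ln τ) (ln τ')) (f : α → β)
    (h : ∀ τ ∈ S, ∃ a, f a ∈ ln τ) : #S ≤ #{a | f a ∈ univ.biUnion ln} := by
  classical
  choose g hg using h
  refine card_le_card_of_forall_subsingleton (fun τ a => ∃ hτ : τ ∈ S, g τ hτ = a) ?_ ?_
  · intro τ hτ
    refine ⟨g τ hτ, ?_, hτ, rfl⟩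
    simp only [mem_filter, mem_univ, true_and, mem_biUnion]
    exact ⟨τ, hg τ hτ⟩
  · intro a _ τ hτ τ' hτ'
    obtain ⟨_, h1, h2⟩ := hτ
    obtain ⟨_, h3, h4⟩ := hτ'
    by_contra hne
    refine disjoint_left.1 (hd τ τ' hne) (hg τ h1) ?_
    rw [h2, ← h4]
    exact hg τ' h3

variable {N T : Type*} [Fintype N] [Fintype T] [DecidableEq N] [DecidableEq T]

theorem exists_anc (leg : T → Fin 3 → J ⊕ N) (y : T → X)
    (hinj : ∀ τ k τ' k' ν, leg τ k = Sum.inr ν → leg τ' k' = Sum.inr ν → τ = τ' ∧ k = k') :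
    ∃ anc : N → Option X, (∀ τ k ν, leg τ k = Sum.inr ν → anc ν = some (y τ)) ∧
      ∀ ν x, anc ν = some x → ∃ τ k, leg τ k = Sum.inr ν ∧ y τ = x := by
  classical
  refine ⟨fun ν => if h : ∃ p : T × Fin 3, leg p.1 p.2 = Sum.inr ν then some (y h.choose.1)
    else none, ?_, ?_⟩
  · intro τ k ν h
    have h1 : ∃ p : T × Fin 3, leg p.1 p.2 = Sum.inr ν := ⟨(τ, k), h⟩
    simp only [dif_pos h1]
    rw [(hinj _ _ _ _ _ h1.choose_spec h).1]
  · intro ν x h
    by_cases h1 : ∃ p : T × Fin 3, leg p.1 p.2 = Sum.inr ν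
    · simp only [dif_pos h1] at h
      exact ⟨_, _, h1.choose_spec, Option.some.inj h⟩
    · simp only [dif_neg h1] at h
      cases h

theorem edges (leg : T → Fin 3 → J ⊕ N) (y : T → X) (φ : N → J) (anc : N → Option X)
    (hroot : ∀ τ k j, leg τ k = Sum.inl j → k = 0)
    (hinj : ∀ τ k τ' k' ν, leg τ k = Sum.inr ν → leg τ' k' = Sum.inr ν → τ = τ' ∧ k = k')
    (h1 : ∀ τ k ν, leg τ k = Sum.inr ν → anc ν = some (y τ))
    (h2 : ∀ ν x, anc ν = some x → ∃ τ k, leg τ k = Sum.inr ν ∧ y τ = x) :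
    ∑ τ, (leg τ 0).getLeft?.toFinset.val.map (fun j => (edg j (y τ) : Ln I J X)) +
      ∑ ν, (anc ν).toFinset.val.map (fun x => edg (φ ν) x) =
      ∑ τ, ∑ k, {edg (Sum.elim id φ (leg τ k)) (y τ)} := by
  have key : ∀ τ k, ({edg (Sum.elim id φ (leg τ k)) (y τ)} : Multiset (Ln I J X)) =
      (if k = 0 then (leg τ 0).getLeft?.toFinset.val.map (fun j => edg j (y τ)) else 0) +
        ∑ ν, if leg τ k = Sum.inr ν then {edg (φ ν) (y τ)} else 0 := by
    intro τ k
    cases h : leg τ k with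
    | inl j =>
      obtain rfl := hroot τ k j h
      simp [h]
    | inr ν =>
      by_cases hk : k = 0
      · subst hk
        simp [h]
      · simp [hk]
  simp only [key, sum_add_distrib, sum_ite_eq', mem_univ, if_true]
  congr 1
  rw [sum_congr rfl fun τ _ => sum_comm, sum_comm]
  refine sum_congr rfl fun ν _ => ?_
  cases h : anc ν with
  | none =>
    symm
    refine sum_eq_zero fun τ _ => sum_eq_zero fun k _ => if_neg fun hl => ?_
    rw [h1 τ k ν hl] at h
    cases h
  | some x =>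
    obtain ⟨τ, k, hl, rfl⟩ := h2 ν x h
    rw [sum_eq_single τ, sum_eq_single k, if_pos hl]
    · simp
    · intro k' _ hk
      exact if_neg fun hl' => hk (hinj _ _ _ _ _ hl' hl).2
    · simp
    · intro τ' _ hτ
      exact sum_eq_zero fun k' _ => if_neg fun hl' => hτ (hinj _ _ _ _ _ hl' hl).1
    · simp

theorem assemble {W : Type*} [Fintype W] [DecidableEq W] (C : Circ I J N T W) (y : T → X)
    (φ : N → J) (anc : N → Option X) (P : W → Finset (Ln I J X))
    (htc : ∀ τ, Function.Injective (C.tc τ))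
    (hroot : ∀ τ k j, C.leg τ k = Sum.inl j → k = 0)
    (hinj : ∀ τ k τ' k' ν, C.leg τ k = Sum.inr ν → C.leg τ' k' = Sum.inr ν → τ = τ' ∧ k = k')
    (h1 : ∀ τ k ν, C.leg τ k = Sum.inr ν → anc ν = some (y τ))
    (h2 : ∀ ν x, anc ν = some x → ∃ τ k, C.leg τ k = Sum.inr ν ∧ y τ = x)
    (hP : ∀ w, Dec ((P w).val + ({cel (C.wa w) (φ (C.w0 w))} + {cel (C.wb w) (φ (C.w1 w))})) ∧
      Dec ((P w).val + ({cel (C.wb w) (φ (C.w0 w))} + {cel (C.wa w) (φ (C.w1 w))})))
    (m : Multiset (I × J)) (st : T → Fin 3) (o : W → Bool)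
    (h : needOf C.pal m = tripOf C.tc C.leg st + C.wireOf o) :
    Dec (∑ τ, (symLn (univ.image (C.tc τ)) (C.leg τ 0).getLeft? (y τ) : Finset (Ln I J X)).val +
      ∑ ν, (colLn (C.pal ν) (anc ν) (φ ν) : Finset (Ln I J X)).val + ∑ w, (P w).val +
      m.map fun p => cel p.1 p.2) := by
  have h3 := congrArg
    (Multiset.map fun p : I × (J ⊕ N) => (cel p.1 (Sum.elim id φ p.2) : Ln I J X)) h
  simp only [needOf, tripOf, Circ.wireOf, Multiset.map_add, map_sum', Multiset.map_map,
    Function.comp_def, Sum.elim_inl, Sum.elim_inr, id, Multiset.map_singleton] at h3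
  have h4 := edges (I := I) C.leg y φ anc hroot hinj h1 h2
  have h5 : ∀ τ, ∑ k, ({sym (y τ) (C.tc τ k)} : Multiset (Ln I J X)) =
      ∑ k, {sym (y τ) (C.tc τ (Equiv.swap 0 (st τ) k))} := fun τ =>
    (Equiv.sum_comp (Equiv.swap 0 (st τ))
      fun k => ({sym (y τ) (C.tc τ k)} : Multiset (Ln I J X))).symm
  have h6 : ∑ τ, (symLn (univ.image (C.tc τ)) (C.leg τ 0).getLeft? (y τ) :
        Finset (Ln I J X)).val +
      ∑ ν, (colLn (C.pal ν) (anc ν) (φ ν) : Finset (Ln I J X)).val + ∑ w, (P w).val +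
      (m.map fun p => cel p.1 p.2) =
      ∑ τ, ∑ k, tri (C.tc τ (Equiv.swap 0 (st τ) k), Sum.elim id φ (C.leg τ k), y τ) +
      ∑ w, ((P w).val + ({cel (if o w then C.wb w else C.wa w) (φ (C.w0 w))} +
        {cel (if o w then C.wa w else C.wb w) (φ (C.w1 w))})) := by
    have h7 : ∀ t : I × J × X, tri t = {cel t.1 t.2.1} + ({sym t.2.2 t.1} + {edg t.2.1 t.2.2}) :=
      fun t => rfl
    simp only [symLn_val _ (htc _), colLn_val, h5, h7, sum_add_distrib] at h3 ⊢
    rw [← h4]
    have h8 : ∀ a b c d e f g k l : Multiset (Ln I J X), f + c = g + (k + l) →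
        a + b + (c + d) + e + f = g + (a + (b + d)) + (e + (k + l)) := by
      intro a b c d e f g k l hh
      calc a + b + (c + d) + e + f = a + b + d + e + (f + c) := by abel
        _ = _ := by rw [hh]; abel
    exact h8 _ _ _ _ _ _ _ _ _ h3
  rw [h6]
  refine Dec.add (Dec.sum _ _ fun τ _ => Dec.sum _ _ fun k _ => Dec.tri _ _ _)
    (Dec.sum _ _ fun w _ => ?_)
  cases o w
  · exact (hP w).1
  · exact (hP w).2

end PC

open PV PC

theorem place_circ (D : Des I J X) (hn : 10 ^ 4 ≤ D.n) {N T W : Type*} [Fintype N] [Fintype T]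
    [Fintype W] [DecidableEq N] [DecidableEq T] [DecidableEq W] (C : Circ I J N T W) (s : ℕ)
    (hs : 1 ≤ s) (β L t0 t : ℝ) (hC : C.Ok D s β) (U0 : Finset (Ln I J X))
    (hU0 : Sparse D U0 t0) (hL : (D.n : ℝ) ^ 6 ≤ Real.exp L) (hβ : L ≤ β * D.n)
    (ht : 10 ^ 10 * s ^ 2 * β * D.n ≤ t) (hsm : 1000 * s * (t0 + t) ≤ D.n) :
    ∃ 𝒜 ⊆ valid D, Disjoint 𝒜 U0 ∧ Sparse D 𝒜 t ∧
      ∀ m st o, needOf C.pal m = tripOf C.tc C.leg st + C.wireOf o →
        Dec (𝒜.val + m.map fun p => cel p.1 p.2) := by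
  classical
  have hn' : 100 ≤ D.n := by omega
  have hN : (100 : ℝ) ≤ D.n := by exact_mod_cast hn'
  have hN0 : (0 : ℝ) < D.n := by linarith
  have hc : (D.n : ℝ) ≤ Fintype.card J := by exact_mod_cast D.n_le_c
  have hL1 := L_nonneg hn' hL
  have hs' : (1 : ℝ) ≤ s := by exact_mod_cast hs
  have ht0 := sparse_nonneg hn' hU0
  have hβ0 : 0 ≤ β := by
    by_contra h
    push Not at h
    nlinarith
  obtain ⟨b, hb⟩ : ∃ b : ℝ, b = β * D.n := ⟨_, rfl⟩
  have hb1 : 1 ≤ b := by linarith
  have hLb : L ≤ b := by linarith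
  have hsb : b ≤ s * b := le_mul_of_one_le_left (by linarith) hs'
  have hssb : s * b ≤ s * (s * b) := le_mul_of_one_le_left (by linarith) hs'
  have ht' : 10 ^ 10 * (s * (s * b)) ≤ t := by rw [hb]; linarith
  have hsL : s * L ≤ s * b := mul_le_mul_of_nonneg_left hLb (by linarith)
  have hu : ∀ u : ℝ, 0 ≤ u → u ≤ t0 + t → 1000 * u ≤ D.n ∧ 1000 * (s * u) ≤ D.n := by
    intro u h0 h1
    have h2 : s * u ≤ s * (t0 + t) := mul_le_mul_of_nonneg_left h1 (by linarith)
    have h3 : u ≤ s * u := le_mul_of_one_le_left h0 hs'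
    constructor <;> linarith
  have hsn : 1000 * (s : ℝ) ≤ D.n := by
    have := (hu 1 (by norm_num) (by linarith)).2
    linarith
  have hcβ : ∀ k : ℝ, 1 ≤ k → β * Fintype.card J ≤ k * β * Fintype.card J := fun k hk => by
    have : β ≤ k * β := le_mul_of_one_le_left hβ0 hk
    exact mul_le_mul_of_nonneg_right this (by linarith)
  have B := hC.base
  have hrt : ∀ τ j, (C.leg τ 0).getLeft? = some j ↔ C.leg τ 0 = Sum.inl j := fun τ j =>
    Sum.getLeft?_eq_some_iff
  obtain ⟨y, hy1, hy2, hy3⟩ := place_sym D hn' (fun τ => univ.image (C.tc τ))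
    (fun τ => (C.leg τ 0).getLeft?)
    (fun τ => {x | (∀ j, C.leg τ 0 = Sum.inl j → j ∈ D.B x) ∧ ∀ k, C.tc τ k ∈ D.A x}) U0 t0
    (2344 * b) (D.n / 18) β L (by positivity) (by linarith) hβ0
    (fun τ => card_image_le.trans (by simp))
    (fun τ j h x hx => (mem_filter.1 hx).2.1 j ((hrt τ j).1 h))
    (fun τ j h => by
      have h1 := (hrt τ j).1 h
      have h2 := B.tg τ j h1
      unfold TG at h2
      have h3 : #{x | j ∈ D.B x ∧ C.tc τ 0 ∈ D.A x ∧ C.tc τ 1 ∈ D.A x ∧ C.tc τ 2 ∈ D.A x} ≤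
          #{x | (∀ j, C.leg τ 0 = Sum.inl j → j ∈ D.B x) ∧ ∀ k, C.tc τ k ∈ D.A x} := by
        refine card_le_card fun x hx => ?_
        simp only [mem_filter, mem_univ, true_and] at hx ⊢
        refine ⟨fun j' hj' => ?_, ?_⟩
        · rw [h1] at hj'
          cases hj'
          exact hx.1
        · rw [Fin.forall_fin_succ, Fin.forall_fin_two]
          exact hx.2
      have h4 := (Nat.cast_le (α := ℝ)).2 h3
      linarith)
    (fun τ h => by
      obtain ⟨ν, h1⟩ : ∃ ν, C.leg τ 0 = Sum.inr ν := by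
        cases h' : C.leg τ 0 with
        | inl j => simp [h'] at h
        | inr ν => exact ⟨ν, rfl⟩
      have h2 := B.gg τ ν h1
      unfold GG at h2
      have h3 : #{x | C.tc τ 0 ∈ D.A x ∧ C.tc τ 1 ∈ D.A x ∧ C.tc τ 2 ∈ D.A x} ≤
          #{x | (∀ j, C.leg τ 0 = Sum.inl j → j ∈ D.B x) ∧ ∀ k, C.tc τ k ∈ D.A x} := by
        refine card_le_card fun x hx => ?_
        simp only [mem_filter, mem_univ, true_and] at hx ⊢
        refine ⟨fun j' hj' => ?_, ?_⟩
        · rw [h1] at hj'
          cases hj'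
        · rw [Fin.forall_fin_succ, Fin.forall_fin_two]
          exact hx
      have h4 := (Nat.cast_le (α := ℝ)).2 h3
      linarith)
    (fun j => by simpa only [hrt] using B.rootload j)
    (fun i => by simpa only [mem_image, mem_univ, true_and] using B.tload i) hU0
    (by have := (hu (t0 + 2344 * b) (by linarith) (by linarith)).1; linarith)
    (by have := (hu (t0 + 2344 * b) (by linarith) (by linarith)).1; linarith) hL
    (by
      have : (D.n : ℝ) / (D.n / 18) = 18 := by field_simp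
      rw [this]
      linarith)
  set U1 : Finset (Ln I J X) :=
    univ.biUnion fun τ => symLn (univ.image (C.tc τ)) (C.leg τ 0).getLeft? (y τ) with hU1
  obtain ⟨anc, ha1, ha2⟩ := exists_anc C.leg y B.leg_inj
  have hcand : ∀ (ν : N) (S : Finset J), (∀ q ∈ S, ∀ x, anc ν = some x → q ∈ D.B x) →
      (#S : ℝ) - D.n / 2 ≤ #{q | (∀ x, anc ν = some x → q ∈ D.B x) ∧
        ∀ w, C.w0 w = ν ∨ C.w1 w = ν → PG D q (C.wa w) (C.wb w)} := by
    intro ν S hS
    have h1 : S ⊆ ({q | (∀ x, anc ν = some x → q ∈ D.B x) ∧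
        ∀ w, C.w0 w = ν ∨ C.w1 w = ν → PG D q (C.wa w) (C.wb w)} : Finset J) ∪
        (({w | C.w0 w = ν} : Finset W) ∪ ({w | C.w1 w = ν} : Finset W)).biUnion
          fun w => {q | ¬ PG D q (C.wa w) (C.wb w)} := by
      intro q hq
      by_cases h : ∀ w, C.w0 w = ν ∨ C.w1 w = ν → PG D q (C.wa w) (C.wb w)
      · exact mem_union_left _ (mem_filter.2 ⟨mem_univ _, hS q hq, h⟩)
      · push Not at h
        obtain ⟨w, hw, hw'⟩ := h
        refine mem_union_right _ (mem_biUnion.2 ⟨w, ?_, ?_⟩)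
        · simpa using hw
        · simpa using hw'
    have h2 := (Nat.cast_le (α := ℝ)).2 ((card_le_card h1).trans (card_union_le _ _))
    have h3 := card_biUnion_le_mul
      (({w | C.w0 w = ν} : Finset W) ∪ ({w | C.w1 w = ν} : Finset W))
      (fun w => ({q | ¬ PG D q (C.wa w) (C.wb w)} : Finset J)) 49 fun w _ => by
        exact_mod_cast D.bad_pg_column hn' (hC.w_ne w)
    have h4 := (Nat.cast_le (α := ℝ)).2
      ((card_union_le _ _).trans (add_le_add (hC.w0_card ν) (hC.w1_card ν)))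
    push_cast at h2 h4
    linarith
  obtain ⟨φ, hφ1, hφ2, hφ3⟩ := place_col D hn' C.pal anc
    (fun ν => {q | (∀ x, anc ν = some x → q ∈ D.B x) ∧
        ∀ w, C.w0 w = ν ∨ C.w1 w = ν → PG D q (C.wa w) (C.wb w)}) (U0 ∪ U1) s hs
    (t0 + 2344 * b) (225026 * (s * b)) (7032 * β) L (by positivity) B.pal_card
    (fun ν x h q hq => (mem_filter.1 hq).2.1 x h)
    (fun ν x h => by
      have := hcand ν (D.B x) fun q hq x' h' => by
        rw [h] at h'
        cases h'
        exact hq
      rw [D.cardB] at this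
      linarith)
    (fun ν h => by
      have := hcand ν univ fun q _ x' h' => by
        rw [h] at h'
        cases h'
      rw [card_univ] at this
      linarith)
    (fun x => by
      have h1 : ({ν | anc ν = some x} : Finset N) ⊆ ({τ | y τ = x} : Finset T).biUnion
          fun τ => univ.biUnion fun k : Fin 3 => (C.leg τ k).getRight?.toFinset := by
        intro ν hν
        obtain ⟨τ, k, h1, h2⟩ := ha2 ν x (mem_filter.1 hν).2
        simp only [mem_biUnion, mem_filter, mem_univ, true_and]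
        exact ⟨τ, h2, k, by simp [h1]⟩
      have h2 := card_biUnion_le_mul ({τ | y τ = x} : Finset T)
        (fun τ => univ.biUnion fun k : Fin 3 => (C.leg τ k).getRight?.toFinset) 3 fun τ _ => by
          have := card_biUnion_le_mul (univ : Finset (Fin 3))
            (fun k => (C.leg τ k).getRight?.toFinset) 1 fun k _ => by
              exact_mod_cast card_opt_le _
          simpa using this
      have h3 := card_le_of_disj ({τ | y τ = x} : Finset T) _ hy2 (fun i => sym x i) fun τ hτ =>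
        ⟨C.tc τ 0, (sym_symLn _ _ _ _ _).2 ⟨(mem_filter.1 hτ).2, by simp⟩⟩
      have h4 := hy3.sX x
      have h5 := (Nat.cast_le (α := ℝ)).2 h3
      have h6 := (Nat.cast_le (α := ℝ)).2 (card_le_card h1)
      unfold sX at h4
      linarith)
    (fun i => (B.nload i).trans (hcβ _ (by norm_num))) (hU0.union hy3)
    (by have := (hu (t0 + 2344 * b + 225026 * (s * b)) (by linarith) (by linarith)).2; linarith) hL
    (by rw [hb] at hsL ⊢; linarith)
  set U2 : Finset (Ln I J X) := univ.biUnion fun ν => colLn (C.pal ν) (anc ν) (φ ν) with hU2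
  have hload : ∀ (e : W → N), (∀ ν, #{w | e w = ν} ≤ s) → (∀ w, (C.pal (e w)).Nonempty) →
      ∀ j, (#{w | φ (e w) = j} : ℝ) ≤ 225026 * (s * s) * β * D.n := by
    intro e he hne j
    have h1 : ({w | φ (e w) = j} : Finset W) ⊆
        ({ν | φ ν = j ∧ (C.pal ν).Nonempty} : Finset N).biUnion fun ν => {w | e w = ν} := by
      intro w hw
      simp only [mem_biUnion, mem_filter, mem_univ, true_and] at hw ⊢
      exact ⟨e w, ⟨hw, hne w⟩, rfl⟩
    have h2 := card_biUnion_le_mul ({ν | φ ν = j ∧ (C.pal ν).Nonempty} : Finset N)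
      (fun ν => ({w | e w = ν} : Finset W)) s fun ν _ => by exact_mod_cast he ν
    have h3 := card_le_of_disj ({ν | φ ν = j ∧ (C.pal ν).Nonempty} : Finset N) _ hφ2
      (fun i => cel i j) fun ν hν => by
        obtain ⟨h1, i, hi⟩ := (mem_filter.1 hν).2
        exact ⟨i, (cel_colLn _ _ _ _ _).2 ⟨h1, hi⟩⟩
    have h4 := hφ3.cJ j
    have h5 := (Nat.cast_le (α := ℝ)).2 h3
    have h6 := (Nat.cast_le (α := ℝ)).2 (card_le_card h1)
    unfold cJ at h4
    have h7 := mul_le_mul_of_nonneg_right (h5.trans h4) (by linarith : (0 : ℝ) ≤ s)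
    rw [hb] at h7
    linarith
  obtain ⟨P, hP1, hP2, hP3, hP4⟩ := place_wire D hn C.wa C.wb (fun w => φ (C.w0 w))
    (fun w => φ (C.w1 w)) hC.w_ne
    (fun w h => by
      obtain ⟨h1, i, hi⟩ := hC.w_meet w
      exact disjoint_left.1 (hφ2 _ _ h1) ((cel_colLn _ _ _ _ _).2 ⟨rfl, (mem_inter.1 hi).1⟩)
        ((cel_colLn _ _ _ _ _).2 ⟨h.symm, (mem_inter.1 hi).2⟩))
    (fun w => (mem_filter.1 (hφ1 _).1).2.2 w (Or.inl rfl))
    (fun w => (mem_filter.1 (hφ1 _).1).2.2 w (Or.inr rfl)) (U0 ∪ U1 ∪ U2)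
    (t0 + 2344 * b + 225026 * (s * b)) (2250260010 * (s * (s * b))) (225026 * (s * s) * β) L
    (by positivity)
    (hload _ hC.w0_card fun w => (hC.w_meet w).2.mono inter_subset_left)
    (hload _ hC.w1_card fun w => (hC.w_meet w).2.mono inter_subset_right)
    (fun i => (hC.wload i).trans (hcβ _ (by nlinarith))) ((hU0.union hy3).union hφ3)
    (by
      have := (hu (t0 + 2344 * b + 225026 * (s * b) + 2250260010 * (s * (s * b))) (by linarith)
        (by linarith)).1
      linarith) hL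
    (by rw [hb] at hssb hsb hLb ⊢; linarith)
  have d10 : Disjoint U1 U0 := (disjoint_biUnion_left _ _ _).2 fun τ _ => (hy1 τ).2
  have d2 : Disjoint U2 (U0 ∪ U1) := (disjoint_biUnion_left _ _ _).2 fun ν _ => (hφ1 ν).2
  have d3 : Disjoint (univ.biUnion P) (U0 ∪ U1 ∪ U2) :=
    (disjoint_biUnion_left _ _ _).2 fun w _ => (hP1 w).2
  rw [disjoint_union_right] at d2
  rw [disjoint_union_right, disjoint_union_right] at d3
  refine ⟨U1 ∪ U2 ∪ univ.biUnion P, ?_, ?_, ?_, ?_⟩
  · refine union_subset (union_subset ?_ ?_) ?_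
    · refine biUnion_subset.2 fun τ _ l hl => ?_
      have h1 := (mem_filter.1 (hy1 τ).1).2
      cases l with
      | cel i j => simp
      | sym x i =>
        obtain ⟨rfl, hi⟩ := (sym_symLn _ _ _ _ _).1 hl
        obtain ⟨k, _, rfl⟩ := mem_image.1 hi
        simpa using h1.2 k
      | edg j x =>
        obtain ⟨hj, rfl⟩ := (edg_symLn _ _ _ _ _).1 hl
        simpa using h1.1 j ((hrt τ j).1 hj)
    · refine biUnion_subset.2 fun ν _ l hl => ?_
      have h1 := (mem_filter.1 (hφ1 ν).1).2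
      cases l with
      | cel i j => simp
      | sym x i => simp at hl
      | edg j x =>
        obtain ⟨hj, rfl⟩ := (edg_colLn _ _ _ _ _).1 hl
        simpa using h1.1 x hj
    · exact biUnion_subset.2 fun w _ => (hP1 w).1
  · exact disjoint_union_left.2 ⟨disjoint_union_left.2 ⟨d10, d2.1⟩, d3.1.1⟩
  · exact ((hy3.union hφ3).union hP3).mono Subset.rfl (by linarith)
  · intro m st o h
    rw [union_val' (disjoint_union_left.2 ⟨d3.1.2.symm, d3.2.symm⟩), union_val' d2.2.symm, hU1,
      hU2, biUnion_val_eq_sum _ _ fun τ _ τ' _ => hy2 τ τ',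
      biUnion_val_eq_sum _ _ fun τ _ τ' _ => hφ2 τ τ',
      biUnion_val_eq_sum _ _ fun τ _ τ' _ => hP2 τ τ']
    exact assemble C y φ anc P B.tc_inj B.leg_root B.leg_inj ha1 ha2 hP4 m st o h

end Pool.Agent.Lib.MP_9dc2ba_co.Large
end

-- part Pool.Agent.Lib.MP_9dc2ba_co.Large.Net
section

/-!
Placing an open circuit: the terminals are closed by concentrator networks.
-/

open Finset

set_option linter.unusedSectionVars false

namespace Pool.Agent.Lib.MP_9dc2ba_co.Large

variable {I J X : Type*} [Fintype I] [Fintype J] [Fintype X] [DecidableEq I] [DecidableEq J]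
  [DecidableEq X]

theorem place_open (D : Des I J X) (hn : 10 ^ 4 ≤ D.n) {N T Tm : Type*} [Fintype N] [Fintype T]
    [Fintype Tm] [DecidableEq N] [DecidableEq T] [DecidableEq Tm] (O : OCirc I J N T Tm)
    (σ0 : Tm → Bool) (s g h1 : ℕ) (hs : 3 ≤ s) (β β' L t0 t : ℝ)
    (hO : BaseOk D O.pal O.tc O.leg s β) (hnode : ∀ ν, #{τ | O.node τ = ν} ≤ s)
    (hne : ∀ τ, O.cb τ ∈ O.pal (O.node τ))
    (adj : I → I → Prop) [DecidableRel adj] (hsymm : ∀ a b, adj a b → adj b a)
    (hirr : ∀ a, ¬ adj a a) (hdeg : ∀ a, #{b | adj a b} ≤ g) (hadj : ∀ τ, adj (O.ca τ) (O.cb τ))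
    (hW : ∀ a b, #{τ | (O.ca τ = a ∧ O.cb τ = b) ∨ (O.ca τ = b ∧ O.cb τ = a)} ≤ 2 ^ h1)
    (hβ' : β * Fintype.card J + 32 * g * (h1 + 1) * 2 ^ h1 ≤ β' * Fintype.card J)
    (U0 : Finset (Ln I J X)) (hU0 : Sparse D U0 t0) (hL : (D.n : ℝ) ^ 6 ≤ Real.exp L)
    (hβ : L ≤ β' * D.n) (ht : 10 ^ 10 * s ^ 2 * β' * D.n ≤ t) (hsm : 1000 * s * (t0 + t) ≤ D.n) :
    ∃ 𝒜 ⊆ valid D, Disjoint 𝒜 U0 ∧ Sparse D 𝒜 t ∧
      ∀ m st σ, needOf O.pal m = tripOf O.tc O.leg st + O.termOf σ →
        univ.val.map (O.st σ) = univ.val.map (O.st σ0) →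
        Dec (𝒜.val + m.map fun p => cel p.1 p.2) := by
  obtain ⟨C, hC, htr⟩ := Net.exists_circ D hn O σ0 s g hs β β' hO hnode hne adj hsymm hirr hdeg
    hadj hW hβ' (conc h1) fun a b hab => D.bad_gg (by omega) hab
  obtain ⟨𝒜, hv, hd, hsp, hdec⟩ := place_circ D hn C s (by omega) β' L t0 t hC U0 hU0 hL hβ ht hsm
  refine ⟨𝒜, hv, hd, hsp, fun m st σ h2 h3 => ?_⟩
  obtain ⟨st', o, h4⟩ := htr m st σ h2 h3
  exact hdec m st' o h4

end Pool.Agent.Lib.MP_9dc2ba_co.Large
end

-- part Pool.Agent.Lib.MP_9dc2ba_co.Large.Fill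
section

/-!
A bounded circulation on the cube is the boundary of a bounded family of squares.
-/

open Finset

namespace Pool.Agent.Lib.MP_9dc2ba_co.Large

namespace Fill

variable {h : ℕ}

@[simp] theorem flip_self (d : Fin h) (v : Cube h) : flip d v d = !v d := by
  simp [flip]

theorem flip_of_ne {d e : Fin h} (hde : e ≠ d) (v : Cube h) : flip d v e = v e := by
  simp [flip, Function.update_of_ne hde]

@[simp] theorem flip_flip (d : Fin h) (v : Cube h) : flip d (flip d v) = v := by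
  funext e
  by_cases he : e = d
  · subst he
    simp
  · simp [flip_of_ne he]

theorem flip_comm (d e : Fin h) (v : Cube h) : flip d (flip e v) = flip e (flip d v) := by
  by_cases hde : d = e
  · rw [hde]
  funext c
  by_cases h1 : c = d
  · subst h1
    simp [flip_of_ne hde]
  · by_cases h2 : c = e
    · subst h2
      simp [flip_of_ne h1]
    · simp [flip_of_ne h1, flip_of_ne h2]

theorem flip_ne (d : Fin h) (v : Cube h) : v ≠ flip d v := by
  intro he
  have := congrFun he d
  simp at this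

theorem flip_dir_inj {d e : Fin h} {v : Cube h} (he : flip d v = flip e v) : d = e := by
  by_contra hde
  have := congrFun he d
  rw [flip_self, flip_of_ne hde] at this
  simp at this

theorem flip_eq_iff {d : Fin h} {v w : Cube h} : flip d v = w ↔ v = flip d w :=
  ⟨fun he => by rw [← he, flip_flip], fun he => by rw [he, flip_flip]⟩

/-- An integer circulation can be halved, up to rounding. -/
theorem halve (S : Fin h → Cube h → ℤ) (ha : ∀ d v, S d (flip d v) = -S d v)
    (hd : ∀ v, ∑ d, S d v = 0) :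
    ∃ R : Fin h → Cube h → ℤ, (∀ d v, R d (flip d v) = -R d v) ∧ (∀ v, ∑ d, R d v = 0) ∧
      ∀ d v, |2 * R d v - S d v| ≤ 1 ∧ (S d v = 0 → R d v = 0) := by
  classical
  have htl : ∀ (f : Fin h × Cube h → ℝ) (v : Cube h),
      ∑ e with (fun e : Fin h × Cube h => e.2) e = v, f e = ∑ d, f (d, v) := by
    intro f v
    rw [sum_filter, Fintype.sum_prod_type]
    simp
  have hhd : ∀ (f : Fin h × Cube h → ℝ) (v : Cube h),
      ∑ e with (fun e : Fin h × Cube h => flip e.1 e.2) e = v, f e = ∑ d, f (d, flip d v) := by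
    intro f v
    rw [sum_filter, Fintype.sum_prod_type]
    simp [flip_eq_iff]
  let y : Fin h × Cube h → ℝ := fun e => ((max (S e.1 e.2) 0 : ℤ) : ℝ) / 2
  have hy : ∀ v, ∑ d, y (d, v) - ∑ d, y (d, flip d v) = 0 := by
    intro v
    rw [← sum_sub_distrib]
    have h1 : ∀ d, y (d, v) - y (d, flip d v) = (S d v : ℝ) / 2 := by
      intro d
      simp only [y, ha]
      rw [← sub_div, ← Int.cast_sub]
      congr 2
      omega
    simp only [h1]
    rw [← sum_div, ← Int.cast_sum, hd]
    simp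
  obtain ⟨z, hz, hdiv, -⟩ := round_flow (fun e : Fin h × Cube h => e.2)
    (fun e => flip e.1 e.2) (fun e => flip_ne e.1 e.2) y 0
    (fun v => ⟨0, by rw [htl, hhd, hy]; simp⟩)
  have hz' : ∀ d v, max (S d v) 0 - 1 ≤ 2 * z (d, v) ∧ 2 * z (d, v) ≤ max (S d v) 0 + 1 ∧
      (S d v ≤ 0 → z (d, v) = 0) := by
    intro d v
    obtain ⟨h1, h2⟩ := hz (d, v)
    have h3 : y (d, v) < z (d, v) + 1 := by
      have := Int.lt_floor_add_one (y (d, v))
      have h4 : ((⌊y (d, v)⌋ : ℤ) : ℝ) ≤ z (d, v) := by exact_mod_cast h1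
      linarith
    have h4 : (z (d, v) : ℝ) < y (d, v) + 1 := by
      have := Int.ceil_lt_add_one (y (d, v))
      have h4 : (z (d, v) : ℝ) ≤ ((⌈y (d, v)⌉ : ℤ) : ℝ) := by exact_mod_cast h2
      linarith
    simp only [y] at h3 h4
    have h5 : max (S d v) 0 < 2 * z (d, v) + 2 := by
      have : ((max (S d v) 0 : ℤ) : ℝ) < 2 * z (d, v) + 2 := by linarith
      exact_mod_cast this
    have h6 : 2 * z (d, v) < max (S d v) 0 + 2 := by
      have : 2 * (z (d, v) : ℝ) < ((max (S d v) 0 : ℤ) : ℝ) + 2 := by linarith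
      exact_mod_cast this
    omega
  refine ⟨fun d v => z (d, v) - z (d, flip d v), fun d v => by simp, fun v => ?_, fun d v => ?_⟩
  · have := hdiv v
    rw [htl, hhd, htl, hhd, hy, ← sum_sub_distrib] at this
    exact_mod_cast this
  · have h1 := hz' d v
    have h2 := hz' d (flip d v)
    rw [ha] at h2
    rw [abs_le]
    beta_reduce
    omega

/-- The alternating sum over the square with directions `a`, `b` through `v`. -/
def sq (g : Cube h → ℤ) (a b : Fin h) (v : Cube h) : ℤ :=
  g v + g (flip a (flip b v)) - g (flip a v) - g (flip b v)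

theorem sq_cut {a b : Fin h} (hab : a ≠ b) (g : Cube h → ℤ) (h1 : ∀ v, g (flip a v) = -g v)
    (h2 : ∀ v, g (flip b v) = -g v) (v : Cube h) :
    sq (fun w => if w a = false ∧ w b = false then g w else 0) a b v = g v := by
  simp only [sq, flip_self, flip_of_ne hab, flip_of_ne hab.symm, h1, h2]
  cases v a <;> cases v b <;> simp

theorem sq_comm (g : Cube h → ℤ) (a b : Fin h) (v : Cube h) : sq g a b v = sq g b a v := by
  simp only [sq, flip_comm a b]
  ring

theorem core (m : ℤ) (hm : 0 ≤ m) (U : Finset (Fin h)) :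
    ∀ Φ : Fin h → Cube h → ℤ, (∀ d v, Φ d (flip d v) = -Φ d v) → (∀ v, ∑ d, Φ d v = 0) →
      (∀ d v, |Φ d v| ≤ m) → (∀ d ∉ U, ∀ v, Φ d v = 0) →
      ∃ A : Fin h → Fin h → Cube h → ℤ, (∀ a b v, A a b v = -A b a v) ∧
        (∀ a b v, |A a b v| ≤ 2 * m) ∧ (∀ a ∉ U, ∀ b v, A a b v = 0) ∧
        ∀ d v, Φ d v = ∑ b, sq (A d b) d b v := by
  classical
  induction U using Finset.induction_on with
  | empty =>
    intro Φ _ _ _ h0
    refine ⟨0, by simp, fun _ _ _ => by simpa using hm, by simp, fun d v => ?_⟩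
    simp [h0 d (notMem_empty d), sq]
  | insert t U ht ih =>
    intro Φ ha hd hb h0
    let S : Fin h → Cube h → ℤ := fun d v => Φ d v + Φ d (flip t v)
    have hSt : ∀ d v, S d (flip t v) = S d v := fun d v => by simp [S, add_comm]
    have hS0 : ∀ d ∉ U, ∀ v, S d v = 0 := by
      intro d hdU v
      by_cases hdt : d = t
      · subst hdt
        simp [S, ha]
      · simp [S, h0 d (by simp [hdU, hdt])]
    have hSa : ∀ d v, S d (flip d v) = -S d v := by
      intro d v
      simp only [S, flip_comm t d, ha]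
      ring
    obtain ⟨R, hRa, hRd, hR⟩ := halve S hSa
      (fun v => by simp only [S, sum_add_distrib, hd, add_zero])
    let Ψ : Fin h → Cube h → ℤ := fun d v =>
      if v t = false then R d v else S d v - R d (flip t v)
    have hΨ0 : ∀ d ∉ U, ∀ v, Ψ d v = 0 := by
      intro d hdU v
      simp [Ψ, hS0 d hdU, (hR d _).2 (hS0 d hdU _)]
    have hΨa : ∀ d v, Ψ d (flip d v) = -Ψ d v := by
      intro d v
      by_cases hdt : d = t
      · simp [hΨ0 d (hdt ▸ ht)]
      · simp only [Ψ, flip_of_ne (Ne.symm hdt), flip_comm t d, hRa, hSa]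
        split_ifs <;> ring
    have hΨd : ∀ v, ∑ d, Ψ d v = 0 := by
      intro v
      simp only [Ψ]
      split_ifs
      · exact hRd v
      · simp only [S, sum_sub_distrib, sum_add_distrib, hd, hRd]
        simp
    have hΨb : ∀ d v, |Ψ d v| ≤ m := by
      intro d v
      have h1 := abs_le.1 (hb d v)
      have h2 := abs_le.1 (hb d (flip t v))
      have h3 := abs_le.1 (hR d v).1
      have h4 := abs_le.1 (hR d (flip t v)).1
      rw [hSt] at h4
      have h5 : S d v = Φ d v + Φ d (flip t v) := rfl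
      simp only [Ψ]
      rw [abs_le]
      split_ifs <;> omega
    have hΨt : ∀ d v, Ψ d v + Ψ d (flip t v) = S d v := by
      intro d v
      simp only [Ψ, flip_self, flip_flip, hSt]
      cases v t <;> simp
    obtain ⟨A, hAa, hAb, hA0, hA⟩ := ih Ψ hΨa hΨd hΨb hΨ0
    let D : Fin h → Cube h → ℤ := fun d v => Φ d v - Ψ d v
    have hDa : ∀ d v, D d (flip d v) = -D d v := by
      intro d v
      simp only [D, ha, hΨa]
      ring
    have hDt : ∀ d v, D d (flip t v) = -D d v := by
      intro d v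
      have h1 := hΨt d v
      have h5 : S d v = Φ d v + Φ d (flip t v) := rfl
      simp only [D]
      omega
    have hDd : ∀ v, ∑ d, D d v = 0 := by
      intro v
      simp only [D, sum_sub_distrib, hd, hΨd, sub_zero]
    let g : Fin h → Cube h → ℤ := fun e w =>
      if e = t then 0 else if w e = false ∧ w t = false then D e w else 0
    have hgt : ∀ w, g t w = 0 := fun w => by simp [g]
    have hg : ∀ e ≠ t, ∀ v, sq (g e) e t v = D e v := by
      intro e he v
      simp only [g, if_neg he]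
      exact sq_cut he _ (hDa e) (hDt e) v
    have hgb : ∀ e w, |g e w| ≤ 2 * m := by
      intro e w
      have h1 := abs_le.1 (hb e w)
      have h2 := abs_le.1 (hΨb e w)
      simp only [g, D]
      rw [abs_le]
      split_ifs <;> omega
    have hAt : ∀ b v, A t b v = 0 := hA0 t ht
    have hAt' : ∀ b v, A b t v = 0 := fun b v => by rw [hAa, hAt, neg_zero]
    refine ⟨fun a b w => if b = t then g a w else if a = t then -g b w else A a b w,
      ?_, ?_, ?_, ?_⟩
    · intro a b v
      by_cases h1 : a = t <;> by_cases h2 : b = t <;> simp [h1, h2, hgt]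
      exact hAa a b v
    · intro a b v
      beta_reduce
      split_ifs
      · exact hgb _ _
      · rw [abs_neg]
        exact hgb _ _
      · exact hAb _ _ _
    · intro a haU b v
      rw [mem_insert, not_or] at haU
      have h1 := h0 a (by simp [haU.1, haU.2])
      simp [haU.1, g, D, h1, hΨ0 a haU.2, hA0 a haU.2]
    · intro d v
      by_cases hdt : d = t
      · subst hdt
        have h1 : ∀ b, sq (fun w => if b = d then g d w else if d = d then -g b w else A d b w)
            d b v = -D b v + if b = d then D d v else 0 := by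
          intro b
          by_cases hbd : b = d
          · simp [hbd, hgt, sq]
          · rw [sq_comm, ← hg b hbd]
            simp only [if_neg hbd, if_true, sq]
            ring
        beta_reduce
        rw [sum_congr rfl fun b _ => h1 b, sum_add_distrib, sum_neg_distrib, hDd]
        simp [D, hΨ0 d ht]
      · have h1 : ∀ b, sq (fun w => if b = t then g d w else if d = t then -g b w else A d b w)
            d b v = sq (A d b) d b v + if b = t then D d v else 0 := by
          intro b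
          by_cases hbt : b = t
          · subst hbt
            rw [if_pos rfl, ← hg d hdt]
            simp [sq, hAt']
          · simp [hbt, hdt]
        simp only [h1, sum_add_distrib, ← hA]
        simp [D]

theorem edge_eq_iff {d c : Fin h} {v x : Cube h} :
    (v, flip d v) = (x, flip c x) ↔ d = c ∧ v = x := by
  constructor
  · intro he
    obtain ⟨h1, h2⟩ := Prod.mk.inj he
    subst h1
    exact ⟨flip_dir_inj h2, rfl⟩
  · rintro ⟨rfl, rfl⟩
    rfl

theorem fwd_eq (q : Sq h) : fwd q =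
    {(q.1.2.2, flip q.1.1 q.1.2.2),
      (flip q.1.1 q.1.2.2, flip q.1.2.1 (flip q.1.1 q.1.2.2)),
      (flip q.1.2.1 (flip q.1.1 q.1.2.2), flip q.1.1 (flip q.1.2.1 (flip q.1.1 q.1.2.2))),
      (flip q.1.2.1 q.1.2.2, flip q.1.2.1 (flip q.1.2.1 q.1.2.2))} := by
  rw [fwd, flip_flip, flip_comm q.1.1 q.1.2.1 (flip q.1.1 _), flip_flip]

theorem mem_fwd {q : Sq h} {v w : Cube h} (he : (v, w) ∈ fwd q) : ∃ d, w = flip d v := by
  rw [fwd_eq] at he
  simp only [Multiset.insert_eq_cons, Multiset.mem_cons, Multiset.mem_singleton,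
    Prod.mk.injEq] at he
  rcases he with ⟨rfl, rfl⟩ | ⟨rfl, rfl⟩ | ⟨rfl, rfl⟩ | ⟨rfl, rfl⟩ <;> exact ⟨_, rfl⟩

/-- The number of times the edge from `v` in direction `d` occurs in a square. -/
def cnt (p : Fin h × Fin h × Cube h) (d : Fin h) (v : Cube h) : ℤ :=
  (if d = p.1 ∧ v = p.2.2 then 1 else 0) + (if d = p.2.1 ∧ v = flip p.1 p.2.2 then 1 else 0) +
    (if d = p.1 ∧ v = flip p.2.1 (flip p.1 p.2.2) then 1 else 0) +
    (if d = p.2.1 ∧ v = flip p.2.1 p.2.2 then 1 else 0)

theorem count_fwd (q : Sq h) (d : Fin h) (v : Cube h) :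
    ((fwd q).count (v, flip d v) : ℤ) = cnt q.1 d v := by
  rw [fwd_eq]
  simp only [Multiset.insert_eq_cons, Multiset.count_cons, Multiset.count_singleton, edge_eq_iff,
    cnt]
  push_cast
  ring

theorem sum_cnt (K : Fin h → Fin h → Cube h → ℤ) (d : Fin h) (v : Cube h) :
    ∑ p : Fin h × Fin h × Cube h, K p.1 p.2.1 p.2.2 * cnt p d v =
      ∑ b, (K d b v + K b d (flip b v) + K d b (flip d (flip b v)) + K b d (flip d v)) := by
  simp only [Fintype.sum_prod_type, cnt, mul_add, sum_add_distrib, mul_ite, mul_one, mul_zero,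
    ← flip_eq_iff, ite_and]
  simp

theorem sum_fwd (A : Fin h → Fin h → Cube h → ℤ) (hA : ∀ a b v, A a b v = -A b a v)
    (d : Fin h) (v : Cube h) :
    ∑ q : Sq h, ((A q.1.1 q.1.2.1 q.1.2.2).toNat : ℤ) *
      (((fwd q).count (v, flip d v) : ℤ) - (fwd q).count (flip d v, v)) =
      ∑ b, sq (A d b) d b v := by
  have h1 : ∀ q : Sq h, ((fwd q).count (flip d v, v) : ℤ) = cnt q.1 d (flip d v) := by
    intro q
    rw [← count_fwd, flip_flip]
  simp only [count_fwd, h1]
  have h2 : ∀ a v, A a a v = 0 := fun a v => by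
    have := hA a a v
    omega
  let F : Fin h × Fin h × Cube h → ℤ := fun p =>
    ((A p.1 p.2.1 p.2.2).toNat : ℤ) * (cnt p d v - cnt p d (flip d v))
  have h3 : ∑ q : Sq h, F q.1 = ∑ p, F p := by
    rw [← sum_subtype (univ.filter fun p : Fin h × Fin h × Cube h => p.1 ≠ p.2.1) (by simp)]
    refine sum_filter_of_ne fun p _ hp he => hp ?_
    simp [F, he, h2]
  refine h3.trans ?_
  simp only [F, mul_sub, sum_sub_distrib]
  rw [sum_cnt (fun a b v => ((A a b v).toNat : ℤ)), sum_cnt (fun a b v => ((A a b v).toNat : ℤ)),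
    ← sum_sub_distrib]
  refine sum_congr rfl fun b _ => ?_
  simp only [sq, flip_flip, flip_comm b d, hA b d]
  omega

end Fill

open Fill in
theorem fill {I : Type*} [Fintype I] [DecidableEq I] {h : ℕ} (ι : Cube h ↪ I) (π : I → Cube h)
    (P P0 : Multiset (I × I)) (m : ℕ)
    (hP : ∀ q ∈ P, Adj ι π q.1 q.2) (hP0 : ∀ q ∈ P0, Adj ι π q.1 q.2)
    (hsym : P + P.map Prod.swap = P0 + P0.map Prod.swap)
    (hdiv : P.map Prod.snd = P0.map Prod.snd)
    (hm : ∀ q, P.count q ≤ m) (hm0 : ∀ q, P0.count q ≤ m) :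
    ∃ K : Sq h → ℕ, (∀ q, K q ≤ 4 * m) ∧
      P + ∑ q, K q • (fwd q).map (fun e => (ι e.2, ι e.1)) =
        P0 + ∑ q, K q • (fwd q).map (fun e => (ι e.1, ι e.2)) := by
  let Δ : I → I → ℤ := fun a b => (P.count (a, b) : ℤ) - P0.count (a, b)
  have hanti : ∀ a b, Δ b a = -Δ a b := by
    intro a b
    have h1 := congrArg (Multiset.count (a, b)) hsym
    have h2 : ∀ M : Multiset (I × I), (M.map Prod.swap).count (a, b) = M.count (b, a) :=
      fun M => Multiset.count_map_eq_count' _ M Prod.swap_injective (b, a)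
    rw [Multiset.count_add, Multiset.count_add, h2, h2] at h1
    simp only [Δ]
    omega
  have hcol : ∀ b, ∑ a, Δ a b = 0 := by
    intro b
    have h2 : ∀ M : Multiset (I × I), (M.map Prod.snd).count b = ∑ a, M.count (a, b) := by
      intro M
      induction M using Multiset.induction_on with
      | empty => simp
      | cons p M ih =>
        obtain ⟨x, y⟩ := p
        simp only [Multiset.map_cons, Multiset.count_cons, ih, sum_add_distrib, Prod.mk.injEq,
          ite_and]
        simp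
    have h1 := congrArg (Multiset.count b) hdiv
    rw [h2, h2] at h1
    simp only [Δ, sum_sub_distrib]
    rw [← Nat.cast_sum, ← Nat.cast_sum, h1, sub_self]
  have hadj : ∀ a b, ¬ Adj ι π a b → Δ a b = 0 := by
    intro a b hab
    simp only [Δ]
    rw [Multiset.count_eq_zero_of_notMem fun hq => hab (hP _ hq),
      Multiset.count_eq_zero_of_notMem fun hq => hab (hP0 _ hq)]
    simp
  have hout : ∀ a b, b ∉ Set.range ι → Δ a b = 0 := by
    intro a b hb
    have h1 : ∀ x, x ≠ ι (π b) → Δ x b = 0 := by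
      intro x hx
      refine hadj _ _ ?_
      rintro (⟨d, v, -, h2⟩ | ⟨-, h2⟩ | ⟨-, h2⟩)
      · exact hb ⟨_, h2.symm⟩
      · exact hb ⟨_, h2.symm⟩
      · exact hx h2
    by_cases ha : a = ι (π b)
    · have h2 := hcol b
      rw [sum_eq_single (ι (π b)) (fun x _ hx => h1 x hx) (by simp)] at h2
      rw [ha, h2]
    · exact h1 a ha
  have hin : ∀ v w, (∀ d, w ≠ flip d v) → Δ (ι v) (ι w) = 0 := by
    intro v w hvw
    refine hadj _ _ ?_
    rintro (⟨d, x, h1, h2⟩ | ⟨h2, -⟩ | ⟨h2, -⟩)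
    · rw [ι.injective h1] at hvw
      exact hvw d (ι.injective h2)
    · exact h2 ⟨_, rfl⟩
    · exact h2 ⟨_, rfl⟩
  have hrow : ∀ v, ∑ d, Δ (ι v) (ι (flip d v)) = 0 := by
    intro v
    have h1 : ∑ b, Δ (ι v) b = 0 := by
      simp only [hanti _ (ι v), sum_neg_distrib, hcol, neg_zero]
    rw [← h1]
    refine sum_of_injOn (fun d => ι (flip d v)) (fun d _ e _ he => flip_dir_inj (ι.injective he))
      (by simp) (fun b _ hb => ?_) (fun _ _ => rfl)
    by_cases hb' : b ∈ Set.range ι
    · obtain ⟨w, rfl⟩ := hb'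
      exact hin v w fun d hd => hb ⟨d, by simp, by rw [hd]⟩
    · exact hout _ _ hb'
  obtain ⟨A, hAa, hAb, -, hA⟩ := core (h := h) m (Int.natCast_nonneg m) univ
    (fun d v => Δ (ι v) (ι (flip d v))) (fun d v => by rw [Fill.flip_flip, hanti]) hrow
    (fun d v => by
      have h1 := hm (ι v, ι (flip d v))
      have h2 := hm0 (ι v, ι (flip d v))
      simp only [Δ]
      rw [abs_le]
      omega) (by simp)
  refine ⟨fun q => (A q.1.1 q.1.2.1 q.1.2.2).toNat, fun q => ?_, ?_⟩
  · have := abs_le.1 (hAb q.1.1 q.1.2.1 q.1.2.2)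
    beta_reduce
    omega
  have hi1 : Function.Injective fun e : Cube h × Cube h => (ι e.1, ι e.2) := by
    intro e e' he
    obtain ⟨h1, h2⟩ := Prod.mk.inj he
    exact Prod.ext (ι.injective h1) (ι.injective h2)
  have hi2 : Function.Injective fun e : Cube h × Cube h => (ι e.2, ι e.1) := by
    intro e e' he
    obtain ⟨h1, h2⟩ := Prod.mk.inj he
    exact Prod.ext (ι.injective h2) (ι.injective h1)
  ext ⟨a, b⟩
  simp only [Multiset.count_add, Multiset.count_sum', Multiset.count_nsmul]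
  suffices hs : Δ a b = ∑ q : Sq h, ((A q.1.1 q.1.2.1 q.1.2.2).toNat : ℤ) *
      ((((fwd q).map (fun e => (ι e.1, ι e.2))).count (a, b) : ℤ) -
        ((fwd q).map (fun e => (ι e.2, ι e.1))).count (a, b)) by
    simp only [Δ, mul_sub, sum_sub_distrib] at hs
    zify
    linarith
  by_cases hab : a ∈ Set.range ι ∧ b ∈ Set.range ι
  · obtain ⟨⟨v, rfl⟩, ⟨w, rfl⟩⟩ := hab
    have h1 : ∀ q : Sq h, ((fwd q).map (fun e => (ι e.1, ι e.2))).count (ι v, ι w) =
        (fwd q).count (v, w) := fun q => Multiset.count_map_eq_count' _ _ hi1 (v, w)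
    have h2 : ∀ q : Sq h, ((fwd q).map (fun e => (ι e.2, ι e.1))).count (ι v, ι w) =
        (fwd q).count (w, v) := fun q => Multiset.count_map_eq_count' _ _ hi2 (w, v)
    simp only [h1, h2]
    by_cases hvw : ∃ d, w = flip d v
    · obtain ⟨d, rfl⟩ := hvw
      rw [sum_fwd A hAa, ← hA]
    · rw [hin v w fun d hd => hvw ⟨d, hd⟩]
      refine (sum_eq_zero fun q _ => ?_).symm
      rw [Multiset.count_eq_zero_of_notMem fun hq => hvw (mem_fwd hq),
        Multiset.count_eq_zero_of_notMem fun hq => ?_]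
      · simp
      · obtain ⟨d, hd⟩ := mem_fwd hq
        exact hvw ⟨d, by rw [hd, Fill.flip_flip]⟩
  · have h0 : Δ a b = 0 := by
      by_cases hb : b ∈ Set.range ι
      · rw [hanti, hout b a fun ha => hab ⟨ha, hb⟩, neg_zero]
      · exact hout a b hb
    rw [h0]
    refine (sum_eq_zero fun q _ => ?_).symm
    rw [Multiset.count_eq_zero_of_notMem, Multiset.count_eq_zero_of_notMem]
    · simp
    · intro hq
      obtain ⟨e, -, he⟩ := Multiset.mem_map.1 hq
      obtain ⟨h1, h2⟩ := Prod.mk.inj he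
      exact hab ⟨⟨_, h1⟩, ⟨_, h2⟩⟩
    · intro hq
      obtain ⟨e, -, he⟩ := Multiset.mem_map.1 hq
      obtain ⟨h1, h2⟩ := Prod.mk.inj he
      exact hab ⟨⟨_, h1⟩, ⟨_, h2⟩⟩

end Pool.Agent.Lib.MP_9dc2ba_co.Large
end

-- part Pool.Agent.Lib.MP_9dc2ba_co.Large.Base3
section

/-!
The base circuit of the absorber: states for every admissible set of cells, and the loads.
-/

open Finset

set_option linter.unusedSectionVars false

namespace Pool.Agent.Lib.MP_9dc2ba_co.Large.Ab

variable {I J X : Type*} [Fintype I] [Fintype J] [Fintype X] [DecidableEq I] [DecidableEq J]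
  [DecidableEq X] {h h0 : ℕ}
  (ι : Cube h ↪ I) (π : I → Cube h) (col : J → ℕ → Fin (2 ^ h0) → I) (M : ℕ)

noncomputable instance decEqNd : DecidableEq (Nd J h h0 M) := Classical.decEq _

noncomputable instance decEqTm : DecidableEq (Tm ι π col M) := Classical.decEq _

/-- The real cells of the networks at the columns. -/
def rootM (mj : J → ℕ) : Multiset (I × J) :=
  ∑ p : Po J h0, if (p.2.1 : ℕ) + 1 = h0 ∧ (p.2.2 : ℕ) < mj p.1 then 0 else {(own col p, p.1)}

/-- The cells of a set of lines. -/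
def cellM (U : Finset (Ln I J X)) : Multiset (I × J) :=
  ({p : I × J | cel p.1 p.2 ∈ U} : Finset (I × J)).val

theorem cellM_eq (U : Finset (Ln I J X)) :
    cellM U = ∑ j, ∑ i ∈ ({i | cel i j ∈ U} : Finset I), {(i, j)} := by
  unfold cellM
  rw [← Multiset.map_id (Finset.val _), ← sum_sing, sum_filter, Fintype.sum_prod_type_right]
  refine sum_congr rfl fun j _ => ?_
  rw [sum_filter]
  rfl

theorem cellM_fst (U : Finset (Ln I J X)) (i : I) :
    ((cellM U).map Prod.fst).count i = cI U i := by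
  rw [cellM_eq, mmap_sum, Multiset.count_sum', cI, card_filter]
  refine sum_congr rfl fun j _ => ?_
  rw [sum_sing, Multiset.map_map]
  simp only [Function.comp_def, Multiset.map_id']
  rw [Multiset.count_eq_of_nodup (Finset.nodup _)]
  simp

theorem cellM_map {U : Finset (Ln I J X)} (hU : OnlyCel U) :
    (cellM U).map (fun p => cel p.1 p.2) = U.val := by
  unfold cellM
  rw [← image_val_of_injOn (fun a _ b _ h => by
    simp only [Ln.cel.injEq] at h
    exact Prod.ext h.1 h.2)]
  congr 1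
  ext l
  simp only [mem_image, mem_filter, mem_univ, true_and]
  constructor
  · rintro ⟨p, hp, rfl⟩
    exact hp
  · intro hl
    obtain ⟨i, j, rfl⟩ := hU l hl
    exact ⟨(i, j), hl, rfl⟩

theorem route_all (hh0 : 1 ≤ h0) (zp : J → I → Fin (2 ^ h0)) (U : Finset (Ln I J X))
    (hz : ∀ j i, cel i j ∈ U → col j 0 (zp j i) = i) :
    ∃ s : Po J h0 → Fin 3, ∑ p : Po J h0, ({((oc ι π col M).tc p (s p), p.1)} : Multiset (I × J)) =
      rootM col (cJ U) + cellM U := by
  choose act fs ms h1 h2 h3 using fun j =>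
    conc h0 (({i | cel i j ∈ U} : Finset I).image (zp j))
  refine ⟨fun p => ms p.1 p.2.1 p.2.2, ?_⟩
  rw [cellM_eq, rootM, Fintype.sum_prod_type, Fintype.sum_prod_type (f := fun p : Po J h0 =>
    if (p.2.1 : ℕ) + 1 = h0 ∧ (p.2.2 : ℕ) < cJ U p.1 then (0 : Multiset (I × J))
      else {(own col p, p.1)}), ← sum_add_distrib]
  refine sum_congr rfl fun j _ => ?_
  have hinj : Set.InjOn (zp j) ↑({i | cel i j ∈ U} : Finset I) := by
    intro a ha b hb hab
    rw [mem_coe, mem_filter] at ha hb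
    rw [← hz j a ha.2, ← hz j b hb.2, hab]
  have hc : #(({i | cel i j ∈ U} : Finset I).image (zp j)) = cJ U j := card_image_of_injOn hinj
  have e := root_eq h0 (fun ℓ t => ({(col j ℓ t, j)} : Multiset (I × J))) (act j) (fs j) (ms j)
    (h3 j) h0 le_rfl
  have e1 : ∑ t, (if act j 0 t then ({(col j 0 t, j)} : Multiset (I × J)) else 0) =
      ∑ i ∈ ({i | cel i j ∈ U} : Finset I), {(i, j)} := by
    simp only [h1]
    rw [Fintype.sum_ite_mem, sum_image hinj]
    refine sum_congr rfl fun i hi => ?_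
    rw [hz j i (mem_filter.1 hi).2]
  have e2 : ∑ ℓ ∈ range h0, ∑ t, ({(col j (ℓ + 1) t, j)} : Multiset (I × J)) =
      ∑ ℓ ∈ range h0, ∑ t : Fin (2 ^ h0), (if ℓ + 1 = h0 ∧ (t : ℕ) < cJ U j then 0
        else ({(col j (ℓ + 1) t, j)} : Multiset (I × J))) +
      ∑ t, (if act j h0 t then ({(col j h0 t, j)} : Multiset (I × J)) else 0) := by
    obtain ⟨k, rfl⟩ : ∃ k, h0 = k + 1 := ⟨h0 - 1, by omega⟩
    rw [sum_range_succ, sum_range_succ, add_assoc, ← sum_add_distrib]
    congr 1
    · refine sum_congr rfl fun ℓ hℓ => sum_congr rfl fun t _ => ?_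
      rw [if_neg]
      have := mem_range.1 hℓ
      omega
    · refine sum_congr rfl fun t _ => ?_
      simp only [h2, hc, true_and]
      split_ifs <;> simp
  rw [e1, e2, ← add_assoc] at e
  have e3 := add_right_cancel e
  rw [add_comm] at e3
  rw [Fintype.sum_prod_type, Fintype.sum_prod_type]
  refine Eq.trans ?_ (Eq.trans e3 ?_)
  · rw [← Fin.sum_univ_eq_sum_range (fun ℓ => ∑ t, ![({(col j (ℓ + 1) t, j)} : Multiset (I × J)),
      {(col j ℓ t, j)}, {(col j ℓ (sh h0 ℓ t), j)}] (ms j ℓ t)) h0]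
    refine sum_congr rfl fun ℓ _ => sum_congr rfl fun t _ => ?_
    simp only [oc, own, pre]
    generalize ms j ℓ t = s
    fin_cases s <;> simp
  · congr 1
    exact (Fin.sum_univ_eq_sum_range (fun ℓ => ∑ t : Fin (2 ^ h0),
      (if ℓ + 1 = h0 ∧ (t : ℕ) < cJ U j then 0
        else ({(col j (ℓ + 1) t, j)} : Multiset (I × J)))) h0).symm

theorem sigP_adj (hπ : ∀ v, π (ι v) = v) (s : Po J h0 → Fin 3) :
    ∀ q ∈ sigP ι π col s, Adj ι π q.1 q.2 := by
  intro q hq
  unfold sigP at hq
  rw [Multiset.mem_sum] at hq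
  obtain ⟨p, -, hq⟩ := hq
  obtain ⟨d, -, h1, h2 | h2⟩ := mem_wpairs hq
  · rw [h2]; exact adj_symm ι π _ _ (sigWalk_adj ι π hπ _ _ d h1)
  · rw [h2]; exact sigWalk_adj ι π hπ _ _ d h1

theorem sigP_sym (s s' : Po J h0 → Fin 3) :
    sigP ι π col s + (sigP ι π col s).map Prod.swap =
      sigP ι π col s' + (sigP ι π col s').map Prod.swap := by
  unfold sigP
  rw [mmap_sum, mmap_sum, ← sum_add_distrib, ← sum_add_distrib]
  exact sum_congr rfl fun p _ => wpairs_sym _ _ _ _

/-- Signal columns whose palette contains a given colour. -/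
def sigLoad (i : I) : ℕ := #{p : Po J h0 × Bool | i ∈ pm ι π col 0 (.inl p)}

theorem sigP_count (hπ : ∀ v, π (ι v) = v) (hown : ∀ p, own col p ∈ Set.range ι)
    (s : Po J h0 → Fin 3) (q : I × I) :
    (sigP ι π col s).count q ≤ (h + 4) * sigLoad ι π col q.2 := by
  unfold sigP sigLoad
  rw [Multiset.count_sum', card_filter, mul_sum]
  refine sum_le_sum fun p _ => ?_
  split_ifs with h1 h2 h2
  · exact (Multiset.count_le_card _ _).trans (by simpa using card_wpairs_le _ _ _)
  · rw [Multiset.count_eq_zero_of_notMem]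
    · simp
    · intro hq
      apply h2
      rw [pm_sig ι π col 0 hπ p (hown _) (decide (s p.1 = 2)), Multiset.mem_add, ← wpairs_snd]
      exact Or.inr (Multiset.mem_map_of_mem _ hq)
  · exact (Multiset.count_le_card _ _).trans (by simpa using card_wpairs_le _ _ _)
  · rw [Multiset.count_eq_zero_of_notMem]
    · simp
    · intro hq
      apply h2
      rw [pm_sig ι π col 0 hπ p (hown _) (decide (s p.1 = 1)), Multiset.mem_add, ← wpairs_snd]
      exact Or.inr (Multiset.mem_map_of_mem _ hq)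

theorem exists_state (hπ : ∀ v, π (ι v) = v) (hown : ∀ p, own col p ∈ Set.range ι) (hh0 : 1 ≤ h0)
    (zp : J → I → Fin (2 ^ h0)) (Z D0 : Finset (Ln I J X)) (hD0 : D0 ⊆ Z)
    (hz : ∀ j i, cel i j ∈ Z → col j 0 (zp j i) = i) (Bs : ℕ)
    (hBs : ∀ i, sigLoad ι π col i ≤ Bs) (hM : 4 * ((h + 4) * Bs) ≤ M) :
    ∃ σ0 : Tm ι π col M → Bool, ∀ Lc ⊆ Z, (∀ j, cJ Lc j = cJ D0 j) → (∀ i, cI Lc i = cI D0 i) →
      ∃ s σ, needOf (oc ι π col M).pal (rootM col (cJ D0) + cellM Lc) =
        tripOf (oc ι π col M).tc (oc ι π col M).leg s + (oc ι π col M).termOf σ ∧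
        univ.val.map ((oc ι π col M).st σ) = univ.val.map ((oc ι π col M).st σ0) := by
  obtain ⟨s0, hs0⟩ := route_all ι π col M hh0 zp D0 fun j i hi => hz j i (hD0 hi)
  refine ⟨fun τ => flOf M s0 (fun q => decide ((q.2 : ℕ) < (0 : Sq h → ℕ) q.1)) τ.1.1,
    fun Lc hL hJ hI => ?_⟩
  obtain ⟨s, hs⟩ := route_all ι π col M hh0 zp Lc fun j i hi => hz j i (hL hi)
  rw [show cJ Lc = cJ D0 from funext hJ] at hs
  have z0 := st_eq' ι π col M s0 0 (fun _ => Nat.zero_le _)
  have z1 := st_eq' ι π col M s 0 (fun _ => Nat.zero_le _)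
  simp only [Pi.zero_apply, zero_smul, sum_const_zero, add_zero] at z0 z1
  have f0 := congrArg (Multiset.map Prod.fst)
    (state_eq ι π col M hπ hown s0 (fun q => decide ((q.2 : ℕ) < 0)))
  have f1 := congrArg (Multiset.map Prod.fst)
    (state_eq ι π col M hπ hown s (fun q => decide ((q.2 : ℕ) < 0)))
  rw [need_fst, Multiset.map_add, trip_fst, term_fst] at f0 f1
  rw [hs0, z0, Multiset.map_add, Multiset.map_add] at f0
  rw [hs, z1, Multiset.map_add, Multiset.map_add] at f1
  have e : (cellM Lc).map Prod.fst = (cellM D0).map Prod.fst := by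
    ext i
    rw [cellM_fst, cellM_fst, hI]
  rw [e, f0] at f1
  obtain ⟨K, hK, hfill⟩ := fill ι π (sigP ι π col s) (sigP ι π col s0) ((h + 4) * Bs)
    (sigP_adj ι π col hπ s) (sigP_adj ι π col hπ s0) (sigP_sym ι π col s s0)
    (add_right_cancel (add_left_cancel f1)).symm
    (fun q => (sigP_count ι π col hπ hown s q).trans (Nat.mul_le_mul_left _ (hBs _)))
    (fun q => (sigP_count ι π col hπ hown s0 q).trans (Nat.mul_le_mul_left _ (hBs _)))
  refine ⟨s, fun τ => flOf M s (fun q => decide ((q.2 : ℕ) < K q.1)) τ.1.1, ?_, ?_⟩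
  · rw [← hs]
    exact state_eq ι π col M hπ hown s _
  · have z2 := st_eq' ι π col M s K (fun q => (hK q).trans hM)
    rw [hfill, add_right_comm] at z2
    simp only [Pi.zero_apply]
    rw [z0]
    exact add_right_cancel z2

/-! ### Loads -/

/-- Network nodes of a given colour. -/
def ndLoad (i : I) : ℕ := #{p : J × Fin (h0 + 1) × Fin (2 ^ h0) | col p.1 p.2.1 p.2.2 = i}

theorem own_card (i : I) : #{p : Po J h0 | own col p = i} ≤ ndLoad col i := by
  refine card_le_card_of_injOn (fun p => (p.1, p.2.1.succ, p.2.2)) (fun p hp => ?_) ?_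
  · simpa [own] using hp
  · rintro ⟨a, b, c⟩ - ⟨a', b', c'⟩ - h
    simpa using h

theorem pre_card (b : Bool) (i : I) : #{p : Po J h0 | pre col (p, b) = i} ≤ ndLoad col i := by
  refine card_le_card_of_injOn
    (fun p => (p.1, p.2.1.castSucc, if b then sh h0 p.2.1 p.2.2 else p.2.2)) (fun p hp => ?_) ?_
  · simpa [pre] using hp
  · rintro ⟨a, ℓ, c⟩ - ⟨a', ℓ', c'⟩ - h
    simp only [Prod.mk.injEq, Fin.castSucc_inj] at h ⊢
    obtain ⟨rfl, rfl, h⟩ := h
    cases b
    · simpa using h
    · simpa using h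

theorem tc_load (i : I) : #{τ | ∃ k, (oc ι π col M).tc τ k = i} ≤ 3 * ndLoad col i := by
  have : ({τ | ∃ k, (oc ι π col M).tc τ k = i} : Finset (Po J h0)) ⊆
      (({p | own col p = i} : Finset (Po J h0)) ∪ ({p | pre col (p, false) = i} : Finset (Po J h0))) ∪
        ({p | pre col (p, true) = i} : Finset (Po J h0)) := by
    intro p hp
    simp only [mem_filter, mem_univ, true_and, mem_union] at hp ⊢
    obtain ⟨k, hk⟩ := hp
    fin_cases k
    · exact Or.inl (Or.inl hk)
    · exact Or.inl (Or.inr hk)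
    · exact Or.inr hk
  have h1 := (card_le_card this).trans ((card_union_le _ _).trans
    (Nat.add_le_add_right (card_union_le _ _) _))
  have h2 := own_card col i
  have h3 := pre_card col false i
  have h4 := pre_card col true i
  omega

theorem sigLoad_le (hπ : ∀ v, π (ι v) = v) (i : I) (B2 : ℝ)
    (hB2 : ∀ d ≤ h, (#{p : Po J h0 × Bool | mix d (π (own col p.1)) (π (pre col p)) = π i} : ℝ)
      ≤ B2) : (sigLoad ι π col i : ℝ) ≤ 2 * ndLoad col i + (h + 1) * B2 := by
  have : ({p | i ∈ pm ι π col 0 (.inl p)} : Finset (Po J h0 × Bool)) ⊆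
      (({p | pre col (p, false) = i} : Finset (Po J h0)).image (·, false) ∪
        ({p | pre col (p, true) = i} : Finset (Po J h0)).image (·, true)) ∪
      (range (h + 1)).biUnion fun d =>
        ({p | mix d (π (own col p.1)) (π (pre col p)) = π i} : Finset (Po J h0 × Bool)) := by
    rintro ⟨p, b⟩ hp
    simp only [mem_filter, mem_univ, true_and, pm, Multiset.mem_add, Multiset.mem_singleton,
      mem_wopen_false, walk, sigWalk] at hp
    rw [mem_union, mem_union, mem_biUnion]
    rcases hp with hp | ⟨d, -, -, hp⟩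
    · left
      cases b
      · exact Or.inl (mem_image.2 ⟨p, by simp [hp], rfl⟩)
      · exact Or.inr (mem_image.2 ⟨p, by simp [hp], rfl⟩)
    · right
      refine ⟨min d h, mem_range.2 (by omega), ?_⟩
      simp only [mem_filter, mem_univ, true_and]
      rw [hp, hπ]
      rcases le_total d h with h1 | h1
      · rw [min_eq_left h1]
      · rw [min_eq_right h1, mix_ge le_rfl, mix_ge h1]
  have h1 := (card_le_card this).trans ((card_union_le _ _).trans
    (Nat.add_le_add ((card_union_le _ _).trans (Nat.add_le_add (card_image_le.trans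
      (pre_card col false i)) (card_image_le.trans (pre_card col true i)))) card_biUnion_le))
  have h2 : ∑ d ∈ range (h + 1), (#{p : Po J h0 × Bool |
      mix d (π (own col p.1)) (π (pre col p)) = π i} : ℝ) ≤ (h + 1) * B2 := by
    calc _ ≤ ∑ _d ∈ range (h + 1), B2 := sum_le_sum fun d hd => hB2 d (by
          have := mem_range.1 hd
          omega)
      _ = _ := by simp
  have h3 : (sigLoad ι π col i : ℝ) ≤ ndLoad col i + ndLoad col i + ∑ d ∈ range (h + 1),
      (#{p : Po J h0 × Bool | mix d (π (own col p.1)) (π (pre col p)) = π i} : ℝ) := by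
    exact_mod_cast h1
  linarith

theorem sq_load (hπ : ∀ v, π (ι v) = v) (i : I) :
    #{q : Sq h | i ∈ wopen (sqWalk ι q) (h + 4) false} ≤ 4 * (h * h) := by
  calc _ ≤ #(univ.biUnion fun de : Fin h × Fin h =>
        ({π i, flip de.1 (π i), flip de.1 (flip de.2 (π i)), flip de.2 (π i)} :
          Finset (Cube h)).image (fun w => (de.1, de.2, w))) := by
        refine card_le_card_of_injOn (fun q => q.1) ?_ Subtype.val_injective.injOn
        rintro ⟨⟨d, e, w⟩, hde⟩ hq
        rw [mem_coe, mem_filter, ← wpairs_snd, wpairs_sq] at hq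
        rw [mem_coe, mem_biUnion]
        refine ⟨(d, e), mem_univ _, mem_image.2 ⟨w, ?_, rfl⟩⟩
        have hq := hq.2
        simp only [fwd, Bool.false_eq_true, if_false, Multiset.insert_eq_cons, Multiset.map_cons,
          Multiset.map_singleton, Multiset.mem_cons, Multiset.mem_singleton] at hq
        rcases hq with hq | hq | hq | hq <;> simp [hq, hπ]
    _ ≤ ∑ _de : Fin h × Fin h, 4 := card_biUnion_le.trans (sum_le_sum fun de _ =>
        card_image_le.trans card_le_four)
    _ = _ := by simp [mul_comm]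

theorem nd_load (hπ : ∀ v, π (ι v) = v) (i : I) :
    #{ν | i ∈ (oc ι π col M).pal ν} ≤ sigLoad ι π col i + 4 * (h * h) * M := by
  rw [card_filter, Fintype.sum_sum_type, ← card_filter, ← card_filter]
  refine Nat.add_le_add (le_of_eq ?_) ?_
  · unfold sigLoad
    congr 1
    ext p
    simp [oc, pm, walk]
  · have : ({q | i ∈ (oc ι π col M).pal (.inr q)} : Finset (Sq h × Fin M)) =
        ({q | i ∈ wopen (sqWalk ι q) (h + 4) false} : Finset (Sq h)) ×ˢ univ := by
      ext q
      simp [oc, pm, walk]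
    rw [this, card_product, card_univ, Fintype.card_fin]
    exact Nat.mul_le_mul_right _ (sq_load ι π hπ i)

theorem node_card (ν : Nd J h h0 M) : #{τ | (oc ι π col M).node τ = ν} ≤ h + 4 := by
  calc _ ≤ #(univ : Finset (Fin (h + 4))) := by
        refine card_le_card_of_injOn (fun τ => τ.1.2) (fun _ _ => by simp) ?_
        rintro ⟨⟨a, d⟩, _⟩ ha ⟨⟨a', d'⟩, _⟩ ha' hd
        simp only [oc, coe_filter, mem_univ, true_and, Set.mem_ofPred_eq] at ha ha' hd
        subst ha ha' hd
        rfl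
    _ = _ := by simp

theorem cb_mem (τ : Tm ι π col M) :
    (oc ι π col M).cb τ ∈ (oc ι π col M).pal ((oc ι π col M).node τ) := by
  obtain ⟨⟨ν, d⟩, hd⟩ := τ
  have : walk ι π col M ν (d + 1) ∈ wopen (walk ι π col M ν) (h + 4) false :=
    mem_wopen_false.2 ⟨d, d.2, hd, rfl⟩
  simp only [oc, Multiset.mem_toFinset]
  rcases ν with p | q
  · exact Multiset.mem_add.2 (Or.inr this)
  · exact this

theorem cb_card (b : I) :
    #{τ | (oc ι π col M).cb τ = b} ≤ (h + 4) * #{ν | b ∈ (oc ι π col M).pal ν} := by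
  refine (card_le_mul_card_image (f := (oc ι π col M).node) _ (h + 4) fun ν _ => ?_).trans
    (Nat.mul_le_mul_left _ (card_le_card ?_))
  · refine le_trans (card_le_card ?_) (node_card ι π col M ν)
    intro τ hτ
    simp only [mem_filter, mem_univ, true_and] at hτ ⊢
    exact hτ.2
  · intro ν hν
    obtain ⟨τ, hτ, rfl⟩ := mem_image.1 hν
    simp only [mem_filter, mem_univ, true_and] at hτ ⊢
    rw [← hτ]
    exact cb_mem ι π col M τ

theorem pal_card (ν : Nd J h h0 M) : #((oc ι π col M).pal ν) ≤ h + 5 := by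
  refine (Multiset.toFinset_card_le _).trans ?_
  rcases ν with p | q
  · have := card_wopen_le (walk ι π col M (.inl p)) (h + 4) false
    simp only [pm, Multiset.card_add, Multiset.card_singleton]
    omega
  · have := card_wopen_le (walk ι π col M (.inr q)) (h + 4) false
    simp only [pm]
    omega

theorem tm_adj (hπ : ∀ v, π (ι v) = v) (τ : Tm ι π col M) :
    Adj ι π ((oc ι π col M).ca τ) ((oc ι π col M).cb τ) := by
  obtain ⟨⟨ν, d⟩, hd⟩ := τ
  rcases ν with p | q
  · exact sigWalk_adj ι π hπ _ _ d hd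
  · exact sqWalk_adj ι π _ d hd

theorem root_card (j : J) : #{τ | (oc ι π col M).leg τ 0 = Sum.inl j} = h0 * 2 ^ h0 := by
  have : ({τ | (oc ι π col M).leg τ 0 = Sum.inl j} : Finset (Po J h0)) = {j} ×ˢ univ := by
    ext τ
    rw [mem_product]
    simp [oc]
  rw [this, card_product]
  simp

end Pool.Agent.Lib.MP_9dc2ba_co.Large.Ab
end
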