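import Mathlib

/-!
Derandomised independent coin flips: a set meeting finitely many given sets in about the
proportion `p`.
-/

open Finset

namespace Pool.Agent.Lib.MP_9dc2ba_co.Large

/-- The Hoeffding step. -/
theorem coins_step (p g : ℝ) (hp0 : 0 ≤ p) (hp1 : p ≤ 1) :
    p * Real.exp (g * (1 - p) - g ^ 2 / 2) + (1 - p) * Real.exp (g * (-p) - g ^ 2 / 2) ≤ 1 := by
  have h1 := Real.exp_mul_le_cosh_add_mul_sinh (t := 1 - p) (by rw [abs_le]; constructor <;> linarith) g
  have h2 := Real.exp_mul_le_cosh_add_mul_sinh (t := -p) (by rw [abs_le]; constructor <;> linarith) g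
  have h3 := Real.cosh_le_exp_half_sq g
  have h4 : p * Real.exp (g * (1 - p)) + (1 - p) * Real.exp (g * (-p)) ≤ Real.exp (g ^ 2 / 2) := by
    rw [mul_comm g, mul_comm g]
    have e1 := mul_le_mul_of_nonneg_left h1 hp0
    have e2 := mul_le_mul_of_nonneg_left h2 (sub_nonneg.2 hp1)
    nlinarith
  rw [Real.exp_sub, Real.exp_sub, ← mul_div_assoc, ← mul_div_assoc, ← add_div,
    div_le_one (Real.exp_pos _)]
  exact h4

/-- The exponential potential never increases. -/
theorem coins_pot {ι K : Type*} [Fintype K] [DecidableEq ι] (Q : K → Finset ι) (p : ℝ)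
    (hp0 : 0 ≤ p) (hp1 : p ≤ 1) (g : K → ℝ) (S : Finset ι) :
    ∃ Z ⊆ S, ∑ k, Real.exp (g k * ((#(Z ∩ Q k) : ℝ) - p * #(S ∩ Q k)) -
      g k ^ 2 * #(S ∩ Q k) / 2) ≤ Fintype.card K := by
  induction S using Finset.induction_on with
  | empty => exact ⟨∅, subset_rfl, by simp⟩
  | insert a S ha ih =>
    obtain ⟨Z, hZ, h⟩ := ih
    have haZ : a ∉ Z := fun h => ha (hZ h)
    have key : p * ∑ k, Real.exp (g k * ((#(insert a Z ∩ Q k) : ℝ) - p * #(insert a S ∩ Q k)) -
          g k ^ 2 * #(insert a S ∩ Q k) / 2) +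
        (1 - p) * ∑ k, Real.exp (g k * ((#(Z ∩ Q k) : ℝ) - p * #(insert a S ∩ Q k)) -
          g k ^ 2 * #(insert a S ∩ Q k) / 2) ≤ Fintype.card K := by
      refine le_trans ?_ h
      rw [mul_sum, mul_sum, ← sum_add_distrib]
      refine sum_le_sum fun k _ => ?_
      by_cases hk : a ∈ Q k
      · rw [insert_inter_of_mem hk, insert_inter_of_mem hk,
          card_insert_of_notMem (fun h => haZ (mem_inter.1 h).1),
          card_insert_of_notMem (fun h => ha (mem_inter.1 h).1)]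
        have hs := coins_step p (g k) hp0 hp1
        set u := g k * ((#(Z ∩ Q k) : ℝ) - p * #(S ∩ Q k)) - g k ^ 2 * #(S ∩ Q k) / 2 with hu
        have e1 : g k * (((#(Z ∩ Q k) + 1 : ℕ) : ℝ) - p * ((#(S ∩ Q k) + 1 : ℕ) : ℝ)) -
            g k ^ 2 * ((#(S ∩ Q k) + 1 : ℕ) : ℝ) / 2 = u + (g k * (1 - p) - g k ^ 2 / 2) := by
          rw [hu]; push_cast; ring
        have e2 : g k * ((#(Z ∩ Q k) : ℝ) - p * ((#(S ∩ Q k) + 1 : ℕ) : ℝ)) -
            g k ^ 2 * ((#(S ∩ Q k) + 1 : ℕ) : ℝ) / 2 = u + (g k * (-p) - g k ^ 2 / 2) := by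
          rw [hu]; push_cast; ring
        rw [e1, e2, Real.exp_add, Real.exp_add]
        have := mul_le_mul_of_nonneg_left hs (Real.exp_pos u).le
        linarith
      · rw [insert_inter_of_notMem hk, insert_inter_of_notMem hk]
        linarith
    by_contra hcon
    push Not at hcon
    have h1 := hcon (insert a Z) (insert_subset_insert _ hZ)
    have h2 := hcon Z (hZ.trans (subset_insert _ _))
    have h3 := mul_le_mul_of_nonneg_left h1.le hp0
    have h4 := mul_le_mul_of_nonneg_left h2.le (sub_nonneg.2 hp1)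
    rcases hp0.eq_or_lt with h0 | h0
    · subst h0
      linarith
    · have := mul_lt_mul_of_pos_left h1 h0
      linarith

theorem coins {ι K : Type*} [Fintype K] [DecidableEq ι] (Q : K → Finset ι) (p L : ℝ)
    (hp0 : 0 ≤ p) (hp1 : p ≤ 1) (hL : 2 * (Fintype.card K : ℝ) < Real.exp L) (t : K → ℝ)
    (ht0 : ∀ k, 0 ≤ t k) (ht : ∀ k, 2 * L * #(Q k) ≤ t k ^ 2) :
    ∃ Z : Finset ι, ∀ k, |(#(Z ∩ Q k) : ℝ) - p * #(Q k)| ≤ t k := by
  classical
  obtain ⟨Z, -, h⟩ := coins_pot (K := K × Bool) (fun k => Q k.1) p hp0 hp1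
    (fun k => (if k.2 then 1 else -1) * (t k.1 / #(Q k.1))) (univ.biUnion Q)
  refine ⟨Z, fun k => ?_⟩
  have hS : univ.biUnion Q ∩ Q k = Q k :=
    inter_eq_right.2 (subset_biUnion_of_mem Q (mem_univ k))
  have hb : ∀ b : Bool, (if b then 1 else -1) * (t k / #(Q k)) * ((#(Z ∩ Q k) : ℝ) - p * #(Q k)) -
      (t k / #(Q k)) ^ 2 * #(Q k) / 2 < L := by
    intro b
    have h1 := single_le_sum (f := fun k : K × Bool => Real.exp ((if k.2 then 1 else -1) *
      (t k.1 / #(Q k.1)) * ((#(Z ∩ Q k.1) : ℝ) - p * #(univ.biUnion Q ∩ Q k.1)) -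
      ((if k.2 then 1 else -1) * (t k.1 / #(Q k.1))) ^ 2 * #(univ.biUnion Q ∩ Q k.1) / 2))
      (fun _ _ => (Real.exp_pos _).le) (mem_univ (k, b))
    have h2 := (h1.trans h).trans_lt (by
      rw [Fintype.card_prod, Fintype.card_bool]; push_cast; linarith : _ < Real.exp L)
    rw [Real.exp_lt_exp] at h2
    simp only [hS] at h2
    have e : ((if b then 1 else -1) * (t k / #(Q k))) ^ 2 = (t k / #(Q k)) ^ 2 := by
      cases b <;> simp
    rw [e] at h2
    exact h2
  rcases Nat.eq_zero_or_pos #(Q k) with h0 | h0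
  · have : Q k = ∅ := card_eq_zero.1 h0
    simp [this, ht0 k]
  · have hq : (0 : ℝ) < #(Q k) := by exact_mod_cast h0
    have h1 := hb true
    have h2 := hb false
    simp only [if_true, Bool.false_eq_true, if_false] at h1 h2
    set q : ℝ := (#(Q k) : ℝ)
    set d : ℝ := (#(Z ∩ Q k) : ℝ) - p * q
    have hL' : L ≤ t k ^ 2 / q / 2 := by
      rw [le_div_iff₀ (by norm_num), le_div_iff₀ hq]
      linarith [ht k]
    have e : (t k / q) ^ 2 * q / 2 = t k ^ 2 / q / 2 := by field_simp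
    rw [e] at h1 h2
    have e2 : t k ^ 2 / q = t k / q * t k := by field_simp
    have hg : 0 ≤ t k / q := div_nonneg (ht0 k) hq.le
    rw [abs_le]
    constructor
    · by_contra hc
      push Not at hc
      have := mul_le_mul_of_nonneg_left hc.le hg
      nlinarith
    · by_contra hc
      push Not at hc
      have := mul_le_mul_of_nonneg_left hc.le hg
      nlinarith

/-- Coins on a grid, with keys inside rows and keys inside columns. -/
theorem coins_grid {α β σ σ' : Type*} [Fintype α] [Fintype β] [Fintype σ] [Fintype σ']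
    [DecidableEq α] [DecidableEq β] (S : σ → α → Finset β) (T : σ' → β → Finset α) (p L : ℝ)
    (hp0 : 0 ≤ p) (hp1 : p ≤ 1)
    (hL : 2 * ((Fintype.card σ : ℝ) * Fintype.card α + Fintype.card σ' * Fintype.card β) <
      Real.exp L) (t : σ → ℝ) (t' : σ' → ℝ) (ht0 : ∀ s, 0 ≤ t s) (ht0' : ∀ s, 0 ≤ t' s)
    (ht : ∀ s a, 2 * L * #(S s a) ≤ t s ^ 2) (ht' : ∀ s b, 2 * L * #(T s b) ≤ t' s ^ 2) :
    ∃ (Zr : α → Finset β) (Zc : β → Finset α), (∀ a b, b ∈ Zr a ↔ a ∈ Zc b) ∧
      (∀ s a, |(#(S s a ∩ Zr a) : ℝ) - p * #(S s a)| ≤ t s) ∧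
      (∀ s b, |(#(T s b ∩ Zc b) : ℝ) - p * #(T s b)| ≤ t' s) := by
  have i1 : ∀ a : α, Function.Injective fun b : β => (a, b) := fun a b b' h => by simpa using h
  have i2 : ∀ b : β, Function.Injective fun a : α => (a, b) := fun a b b' h => by simpa using h
  obtain ⟨Z, hZ⟩ := coins (K := σ × α ⊕ σ' × β)
    (Sum.elim (fun k => (S k.1 k.2).image fun b => (k.2, b))
      (fun k => (T k.1 k.2).image fun a => (a, k.2))) p L hp0 hp1
    (by simpa using hL) (Sum.elim (fun k => t k.1) (fun k => t' k.1))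
    (by rintro (k | k) <;> simp [ht0, ht0'])
    (by
      rintro (k | k)
      · simp only [Sum.elim_inl]
        rw [card_image_of_injective _ (i1 _)]
        exact ht _ _
      · simp only [Sum.elim_inr]
        rw [card_image_of_injective _ (i2 _)]
        exact ht' _ _)
  refine ⟨fun a => {b | (a, b) ∈ Z}, fun b => {a | (a, b) ∈ Z}, by simp, fun s a => ?_,
    fun s b => ?_⟩
  · have h := hZ (Sum.inl (s, a))
    simp only [Sum.elim_inl] at h
    rw [card_image_of_injective _ (i1 _)] at h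
    have e : Z ∩ (S s a).image (fun b => (a, b)) =
        (S s a ∩ univ.filter fun b => (a, b) ∈ Z).image fun b => (a, b) := by
      ext ⟨a', b'⟩
      simp only [mem_inter, mem_image, Prod.mk.injEq, mem_filter, mem_univ, true_and]
      constructor
      · rintro ⟨h1, b, h2, rfl, rfl⟩
        exact ⟨_, ⟨h2, h1⟩, rfl, rfl⟩
      · rintro ⟨b, ⟨h2, h1⟩, rfl, rfl⟩
        exact ⟨h1, _, h2, rfl, rfl⟩
    rw [e, card_image_of_injective _ (i1 _)] at h
    exact h
  · have h := hZ (Sum.inr (s, b))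
    simp only [Sum.elim_inr] at h
    rw [card_image_of_injective _ (i2 _)] at h
    have e : Z ∩ (T s b).image (fun a => (a, b)) =
        (T s b ∩ univ.filter fun a => (a, b) ∈ Z).image fun a => (a, b) := by
      ext ⟨a', b'⟩
      simp only [mem_inter, mem_image, Prod.mk.injEq, mem_filter, mem_univ, true_and]
      constructor
      · rintro ⟨h1, b, h2, rfl, rfl⟩
        exact ⟨_, ⟨h2, h1⟩, rfl, rfl⟩
      · rintro ⟨b, ⟨h2, h1⟩, rfl, rfl⟩
        exact ⟨h1, _, h2, rfl, rfl⟩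
    rw [e, card_image_of_injective _ (i2 _)] at h
    exact h

end Pool.Agent.Lib.MP_9dc2ba_co.Large
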