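import Mathlib
import Pool.Agent.Lib.MP_9dc2ba_co.Large.Prob
import Pool.Agent.Lib.MP_9dc2ba_co.Large.Coins

-- part Pool.Agent.Lib.MP_9dc2ba_co.Large.Zone
section

/-!
The reserved zone: pseudo-random sets of edges, symbol lines and cells obtained from five
applications of the coin lemma.
-/

open Finset

set_option linter.unusedSectionVars false

namespace Pool.Agent.Lib.MP_9dc2ba_co.Large

variable {I J X : Type*} [Fintype I] [Fintype J] [Fintype X] [DecidableEq I] [DecidableEq J]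
  [DecidableEq X]

theorem zone_lines (c : I → J → Prop) (s : X → I → Prop) (e : J → X → Prop) :
    ∃ U : Finset (Ln I J X), (∀ i j, cel i j ∈ U ↔ c i j) ∧ (∀ x i, sym x i ∈ U ↔ s x i) ∧
      (∀ j x, edg j x ∈ U ↔ e j x) := by
  classical
  refine ⟨univ.filter fun l => Ln.rec (motive := fun _ => Prop) c s e l, ?_, ?_, ?_⟩ <;>
    intros <;> simp

/-- Coins on a grid with small keys (size at most `2 n`) and large keys (size at most `c`). -/
theorem zone_grid (D : Des I J X) (hn : 100 ≤ D.n) (p τ L : ℝ) (hp0 : 0 ≤ p) (hp1 : p ≤ 1)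
    (hτ0 : 0 ≤ τ) (hL : (D.n : ℝ) ^ 6 ≤ Real.exp L) (hτ : 4 * L * D.n ≤ τ ^ 2)
    {α β σ σ' : Type*} [Fintype α] [Fintype β] [Fintype σ] [Fintype σ']
    [DecidableEq α] [DecidableEq β] (S : σ → α → Finset β) (T : σ' → β → Finset α)
    (S0 : α → Finset β) (T0 : β → Finset α)
    (hK : (Fintype.card σ + 1) * Fintype.card α + (Fintype.card σ' + 1) * Fintype.card β ≤
      1000 * D.n ^ 4)
    (hS : ∀ s a, #(S s a) ≤ 2 * D.n) (hT : ∀ s b, #(T s b) ≤ 2 * D.n)
    (hS0 : ∀ a, #(S0 a) ≤ Fintype.card J) (hT0 : ∀ b, #(T0 b) ≤ Fintype.card J) :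
    ∃ (Zr : α → Finset β) (Zc : β → Finset α), (∀ a b, b ∈ Zr a ↔ a ∈ Zc b) ∧
      (∀ s a, |(#(S s a ∩ Zr a) : ℝ) - p * #(S s a)| ≤ τ) ∧
      (∀ s b, |(#(T s b ∩ Zc b) : ℝ) - p * #(T s b)| ≤ τ) ∧
      (∀ a, |(#(S0 a ∩ Zr a) : ℝ) - p * #(S0 a)| ≤ τ * Fintype.card J / D.n) ∧
      (∀ b, |(#(T0 b ∩ Zc b) : ℝ) - p * #(T0 b)| ≤ τ * Fintype.card J / D.n) := by
  have hn' : (100 : ℝ) ≤ D.n := by exact_mod_cast hn
  have hL0 : 0 ≤ L := by
    rw [← Real.exp_le_exp, Real.exp_zero]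
    exact le_trans (one_le_pow₀ (by linarith)) hL
  have hnc : (D.n : ℝ) ≤ Fintype.card J := by exact_mod_cast D.n_le_c
  have small : ∀ m : ℕ, m ≤ 2 * D.n → 2 * L * m ≤ τ ^ 2 := by
    intro m hm
    have : (m : ℝ) ≤ 2 * D.n := by exact_mod_cast hm
    nlinarith
  have big : ∀ m : ℕ, m ≤ Fintype.card J → 2 * L * m ≤ (τ * Fintype.card J / D.n) ^ 2 := by
    intro m hm
    have h1 : (m : ℝ) ≤ Fintype.card J := by exact_mod_cast hm
    set c : ℝ := (Fintype.card J : ℝ)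
    set n : ℝ := (D.n : ℝ)
    rw [div_pow, le_div_iff₀ (by positivity), mul_pow]
    have h2 : 4 * L * n * c ^ 2 ≤ τ ^ 2 * c ^ 2 := mul_le_mul_of_nonneg_right hτ (by positivity)
    have h3 : (m : ℝ) * n ≤ c * c := mul_le_mul h1 hnc (by linarith) (by linarith)
    have h4 : L * n * ((m : ℝ) * n) ≤ L * n * (c * c) :=
      mul_le_mul_of_nonneg_left h3 (by positivity)
    have h5 : 0 ≤ L * n * (c * c) := by positivity
    nlinarith
  obtain ⟨Zr, Zc, h0, h1, h2⟩ := coins_grid (σ := Option σ) (σ' := Option σ')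
    (fun o => o.elim S0 S) (fun o => o.elim T0 T) p L hp0 hp1
    (by
      rw [Fintype.card_option, Fintype.card_option]
      have h1 : (((Fintype.card σ + 1) * Fintype.card α +
        (Fintype.card σ' + 1) * Fintype.card β : ℕ) : ℝ) ≤ (1000 * D.n ^ 4 : ℕ) := by
        exact_mod_cast hK
      push_cast at h1 ⊢
      refine lt_of_lt_of_le ?_ hL
      have h2 : (0 : ℝ) < (D.n : ℝ) ^ 4 := by positivity
      have h3 : (10000 : ℝ) ≤ (D.n : ℝ) ^ 2 := by nlinarith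
      have h4 : (D.n : ℝ) ^ 6 = (D.n : ℝ) ^ 2 * (D.n : ℝ) ^ 4 := by ring
      nlinarith)
    (fun o => o.elim (τ * Fintype.card J / D.n) fun _ => τ)
    (fun o => o.elim (τ * Fintype.card J / D.n) fun _ => τ)
    (by rintro (_ | s) <;> simp only [Option.elim] <;> positivity)
    (by rintro (_ | s) <;> simp only [Option.elim] <;> positivity)
    (by
      rintro (_ | s) a
      · exact big _ (hS0 a)
      · exact small _ (hS s a))
    (by
      rintro (_ | s) a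
      · exact big _ (hT0 a)
      · exact small _ (hT s a))
  exact ⟨Zr, Zc, h0, fun s a => h1 (some s) a, fun s a => h2 (some s) a, fun a => h1 none a,
    fun a => h2 none a⟩

theorem zone_scale {k a b τ : ℝ} (hk0 : 0 ≤ k) (hk1 : k ≤ 1) (h : |a - b| ≤ τ) :
    |k * a - k * b| ≤ τ := by
  rw [← mul_sub, abs_mul, abs_of_nonneg hk0]
  exact le_trans (mul_le_of_le_one_left (abs_nonneg _) hk1) h

/-- The degree into the union of the three cell sets. -/
theorem zone_deg {α : Type*} [DecidableEq α] (T A1 A2 A3 : Finset α) {ξ ζ n τ : ℝ}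
    (hζ : 0 < ζ) (hζξ : ζ ≤ ξ) (hξ : ξ ≤ 1 / 10) (hn : 0 ≤ n) (hτ : 0 ≤ τ)
    (h0 : |(#T : ℝ) - ζ * n| ≤ τ) (h1 : |(#(T ∩ A1) : ℝ) - ξ * #T| ≤ τ)
    (h2 : |(#((T \ A1) ∩ A2) : ℝ) - ξ * #(T \ A1)| ≤ τ)
    (h3 : |(#(T ∩ A3) : ℝ) - ζ * #T| ≤ τ) :
    |(#(T ∩ (A1 ∪ A2 ∪ A3)) : ℝ) - 2 * ξ * ζ * n| ≤ (ξ ^ 2 + ζ) * ζ * n + 10 * τ := by
  have e1 : (#(T \ A1) : ℝ) = #T - #(T ∩ A1) := by
    have := card_sdiff_add_card_inter T A1
    rw [← this]; push_cast; ring
  have hd : Disjoint (T ∩ A1) ((T \ A1) ∩ A2) := by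
    rw [disjoint_left]
    intro a ha hb
    simp only [mem_inter, mem_sdiff] at ha hb
    tauto
  have l1 : #(T ∩ A1) + #((T \ A1) ∩ A2) ≤ #(T ∩ (A1 ∪ A2 ∪ A3)) := by
    rw [← card_union_of_disjoint hd]
    refine card_le_card fun a ha => ?_
    simp only [mem_inter, mem_sdiff, mem_union] at ha ⊢
    tauto
  have l2 : #(T ∩ (A1 ∪ A2 ∪ A3)) ≤ #(T ∩ A1) + #((T \ A1) ∩ A2) + #(T ∩ A3) := by
    rw [← card_union_of_disjoint hd]
    refine le_trans (card_le_card fun a ha => ?_) (card_union_le _ _)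
    simp only [mem_inter, mem_sdiff, mem_union] at ha ⊢
    tauto
  have l1' : (#(T ∩ A1) : ℝ) + #((T \ A1) ∩ A2) ≤ #(T ∩ (A1 ∪ A2 ∪ A3)) := by exact_mod_cast l1
  have l2' : (#(T ∩ (A1 ∪ A2 ∪ A3)) : ℝ) ≤ #(T ∩ A1) + #((T \ A1) ∩ A2) + #(T ∩ A3) := by
    exact_mod_cast l2
  rw [e1] at h2
  have g1 := zone_scale (k := 1 - ξ) (by linarith) (by linarith) h1
  have g2 := zone_scale (k := 2 * ξ - ξ ^ 2) (by nlinarith) (by nlinarith) h0
  have g3 := zone_scale (k := ζ) hζ.le (by linarith) h0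
  have p1 : 0 ≤ ξ ^ 2 * ζ * n := by positivity
  have p2 : 0 ≤ ζ * ζ * n := by positivity
  rw [abs_le] at h2 h3 g1 g2 g3 ⊢
  constructor <;> nlinarith [h2.1, h2.2, h3.1, h3.2, g1.1, g1.2, g2.1, g2.2, g3.1, g3.2]

/-- An upper bound for a union of three sets inside a key. -/
theorem zone_up {α : Type*} [DecidableEq α] (T A1 A2 A3 : Finset α) {ξ ζ n τ : ℝ}
    (hζ : 0 < ζ) (hζξ : ζ ≤ ξ) (hT : (#T : ℝ) ≤ 2 * n)
    (h1 : |(#(T ∩ A1) : ℝ) - ξ * #T| ≤ τ) (h2 : |(#(T ∩ A2) : ℝ) - ξ * #T| ≤ τ)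
    (h3 : |(#(T ∩ A3) : ℝ) - ζ * #T| ≤ τ) :
    (#(T ∩ (A1 ∪ A2 ∪ A3)) : ℝ) ≤ 6 * ξ * n + 3 * τ := by
  have l2 : #(T ∩ (A1 ∪ A2 ∪ A3)) ≤ #(T ∩ A1) + #(T ∩ A2) + #(T ∩ A3) := by
    rw [inter_union_distrib_left, inter_union_distrib_left]
    exact (card_union_le _ _).trans (Nat.add_le_add_right (card_union_le _ _) _)
  have l2' : (#(T ∩ (A1 ∪ A2 ∪ A3)) : ℝ) ≤ #(T ∩ A1) + #(T ∩ A2) + #(T ∩ A3) := by
    exact_mod_cast l2
  have g1 : ξ * #T ≤ ξ * (2 * n) := mul_le_mul_of_nonneg_left hT (by linarith)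
  have g2 : ζ * #T ≤ ξ * #T := mul_le_mul_of_nonneg_right hζξ (by positivity)
  rw [abs_le] at h1 h2 h3
  linarith [h1.2, h2.2, h3.2]

theorem zone_count (n : ℕ) (hn : 1 ≤ n) :
    n ≤ n ^ 4 ∧ n ^ 2 ≤ n ^ 4 ∧ n ^ 3 ≤ n ^ 4 := by
  refine ⟨?_, Nat.pow_le_pow_right hn (by norm_num), Nat.pow_le_pow_right hn (by norm_num)⟩
  simpa using Nat.pow_le_pow_right hn (show 1 ≤ 4 by norm_num)

theorem zone (D : Des I J X) (hn : 100 ≤ D.n) (ξ ζ τ L : ℝ) (hζ : 0 < ζ) (hζξ : ζ ≤ ξ)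
    (hξ : ξ ≤ 1 / 10) (hτ0 : 0 ≤ τ) (hL : (D.n : ℝ) ^ 6 ≤ Real.exp L)
    (hτ : 4 * L * D.n ≤ τ ^ 2) :
    ∃ R Z E : Finset (Ln I J X), R ⊆ valid D ∧ (∀ i j, cel i j ∉ R) ∧ OnlyCel Z ∧ E ⊆ Z ∧
      (∀ x, |(sX R x : ℝ) - ζ * D.n| ≤ τ) ∧ (∀ x, |(eX R x : ℝ) - ζ * D.n| ≤ τ) ∧
      (∀ j, |(eJ R j : ℝ) - ζ * Fintype.card I| ≤ τ) ∧
      (∀ j, |(cJ E j : ℝ) - ζ * Fintype.card I| ≤ τ) ∧
      (∀ i, |(sI R i : ℝ) - ζ * Fintype.card J| ≤ τ * Fintype.card J / D.n) ∧
      (∀ i, |(cI E i : ℝ) - ζ * Fintype.card J| ≤ τ * Fintype.card J / D.n) ∧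
      (∀ i j, |(#{x | sym x i ∈ R ∧ edg j x ∈ R} : ℝ) - ζ ^ 2 * D.n| ≤ 2 * τ) ∧
      (∀ x i, |(#{j | edg j x ∈ R ∧ cel i j ∈ Z} : ℝ) - 2 * ξ * ζ * D.n| ≤
        (ξ ^ 2 + ζ) * ζ * D.n + 10 * τ) ∧
      (∀ x j, |(#{i | sym x i ∈ R ∧ cel i j ∈ Z} : ℝ) - 2 * ξ * ζ * D.n| ≤
        (ξ ^ 2 + ζ) * ζ * D.n + 10 * τ) ∧
      (∀ x i i', ξ ^ 2 * ζ * D.n - 3 * τ ≤ #{j | edg j x ∈ R ∧ cel i j ∈ Z ∧ cel i' j ∈ Z}) ∧
      Sparse D (R ∪ Z) (6 * ξ * D.n + 3 * τ) := by
  have hr : Fintype.card I ≤ 2 * D.n := D.r_le (by omega)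
  have hc : Fintype.card J ≤ 2 * (D.n * D.n) := D.c_le (by omega)
  have hv : Fintype.card X ≤ 4 * (D.n * D.n) := by have := D.v_le; omega
  obtain ⟨q1, q2, q3⟩ := zone_count D.n (by omega)
  have hζ1 : ζ ≤ 1 := by linarith
  have hξ0 : 0 ≤ ξ := by linarith
  have hξ1 : ξ ≤ 1 := by linarith
  have hn0 : (0 : ℝ) ≤ D.n := by positivity
  have hIle : ∀ s : Finset I, #s ≤ 2 * D.n := fun s => (card_le_univ s).trans hr
  have hB : ∀ (x : X) (s : Finset J), s ⊆ D.B x → #s ≤ 2 * D.n := fun x s h => by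
    have := card_le_card h
    rw [D.cardB] at this
    omega
  -- the edges
  obtain ⟨er, ec, e0, e1, e2, -, -⟩ := zone_grid D hn ζ τ L hζ.le hζ1 hτ0 hL hτ
    (σ := Option I) (σ' := Unit)
    (fun o j => o.elim (univ.filter fun x => j ∈ D.B x)
      fun i => univ.filter fun x => i ∈ D.A x ∧ j ∈ D.B x)
    (fun _ x => D.B x) (fun _ => ∅) (fun _ => ∅)
    (by
      simp only [Fintype.card_option, Fintype.card_unit]
      calc _ ≤ (2 * D.n + 1 + 1) * (2 * (D.n * D.n)) + (1 + 1) * (4 * (D.n * D.n)) := by gcongr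
        _ ≤ _ := by nlinarith)
    (by
      rintro (_ | i) j
      · simp only [Option.elim]
        rw [D.degJ, ← D.cardI]
        exact hr
      · simp only [Option.elim]
        rw [D.rc]
        omega)
    (fun _ x => hB x _ subset_rfl) (by simp) (by simp)
  -- the symbol lines
  obtain ⟨sr, sc, s0, s1, s2, -, s3⟩ := zone_grid D hn ζ τ L hζ.le hζ1 hτ0 hL hτ
    (σ := Unit) (σ' := J ⊕ J) (fun _ x => D.A x)
    (Sum.elim (fun j i => {x | i ∈ D.A x ∧ j ∈ D.B x})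
      (fun j i => (univ.filter fun x => i ∈ D.A x ∧ j ∈ D.B x) ∩ er j))
    (fun _ => ∅) (fun i => {x | i ∈ D.A x})
    (by
      simp only [Fintype.card_sum, Fintype.card_unit]
      calc _ ≤ (1 + 1) * (4 * (D.n * D.n)) +
          (2 * (D.n * D.n) + 2 * (D.n * D.n) + 1) * (2 * D.n) := by gcongr
        _ ≤ _ := by nlinarith)
    (fun _ _ => hIle _)
    (by
      rintro (j | j) i
      · simp only [Sum.elim_inl]
        rw [D.rc]
        omega
      · simp only [Sum.elim_inr]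
        refine (card_le_card inter_subset_left).trans ?_
        rw [D.rc]
        omega)
    (by simp) (fun i => (D.degI i).le)
  -- the cells
  have cells : ∀ p : ℝ, 0 ≤ p → p ≤ 1 → ∀ (S1 : X → I → Finset J) (S2 : X × I → I → Finset J)
      (T : X → J → Finset I), (∀ x i, S1 x i ⊆ D.B x) → (∀ x i, S2 x i ⊆ D.B x.1) →
      ∃ (Zr : I → Finset J) (Zc : J → Finset I), (∀ a b, b ∈ Zr a ↔ a ∈ Zc b) ∧
        (∀ x i, |(#(D.B x ∩ Zr i) : ℝ) - p * #(D.B x)| ≤ τ) ∧
        (∀ x i, |(#(S1 x i ∩ Zr i) : ℝ) - p * #(S1 x i)| ≤ τ) ∧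
        (∀ x i, |(#(S2 x i ∩ Zr i) : ℝ) - p * #(S2 x i)| ≤ τ) ∧
        (∀ j, |(#(univ ∩ Zc j) : ℝ) - p * #(univ : Finset I)| ≤ τ) ∧
        (∀ x j, |(#(T x j ∩ Zc j) : ℝ) - p * #(T x j)| ≤ τ) ∧
        (∀ i, |(#(univ ∩ Zr i) : ℝ) - p * #(univ : Finset J)| ≤ τ * Fintype.card J / D.n) := by
    intro p hp0 hp1 S1 S2 T hS1 hS2
    obtain ⟨Zr, Zc, h0, h1, h2, h3, -⟩ := zone_grid D hn p τ L hp0 hp1 hτ0 hL hτ
      (σ := X ⊕ X ⊕ X × I) (σ' := Option X)
      (Sum.elim (fun x _ => D.B x) (Sum.elim S1 S2))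
      (fun o => o.elim (fun _ => univ) T) (fun _ => univ) (fun _ => ∅)
      (by
        simp only [Fintype.card_sum, Fintype.card_option, Fintype.card_prod]
        calc _ ≤ (4 * (D.n * D.n) + (4 * (D.n * D.n) + 4 * (D.n * D.n) * (2 * D.n)) + 1) *
            (2 * D.n) + (4 * (D.n * D.n) + 1 + 1) * (2 * (D.n * D.n)) := by gcongr
          _ ≤ _ := by nlinarith)
      (by
        rintro (x | x | x) i
        · exact hB x _ subset_rfl
        · exact hB x _ (hS1 x i)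
        · exact hB x.1 _ (hS2 x i))
      (fun _ _ => hIle _) (fun _ => card_le_univ _) (by simp)
    exact ⟨Zr, Zc, h0, fun x i => h1 (.inl x) i, fun x i => h1 (.inr (.inl x)) i,
      fun x i => h1 (.inr (.inr x)) i, fun j => h2 none j, fun x j => h2 (some x) j, h3⟩
  obtain ⟨ar, ac, a0, a1, a2, -, a3, a4, a5⟩ := cells ζ hζ.le hζ1 (fun x _ => D.B x ∩ ec x)
    (fun _ _ => ∅) (fun x _ => D.A x ∩ sr x) (fun _ _ => inter_subset_left) (by simp)
  obtain ⟨br, bc, b0, b1, b2, -, b3, b4, -⟩ := cells ξ hξ0 hξ1 (fun x _ => D.B x ∩ ec x)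
    (fun _ _ => ∅) (fun x _ => D.A x ∩ sr x) (fun _ _ => inter_subset_left) (by simp)
  obtain ⟨cr, cc, c0, c1, c2, c2', c3, c4, -⟩ := cells ξ hξ0 hξ1
    (fun x i => (D.B x ∩ ec x) \ br i) (fun x _ => D.B x.1 ∩ ec x.1 ∩ br x.2)
    (fun x j => (D.A x ∩ sr x) \ bc j) (fun _ _ => sdiff_subset.trans inter_subset_left)
    (fun _ _ => inter_subset_left.trans inter_subset_left)
  obtain ⟨R, R1, R2, R3⟩ := zone_lines (fun (_ : I) (_ : J) => False)
    (fun x i => i ∈ D.A x ∩ sr x) (fun j x => j ∈ D.B x ∩ ec x)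
  obtain ⟨Z, Z1, Z2, Z3⟩ := zone_lines (fun i j => j ∈ br i ∪ cr i ∪ ar i)
    (fun (_ : X) (_ : I) => False) (fun (_ : J) _ => False)
  obtain ⟨E, E1, E2, E3⟩ := zone_lines (fun i j => j ∈ ar i)
    (fun (_ : X) (_ : I) => False) (fun (_ : J) _ => False)
  have Z1' : ∀ i j, cel i j ∈ Z ↔ i ∈ bc j ∪ cc j ∪ ac j := by
    intro i j
    simp only [Z1, mem_union, a0, b0, c0]
  have hsX : ∀ x, |(#(D.A x ∩ sr x) : ℝ) - ζ * D.n| ≤ τ := fun x => by
    simpa only [D.cardA] using s1 () x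
  have heX : ∀ x, |(#(D.B x ∩ ec x) : ℝ) - ζ * D.n| ≤ τ := fun x => by
    simpa only [D.cardB] using e2 () x
  have heJ : ∀ j, |(#((univ.filter fun x => j ∈ D.B x) ∩ er j) : ℝ) - ζ * Fintype.card I| ≤ τ :=
    fun j => by
      have := e1 none j
      simp only [Option.elim] at this
      rwa [D.degJ, ← D.cardI] at this
  have hζn : ζ * D.n ≤ ξ * D.n := mul_le_mul_of_nonneg_right hζξ hn0
  have hξn : 0 ≤ ξ * D.n := by positivity
  have hr' : (Fintype.card I : ℝ) ≤ 2 * D.n := by exact_mod_cast hr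
  refine ⟨R, Z, E, ?_, fun i j => by simp [R1], ?_, ?_, ?_, ?_, ?_, ?_, ?_, ?_, ?_, ?_, ?_, ?_, ?_⟩
  · rintro (⟨i, j⟩ | ⟨x, i⟩ | ⟨j, x⟩) h
    · simp
    · rw [R2] at h
      simpa using (mem_inter.1 h).1
    · rw [R3] at h
      simpa using (mem_inter.1 h).1
  · rintro (⟨i, j⟩ | ⟨x, i⟩ | ⟨j, x⟩) h
    · exact ⟨i, j, rfl⟩
    · exact ((Z2 _ _).1 h).elim
    · exact ((Z3 _ _).1 h).elim
  · rintro (⟨i, j⟩ | ⟨x, i⟩ | ⟨j, x⟩) h
    · rw [Z1]
      exact mem_union_right _ ((E1 _ _).1 h)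
    · exact ((E2 _ _).1 h).elim
    · exact ((E3 _ _).1 h).elim
  · intro x
    have : sX R x = #(D.A x ∩ sr x) :=
      congrArg card (by ext i; simp only [mem_filter, mem_univ, true_and, R2])
    rw [this]
    exact hsX x
  · intro x
    have : eX R x = #(D.B x ∩ ec x) :=
      congrArg card (by ext i; simp only [mem_filter, mem_univ, true_and, R3])
    rw [this]
    exact heX x
  · intro j
    have : eJ R j = #((univ.filter fun x => j ∈ D.B x) ∩ er j) :=
      congrArg card (by ext i; simp [R3, e0])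
    rw [this]
    exact heJ j
  · intro j
    have : cJ E j = #(univ ∩ ac j) := congrArg card (by ext i; simp [E1, a0])
    rw [this]
    exact a3 j
  · intro i
    have : sI R i = #((univ.filter fun x => i ∈ D.A x) ∩ sc i) :=
      congrArg card (by ext x; simp [R2, s0])
    rw [this]
    simpa only [D.degI] using s3 i
  · intro i
    have : cI E i = #(univ ∩ ar i) := congrArg card (by ext j; simp [E1])
    rw [this]
    exact a5 i
  · intro i j
    have : (univ.filter fun x => sym x i ∈ R ∧ edg j x ∈ R) =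
        (univ.filter fun x => i ∈ D.A x ∧ j ∈ D.B x) ∩ er j ∩ sc i := by
      ext x
      simp only [mem_filter, mem_univ, true_and, R2, R3, mem_inter, e0, s0]
      tauto
    rw [this]
    have h1 := s2 (.inr j) i
    have h2 := e1 (some i) j
    simp only [Sum.elim_inr, Option.elim, D.rc] at h1 h2
    have h3 := zone_scale hζ.le hζ1 h2
    rw [abs_le] at h1 h3 ⊢
    constructor <;> nlinarith [h1.1, h1.2, h3.1, h3.2]
  · intro x i
    have : (univ.filter fun j => edg j x ∈ R ∧ cel i j ∈ Z) =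
        D.B x ∩ ec x ∩ (br i ∪ cr i ∪ ar i) := by
      ext j
      simp only [mem_filter, mem_univ, true_and, R3, Z1, mem_inter]
    rw [this]
    exact zone_deg _ _ _ _ hζ hζξ hξ hn0 hτ0 (heX x) (b2 x i) (c2 x i) (a2 x i)
  · intro x j
    have : (univ.filter fun i => sym x i ∈ R ∧ cel i j ∈ Z) =
        D.A x ∩ sr x ∩ (bc j ∪ cc j ∪ ac j) := by
      ext i
      simp only [mem_filter, mem_univ, true_and, R2, Z1', mem_inter]
    rw [this]
    exact zone_deg _ _ _ _ hζ hζξ hξ hn0 hτ0 (hsX x) (b4 x j) (c4 x j) (a4 x j)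
  · intro x i i'
    have : D.B x ∩ ec x ∩ br i ∩ cr i' ⊆
        univ.filter fun j => edg j x ∈ R ∧ cel i j ∈ Z ∧ cel i' j ∈ Z := by
      intro j
      simp only [mem_filter, mem_univ, true_and, R3, Z1, mem_inter, mem_union]
      tauto
    have h0 : (#(D.B x ∩ ec x ∩ br i ∩ cr i') : ℝ) ≤
      #{j | edg j x ∈ R ∧ cel i j ∈ Z ∧ cel i' j ∈ Z} := by exact_mod_cast card_le_card this
    have h1 := c2' (x, i) i'
    have h2 := zone_scale hξ0 hξ1 (b2 x i)
    have h3 := zone_scale (k := ξ ^ 2) (by positivity) (by nlinarith) (heX x)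
    rw [abs_le] at h1 h2 h3
    nlinarith [h1.1, h2.1, h3.1]
  · constructor
    · intro j
      have : cJ (R ∪ Z) j = #(univ ∩ (bc j ∪ cc j ∪ ac j)) :=
        congrArg card (by ext i; simp [R1, Z1'])
      rw [this]
      exact zone_up _ _ _ _ hζ hζξ hr' (b3 j) (c3 j) (a3 j)
    · intro x
      have : sX (R ∪ Z) x = #(D.A x ∩ sr x) := congrArg card (by ext i; simp [R2, Z2])
      rw [this]
      have := (abs_le.1 (hsX x)).2
      linarith
    · intro j
      have : eJ (R ∪ Z) j = #((univ.filter fun x => j ∈ D.B x) ∩ er j) :=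
        congrArg card (by ext i; simp [R3, Z3, e0])
      rw [this]
      have h1 := (abs_le.1 (heJ j)).2
      have h2 : ζ * Fintype.card I ≤ ζ * (2 * D.n) := mul_le_mul_of_nonneg_left hr' hζ.le
      linarith
    · intro x
      have : eX (R ∪ Z) x = #(D.B x ∩ ec x) := congrArg card (by ext i; simp [R3, Z3])
      rw [this]
      have := (abs_le.1 (heX x)).2
      linarith
    · intro x i
      have : cN D (R ∪ Z) x i = #(D.B x ∩ (br i ∪ cr i ∪ ar i)) :=
        congrArg card (by ext j; simp [R1, Z1])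
      rw [this]
      exact zone_up _ _ _ _ hζ hζξ (by rw [D.cardB]; linarith) (b1 x i) (c1 x i) (a1 x i)
    · intro j i
      have : sN D (R ∪ Z) j i = #((univ.filter fun x => i ∈ D.A x ∧ j ∈ D.B x) ∩ sc i) :=
        congrArg card (by
          ext x
          simp only [mem_filter, mem_univ, true_and, mem_union, R2, Z2, mem_inter, s0]
          tauto)
      rw [this]
      have h1 := s2 (.inl j) i
      simp only [Sum.elim_inl, D.rc] at h1
      have := (abs_le.1 h1).2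
      linarith

end Pool.Agent.Lib.MP_9dc2ba_co.Large
end

-- part Pool.Agent.Lib.MP_9dc2ba_co.Large.Boost
section

/-!
Boosting: a set of lines with a sparse complement and small imbalances has an almost exact
fractional triangle decomposition.
-/

open Finset

set_option linter.unusedSectionVars false

namespace Pool.Agent.Lib.MP_9dc2ba_co.Large

variable {I J X : Type*} [Fintype I] [Fintype J] [Fintype X] [DecidableEq I] [DecidableEq J]
  [DecidableEq X]

namespace Boost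

theorem l1_le {α : Type*} [Fintype α] (d : α → ℝ) (Q K : ℝ) (hQ : ∑ a, d a ^ 2 ≤ Q)
    (hK : Fintype.card α * Q ≤ K ^ 2) (hK0 : 0 ≤ K) : ∑ a, |d a| ≤ K := by
  have h1 : (∑ a, |d a|) ^ 2 ≤ Fintype.card α * ∑ a, |d a| ^ 2 := by
    have := sq_sum_le_card_mul_sum_sq (s := (univ : Finset α)) (f := fun a => |d a|)
    simpa using this
  have h2 : ∑ a, |d a| ^ 2 ≤ Q := by simpa [sq_abs] using hQ
  have h3 : (∑ a, |d a|) ^ 2 ≤ K ^ 2 :=
    h1.trans ((mul_le_mul_of_nonneg_left h2 (Nat.cast_nonneg _)).trans hK)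
  exact (abs_le_of_sq_le_sq' h3 hK0).2

theorem weighted {α : Type*} [Fintype α] (N ψ : α → ℝ) (m δ : ℝ) (hψ : ∀ a, |ψ a| ≤ δ) :
    |∑ a, N a * ψ a| ≤ |m| * |∑ a, ψ a| + δ * ∑ a, |N a - m| := by
  have : ∑ a, N a * ψ a = m * ∑ a, ψ a + ∑ a, (N a - m) * ψ a := by
    rw [mul_sum, ← sum_add_distrib]
    exact sum_congr rfl fun a _ => by ring
  rw [this]
  refine (abs_add_le _ _).trans (add_le_add (by rw [abs_mul]) ?_)
  refine (abs_sum_le_sum_abs _ _).trans ?_
  rw [mul_sum]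
  refine sum_le_sum fun a _ => ?_
  rw [abs_mul, mul_comm]
  exact mul_le_mul_of_nonneg_right (hψ a) (abs_nonneg _)

theorem sum_sum_mem {α β : Type*} [Fintype β] [DecidableEq β] (S : Finset α) (B : α → Finset β)
    (f : β → ℝ) : ∑ x ∈ S, ∑ b ∈ B x, f b = ∑ b, (#{x ∈ S | b ∈ B x} : ℝ) * f b := by
  have : ∀ x ∈ S, ∑ b ∈ B x, f b = ∑ b, if b ∈ B x then f b else 0 := by
    intro x _
    rw [← sum_filter]
    congr 1
    ext b
    simp
  rw [sum_congr rfl this, sum_comm]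
  refine sum_congr rfl fun b _ => ?_
  rw [← sum_filter, sum_const, nsmul_eq_mul]

theorem abs_sum_le {α : Type*} (S : Finset α) (f : α → ℝ) (δ : ℝ) (h : ∀ a ∈ S, |f a| ≤ δ) :
    |∑ a ∈ S, f a| ≤ #S * δ := by
  refine (abs_sum_le_sum_abs _ _).trans ?_
  have := sum_le_card_nsmul S (fun a => |f a|) δ h
  simpa [nsmul_eq_mul] using this

/-- The symbols of the cell `(i, j)`. -/
def cs (D : Des I J X) (i : I) (j : J) : Finset X := {x | i ∈ D.A x ∧ j ∈ D.B x}

theorem card_cs (D : Des I J X) (i : I) (j : J) : #(cs D i j) = D.n := D.rc i j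

theorem count_A (D : Des I J X) (S : Finset X) (i : I) :
    (#{x ∈ S | i ∈ D.A x} : ℝ) = #S - #{x ∈ S | i ∉ D.A x} := by
  have := card_filter_add_card_filter_not (s := S) (fun x => i ∈ D.A x)
  rw [← this]
  push_cast
  ring

theorem mixA (D : Des I J X) (hn : 2 ≤ D.n) (S : Finset X) :
    ∑ i, ((#{x ∈ S | i ∈ D.A x} : ℝ) - (1 - D.rho) * #S) ^ 2 ≤ (D.n : ℝ) * #S := by
  have h := D.mixing hn S
  have h0 : 0 ≤ ∑ j, ((#{x ∈ S | j ∈ D.B x} : ℝ) - D.rho * #S) ^ 2 :=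
    sum_nonneg fun _ _ => sq_nonneg _
  refine le_trans (le_of_eq ?_) (le_trans (le_add_of_nonneg_left h0) h)
  refine sum_congr rfl fun i _ => ?_
  rw [count_A]
  ring

theorem mixB (D : Des I J X) (hn : 2 ≤ D.n) (S : Finset X) :
    ∑ j, ((#{x ∈ S | j ∈ D.B x} : ℝ) - D.rho * #S) ^ 2 ≤ D.n * #S := by
  have h := D.mixing hn S
  have h0 : 0 ≤ ∑ i, ((#{x ∈ S | i ∉ D.A x} : ℝ) - D.rho * #S) ^ 2 :=
    sum_nonneg fun _ _ => sq_nonneg _
  exact le_trans (le_add_of_nonneg_right h0) h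

theorem count_B (D : Des I J X) (i : I) (j j' : J) :
    (#{x ∈ cs D i j | j' ∈ D.B x} : ℝ) = D.lam -
      #{x ∈ ({x | j ∈ D.B x ∧ i ∉ D.A x} : Finset X) | j' ∈ D.B x} +
        if j' = j then (D.n : ℝ) else 0 := by
  split_ifs with h
  · subst h
    have h1 : {x ∈ cs D i j' | j' ∈ D.B x} = cs D i j' := by
      ext x
      simp only [cs, mem_filter, mem_univ, true_and]
      tauto
    have h2 : {x ∈ ({x | j' ∈ D.B x ∧ i ∉ D.A x} : Finset X) | j' ∈ D.B x} =
        ({x | j' ∈ D.B x ∧ i ∉ D.A x} : Finset X) := by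
      ext x
      simp only [mem_filter, mem_univ, true_and]
      tauto
    rw [h1, h2, card_cs, D.miss_one]
    ring
  · have h1 := card_filter_add_card_filter_not
      (s := ({x | j ∈ D.B x ∧ j' ∈ D.B x} : Finset X)) (fun x => i ∈ D.A x)
    rw [D.cc j j' (Ne.symm h)] at h1
    have h2 : {x ∈ ({x | j ∈ D.B x ∧ j' ∈ D.B x} : Finset X) | i ∈ D.A x} =
        {x ∈ cs D i j | j' ∈ D.B x} := by
      ext x
      simp only [cs, mem_filter, mem_univ, true_and]
      tauto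
    have h3 : {x ∈ ({x | j ∈ D.B x ∧ j' ∈ D.B x} : Finset X) | ¬ i ∈ D.A x} =
        {x ∈ ({x | j ∈ D.B x ∧ i ∉ D.A x} : Finset X) | j' ∈ D.B x} := by
      ext x
      simp only [mem_filter, mem_univ, true_and]
      tauto
    rw [h2, h3] at h1
    rw [← h1]
    push_cast
    ring

section lift

variable (D : Des I J X) (hn : 10 ^ 8 ≤ D.n) (ψ : I → J → ℝ) (δ η : ℝ) (hδ : 0 ≤ δ)
  (hη : 0 ≤ η) (hψ : ∀ i j, |ψ i j| ≤ δ)
  (hrow : ∀ i, |∑ j, ψ i j| ≤ 2 * η * Fintype.card J) (hcol : ∀ j, |∑ i, ψ i j| ≤ η * D.n)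

include hn hδ hη hψ hrow in
theorem t_row (i : I) (j : J) :
    |∑ x ∈ cs D i j, ∑ j' ∈ D.B x, ψ i j'| ≤ (4 * η + δ / 500) * D.n ^ 2 := by
  have hn2 : 2 ≤ D.n := le_trans (by norm_num) hn
  have hnr : (10 : ℝ) ^ 8 ≤ D.n := by exact_mod_cast hn
  set S' : Finset X := {x | j ∈ D.B x ∧ i ∉ D.A x} with hS'
  have hS'c : #S' = D.lam := D.miss_one i j
  have hcl : (Fintype.card J : ℝ) * D.lam ≤ 2 * (D.n * D.n) := by exact_mod_cast D.le_sq
  rw [sum_sum_mem]
  have e1 : ∑ j', (#{x ∈ cs D i j | j' ∈ D.B x} : ℝ) * ψ i j' =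
      ∑ j', (D.lam - (#{x ∈ S' | j' ∈ D.B x} : ℝ)) * ψ i j' + D.n * ψ i j := by
    have : (D.n : ℝ) * ψ i j = ∑ j', (if j' = j then (D.n : ℝ) else 0) * ψ i j' := by
      simp
    rw [this, ← sum_add_distrib]
    refine sum_congr rfl fun j' _ => ?_
    rw [count_B]
    ring
  rw [e1]
  have h1 := weighted (fun j' => D.lam - (#{x ∈ S' | j' ∈ D.B x} : ℝ)) (ψ i)
    ((1 - D.rho) * D.lam) δ (hψ i)
  have h2 : ∑ j', |D.lam - (#{x ∈ S' | j' ∈ D.B x} : ℝ) - (1 - D.rho) * D.lam| ≤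
      D.n ^ 2 / 1000 := by
    refine l1_le _ (D.n * D.lam) _ ?_ ?_ (by positivity)
    · have := mixB D hn2 S'
      rw [hS'c] at this
      refine le_trans (le_of_eq ?_) this
      exact sum_congr rfl fun j' _ => by ring
    · have : (Fintype.card J : ℝ) * (D.n * D.lam) ≤ 2 * D.n ^ 3 := by
        have := mul_le_mul_of_nonneg_left hcl (show (0 : ℝ) ≤ D.n by positivity)
        nlinarith
      refine this.trans ?_
      have h3 : (0 : ℝ) < D.n ^ 3 := by positivity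
      nlinarith
  have h3 : |(1 - D.rho) * (D.lam : ℝ)| ≤ D.lam := by
    have := D.rho_nonneg
    have := D.rho_le
    rw [abs_of_nonneg (mul_nonneg (by linarith) (Nat.cast_nonneg _))]
    have : (0 : ℝ) ≤ D.lam := Nat.cast_nonneg _
    nlinarith
  have h4 : |(1 - D.rho) * (D.lam : ℝ)| * |∑ j', ψ i j'| ≤ 4 * η * D.n ^ 2 := by
    refine (mul_le_mul h3 (hrow i) (abs_nonneg _) (Nat.cast_nonneg _)).trans ?_
    have := mul_le_mul_of_nonneg_left hcl hη
    nlinarith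
  have h5 : |(D.n : ℝ) * ψ i j| ≤ δ * (D.n ^ 2 / 1000) := by
    rw [abs_mul, Nat.abs_cast]
    have := hψ i j
    have h6 : (D.n : ℝ) ≤ D.n ^ 2 / 1000 := by nlinarith
    calc (D.n : ℝ) * |ψ i j| ≤ D.n * δ := by gcongr
      _ ≤ D.n ^ 2 / 1000 * δ := by gcongr
      _ = _ := by ring
  have h6 := mul_le_mul_of_nonneg_left h2 hδ
  refine (abs_add_le _ _).trans ?_
  nlinarith

include hn hδ hη hψ hcol in
theorem t_col (i : I) (j : J) :
    |∑ x ∈ cs D i j, ∑ i' ∈ D.A x, ψ i' j| ≤ (η + δ / 1000) * D.n ^ 2 := by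
  have hn2 : 2 ≤ D.n := le_trans (by norm_num) hn
  have hnr : (10 : ℝ) ^ 8 ≤ D.n := by exact_mod_cast hn
  have hr : (Fintype.card I : ℝ) ≤ 2 * D.n := by exact_mod_cast D.r_le hn2
  rw [sum_sum_mem]
  have h1 := weighted (fun i' => (#{x ∈ cs D i j | i' ∈ D.A x} : ℝ)) (fun i' => ψ i' j)
    ((1 - D.rho) * D.n) δ (fun i' => hψ i' j)
  have h2 : ∑ i', |(#{x ∈ cs D i j | i' ∈ D.A x} : ℝ) - (1 - D.rho) * D.n| ≤
      D.n ^ 2 / 1000 := by
    refine l1_le _ (D.n * D.n) _ ?_ ?_ (by positivity)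
    · have := mixA D hn2 (cs D i j)
      rwa [card_cs] at this
    · have : (Fintype.card I : ℝ) * (D.n * D.n) ≤ 2 * D.n ^ 3 := by
        have := mul_le_mul_of_nonneg_right hr (show (0 : ℝ) ≤ D.n * D.n by positivity)
        nlinarith
      refine this.trans ?_
      have h3 : (0 : ℝ) < D.n ^ 3 := by positivity
      nlinarith
  have h3 : |(1 - D.rho) * (D.n : ℝ)| ≤ D.n := by
    have := D.rho_nonneg
    have := D.rho_le
    rw [abs_of_nonneg (mul_nonneg (by linarith) (Nat.cast_nonneg _))]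
    nlinarith
  have h4 := mul_le_mul h3 (hcol j) (abs_nonneg _) (Nat.cast_nonneg _)
  have h6 := mul_le_mul_of_nonneg_left h2 hδ
  nlinarith

include hn hδ hη hψ hcol in
theorem t_both (i : I) (j : J) :
    |∑ x ∈ cs D i j, ∑ j' ∈ D.B x, ∑ i' ∈ D.A x, ψ i' j'| ≤ (η + δ / 100) * D.n ^ 3 := by
  have hn2 : 2 ≤ D.n := le_trans (by norm_num) hn
  have hnr : (10 : ℝ) ^ 8 ≤ D.n := by exact_mod_cast hn
  have hr : (Fintype.card I : ℝ) ≤ 2 * D.n := by exact_mod_cast D.r_le hn2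
  have hcl : (Fintype.card J : ℝ) * D.lam ≤ 2 * (D.n * D.n) := by exact_mod_cast D.le_sq
  by_cases hl : (D.lam : ℝ) ≤ D.n / 100
  · have h1 : ∀ x j', |∑ i' ∈ D.A x, ψ i' j'| ≤ η * D.n + D.n / 100 * δ := by
      intro x j'
      have h2 := sum_add_sum_compl (D.A x) (fun i' => ψ i' j')
      have h3 := abs_sum_le (D.A x)ᶜ (fun i' => ψ i' j') δ (fun i' _ => hψ i' j')
      have h4 : (#(D.A x)ᶜ : ℝ) = D.lam := by
        rw [card_compl, D.cardI, D.cardA]
        simp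
      rw [h4] at h3
      have h5 := hcol j'
      have h6 : ∑ i' ∈ D.A x, ψ i' j' = ∑ i', ψ i' j' - ∑ i' ∈ (D.A x)ᶜ, ψ i' j' := by
        linarith
      rw [h6]
      refine (abs_sub _ _).trans (add_le_add h5 (h3.trans ?_))
      gcongr
    have h2 : ∀ x ∈ cs D i j, |∑ j' ∈ D.B x, ∑ i' ∈ D.A x, ψ i' j'| ≤
        D.n * (η * D.n + D.n / 100 * δ) := by
      intro x _
      have := abs_sum_le (D.B x) (fun j' => ∑ i' ∈ D.A x, ψ i' j') _ (fun j' _ => h1 x j')
      rwa [D.cardB] at this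
    have h3 := abs_sum_le _ _ _ h2
    rw [card_cs] at h3
    refine h3.trans (le_of_eq ?_)
    ring
  · push Not at hl
    have hc : (Fintype.card J : ℝ) ≤ 200 * D.n := by
      have h1 : (Fintype.card J : ℝ) * (D.n / 100) ≤ 2 * (D.n * D.n) :=
        le_trans (mul_le_mul_of_nonneg_left hl.le (Nat.cast_nonneg _)) hcl
      have h2 : (0 : ℝ) < D.n := by linarith
      nlinarith
    set T : J → Finset X := fun j' => {x ∈ cs D i j | j' ∈ D.B x} with hT
    have hTs : ∑ j', (#(T j') : ℝ) = D.n * D.n := by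
      have := sum_sum_mem (cs D i j) D.B (fun _ => (1 : ℝ))
      simp only [mul_one, sum_const, D.cardB, card_cs, nsmul_eq_mul] at this
      exact this.symm
    have e1 : ∑ x ∈ cs D i j, ∑ j' ∈ D.B x, ∑ i' ∈ D.A x, ψ i' j' =
        ∑ j', ∑ i', (#{x ∈ T j' | i' ∈ D.A x} : ℝ) * ψ i' j' := by
      have : ∀ x ∈ cs D i j, ∑ j' ∈ D.B x, ∑ i' ∈ D.A x, ψ i' j' =
          ∑ j', if j' ∈ D.B x then ∑ i' ∈ D.A x, ψ i' j' else 0 := by
        intro x _
        rw [← sum_filter]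
        congr 1
        ext b
        simp
      rw [sum_congr rfl this, sum_comm]
      refine sum_congr rfl fun j' _ => ?_
      rw [← sum_filter, sum_sum_mem]
    rw [e1]
    have h1 : ∀ j', |∑ i', (#{x ∈ T j' | i' ∈ D.A x} : ℝ) * ψ i' j'| ≤
        #(T j') * (η * D.n) +
          δ * ∑ i', |(#{x ∈ T j' | i' ∈ D.A x} : ℝ) - (1 - D.rho) * #(T j')| := by
      intro j'
      refine (weighted (fun i' => (#{x ∈ T j' | i' ∈ D.A x} : ℝ)) (fun i' => ψ i' j')
        ((1 - D.rho) * #(T j')) δ (fun i' => hψ i' j')).trans ?_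
      have h3 : |(1 - D.rho) * (#(T j') : ℝ)| ≤ #(T j') := by
        have := D.rho_nonneg
        have := D.rho_le
        rw [abs_of_nonneg (mul_nonneg (by linarith) (Nat.cast_nonneg _))]
        have : (0 : ℝ) ≤ #(T j') := Nat.cast_nonneg _
        nlinarith
      have h4 := mul_le_mul h3 (hcol j') (abs_nonneg _) (Nat.cast_nonneg _)
      linarith
    have h2 : ∑ p : J × I, |(#{x ∈ T p.1 | p.2 ∈ D.A x} : ℝ) - (1 - D.rho) * #(T p.1)| ≤
        D.n ^ 3 / 100 := by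
      refine l1_le _ (D.n * (D.n * D.n)) _ ?_ ?_ (by positivity)
      · rw [Fintype.sum_prod_type, ← hTs, mul_sum]
        exact sum_le_sum fun j' _ => mixA D hn2 (T j')
      · rw [Fintype.card_prod]
        push_cast
        have h5 : (Fintype.card J : ℝ) * Fintype.card I ≤ 200 * D.n * (2 * D.n) :=
          mul_le_mul hc hr (Nat.cast_nonneg _) (by positivity)
        have h6 := mul_le_mul_of_nonneg_right h5
          (show (0 : ℝ) ≤ D.n * (D.n * D.n) by positivity)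
        refine h6.trans ?_
        have h3 : (0 : ℝ) < D.n ^ 5 := by positivity
        nlinarith
    rw [Fintype.sum_prod_type] at h2
    refine (abs_sum_le_sum_abs _ _).trans ((sum_le_sum fun j' _ => h1 j').trans ?_)
    rw [sum_add_distrib, ← sum_mul, hTs, ← mul_sum]
    have h6 := mul_le_mul_of_nonneg_left h2 hδ
    nlinarith

include hn hδ hη hψ hrow hcol in
theorem lift : ∃ b : I → J → X → ℝ, (∀ i j x, |b i j x| ≤ 4 * δ / D.n) ∧
    (∀ x i, ∑ j ∈ D.B x, b i j x = 0) ∧ (∀ j x, ∑ i ∈ D.A x, b i j x = 0) ∧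
    ∀ i j, |∑ x ∈ cs D i j, b i j x - ψ i j| ≤ 6 * η + δ / 50 := by
  have hnr : (10 : ℝ) ^ 8 ≤ D.n := by exact_mod_cast hn
  have hn0 : (0 : ℝ) < D.n := by linarith
  refine ⟨fun i j x => (ψ i j - (∑ j' ∈ D.B x, ψ i j') / D.n - (∑ i' ∈ D.A x, ψ i' j) / D.n +
    (∑ j' ∈ D.B x, ∑ i' ∈ D.A x, ψ i' j') / D.n ^ 2) / D.n, ?_, ?_, ?_, ?_⟩
  · intro i j x
    have hA : ∀ j', |∑ i' ∈ D.A x, ψ i' j'| ≤ D.n * δ := fun j' => by
      have := abs_sum_le (D.A x) (fun i' => ψ i' j') δ (fun i' _ => hψ i' j')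
      rwa [D.cardA] at this
    have h1 : |(∑ j' ∈ D.B x, ψ i j') / D.n| ≤ δ := by
      have := abs_sum_le (D.B x) (fun j' => ψ i j') δ (fun j' _ => hψ i j')
      rw [D.cardB] at this
      rw [abs_div, Nat.abs_cast, div_le_iff₀ hn0]
      linarith
    have h2 : |(∑ i' ∈ D.A x, ψ i' j) / D.n| ≤ δ := by
      rw [abs_div, Nat.abs_cast, div_le_iff₀ hn0]
      linarith [hA j]
    have h3 : |(∑ j' ∈ D.B x, ∑ i' ∈ D.A x, ψ i' j') / D.n ^ 2| ≤ δ := by
      have := abs_sum_le (D.B x) (fun j' => ∑ i' ∈ D.A x, ψ i' j') _ (fun j' _ => hA j')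
      rw [D.cardB] at this
      rw [abs_div, abs_of_pos (pow_pos hn0 2), div_le_iff₀ (pow_pos hn0 2)]
      nlinarith
    have h4 := hψ i j
    rw [abs_div, Nat.abs_cast]
    refine div_le_div_of_nonneg_right ?_ hn0.le
    rw [abs_le] at h1 h2 h3 h4 ⊢
    constructor <;> linarith [h1.1, h1.2, h2.1, h2.2, h3.1, h3.2, h4.1, h4.2]
  · intro x i
    rw [← sum_div, sum_add_distrib, sum_sub_distrib, sum_sub_distrib, ← sum_div, ← sum_div]
    simp only [sum_const, D.cardB, nsmul_eq_mul]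
    field_simp
    ring
  · intro j x
    rw [← sum_div, sum_add_distrib, sum_sub_distrib, sum_sub_distrib, ← sum_div, ← sum_div,
      sum_comm (s := D.A x)]
    simp only [sum_const, D.cardA, nsmul_eq_mul]
    field_simp
    ring
  · intro i j
    have h1 := t_row D hn ψ δ η hδ hη hψ hrow i j
    have h2 := t_col D hn ψ δ η hδ hη hψ hcol i j
    have h3 := t_both D hn ψ δ η hδ hη hψ hcol i j
    have e : ∑ x ∈ cs D i j, (ψ i j - (∑ j' ∈ D.B x, ψ i j') / D.n -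
        (∑ i' ∈ D.A x, ψ i' j) / D.n +
        (∑ j' ∈ D.B x, ∑ i' ∈ D.A x, ψ i' j') / D.n ^ 2) / D.n - ψ i j =
        -((∑ x ∈ cs D i j, ∑ j' ∈ D.B x, ψ i j') / D.n ^ 2) -
          (∑ x ∈ cs D i j, ∑ i' ∈ D.A x, ψ i' j) / D.n ^ 2 +
          (∑ x ∈ cs D i j, ∑ j' ∈ D.B x, ∑ i' ∈ D.A x, ψ i' j') / D.n ^ 3 := by
      rw [← sum_div, sum_add_distrib, sum_sub_distrib, sum_sub_distrib, ← sum_div, ← sum_div,
        ← sum_div]
      simp only [sum_const, card_cs, nsmul_eq_mul]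
      field_simp
      ring
    rw [e]
    rw [← div_le_iff₀ (by positivity), ← abs_of_pos (pow_pos hn0 _), ← abs_div,
      abs_le] at h1 h2 h3
    rw [abs_le]
    constructor <;> linarith [h1.1, h1.2, h2.1, h2.2, h3.1, h3.2]

end lift

theorem sum_A (D : Des I J X) (x : X) (f : I → ℝ) (h : ∀ i, i ∉ D.A x → f i = 0) :
    ∑ i ∈ D.A x, f i = ∑ i, f i :=
  sum_subset (subset_univ _) fun i _ hi => h i hi

theorem sum_B (D : Des I J X) (x : X) (f : J → ℝ) (h : ∀ j, j ∉ D.B x → f j = 0) :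
    ∑ j ∈ D.B x, f j = ∑ j, f j :=
  sum_subset (subset_univ _) fun j _ hj => h j hj

theorem sum_cs_row (D : Des I J X) (i : I) (a : J → X → ℝ) :
    ∑ j, ∑ x ∈ cs D i j, a j x = ∑ x with i ∈ D.A x, ∑ j ∈ D.B x, a j x := by
  refine sum_comm' ?_
  intro j x
  simp only [cs, mem_filter, mem_univ, true_and]
  tauto

theorem sum_cs_col (D : Des I J X) (j : J) (a : I → X → ℝ) :
    ∑ i, ∑ x ∈ cs D i j, a i x = ∑ x with j ∈ D.B x, ∑ i ∈ D.A x, a i x := by
  refine sum_comm' ?_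
  intro i x
  simp only [cs, mem_filter, mem_univ, true_and]

/-- One correction step on the complete design. -/
theorem step (D : Des I J X) (hn : 10 ^ 8 ≤ D.n) (eC : I → J → ℝ) (eS : X → I → ℝ)
    (eE : J → X → ℝ) (δ η : ℝ) (hδ : 0 ≤ δ) (hη : 0 ≤ η) (hC : ∀ i j, |eC i j| ≤ δ)
    (hS : ∀ x i, |eS x i| ≤ δ) (hE : ∀ j x, |eE j x| ≤ δ)
    (hS0 : ∀ x i, i ∉ D.A x → eS x i = 0) (hE0 : ∀ j x, j ∉ D.B x → eE j x = 0)
    (bX : ∀ x, |∑ i, eS x i - ∑ j, eE j x| ≤ η * D.n)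
    (bJ : ∀ j, |∑ i, eC i j - ∑ x, eE j x| ≤ η * D.n)
    (bI : ∀ i, |∑ j, eC i j - ∑ x, eS x i| ≤ η * Fintype.card J) :
    ∃ k : I → J → X → ℝ, (∀ i j x, |k i j x| ≤ 19 * δ / D.n) ∧
      (∀ i j, |∑ x ∈ cs D i j, k i j x - eC i j| ≤ 6 * η + δ / 10) ∧
      (∀ x i, |∑ j ∈ D.B x, k i j x - eS x i| ≤ η) ∧
      ∀ j x, ∑ i ∈ D.A x, k i j x = eE j x := by
  have hnr : (10 : ℝ) ^ 8 ≤ D.n := by exact_mod_cast hn
  have hn0 : (0 : ℝ) < D.n := by linarith
  set a : I → J → X → ℝ := fun i j x =>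
    eS x i / D.n + eE j x / D.n - (∑ i', eS x i') / D.n ^ 2 with ha
  have a1 : ∀ i j x, |a i j x| ≤ 3 * δ / D.n := by
    intro i j x
    have h1 : |eS x i / D.n| ≤ δ / D.n := by
      rw [abs_div, Nat.abs_cast]
      exact div_le_div_of_nonneg_right (hS x i) hn0.le
    have h2 : |eE j x / D.n| ≤ δ / D.n := by
      rw [abs_div, Nat.abs_cast]
      exact div_le_div_of_nonneg_right (hE j x) hn0.le
    have h3 : |(∑ i', eS x i') / D.n ^ 2| ≤ δ / D.n := by
      have := abs_sum_le (D.A x) (eS x) δ (fun i' _ => hS x i')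
      rw [D.cardA, sum_A D x _ (hS0 x)] at this
      rw [abs_div, abs_of_pos (pow_pos hn0 2), div_le_div_iff₀ (pow_pos hn0 2) hn0]
      nlinarith
    have e : 3 * δ / D.n = δ / D.n + δ / D.n + δ / D.n := by ring
    rw [e]
    exact (abs_sub _ _).trans (add_le_add ((abs_add_le _ _).trans (add_le_add h1 h2)) h3)
  have a2 : ∀ x i, |∑ j ∈ D.B x, a i j x - eS x i| ≤ η := by
    intro x i
    have e : ∑ j ∈ D.B x, a i j x - eS x i = -((∑ i, eS x i - ∑ j, eE j x) / D.n) := by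
      simp only [ha]
      rw [sum_sub_distrib, sum_add_distrib, ← sum_div (D.B x) (fun j => eE j x),
        sum_B D x _ (fun j => hE0 j x)]
      simp only [sum_const, D.cardB, nsmul_eq_mul]
      field_simp
      ring
    rw [e, abs_neg, abs_div, Nat.abs_cast, div_le_iff₀ hn0]
    exact bX x
  have a3 : ∀ j x, ∑ i ∈ D.A x, a i j x = eE j x := by
    intro j x
    simp only [ha]
    rw [sum_sub_distrib, sum_add_distrib, ← sum_div (D.A x) (fun i => eS x i),
      sum_A D x _ (hS0 x)]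
    simp only [sum_const, D.cardA, nsmul_eq_mul]
    field_simp
    ring
  set ψ : I → J → ℝ := fun i j => eC i j - ∑ x ∈ cs D i j, a i j x with hψ
  have p1 : ∀ i j, |ψ i j| ≤ 4 * δ := by
    intro i j
    have := abs_sum_le (cs D i j) (a i j) _ (fun x _ => a1 i j x)
    rw [card_cs] at this
    have e : (D.n : ℝ) * (3 * δ / D.n) = 3 * δ := by field_simp
    rw [e] at this
    refine (abs_sub _ _).trans ?_
    linarith [hC i j]
  have p2 : ∀ i, |∑ j, ψ i j| ≤ 2 * η * Fintype.card J := by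
    intro i
    have h1 : ∑ x with i ∈ D.A x, eS x i = ∑ x, eS x i :=
      sum_subset (subset_univ _) fun x _ hx => hS0 x i (by simpa using hx)
    have e : ∑ j, ψ i j = (∑ j, eC i j - ∑ x, eS x i) -
        ∑ x with i ∈ D.A x, (∑ j ∈ D.B x, a i j x - eS x i) := by
      simp only [hψ]
      rw [sum_sub_distrib, sum_cs_row, sum_sub_distrib, h1]
      ring
    have h2 := abs_sum_le ({x | i ∈ D.A x} : Finset X) _ η (fun x _ => a2 x i)
    rw [D.degI] at h2
    rw [e]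
    refine (abs_sub _ _).trans ?_
    linarith [bI i]
  have p3 : ∀ j, |∑ i, ψ i j| ≤ η * D.n := by
    intro j
    have h1 : ∑ x with j ∈ D.B x, eE j x = ∑ x, eE j x :=
      sum_subset (subset_univ _) fun x _ hx => hE0 j x (by simpa using hx)
    have e : ∑ i, ψ i j = ∑ i, eC i j - ∑ x, eE j x := by
      simp only [hψ]
      rw [sum_sub_distrib, sum_cs_col, ← h1]
      simp only [a3]
    rw [e]
    exact bJ j
  obtain ⟨b, b1, b2, b3, b4⟩ := lift D hn ψ (4 * δ) η (by linarith) hη p1 p2 p3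
  refine ⟨fun i j x => a i j x + b i j x, ?_, ?_, ?_, ?_⟩
  · intro i j x
    have e : 19 * δ / D.n = 3 * δ / D.n + 4 * (4 * δ) / D.n := by ring
    rw [e]
    exact (abs_add_le _ _).trans (add_le_add (a1 i j x) (b1 i j x))
  · intro i j
    have e : ∑ x ∈ cs D i j, (a i j x + b i j x) - eC i j =
        ∑ x ∈ cs D i j, b i j x - ψ i j := by
      simp only [hψ]
      rw [sum_add_distrib]
      ring
    rw [e]
    linarith [b4 i j]
  · intro x i
    rw [sum_add_distrib, b2, add_zero]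
    exact a2 x i
  · intro j x
    rw [sum_add_distrib, b3, add_zero, a3]

/-- All three lines of the triangle lie in `M`. -/
def InM (M : Finset (Ln I J X)) (i : I) (j : J) (x : X) : Prop :=
  cel i j ∈ M ∧ sym x i ∈ M ∧ edg j x ∈ M

instance (M : Finset (Ln I J X)) (i : I) (j : J) (x : X) : Decidable (InM M i j x) := by
  unfold InM
  infer_instance

theorem trunc {α : Type*} [Fintype α] [DecidableEq α] (T : Finset α) (p : α → Prop)
    [DecidablePred p] (hp : ∀ a, p a → a ∈ T) (k : α → ℝ) (κ m : ℝ) (hκ : 0 ≤ κ)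
    (hk : ∀ a, |k a| ≤ κ) (hm : (#{a ∈ T | ¬ p a} : ℝ) ≤ m) :
    |∑ a, (if p a then k a else 0) - ∑ a ∈ T, k a| ≤ m * κ := by
  have h1 : ∑ a, (if p a then k a else 0) = ∑ a ∈ T with p a, k a := by
    rw [← sum_filter]
    congr 1
    ext a
    simp only [mem_filter, mem_univ, true_and]
    exact ⟨fun h => ⟨hp a h, h⟩, fun h => h.2⟩
  rw [h1, ← sum_filter_add_sum_filter_not T p k, sub_add_cancel_left, abs_neg]
  exact (abs_sum_le _ _ κ fun a _ => hk a).trans (mul_le_mul_of_nonneg_right hm hκ)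

section cut

variable {D : Des I J X} {U : Finset (Ln I J X)} {t : ℝ} (hU : Sparse D U t)
  (k : I → J → X → ℝ) {κ : ℝ} (hκ : 0 ≤ κ) (hk : ∀ i j x, |k i j x| ≤ κ)

include hU hκ hk in
theorem cut_cel {i : I} {j : J} (h : cel i j ∈ valid D \ U) :
    |∑ x, (if InM (valid D \ U) i j x then k i j x else 0) - ∑ x ∈ cs D i j, k i j x| ≤
      2 * t * κ := by
  refine trunc _ _ ?_ _ κ _ hκ (fun x => hk i j x) ?_
  · intro x hx
    simp only [InM, mem_sdiff, sym_mem_valid, edg_mem_valid] at hx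
    simp only [cs, mem_filter, mem_univ, true_and]
    exact ⟨hx.2.1.1, hx.2.2.1⟩
  · have h1 : #{x ∈ cs D i j | ¬ InM (valid D \ U) i j x} ≤ sN D U j i + eJ U j := by
      refine le_trans (card_le_card ?_) (card_union_le _ _)
      intro x hx
      simp only [InM, mem_sdiff, sym_mem_valid, edg_mem_valid, cs, mem_filter, mem_univ,
        true_and, mem_union] at hx h ⊢
      tauto
    have h2 : (#{x ∈ cs D i j | ¬ InM (valid D \ U) i j x} : ℝ) ≤ sN D U j i + eJ U j := by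
      exact_mod_cast h1
    linarith [hU.sN j i, hU.eJ j]

include hU hκ hk in
theorem cut_sym {x : X} {i : I} (h : sym x i ∈ valid D \ U) :
    |∑ j, (if InM (valid D \ U) i j x then k i j x else 0) - ∑ j ∈ D.B x, k i j x| ≤
      2 * t * κ := by
  refine trunc _ _ ?_ _ κ _ hκ (fun j => hk i j x) ?_
  · intro j hj
    simp only [InM, mem_sdiff, sym_mem_valid, edg_mem_valid] at hj
    exact hj.2.2.1
  · have h1 : #{j ∈ D.B x | ¬ InM (valid D \ U) i j x} ≤ cN D U x i + eX U x := by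
      refine le_trans (card_le_card ?_) (card_union_le _ _)
      intro j hj
      simp only [InM, mem_sdiff, sym_mem_valid, edg_mem_valid, cel_mem_valid, mem_filter,
        mem_univ, true_and, mem_union] at hj h ⊢
      tauto
    have h2 : (#{j ∈ D.B x | ¬ InM (valid D \ U) i j x} : ℝ) ≤ cN D U x i + eX U x := by
      exact_mod_cast h1
    linarith [hU.cN x i, hU.eX x]

include hU hκ hk in
theorem cut_edg {j : J} {x : X} (h : edg j x ∈ valid D \ U) :
    |∑ i, (if InM (valid D \ U) i j x then k i j x else 0) - ∑ i ∈ D.A x, k i j x| ≤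
      2 * t * κ := by
  refine trunc _ _ ?_ _ κ _ hκ (fun i => hk i j x) ?_
  · intro i hi
    simp only [InM, mem_sdiff, sym_mem_valid, edg_mem_valid] at hi
    exact hi.2.1.1
  · have h1 : #{i ∈ D.A x | ¬ InM (valid D \ U) i j x} ≤ cJ U j + sX U x := by
      refine le_trans (card_le_card ?_) (card_union_le _ _)
      intro i hi
      simp only [InM, mem_sdiff, sym_mem_valid, edg_mem_valid, cel_mem_valid, mem_filter,
        mem_univ, true_and, mem_union] at hi h ⊢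
      tauto
    have h2 : (#{i ∈ D.A x | ¬ InM (valid D \ U) i j x} : ℝ) ≤ cJ U j + sX U x := by
      exact_mod_cast h1
    linarith [hU.cJ j, hU.sX x]

end cut

/-- The invariant of the iteration. -/
structure Good (D : Des I J X) (M : Finset (Ln I J X)) (y : I → J → X → ℝ) (δ : ℝ) : Prop where
  supp : ∀ i j x, ¬ InM M i j x → y i j x = 0
  near : ∀ i j x, InM M i j x → |y i j x - 1 / D.n| ≤ 38 * (1 / 500 - δ) / D.n
  cel : ∀ i j, cel i j ∈ M → |∑ x, y i j x - 1| ≤ δ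
  sym : ∀ x i, sym x i ∈ M → |∑ j, y i j x - 1| ≤ δ
  edg : ∀ j x, edg j x ∈ M → |∑ i, y i j x - 1| ≤ δ

theorem good_init (D : Des I J X) (hn : 10 ^ 8 ≤ D.n) (U : Finset (Ln I J X))
    (hU : Sparse D U (D.n / 1000)) : ∃ y, Good D (valid D \ U) y (1 / 500) := by
  have hnr : (10 : ℝ) ^ 8 ≤ D.n := by exact_mod_cast hn
  have hn0 : (0 : ℝ) < D.n := by linarith
  have hκ : (0 : ℝ) ≤ 1 / D.n := by positivity
  have hk : ∀ (i : I) (j : J) (x : X), |(fun _ _ _ => 1 / (D.n : ℝ)) i j x| ≤ 1 / D.n :=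
    fun _ _ _ => le_of_eq (abs_of_nonneg hκ)
  have e : 2 * ((D.n : ℝ) / 1000) * (1 / D.n) = 1 / 500 := by
    field_simp
    norm_num
  have e1 : (D.n : ℝ) * (1 / D.n) = 1 := by field_simp
  refine ⟨fun i j x => if InM (valid D \ U) i j x then 1 / D.n else 0, ?_, ?_, ?_, ?_, ?_⟩
  · intro i j x h
    simp [h]
  · intro i j x h
    simp [h]
  · intro i j h
    have := cut_cel hU _ hκ hk h
    rwa [e, sum_const, card_cs, nsmul_eq_mul, e1] at this
  · intro x i h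
    have := cut_sym hU _ hκ hk h
    rwa [e, sum_const, D.cardB, nsmul_eq_mul, e1] at this
  · intro j x h
    have := cut_edg hU _ hκ hk h
    rwa [e, sum_const, D.cardA, nsmul_eq_mul, e1] at this

theorem sum_ind {α β : Type*} [Fintype α] [DecidableEq β] (M : Finset β) (f : α → β) :
    ∑ a, (if f a ∈ M then (1 : ℝ) else 0) = #{a | f a ∈ M} := by
  rw [sum_boole]

theorem good_step (D : Des I J X) (hn : 10 ^ 8 ≤ D.n) (U : Finset (Ln I J X))
    (hU : Sparse D U (D.n / 1000)) (η : ℝ) (hη : 0 ≤ η)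
    (bX : ∀ x, |(sX (valid D \ U) x : ℝ) - eX (valid D \ U) x| ≤ η * D.n)
    (bJ : ∀ j, |(cJ (valid D \ U) j : ℝ) - eJ (valid D \ U) j| ≤ η * D.n)
    (bI : ∀ i, |(cI (valid D \ U) i : ℝ) - sI (valid D \ U) i| ≤ η * Fintype.card J)
    (y : I → J → X → ℝ) (δ : ℝ) (hδ : 100 * η ≤ δ) (hy : Good D (valid D \ U) y δ) :
    ∃ y', Good D (valid D \ U) y' (δ / 2) := by
  have hnr : (10 : ℝ) ^ 8 ≤ D.n := by exact_mod_cast hn
  have hn0 : (0 : ℝ) < D.n := by linarith
  have hδ0 : 0 ≤ δ := by linarith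
  set M := valid D \ U with hM
  have zC : ∀ i j, cel i j ∉ M → ∑ x, y i j x = 0 := fun i j h =>
    sum_eq_zero fun x _ => hy.supp i j x fun h' => h h'.1
  have zS : ∀ x i, sym x i ∉ M → ∑ j, y i j x = 0 := fun x i h =>
    sum_eq_zero fun j _ => hy.supp i j x fun h' => h h'.2.1
  have zE : ∀ j x, edg j x ∉ M → ∑ i, y i j x = 0 := fun j x h =>
    sum_eq_zero fun i _ => hy.supp i j x fun h' => h h'.2.2
  obtain ⟨k, k1, k2, k3, k4⟩ := step D hn
    (fun i j => (if cel i j ∈ M then 1 else 0) - ∑ x, y i j x)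
    (fun x i => (if sym x i ∈ M then 1 else 0) - ∑ j, y i j x)
    (fun j x => (if edg j x ∈ M then 1 else 0) - ∑ i, y i j x) δ η hδ0 hη
    (fun i j => by
      split_ifs with h
      · rw [abs_sub_comm]
        exact hy.cel i j h
      · simpa [zC i j h] using hδ0)
    (fun x i => by
      split_ifs with h
      · rw [abs_sub_comm]
        exact hy.sym x i h
      · simpa [zS x i h] using hδ0)
    (fun j x => by
      split_ifs with h
      · rw [abs_sub_comm]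
        exact hy.edg j x h
      · simpa [zE j x h] using hδ0)
    (fun x i h => by
      have h' : sym x i ∉ M := fun h' => h (by simpa using (mem_sdiff.1 h').1)
      simp [h', zS x i h'])
    (fun j x h => by
      have h' : edg j x ∉ M := fun h' => h (by simpa using (mem_sdiff.1 h').1)
      simp [h', zE j x h'])
    (fun x => by
      rw [sum_sub_distrib, sum_sub_distrib, sum_comm (f := fun j i => y i j x),
        sum_ind M (fun i => sym x i), sum_ind M (fun j => edg j x), sub_sub_sub_cancel_right]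
      exact bX x)
    (fun j => by
      rw [sum_sub_distrib, sum_sub_distrib, sum_comm (f := fun x i => y i j x),
        sum_ind M (fun i => cel i j), sum_ind M (fun x => edg j x), sub_sub_sub_cancel_right]
      exact bJ j)
    (fun i => by
      rw [sum_sub_distrib, sum_sub_distrib, sum_comm (f := fun x j => y i j x),
        sum_ind M (fun j => cel i j), sum_ind M (fun x => sym x i), sub_sub_sub_cancel_right]
      exact bI i)
  have hκ : 0 ≤ 19 * δ / D.n := by positivity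
  have e : 2 * ((D.n : ℝ) / 1000) * (19 * δ / D.n) = 19 * δ / 500 := by
    field_simp
    ring
  refine ⟨fun i j x => y i j x + if InM M i j x then k i j x else 0, ?_, ?_, ?_, ?_, ?_⟩
  · intro i j x h
    simp [h, hy.supp i j x h]
  · intro i j x h
    have h1 := hy.near i j x h
    have h2 := k1 i j x
    have e2 : 38 * (1 / 500 - δ / 2) / D.n = 38 * (1 / 500 - δ) / D.n + 19 * δ / D.n := by ring
    simp only [h, if_true]
    rw [e2, add_sub_right_comm]
    exact (abs_add_le _ _).trans (add_le_add h1 h2)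
  · intro i j h
    have h1 := cut_cel hU k hκ k1 h
    have h2 := k2 i j
    simp only [h, if_true] at h2
    rw [e] at h1
    rw [sum_add_distrib]
    rw [abs_le] at h1 h2 ⊢
    constructor <;> linarith [h1.1, h1.2, h2.1, h2.2]
  · intro x i h
    have h1 := cut_sym hU k hκ k1 h
    have h2 := k3 x i
    simp only [h, if_true] at h2
    rw [e] at h1
    rw [sum_add_distrib]
    rw [abs_le] at h1 h2 ⊢
    constructor <;> linarith [h1.1, h1.2, h2.1, h2.2]
  · intro j x h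
    have h1 := cut_edg hU k hκ k1 h
    have h2 := k4 j x
    simp only [h, if_true] at h2
    rw [e] at h1
    rw [sum_add_distrib]
    rw [abs_le] at h1 ⊢
    constructor <;> linarith [h1.1, h1.2]

end Boost

open Boost in
theorem boost (D : Des I J X) (hn : 10 ^ 8 ≤ D.n) (U : Finset (Ln I J X))
    (hU : Sparse D U (D.n / 1000)) (τ : ℝ) (hτ : 0 < τ)
    (bX : ∀ x, |(sX (valid D \ U) x : ℝ) - eX (valid D \ U) x| ≤ τ)
    (bJ : ∀ j, |(cJ (valid D \ U) j : ℝ) - eJ (valid D \ U) j| ≤ τ)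
    (bI : ∀ i, |(cI (valid D \ U) i : ℝ) - sI (valid D \ U) i| ≤ τ * Fintype.card J / D.n) :
    ∃ y, FracDec (valid D \ U) y (2 / D.n) (100 * τ / D.n) := by
  have hnr : (10 : ℝ) ^ 8 ≤ D.n := by exact_mod_cast hn
  have hn0 : (0 : ℝ) < D.n := by linarith
  have hη : 0 < τ / D.n := by positivity
  have e1 : τ / D.n * D.n = τ := by field_simp
  have e2 : τ / D.n * Fintype.card J = τ * Fintype.card J / D.n := by ring
  have key : ∀ m : ℕ, ∃ y δ, 0 ≤ δ ∧ (δ ≤ (1 / 2) ^ m ∨ δ ≤ 100 * (τ / D.n)) ∧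
      Good D (valid D \ U) y δ := by
    intro m
    induction m with
    | zero =>
      obtain ⟨y, hy⟩ := good_init D hn U hU
      exact ⟨y, 1 / 500, by norm_num, Or.inl (by norm_num), hy⟩
    | succ m ih =>
      obtain ⟨y, δ, h0, h1, hy⟩ := ih
      by_cases h : δ ≤ 100 * (τ / D.n)
      · exact ⟨y, δ, h0, Or.inr h, hy⟩
      · obtain ⟨y', hy'⟩ := good_step D hn U hU (τ / D.n) hη.le (by rwa [e1]) (by rwa [e1])
          (by rwa [e2]) y δ (not_le.1 h).le hy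
        refine ⟨y', δ / 2, by linarith, Or.inl ?_, hy'⟩
        rw [pow_succ]
        linarith [h1.resolve_right h]
  obtain ⟨m, hm⟩ := exists_pow_lt_of_lt_one (show 0 < 100 * (τ / D.n) by positivity)
    (show (1 / 2 : ℝ) < 1 by norm_num)
  obtain ⟨y, δ, h0, h1, hy⟩ := key m
  have h2 : δ ≤ 100 * τ / D.n := by
    rw [mul_div_assoc]
    rcases h1 with h1 | h1
    · linarith
    · exact h1
  have h3 : ∀ i j x, 0 ≤ y i j x ∧ y i j x ≤ 2 / D.n := by
    intro i j x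
    by_cases h : InM (valid D \ U) i j x
    · have h4 := hy.near i j x h
      have h5 : 38 * (1 / 500 - δ) / (D.n : ℝ) ≤ 1 / D.n :=
        div_le_div_of_nonneg_right (by linarith) hn0.le
      have e3 : 2 / (D.n : ℝ) = 1 / D.n + 1 / D.n := by ring
      rw [abs_le] at h4
      rw [e3]
      constructor <;> linarith [h4.1, h4.2]
    · rw [hy.supp i j x h]
      exact ⟨le_rfl, by positivity⟩
  exact ⟨y, fun i j x => (h3 i j x).1, fun i j x => (h3 i j x).2,
    fun i j x h => by_contra fun h' => h (hy.supp i j x h'),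
    fun i j h => (hy.cel i j h).trans h2, fun x i h => (hy.sym x i h).trans h2,
    fun j x h => (hy.edg j x h).trans h2⟩

end Pool.Agent.Lib.MP_9dc2ba_co.Large
end
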