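import Mathlib
import Pool.Agent.Lib.MP_9dc2ba_co.Large.Prob
import Pool.Agent.Lib.MP_9dc2ba_co.Large.Round

-- part Pool.Agent.Lib.MP_9dc2ba_co.Large.Colour
section

/-!
The colouring phase: colours for the shift networks at the columns, chosen layer by layer.
-/

open Finset

set_option linter.unusedSectionVars false

namespace Pool.Agent.Lib.MP_9dc2ba_co.Large

variable {I J X : Type*} [Fintype I] [Fintype J] [Fintype X] [DecidableEq I] [DecidableEq J]
  [DecidableEq X]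

theorem colour_mix_mix {h : ℕ} (d : ℕ) (u p : Cube h) : mix d (mix d u p) (mix d p u) = u := by
  funext b
  unfold mix
  split_ifs <;> rfl

theorem colour_mix_card {h : ℕ} (d : ℕ) (v : Cube h) :
    ∑ p : Cube h, #{u : Cube h | mix d u p = v} = 2 ^ h := by
  have h1 : ∑ p : Cube h, #{u : Cube h | mix d u p = v} =
      #{q : Cube h × Cube h | mix d q.2 q.1 = v} := by
    simp only [card_filter]
    rw [Fintype.sum_prod_type]
  have h2 : #{q : Cube h × Cube h | mix d q.2 q.1 = v} = #(univ : Finset (Cube h)) := by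
    apply card_nbij' (fun q => mix d q.1 q.2) (fun w => (mix d w v, mix d v w))
    · intro q _
      simp
    · intro w _
      simp [colour_mix_mix]
    · intro q hq
      simp only [coe_filter, mem_univ, true_and, Set.mem_ofPred_eq] at hq
      subst hq
      simp [colour_mix_mix]
    · intro w _
      simp [colour_mix_mix]
  rw [h1, h2]
  simp

theorem colour_cong {T : Type*} [Fintype T] {h : ℕ} (d : ℕ) (v : Cube h) (p : T → Cube h) (N : ℝ)
    (hN : ∀ w, (#{τ | p τ = w} : ℝ) ≤ N) :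
    ∑ τ, (#{u : Cube h | mix d u (p τ) = v} : ℝ) ≤ N * 2 ^ h := by
  rw [← sum_fiberwise (s := univ) (g := p)]
  calc ∑ w, ∑ τ with p τ = w, (#{u : Cube h | mix d u (p τ) = v} : ℝ)
      = ∑ w, (#{τ | p τ = w} : ℝ) * (#{u : Cube h | mix d u w = v} : ℝ) := by
        refine sum_congr rfl fun w _ => ?_
        rw [sum_congr rfl (g := fun _ => (#{u : Cube h | mix d u w = v} : ℝ))]
        · simp
        · intro τ hτ
          rw [(mem_filter.1 hτ).2]
    _ ≤ ∑ w, N * (#{u : Cube h | mix d u w = v} : ℝ) :=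
        sum_le_sum fun w _ => mul_le_mul_of_nonneg_right (hN w) (by positivity)
    _ = N * 2 ^ h := by
        rw [← mul_sum]
        congr 1
        exact_mod_cast colour_mix_card d v

/-- The weights of an option for the three kinds of keys. -/
noncomputable def colourW (D : Des I J X) {h : ℕ} (π : I → Cube h) {P : Type*}
    (p1 p2 : J × P → Cube h) (τ : J × P) (o : I) :
    (X × I) ⊕ I ⊕ (Fin (h + 1) × Cube h) → ℝ :=
  Sum.elim (fun k => if τ.1 ∈ D.B k.1 ∧ o = k.2 then 1 else 0)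
    (Sum.elim (fun i => if o = i then 1 else 0)
      (fun k => (if mix k.1 (π o) (p1 τ) = k.2 then 1 else 0) +
        (if mix k.1 (π o) (p2 τ) = k.2 then 1 else 0)))

theorem colourW_bound (D : Des I J X) {h : ℕ} (π : I → Cube h) {P : Type*}
    (p1 p2 : J × P → Cube h) (τ : J × P) (o : I) (k : (X × I) ⊕ I ⊕ (Fin (h + 1) × Cube h)) :
    0 ≤ colourW D π p1 p2 τ o k ∧ colourW D π p1 p2 τ o k ≤ 2 := by
  rcases k with k | k | k <;> simp only [colourW, Sum.elim_inl, Sum.elim_inr] <;>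
    split_ifs <;> norm_num

theorem colour_one {h : ℕ} (ι : Cube h ↪ I) (i : I) :
    ∑ u : Cube h, (if ι u = i then (1 : ℝ) else 0) ≤ 1 := by
  rw [sum_boole]
  have : #{u : Cube h | ι u = i} ≤ 1 := by
    rw [card_le_one]
    intro a ha b hb
    exact ι.injective ((mem_filter.1 ha).2.trans (mem_filter.1 hb).2.symm)
  exact_mod_cast this

theorem colour_keys (D : Des I J X) (hn : 100 ≤ D.n) {h : ℕ} (ι : Cube h ↪ I) :
    (Fintype.card ((X × I) ⊕ I ⊕ (Fin (h + 1) × Cube h)) : ℝ) < (D.n : ℝ) ^ 6 := by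
  have h2 : 2 ≤ D.n := by omega
  have hr := D.r_le h2
  have hc := D.c_le h2
  have hv : Fintype.card X ≤ 2 * Fintype.card J := by
    have := D.cardX
    have := D.le
    omega
  have hH : 2 ^ h ≤ Fintype.card I := by
    have := Fintype.card_le_of_embedding ι
    simpa using this
  have hh : h + 1 ≤ 2 ^ h := Nat.lt_two_pow_self
  have hk : Fintype.card ((X × I) ⊕ I ⊕ (Fin (h + 1) × Cube h)) =
      Fintype.card X * Fintype.card I + (Fintype.card I + (h + 1) * 2 ^ h) := by simp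
  have h3 : Fintype.card X * Fintype.card I ≤ (4 * (D.n * D.n)) * (2 * D.n) :=
    Nat.mul_le_mul (by omega) hr
  have h4 : (h + 1) * 2 ^ h ≤ (2 * D.n) * (2 * D.n) := Nat.mul_le_mul (by omega) (by omega)
  have h5 : Fintype.card ((X × I) ⊕ I ⊕ (Fin (h + 1) × Cube h)) < D.n ^ 6 := by
    rw [hk]
    have e1 : 100 * D.n ≤ D.n * D.n := Nat.mul_le_mul_right _ hn
    have e2 : 100 * (D.n * D.n) ≤ D.n * (D.n * D.n) := Nat.mul_le_mul_right _ hn
    have e3 : 100 * (D.n * (D.n * D.n)) ≤ D.n ^ 6 := by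
      have : 100 ≤ D.n ^ 3 := le_trans hn (Nat.le_self_pow (by norm_num) _)
      calc 100 * (D.n * (D.n * D.n)) ≤ D.n ^ 3 * (D.n * (D.n * D.n)) :=
            Nat.mul_le_mul_right _ this
        _ = D.n ^ 6 := by ring
    have e4 : (4 * (D.n * D.n)) * (2 * D.n) = 8 * (D.n * (D.n * D.n)) := by ring
    have e5 : (2 * D.n) * (2 * D.n) = 4 * (D.n * D.n) := by ring
    omega
  exact_mod_cast h5

theorem colour_L_nonneg (D : Des I J X) (hn : 100 ≤ D.n) {L : ℝ}
    (hL : (D.n : ℝ) ^ 6 ≤ Real.exp L) : 0 ≤ L := by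
  have h1 : (1 : ℝ) ≤ D.n := by exact_mod_cast (by omega : 1 ≤ D.n)
  have h2 : (1 : ℝ) ≤ Real.exp L := le_trans (one_le_pow₀ h1) hL
  exact Real.one_le_exp_iff.1 h2

theorem colour_thr (D : Des I J X) (hn : 100 ≤ D.n) {h : ℕ} (ι : Cube h ↪ I) (π : I → Cube h)
    (hπ : ∀ v, π (ι v) = v) (hr : Fintype.card I ≤ 2 * 2 ^ h) {P : Type*} [Fintype P]
    [DecidableEq P] (p1 p2 : J × P → Cube h) (N L : ℝ) (hL0 : 0 ≤ L)
    (hN1 : ∀ v, (#{τ | p1 τ = v} : ℝ) ≤ N) (hN2 : ∀ v, (#{τ | p2 τ = v} : ℝ) ≤ N)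
    (k : (X × I) ⊕ I ⊕ (Fin (h + 1) × Cube h)) :
    2 * ∑ τ : J × P, (2 / 2 ^ h * ∑ u : Cube h, colourW D π p1 p2 τ (ι u) k) + 2 * L ≤
      Sum.elim (fun _ => 8 * (Fintype.card P : ℝ) + 2 * L)
        (Sum.elim (fun _ => (8 * (Fintype.card P : ℝ) + 2 * L) * Fintype.card J / D.n)
          (fun _ => 8 * N + 2 * L)) k := by
  have hH : (0 : ℝ) < 2 ^ h := by positivity
  have hn0 : (0 : ℝ) < D.n := by exact_mod_cast (by omega : 0 < D.n)
  have hnH : (D.n : ℝ) ≤ 2 * 2 ^ h := by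
    have := D.n_le_r.trans hr
    exact_mod_cast this
  have hnc : (D.n : ℝ) ≤ Fintype.card J := by exact_mod_cast D.n_le_c
  have hP : (0 : ℝ) ≤ Fintype.card P := by positivity
  rw [← mul_sum]
  rcases k with ⟨x, i⟩ | i | ⟨d, v⟩
  · simp only [colourW, Sum.elim_inl]
    have h1 : ∑ τ : J × P, ∑ u : Cube h, (if τ.1 ∈ D.B x ∧ ι u = i then (1 : ℝ) else 0) ≤
        D.n * Fintype.card P := by
      calc ∑ τ : J × P, ∑ u : Cube h, (if τ.1 ∈ D.B x ∧ ι u = i then (1 : ℝ) else 0)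
          ≤ ∑ τ : J × P, (if τ.1 ∈ D.B x then (1 : ℝ) else 0) := by
            refine sum_le_sum fun τ _ => ?_
            by_cases hτ : τ.1 ∈ D.B x
            · simpa [hτ] using colour_one ι i
            · simp [hτ]
        _ = D.n * Fintype.card P := by
            rw [Fintype.sum_prod_type' (fun j (_ : P) => if j ∈ D.B x then (1 : ℝ) else 0)]
            simp only [sum_const, card_univ, nsmul_eq_mul]
            rw [← mul_sum, sum_boole]
            simp [D.cardB x, mul_comm]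
    have h2 : 2 / 2 ^ h * ∑ τ : J × P, ∑ u : Cube h,
        (if τ.1 ∈ D.B x ∧ ι u = i then (1 : ℝ) else 0) ≤ 4 * Fintype.card P := by
      rw [div_mul_eq_mul_div, div_le_iff₀ hH]
      nlinarith
    linarith
  · simp only [colourW, Sum.elim_inl, Sum.elim_inr]
    have h1 : ∑ τ : J × P, ∑ u : Cube h, (if ι u = i then (1 : ℝ) else 0) ≤
        Fintype.card J * Fintype.card P := by
      calc ∑ τ : J × P, ∑ u : Cube h, (if ι u = i then (1 : ℝ) else 0)
          ≤ ∑ τ : J × P, (1 : ℝ) := sum_le_sum fun τ _ => colour_one ι i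
        _ = Fintype.card J * Fintype.card P := by simp
    have h2 : 2 / 2 ^ h * ∑ τ : J × P, ∑ u : Cube h, (if ι u = i then (1 : ℝ) else 0) ≤
        4 * Fintype.card P * Fintype.card J / D.n := by
      rw [div_mul_eq_mul_div, div_le_div_iff₀ hH hn0]
      have h3 : (0 : ℝ) ≤ Fintype.card J * Fintype.card P := by positivity
      nlinarith
    have h4 : 2 * L ≤ 2 * L * Fintype.card J / D.n := by
      rw [le_div_iff₀ hn0]
      nlinarith
    have h5 : (8 * (Fintype.card P : ℝ) + 2 * L) * Fintype.card J / D.n =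
        2 * (4 * Fintype.card P * Fintype.card J / D.n) + 2 * L * Fintype.card J / D.n := by
      ring
    linarith
  · simp only [colourW, Sum.elim_inr, hπ, sum_add_distrib, sum_boole]
    have h1 := colour_cong (d : ℕ) v p1 N hN1
    have h2 := colour_cong (d : ℕ) v p2 N hN2
    have h3 : 2 / 2 ^ h * (∑ τ, (#{u : Cube h | mix d u (p1 τ) = v} : ℝ) +
        ∑ τ, (#{u : Cube h | mix d u (p2 τ) = v} : ℝ)) ≤ 4 * N := by
      rw [div_mul_eq_mul_div, div_le_iff₀ hH]
      nlinarith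
    linarith

theorem colour_layer (D : Des I J X) (hn : 100 ≤ D.n) {h : ℕ} (ι : Cube h ↪ I) (π : I → Cube h)
    (hπ : ∀ v, π (ι v) = v) (hr : Fintype.card I ≤ 2 * 2 ^ h) {P : Type*} [Fintype P]
    [DecidableEq P] (σ : Equiv.Perm P) (pre : J → P → Option I) (bad : J → P → Finset I)
    (p1 p2 : J × P → Cube h) (N L : ℝ) (hL : (D.n : ℝ) ^ 6 ≤ Real.exp L)
    (hbad : ∀ j t, (#(bad j t) : ℝ) + Fintype.card P + 72 ≤ D.n / 4)
    (hinj : ∀ j t t' i, pre j t = some i → pre j t' = some i → t = t')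
    (hpb : ∀ j t t' i, pre j t = some i → i ∈ bad j t')
    (hpar : ∀ j t, pre j t = none ∨ pre j (σ t) = none)
    (hN1 : ∀ v, (#{τ | p1 τ = v} : ℝ) ≤ N) (hN2 : ∀ v, (#{τ | p2 τ = v} : ℝ) ≤ N) :
    ∃ c : J × P → I, (∀ τ i, pre τ.1 τ.2 = some i → c τ = i) ∧
      (∀ τ, pre τ.1 τ.2 = none → c τ ∈ Set.range ι ∧ c τ ∉ bad τ.1 τ.2) ∧
      (∀ j t t', c (j, t) = c (j, t') → t = t') ∧
      (∀ j t, σ t ≠ t → PG D j (c (j, t)) (c (j, σ t))) ∧
      (∀ x i, (#{τ : J × P | pre τ.1 τ.2 = none ∧ τ.1 ∈ D.B x ∧ c τ = i} : ℝ) ≤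
        8 * Fintype.card P + 2 * L) ∧
      (∀ i, (#{τ : J × P | pre τ.1 τ.2 = none ∧ c τ = i} : ℝ) ≤
        (8 * Fintype.card P + 2 * L) * Fintype.card J / D.n) ∧
      (∀ d ≤ h, ∀ v, (#{τ : J × P | pre τ.1 τ.2 = none ∧ mix d (π (c τ)) (p1 τ) = v} : ℝ) +
        #{τ : J × P | pre τ.1 τ.2 = none ∧ mix d (π (c τ)) (p2 τ) = v} ≤ 8 * N + 2 * L) := by
  classical
  have hL0 := colour_L_nonneg D hn hL
  have hH : (0 : ℝ) < 2 ^ h := by positivity
  have hnH : (D.n : ℝ) ≤ 2 * 2 ^ h := by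
    have := D.n_le_r.trans hr
    exact_mod_cast this
  have hn100 : (100 : ℝ) ≤ D.n := by exact_mod_cast hn
  obtain ⟨f, hok, hcmp, hthr⟩ := greedy (T := J × P) (O := I)
    (K := (X × I) ⊕ I ⊕ (Fin (h + 1) × Cube h))
    (fun τ o => (∀ i, pre τ.1 τ.2 = some i → o = i) ∧ (pre τ.1 τ.2 = none →
      o ∈ Set.range ι ∧ o ∉ bad τ.1 τ.2 ∧
        ∀ s i, pre τ.1 s = some i → (s = σ τ.2 ∨ τ.2 = σ s) → PG D τ.1 i o))
    (fun τ o τ' o' => τ.1 = τ'.1 → o ≠ o' ∧ ((τ'.2 = σ τ.2 ∨ τ.2 = σ τ'.2) → PG D τ.1 o o'))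
    (by
      intro τ o τ' o' hc he
      obtain ⟨h1, h2⟩ := hc he.symm
      exact ⟨h1.symm, fun hp => he ▸ D.pg_symm (h2 hp.symm)⟩)
    (fun τ o k => if pre τ.1 τ.2 = none then colourW D π p1 p2 τ o k else 0) 2 L (by norm_num)
    (by
      intro τ o k _
      split_ifs
      · exact colourW_bound D π p1 p2 τ o k
      · norm_num)
    (fun τ k => 2 / 2 ^ h * ∑ u : Cube h, colourW D π p1 p2 τ (ι u) k)
    (fun τ k => mul_nonneg (by positivity)
      (sum_nonneg fun u _ => (colourW_bound D π p1 p2 τ (ι u) k).1))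
    (Sum.elim (fun _ => 8 * (Fintype.card P : ℝ) + 2 * L)
        (Sum.elim (fun _ => (8 * (Fintype.card P : ℝ) + 2 * L) * Fintype.card J / D.n)
          (fun _ => 8 * N + 2 * L)))
    (lt_of_lt_of_le (colour_keys D hn ι) hL)
    (colour_thr D hn ι π hπ hr p1 p2 N L hL0 hN1 hN2)
    (by
      rintro S f ⟨j, t⟩ hτ hf -
      rcases hp : pre j t with _ | i
      · -- a free position
        let g : P → I := fun s => (pre j s).getD
          (if hs : (j, s) ∈ S then f ⟨(j, s), hs⟩ else ι (fun _ => false))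
        have hg1 : ∀ s i, pre j s = some i → g s = i := by
          intro s i hs
          simp [g, hs]
        have hg2 : ∀ s (hs : (j, s) ∈ S), g s = f ⟨(j, s), hs⟩ := by
          intro s hs
          rcases hq : pre j s with _ | i
          · simp [g, hq, hs]
          · rw [hg1 s i hq]
            exact ((hf ⟨(j, s), hs⟩).1 i hq).symm
        let F : Finset I := bad j t ∪ univ.image g ∪ univ.filter (fun b => ¬ PG D j (g (σ t)) b) ∪
          univ.filter (fun b => ¬ PG D j (g (σ.symm t)) b)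
        have hF : (#F : ℝ) ≤ D.n / 4 := by
          have e1 : #F ≤ #(bad j t) + #(univ.image g) + #{b | ¬ PG D j (g (σ t)) b} +
              #{b | ¬ PG D j (g (σ.symm t)) b} :=
            (card_union_le _ _).trans (Nat.add_le_add_right
              ((card_union_le _ _).trans (Nat.add_le_add_right (card_union_le _ _) _)) _)
          have e2 : #(univ.image g) ≤ Fintype.card P := card_image_le.trans (by simp)
          have e3 := D.bad_pg_colour hn j (g (σ t))
          have e4 := D.bad_pg_colour hn j (g (σ.symm t))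
          have e5 : #F ≤ #(bad j t) + Fintype.card P + 72 := by omega
          have e6 : (#F : ℝ) ≤ #(bad j t) + Fintype.card P + 72 := by exact_mod_cast e5
          exact e6.trans (hbad j t)
        have hΩ : (2 : ℝ) ^ h / 2 ≤ #(univ.map ι \ F) := by
          have e1 : #(univ.map ι) ≤ #(univ.map ι \ F) + #F := card_le_card_sdiff_add_card
          have e2 : #(univ.map ι) = 2 ^ h := by simp
          rw [e2] at e1
          have e3 : (2 : ℝ) ^ h ≤ #(univ.map ι \ F) + #F := by exact_mod_cast e1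
          linarith
        have hmem : ∀ o ∈ univ.map ι \ F, o ∈ Set.range ι ∧ o ∉ bad j t ∧ (∀ s, o ≠ g s) ∧
            ∀ s, (s = σ t ∨ t = σ s) → PG D j (g s) o := by
          intro o ho
          simp only [F, mem_sdiff, mem_map, mem_univ, true_and, mem_union, mem_image, mem_filter,
            not_or, not_exists, not_not] at ho
          obtain ⟨h1, ⟨⟨h2, h3⟩, h4⟩, h5⟩ := ho
          refine ⟨h1, h2, fun s hs => h3 s hs.symm, ?_⟩
          rintro s (rfl | hs)
          · exact h4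
          · have : s = σ.symm t := by rw [hs]; simp
            rw [this]
            exact h5
        refine ⟨univ.map ι \ F, ?_, ?_, ?_⟩
        · rw [← card_pos]
          have : (0 : ℝ) < #(univ.map ι \ F) := by linarith
          exact_mod_cast this
        · intro o ho
          obtain ⟨h1, h2, h3, h4⟩ := hmem o ho
          refine ⟨⟨fun i hi => by simp at hi, fun _ => ⟨h1, h2, fun s i hs hst => ?_⟩⟩, ?_⟩
          · rw [← hg1 s i hs]
            exact h4 s hst
          · rintro ⟨⟨j', s⟩, hs⟩ hj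
            obtain rfl : j = j' := hj
            rw [← hg2 s hs]
            exact ⟨h3 s, fun hst => D.pg_symm (h4 s hst)⟩
        · intro k
          simp only [if_true]
          have e1 : ∑ o ∈ univ.map ι \ F, colourW D π p1 p2 (j, t) o k ≤
              ∑ u : Cube h, colourW D π p1 p2 (j, t) (ι u) k := by
            rw [← sum_map univ ι (fun o => colourW D π p1 p2 (j, t) o k)]
            exact sum_le_sum_of_subset_of_nonneg sdiff_subset
              fun o _ _ => (colourW_bound D π p1 p2 (j, t) o k).1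
          have e2 : 0 ≤ ∑ u : Cube h, colourW D π p1 p2 (j, t) (ι u) k :=
            sum_nonneg fun u _ => (colourW_bound D π p1 p2 (j, t) (ι u) k).1
          calc _ ≤ _ := e1
            _ = 2 / 2 ^ h * (∑ u : Cube h, colourW D π p1 p2 (j, t) (ι u) k) * (2 ^ h / 2) := by
                field_simp
            _ ≤ _ := mul_le_mul_of_nonneg_left hΩ (by positivity)
      · -- a prescribed position
        refine ⟨{i}, singleton_nonempty i, ?_, ?_⟩
        · intro o ho
          obtain rfl : o = i := mem_singleton.1 ho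
          refine ⟨⟨fun i hi => by simpa using hi, fun hi => by simp at hi⟩, ?_⟩
          rintro ⟨⟨j', s⟩, hs⟩ hj
          obtain rfl : j = j' := hj
          have hf' := hf ⟨(j, s), hs⟩
          rcases hq : pre j s with _ | i'
          · obtain ⟨-, h2, h3⟩ := hf'.2 hq
            refine ⟨fun he => h2 (he ▸ hpb j t s o hp), fun hst => h3 t o hp hst.symm⟩
          · have h1 := hf'.1 i' hq
            refine ⟨fun he => ?_, fun hst => ?_⟩
            · have : t = s := hinj j t s o hp (by rw [hq, ← h1]; exact congrArg _ he.symm)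
              exact hτ (this ▸ hs)
            · exfalso
              rcases hst with hst | hst
              · have := hpar j t
                simp only at hst
                rw [← hst, hp, hq] at this
                simp at this
              · have := hpar j s
                simp only at hst
                rw [← hst, hp, hq] at this
                simp at this
        · intro k
          simp only [reduceCtorEq, if_false, sum_const_zero]
          exact mul_nonneg (mul_nonneg (by positivity)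
            (sum_nonneg fun u _ => (colourW_bound D π p1 p2 (j, t) (ι u) k).1)) (by positivity))
  refine ⟨f, fun τ i hi => (hok τ).1 i hi, fun τ hτ => ⟨((hok τ).2 hτ).1, ((hok τ).2 hτ).2.1⟩,
    ?_, ?_, ?_, ?_, ?_⟩
  · intro j t t' he
    by_contra hne
    exact (hcmp (j, t) (j, t') (by simpa using hne) rfl).1 he
  · intro j t hne
    exact (hcmp (j, t) (j, σ t) (by simpa using hne.symm) rfl).2 (Or.inl rfl)
  · intro x i
    have := hthr (Sum.inl (x, i))
    simp only [colourW, Sum.elim_inl, ← ite_and, sum_boole] at this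
    exact this
  · intro i
    have := hthr (Sum.inr (Sum.inl i))
    simp only [colourW, Sum.elim_inl, Sum.elim_inr, ← ite_and, sum_boole] at this
    exact this
  · intro d hd v
    have := hthr (Sum.inr (Sum.inr (⟨d, by omega⟩, v)))
    simp only [colourW, Sum.elim_inr] at this
    rw [← sum_boole, ← sum_boole, ← sum_add_distrib]
    refine le_trans (le_of_eq (sum_congr rfl fun τ _ => ?_)) this
    by_cases hτ : pre τ.1 τ.2 = none <;> simp [hτ]

theorem colour_pre (h0 : ℕ) (Z : Finset (Ln I J X)) (hz : ∀ j, 2 * cJ Z j ≤ 2 ^ h0) :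
    ∃ (zp : J → I → Fin (2 ^ h0)) (pre : J → Fin (2 ^ h0) → Option I),
      (∀ j i, cel i j ∈ Z → pre j (zp j i) = some i) ∧
      ∀ j t i, pre j t = some i → cel i j ∈ Z ∧ zp j i = t ∧ (t : ℕ) % 2 = 0 := by
  classical
  have hex : ∀ j, ∃ z : I → Fin (2 ^ h0), (∀ i, (z i : ℕ) % 2 = 0) ∧
      ∀ i i', cel i j ∈ Z → cel i' j ∈ Z → z i = z i' → i = i' := by
    intro j
    let A : Finset I := {i | cel i j ∈ Z}
    have hA : 2 * #A ≤ 2 ^ h0 := hz j
    refine ⟨fun i => if hi : i ∈ A then ⟨2 * (A.equivFin ⟨i, hi⟩ : ℕ), by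
      have := (A.equivFin ⟨i, hi⟩).2
      omega⟩ else ⟨0, by positivity⟩, ?_, ?_⟩
    · intro i
      by_cases hi : i ∈ A <;> simp [hi]
    · intro i i' hi hi' he
      have h1 : i ∈ A := by simpa [A] using hi
      have h2 : i' ∈ A := by simpa [A] using hi'
      simp only [h1, h2, dif_pos, Fin.mk.injEq] at he
      have h3 : A.equivFin ⟨i, h1⟩ = A.equivFin ⟨i', h2⟩ := Fin.ext (by omega)
      simpa using h3
  choose zp hev hzi using hex
  refine ⟨zp, fun j t => if h : ∃ i, cel i j ∈ Z ∧ zp j i = t then some h.choose else none, ?_, ?_⟩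
  · intro j i hi
    have h : ∃ i', cel i' j ∈ Z ∧ zp j i' = zp j i := ⟨i, hi, rfl⟩
    simp only [h, dif_pos, Option.some.injEq]
    exact hzi j _ _ h.choose_spec.1 hi h.choose_spec.2
  · intro j t i hi
    by_cases h : ∃ i, cel i j ∈ Z ∧ zp j i = t
    · simp only [h, dif_pos, Option.some.injEq] at hi
      have := h.choose_spec
      rw [hi] at this
      exact ⟨this.1, this.2, this.2 ▸ hev j i⟩
    · simp [h] at hi

theorem colour_fib {T : Type*} [Fintype T] {h : ℕ} (π : I → Cube h)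
    (hfib : ∀ v, #{i | π i = v} ≤ 2) (c : T → I) (M : ℝ) (hM0 : 0 ≤ M)
    (hM : ∀ i, (#{τ | c τ = i} : ℝ) ≤ M) (v : Cube h) : (#{τ | π (c τ) = v} : ℝ) ≤ 2 * M := by
  classical
  have h1 : #{τ | π (c τ) = v} ≤ ∑ i ∈ ({i | π i = v} : Finset I), #{τ | c τ = i} := by
    refine le_trans (card_le_card ?_) card_biUnion_le
    intro τ hτ
    simp only [mem_filter, mem_univ, true_and, mem_biUnion] at hτ ⊢
    exact ⟨c τ, hτ, rfl⟩
  have h2 : (#{τ | π (c τ) = v} : ℝ) ≤ ∑ i ∈ ({i | π i = v} : Finset I), (#{τ | c τ = i} : ℝ) := by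
    exact_mod_cast h1
  have h3 : (#{i | π i = v} : ℝ) ≤ 2 := by exact_mod_cast hfib v
  calc _ ≤ _ := h2
    _ ≤ ∑ i ∈ ({i | π i = v} : Finset I), M := sum_le_sum fun i _ => hM i
    _ = #{i | π i = v} * M := by simp
    _ ≤ 2 * M := mul_le_mul_of_nonneg_right h3 hM0

/-- The invariant of the layers `0, ..., m`. -/
structure ColInv (D : Des I J X) {h : ℕ} (h0 : ℕ) (ι : Cube h ↪ I) (π : I → Cube h)
    (Z U0 : Finset (Ln I J X)) (b : ℝ) (zp : J → I → Fin (2 ^ h0)) (m : ℕ)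
    (col : J → ℕ → Fin (2 ^ h0) → I) : Prop where
  base : ∀ j i, cel i j ∈ Z → col j 0 (zp j i) = i
  inj : ∀ j ℓ t ℓ' t', ℓ ≤ m → ℓ' ≤ m → col j ℓ t = col j ℓ' t' → ℓ = ℓ' ∧ t = t'
  hub : ∀ j ℓ t, 1 ≤ ℓ → ℓ ≤ m → col j ℓ t ∈ Set.range ι ∧ cel (col j ℓ t) j ∉ U0
  tg : ∀ j ℓ t, ℓ < m → TG D j (col j (ℓ + 1) t) (col j ℓ t) (col j ℓ (sh h0 ℓ t))
  pg : ∀ j t, m < h0 → PG D j (col j m t) (col j m (sh h0 m t))
  loc : ∀ ℓ, 1 ≤ ℓ → ℓ ≤ m → ∀ x i, (#{j ∈ D.B x | ∃ t, col j ℓ t = i} : ℝ) ≤ b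
  glob : ∀ ℓ ≤ m, ∀ i, (#{τ : J × Fin (2 ^ h0) | col τ.1 ℓ τ.2 = i} : ℝ) ≤
    b * Fintype.card J / D.n
  cong : ∀ ℓ < m, ∀ d ≤ h, ∀ v,
    (#{τ : J × Fin (2 ^ h0) | mix d (π (col τ.1 (ℓ + 1) τ.2)) (π (col τ.1 ℓ τ.2)) = v} : ℝ) +
      #{τ : J × Fin (2 ^ h0) |
        mix d (π (col τ.1 (ℓ + 1) τ.2)) (π (col τ.1 ℓ (sh h0 ℓ τ.2))) = v} ≤
      18 * (b * Fintype.card J / D.n)

theorem colour_t0 (D : Des I J X) (hn : 100 ≤ D.n) {U0 : Finset (Ln I J X)} {t0 : ℝ}
    (hU0 : Sparse D U0 t0) : 0 ≤ t0 := by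
  have : 0 < Fintype.card J := lt_of_lt_of_le (by omega) D.n_le_c
  obtain ⟨j⟩ := Fintype.card_pos_iff.1 this
  exact le_trans (by positivity) (hU0.cJ j)

theorem colour_zero (D : Des I J X) (hn : 100 ≤ D.n) (h h0 : ℕ) (hh0 : 1 ≤ h0)
    (ι : Cube h ↪ I) (π : I → Cube h) (hπ : ∀ v, π (ι v) = v)
    (hr : Fintype.card I ≤ 2 * 2 ^ h) (Z U0 : Finset (Ln I J X)) (hZ : Z ⊆ U0) (t0 b L : ℝ)
    (hU0 : Sparse D U0 t0) (hz : ∀ j, 2 * cJ Z j ≤ 2 ^ h0)
    (hsm : t0 + (h0 + 1) * 2 ^ h0 + 200 ≤ D.n / 4) (hL : (D.n : ℝ) ^ 6 ≤ Real.exp L)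
    (hb : 8 * 2 ^ h0 + 2 * t0 + 2 * L ≤ b) :
    ∃ zp col, ColInv D h0 ι π Z U0 b zp 0 col := by
  classical
  obtain ⟨zp, pre, hpre1, hpre2⟩ := colour_pre h0 Z hz
  have ht0 := colour_t0 D hn hU0
  have hn0 : (0 : ℝ) < D.n := by exact_mod_cast (by omega : 0 < D.n)
  obtain ⟨c, hc1, -, hc3, hc4, -, hc6, -⟩ := colour_layer D hn ι π hπ hr (sh h0 0) pre
    (fun j _ => {i | cel i j ∈ U0}) (fun _ => fun _ => false) (fun _ => fun _ => false)
    (Fintype.card (J × Fin (2 ^ h0))) L hL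
    (by
      intro j t
      have h1 := hU0.cJ j
      have h2 : (0 : ℝ) ≤ h0 * 2 ^ h0 := by positivity
      simp only [cJ] at h1
      simp only [Fintype.card_fin, Nat.cast_pow, Nat.cast_ofNat]
      linarith)
    (fun j t t' i h1 h2 => (hpre2 j t i h1).2.1.symm.trans (hpre2 j t' i h2).2.1)
    (fun j t t' i h1 => by simpa using hZ (hpre2 j t i h1).1)
    (by
      intro j t
      rcases h1 : pre j t with _ | i
      · exact Or.inl rfl
      · rcases h2 : pre j (sh h0 0 t) with _ | i'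
        · exact Or.inr rfl
        · exact absurd ((hpre2 j _ _ h2).2.2.trans (hpre2 j _ _ h1).2.2.symm) (sh_parity hh0 t))
    (fun v => by exact_mod_cast card_le_univ _) (fun v => by exact_mod_cast card_le_univ _)
  refine ⟨zp, fun j _ t => c (j, t), ?_, ?_, ?_, ?_, ?_, ?_, ?_, ?_⟩
  · intro j i hi
    exact hc1 (j, zp j i) i (hpre1 j i hi)
  · intro j ℓ t ℓ' t' h1 h2 he
    exact ⟨by omega, hc3 j t t' he⟩
  · intro j ℓ t h1 h2
    omega
  · intro j ℓ t h1
    omega
  · intro j t h1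
    exact hc4 j t (sh_ne h1 t)
  · intro ℓ h1 h2
    omega
  · intro ℓ _ i
    have h1 : #{τ : J × Fin (2 ^ h0) | c (τ.1, τ.2) = i} ≤
        #{τ : J × Fin (2 ^ h0) | pre τ.1 τ.2 = none ∧ c τ = i} +
          #{τ : J × Fin (2 ^ h0) | pre τ.1 τ.2 = some i} := by
      refine le_trans (card_le_card ?_) (card_union_le _ _)
      intro τ hτ
      simp only [mem_filter, mem_univ, true_and, mem_union] at hτ ⊢
      rcases hp : pre τ.1 τ.2 with _ | i'
      · exact Or.inl ⟨rfl, hτ⟩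
      · right
        rw [← hc1 τ i' hp, ← hτ]
    have h2 : #{τ : J × Fin (2 ^ h0) | pre τ.1 τ.2 = some i} ≤ cI U0 i := by
      apply card_le_card_of_injOn (fun τ => τ.1)
      · intro τ hτ
        simp only [coe_filter, mem_univ, true_and, Set.mem_ofPred_eq] at hτ ⊢
        exact hZ (hpre2 _ _ _ hτ).1
      · intro τ hτ τ' hτ' he
        simp only [coe_filter, mem_univ, true_and, Set.mem_ofPred_eq] at hτ hτ' he
        refine Prod.ext he ?_
        rw [← (hpre2 _ _ _ hτ).2.1, ← (hpre2 _ _ _ hτ').2.1, he]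
    have h3 := D.cI_le (by omega) ht0 hU0.cN i
    have h4 := hc6 i
    have h5 : (#{τ : J × Fin (2 ^ h0) | c (τ.1, τ.2) = i} : ℝ) ≤
        #{τ : J × Fin (2 ^ h0) | pre τ.1 τ.2 = none ∧ c τ = i} + cI U0 i := by
      exact_mod_cast h1.trans (Nat.add_le_add_left h2 _)
    simp only [Fintype.card_fin, Nat.cast_pow, Nat.cast_ofNat] at h4
    have h6 : (8 * 2 ^ h0 + 2 * L) * (Fintype.card J : ℝ) / D.n + 2 * t0 * Fintype.card J / D.n ≤
        b * Fintype.card J / D.n := by
      rw [← add_div, ← add_mul]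
      gcongr
      linarith
    linarith
  · intro ℓ h1
    omega

theorem colour_succ (D : Des I J X) (hn : 100 ≤ D.n) (h h0 : ℕ)
    (ι : Cube h ↪ I) (π : I → Cube h) (hfib : ∀ v, #{i | π i = v} ≤ 2) (hπ : ∀ v, π (ι v) = v)
    (hr : Fintype.card I ≤ 2 * 2 ^ h) (Z U0 : Finset (Ln I J X)) (t0 b L : ℝ)
    (hU0 : Sparse D U0 t0)
    (hsm : t0 + (h0 + 1) * 2 ^ h0 + 200 ≤ D.n / 4) (hL : (D.n : ℝ) ^ 6 ≤ Real.exp L)
    (hb : 8 * 2 ^ h0 + 2 * t0 + 2 * L ≤ b) (zp : J → I → Fin (2 ^ h0)) (m : ℕ) (hm : m < h0)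
    (col : J → ℕ → Fin (2 ^ h0) → I) (H : ColInv D h0 ι π Z U0 b zp m col) :
    ∃ col', ColInv D h0 ι π Z U0 b zp (m + 1) col' := by
  classical
  have ht0 := colour_t0 D hn hU0
  have hL0 := colour_L_nonneg D hn hL
  have hn0 : (0 : ℝ) < D.n := by exact_mod_cast (by omega : 0 < D.n)
  have hnc : (D.n : ℝ) ≤ Fintype.card J := by exact_mod_cast D.n_le_c
  have hW : (0 : ℝ) < 2 ^ h0 := by positivity
  have hb0 : 0 ≤ b := by linarith
  have hbM : b ≤ b * Fintype.card J / D.n := by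
    rw [le_div_iff₀ hn0]
    exact mul_le_mul_of_nonneg_left hnc hb0
  obtain ⟨c, -, hc2, hc3, hc4, hc5, hc6, hc7⟩ := colour_layer D hn ι π hπ hr (sh h0 (m + 1))
    (fun _ _ => none)
    (fun j t => univ.filter (fun i => cel i j ∈ U0) ∪
      univ.image (fun p : Fin (m + 1) × Fin (2 ^ h0) => col j p.1 p.2) ∪
      univ.filter (fun k => ¬ TG D j (col j m t) (col j m (sh h0 m t)) k))
    (fun τ => π (col τ.1 m τ.2)) (fun τ => π (col τ.1 m (sh h0 m τ.2)))
    (2 * (b * Fintype.card J / D.n)) L hL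
    (by
      intro j t
      have h1 := hU0.cJ j
      have h2 := D.bad_tg hn (H.pg j t hm)
      have h3 : #(univ.image (fun p : Fin (m + 1) × Fin (2 ^ h0) => col j p.1 p.2)) ≤
          (m + 1) * 2 ^ h0 := card_image_le.trans (by simp)
      have h4 : #(univ.filter (fun i => cel i j ∈ U0) ∪
          univ.image (fun p : Fin (m + 1) × Fin (2 ^ h0) => col j p.1 p.2) ∪
          univ.filter (fun k => ¬ TG D j (col j m t) (col j m (sh h0 m t)) k)) ≤
          cJ U0 j + h0 * 2 ^ h0 + 108 := by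
        refine (card_union_le _ _).trans (Nat.add_le_add ((card_union_le _ _).trans
          (Nat.add_le_add le_rfl (h3.trans (Nat.mul_le_mul_right _ hm)))) ?_)
        convert h2
      have h5 : (#(univ.filter (fun i => cel i j ∈ U0) ∪
          univ.image (fun p : Fin (m + 1) × Fin (2 ^ h0) => col j p.1 p.2) ∪
          univ.filter (fun k => ¬ TG D j (col j m t) (col j m (sh h0 m t)) k)) : ℝ) ≤
          cJ U0 j + h0 * 2 ^ h0 + 108 := by exact_mod_cast h4
      simp only [Fintype.card_fin, Nat.cast_pow, Nat.cast_ofNat]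
      linarith)
    (fun j t t' i h1 _ => by simp at h1) (fun j t t' i h1 => by simp at h1)
    (fun _ _ => Or.inl rfl)
    (colour_fib π hfib (fun τ : J × Fin (2 ^ h0) => col τ.1 m τ.2) _ (by positivity)
      (H.glob m le_rfl))
    (colour_fib π hfib (fun τ : J × Fin (2 ^ h0) => col τ.1 m (sh h0 m τ.2)) _ (by positivity)
      (by
        intro i
        refine le_trans (le_of_eq ?_) (H.glob m le_rfl i)
        congr 1
        apply card_equiv (Equiv.prodCongr (Equiv.refl J) (sh h0 m))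
        intro τ
        simp))
  simp only [true_and, forall_const, mem_union, mem_filter, mem_univ, mem_image, not_or,
    not_exists, not_not, Fintype.card_fin, Nat.cast_pow, Nat.cast_ofNat] at hc2 hc5 hc6 hc7
  have hnew : ∀ j ℓ t t', ℓ ≤ m → col j ℓ t ≠ c (j, t') := fun j ℓ t t' hℓ =>
    (hc2 (j, t')).2.1.2 (⟨ℓ, by omega⟩, t)
  refine ⟨fun j ℓ t => if ℓ = m + 1 then c (j, t) else col j ℓ t, ?_, ?_, ?_, ?_, ?_, ?_, ?_, ?_⟩
  · intro j i hi
    simpa using H.base j i hi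
  · intro j ℓ t ℓ' t' h1 h2 he
    by_cases e1 : ℓ = m + 1 <;> by_cases e2 : ℓ' = m + 1 <;> simp only [e1, e2, if_true, if_false] at he
    · exact ⟨by omega, hc3 j t t' he⟩
    · exact absurd he.symm (hnew j ℓ' t' t (by omega))
    · exact absurd he (hnew j ℓ t t' (by omega))
    · exact H.inj j ℓ t ℓ' t' (by omega) (by omega) he
  · intro j ℓ t h1 h2
    by_cases e1 : ℓ = m + 1 <;> simp only [e1, if_true, if_false]
    · exact ⟨(hc2 (j, t)).1, (hc2 (j, t)).2.1.1⟩
    · exact H.hub j ℓ t h1 (by omega)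
  · intro j ℓ t h1
    have e0 : ℓ ≠ m + 1 := by omega
    by_cases e1 : ℓ = m
    · subst e1
      simp only [e0, if_true, if_false]
      exact D.tg_swap12 (D.tg_swap23 (hc2 (j, t)).2.2)
    · have e2 : ℓ + 1 ≠ m + 1 := by omega
      simp only [e0, e2, if_false]
      exact H.tg j ℓ t (by omega)
  · intro j t h1
    simp only [if_true]
    exact hc4 j t (sh_ne h1 t)
  · intro ℓ h1 h2 x i
    by_cases e1 : ℓ = m + 1 <;> simp only [e1, if_true, if_false]
    · have h3 : #{j ∈ D.B x | ∃ t, c (j, t) = i} ≤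
          #{τ : J × Fin (2 ^ h0) | τ.1 ∈ D.B x ∧ c τ = i} := by
        refine le_trans (card_le_card ?_) (card_image_le (f := Prod.fst))
        intro j hj
        simp only [mem_filter, mem_image, mem_univ, true_and] at hj ⊢
        obtain ⟨hj, t, ht⟩ := hj
        exact ⟨(j, t), ⟨hj, ht⟩, rfl⟩
      have h4 : (#{j ∈ D.B x | ∃ t, c (j, t) = i} : ℝ) ≤
          #{τ : J × Fin (2 ^ h0) | τ.1 ∈ D.B x ∧ c τ = i} := by exact_mod_cast h3
      have h5 := hc5 x i
      linarith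
    · exact H.loc ℓ h1 (by omega) x i
  · intro ℓ h1 i
    by_cases e1 : ℓ = m + 1 <;> simp only [e1, if_true, if_false]
    · refine (hc6 i).trans ?_
      gcongr
      linarith
    · exact H.glob ℓ (by omega) i
  · intro ℓ h1 d hd v
    have e0 : ℓ ≠ m + 1 := by omega
    by_cases e1 : ℓ = m
    · subst e1
      simp only [e0, if_true, if_false]
      refine (hc7 d hd v).trans ?_
      linarith
    · have e2 : ℓ + 1 ≠ m + 1 := by omega
      simp only [e0, e2, if_false]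
      exact H.cong ℓ (by omega) d hd v

theorem colour_phase (D : Des I J X) (hn : 100 ≤ D.n) (h h0 : ℕ) (hh0 : 1 ≤ h0)
    (ι : Cube h ↪ I) (π : I → Cube h) (hfib : ∀ v, #{i | π i = v} ≤ 2)
    (hπ : ∀ v, π (ι v) = v)
    (hr : Fintype.card I ≤ 2 * 2 ^ h) (Z U0 : Finset (Ln I J X)) (hZ : Z ⊆ U0) (t0 b L : ℝ)
    (hU0 : Sparse D U0 t0) (hz : ∀ j, 2 * cJ Z j ≤ 2 ^ h0)
    (hsm : t0 + (h0 + 1) * 2 ^ h0 + 200 ≤ D.n / 4) (hL : (D.n : ℝ) ^ 6 ≤ Real.exp L)
    (hb : 8 * 2 ^ h0 + 2 * t0 + 2 * L ≤ b) :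
    ∃ (col : J → ℕ → Fin (2 ^ h0) → I) (zp : J → I → Fin (2 ^ h0)),
      (∀ j i, cel i j ∈ Z → col j 0 (zp j i) = i) ∧
      (∀ j ℓ t ℓ' t', ℓ ≤ h0 → ℓ' ≤ h0 → col j ℓ t = col j ℓ' t' → ℓ = ℓ' ∧ t = t') ∧
      (∀ j ℓ t, 1 ≤ ℓ → ℓ ≤ h0 → col j ℓ t ∈ Set.range ι ∧ cel (col j ℓ t) j ∉ U0) ∧
      (∀ j ℓ t, ℓ < h0 → TG D j (col j (ℓ + 1) t) (col j ℓ t) (col j ℓ (sh h0 ℓ t))) ∧
      (∀ x i, (#{j ∈ D.B x | ∃ p : Fin h0 × Fin (2 ^ h0), col j (p.1 + 1) p.2 = i} : ℝ) ≤
        h0 * b) ∧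
      (∀ i, (#{p : J × Fin (h0 + 1) × Fin (2 ^ h0) | col p.1 p.2.1 p.2.2 = i} : ℝ) ≤
        (h0 + 1) * (b * Fintype.card J / D.n)) ∧
      (∀ d ≤ h, ∀ v, (#{p : (J × Fin h0 × Fin (2 ^ h0)) × Bool |
        mix d (π (col p.1.1 (p.1.2.1 + 1) p.1.2.2))
          (π (col p.1.1 p.1.2.1 (if p.2 then sh h0 p.1.2.1 p.1.2.2 else p.1.2.2))) = v} : ℝ) ≤
        18 * h0 * (b * Fintype.card J / D.n)) := by
  classical
  obtain ⟨zp, col0, H0⟩ := colour_zero D hn h h0 hh0 ι π hπ hr Z U0 hZ t0 b L hU0 hz hsm hL hb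
  have hind : ∀ m ≤ h0, ∃ col, ColInv D h0 ι π Z U0 b zp m col := by
    intro m
    induction m with
    | zero => exact fun _ => ⟨col0, H0⟩
    | succ m ih =>
      intro hm
      obtain ⟨col, H⟩ := ih (by omega)
      exact colour_succ D hn h h0 ι π hfib hπ hr Z U0 t0 b L hU0 hsm hL hb zp m (by omega) col H
  obtain ⟨col, H⟩ := hind h0 le_rfl
  refine ⟨col, zp, H.base, H.inj, H.hub, H.tg, ?_, ?_, ?_⟩
  · intro x i
    have h1 : #{j ∈ D.B x | ∃ p : Fin h0 × Fin (2 ^ h0), col j (p.1 + 1) p.2 = i} ≤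
        ∑ ℓ : Fin h0, #{j ∈ D.B x | ∃ t, col j (ℓ + 1) t = i} := by
      refine le_trans (card_le_card ?_) card_biUnion_le
      intro j hj
      simp only [mem_filter, mem_biUnion, mem_univ, true_and] at hj ⊢
      obtain ⟨hj, p, hp⟩ := hj
      exact ⟨p.1, hj, p.2, hp⟩
    calc _ ≤ ∑ ℓ : Fin h0, (#{j ∈ D.B x | ∃ t, col j (ℓ + 1) t = i} : ℝ) := by exact_mod_cast h1
      _ ≤ ∑ ℓ : Fin h0, b := sum_le_sum fun ℓ _ => H.loc _ (by omega) (by omega) x i
      _ = h0 * b := by simp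
  · intro i
    have h1 : (#{p : J × Fin (h0 + 1) × Fin (2 ^ h0) | col p.1 p.2.1 p.2.2 = i} : ℝ) =
        ∑ ℓ : Fin (h0 + 1), (#{τ : J × Fin (2 ^ h0) | col τ.1 ℓ τ.2 = i} : ℝ) := by
      simp only [← sum_boole, Fintype.sum_prod_type]
      rw [sum_comm]
    calc _ = _ := h1
      _ ≤ ∑ ℓ : Fin (h0 + 1), b * Fintype.card J / D.n :=
          sum_le_sum fun ℓ _ => H.glob _ (by omega) i
      _ = (h0 + 1) * (b * Fintype.card J / D.n) := by simp
  · intro d hd v
    have h1 : (#{p : (J × Fin h0 × Fin (2 ^ h0)) × Bool |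
        mix d (π (col p.1.1 (p.1.2.1 + 1) p.1.2.2))
          (π (col p.1.1 p.1.2.1 (if p.2 then sh h0 p.1.2.1 p.1.2.2 else p.1.2.2))) = v} : ℝ) =
        ∑ ℓ : Fin h0, ((#{τ : J × Fin (2 ^ h0) |
          mix d (π (col τ.1 (ℓ + 1) τ.2)) (π (col τ.1 ℓ τ.2)) = v} : ℝ) +
          #{τ : J × Fin (2 ^ h0) |
            mix d (π (col τ.1 (ℓ + 1) τ.2)) (π (col τ.1 ℓ (sh h0 ℓ τ.2))) = v}) := by
      simp only [← sum_boole, Fintype.sum_prod_type, Fintype.sum_bool, if_true,
        Bool.false_eq_true, if_false, ← sum_add_distrib]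
      rw [sum_comm]
      refine sum_congr rfl fun ℓ _ => sum_congr rfl fun j _ => sum_congr rfl fun t _ => ?_
      rw [add_comm]
    calc _ = _ := h1
      _ ≤ ∑ ℓ : Fin h0, 18 * (b * Fintype.card J / D.n) :=
          sum_le_sum fun ℓ _ => H.cong _ ℓ.2 d hd v
      _ = 18 * h0 * (b * Fintype.card J / D.n) := by
          simp only [sum_const, card_univ, Fintype.card_fin, nsmul_eq_mul]
          ring

end Pool.Agent.Lib.MP_9dc2ba_co.Large
end

-- part Pool.Agent.Lib.MP_9dc2ba_co.Large.Main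
section

/-!
The main phase: a fractional triangle decomposition is rounded, symbol by symbol, to a family of
disjoint triangles which leaves few lines uncovered.  The choice is guided by a potential function.
-/

open Finset

set_option linter.unusedSectionVars false

namespace Pool.Agent.Lib.MP_9dc2ba_co.Large

variable {I J X : Type*} [Fintype I] [Fintype J] [Fintype X] [DecidableEq I] [DecidableEq J]
  [DecidableEq X]

namespace Main

/-- The indicator of a row or a column. -/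
def ind : I ⊕ J → I × J → ℝ
  | Sum.inl i, p => if p.1 = i then 1 else 0
  | Sum.inr j, p => if p.2 = j then 1 else 0

/-- A set of cells with at most one cell in every row and column. -/
def Mt (z : Finset (I × J)) : Prop := ∀ p ∈ z, ∀ q ∈ z, p.1 = q.1 ∨ p.2 = q.2 → p = q

theorem ind_cases (l : I ⊕ J) (p : I × J) : ind l p = 0 ∨ ind l p = 1 := by
  rcases l with i | j <;> simp only [ind] <;> split_ifs <;> simp

theorem ind_nonneg (l : I ⊕ J) (p : I × J) : 0 ≤ ind l p := by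
  rcases ind_cases l p with h | h <;> simp [h]

theorem ind_le_one (l : I ⊕ J) (p : I × J) : ind l p ≤ 1 := by
  rcases ind_cases l p with h | h <;> simp [h]

theorem ind_single {z : Finset (I × J)} (hz : Mt z) (l : I ⊕ J) {p q : I × J} (hp : p ∈ z)
    (hq : q ∈ z) (h : ind l p ≠ 0) (h' : ind l q ≠ 0) : p = q := by
  apply hz p hp q hq
  rcases l with i | j
  · left
    simp only [ind, ne_eq, ite_eq_right_iff, one_ne_zero, imp_false, not_not] at h h'
    rw [h, h']
  · right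
    simp only [ind, ne_eq, ite_eq_right_iff, one_ne_zero, imp_false, not_not] at h h'
    rw [h, h']

theorem sum_ind_inl (i : I) (f : I × J → ℝ) :
    ∑ p, ind (Sum.inl i) p * f p = ∑ j, f (i, j) := by
  rw [Fintype.sum_prod_type, sum_comm]
  simp [ind]

theorem sum_ind_inr (j : J) (f : I × J → ℝ) :
    ∑ p, ind (Sum.inr j) p * f p = ∑ i, f (i, j) := by
  rw [Fintype.sum_prod_type]
  simp [ind]

theorem exp_single {P : Type*} (z : Finset P) (f : P → ℝ)
    (h : ∀ p ∈ z, ∀ q ∈ z, f p ≠ 0 → f q ≠ 0 → p = q) :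
    Real.exp (∑ p ∈ z, f p) = 1 + ∑ p ∈ z, (Real.exp (f p) - 1) := by
  by_cases hex : ∃ p ∈ z, f p ≠ 0
  · obtain ⟨p, hp, hfp⟩ := hex
    have h0 : ∀ q ∈ z, q ≠ p → f q = 0 := fun q hq hne => by
      by_contra hh
      exact hne (h q hq p hp hh hfp)
    rw [sum_eq_single_of_mem p hp h0, sum_eq_single_of_mem p hp fun q hq hne => by
      simp [h0 q hq hne]]
    ring
  · push Not at hex
    rw [sum_eq_zero hex, sum_eq_zero fun q hq => by simp [hex q hq]]
    simp

/-- `exp (Δ z)` is bounded by an affine function of the matching `z` whose value at the fractional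
matching `u` is at most one. -/
def Aff (u : I × J → ℝ) (Δ : Finset (I × J) → ℝ) : Prop :=
  ∃ (α : ℝ) (β : I × J → ℝ),
    (∀ z, Mt z → (∀ p ∈ z, u p ≠ 0) → Real.exp (Δ z) ≤ α + ∑ p ∈ z, β p) ∧
      α + ∑ p, β p * u p ≤ 1

theorem Aff.mono {u : I × J → ℝ} {Δ Δ' : Finset (I × J) → ℝ} (h : Aff u Δ')
    (hle : ∀ z, Mt z → (∀ p ∈ z, u p ≠ 0) → Δ z ≤ Δ' z) : Aff u Δ := by
  obtain ⟨α, β, h1, h2⟩ := h
  exact ⟨α, β, fun z hz hu => (Real.exp_le_exp.2 (hle z hz hu)).trans (h1 z hz hu), h2⟩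

theorem aff_zero (u : I × J → ℝ) : Aff u fun _ => 0 :=
  ⟨1, fun _ => 0, fun _ _ _ => by simp, by simp⟩

theorem aff_mart (u k : I × J → ℝ) (t v : ℝ) (l : I ⊕ J) (h0 : ∀ p, 0 ≤ u p)
    (hk : ∀ p, k p ≠ 0 → ind l p ≠ 0) (ht : ∀ p, |t * k p| ≤ 1)
    (hv : ∑ p, u p * k p ^ 2 ≤ v) :
    Aff u fun z => t * (∑ p, u p * k p - ∑ p ∈ z, k p) - t ^ 2 * v := by
  set α := Real.exp (t * ∑ p, u p * k p - t ^ 2 * v) with hα
  refine ⟨α, fun p => α * (Real.exp (-(t * k p)) - 1), fun z hz _ => ?_, ?_⟩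
  · have e1 : t * (∑ p, u p * k p - ∑ p ∈ z, k p) - t ^ 2 * v =
        (t * ∑ p, u p * k p - t ^ 2 * v) + ∑ p ∈ z, -(t * k p) := by
      rw [sum_neg_distrib, ← mul_sum]
      ring
    beta_reduce
    rw [e1, Real.exp_add, exp_single, ← hα, ← mul_sum, mul_add, mul_one]
    intro p hp q hq h h'
    exact ind_single hz l hp hq (hk p fun hh => h (by simp [hh])) (hk q fun hh => h' (by simp [hh]))
  · have e1 : ∑ p, (Real.exp (-(t * k p)) - 1) * u p ≤ -(t * ∑ p, u p * k p) + t ^ 2 * v := by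
      have e2 : ∑ p, (Real.exp (-(t * k p)) - 1) * u p ≤
          ∑ p, (-(t * (u p * k p)) + t ^ 2 * (u p * k p ^ 2)) := by
        refine sum_le_sum fun p _ => ?_
        have := (abs_le.1 (Real.abs_exp_sub_one_sub_id_le (x := -(t * k p))
          (by rw [abs_neg]; exact ht p))).2
        nlinarith [h0 p]
      rw [sum_add_distrib, sum_neg_distrib, ← mul_sum, ← mul_sum] at e2
      nlinarith [sq_nonneg t]
    have e3 := Real.add_one_le_exp (-(t * ∑ p, u p * k p) + t ^ 2 * v)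
    have e4 : α * Real.exp (-(t * ∑ p, u p * k p) + t ^ 2 * v) = 1 := by
      rw [hα, ← Real.exp_add]
      simp
    have e5 : 0 < α := Real.exp_pos _
    simp only [mul_assoc, ← mul_sum]
    nlinarith

theorem aff_unc (u : I × J → ℝ) (l : I ⊕ J) (δ : ℝ) (hδ : 0 ≤ δ)
    (h : 1 - δ ≤ ∑ p, ind l p * u p) : Aff u fun z => 1 - ∑ p ∈ z, ind l p - 2 * δ := by
  set α := Real.exp (1 - 2 * δ) with hα
  refine ⟨α, fun p => α * (Real.exp (-ind l p) - 1), fun z hz _ => ?_, ?_⟩
  · have e1 : 1 - ∑ p ∈ z, ind l p - 2 * δ = (1 - 2 * δ) + ∑ p ∈ z, -ind l p := by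
      rw [sum_neg_distrib]
      ring
    beta_reduce
    rw [e1, Real.exp_add, exp_single, ← hα, ← mul_sum, mul_add, mul_one]
    intro p hp q hq h h'
    exact ind_single hz l hp hq (neg_ne_zero.1 h) (neg_ne_zero.1 h')
  · have e1 : ∑ p, α * (Real.exp (-ind l p) - 1) * u p =
        α * (Real.exp (-1) - 1) * ∑ p, ind l p * u p := by
      rw [mul_sum]
      refine sum_congr rfl fun p _ => ?_
      rcases ind_cases l p with h | h <;> simp [h]
    have e2 : α = Real.exp (-(2 * δ)) * Real.exp 1 := by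
      rw [hα, ← Real.exp_add]
      congr 1
      ring
    have e3 : Real.exp 1 * Real.exp (-1) = 1 := by
      rw [← Real.exp_add]
      simp
    have e4 : Real.exp (-(2 * δ)) * Real.exp (2 * δ) = 1 := by
      rw [← Real.exp_add]
      simp
    have e5 := Real.add_one_le_exp (2 * δ)
    have e6 := Real.add_one_le_exp (1 : ℝ)
    have e7 : Real.exp 1 ≤ 3 := Real.exp_one_lt_three.le
    have e8 := Real.exp_pos (-(2 * δ))
    set ρ := ∑ p, ind l p * u p
    have e9 : α + α * (Real.exp (-1) - 1) * ρ =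
        Real.exp (-(2 * δ)) * (1 + (Real.exp 1 - 1) * (1 - ρ)) := by
      rw [e2]
      linear_combination (Real.exp (-(2 * δ)) * ρ) * e3
    have e10 : (Real.exp 1 - 1) * (1 - ρ) ≤ 2 * δ := by nlinarith
    rw [e1, e9]
    nlinarith

theorem aff_round {K : Type*} [Fintype K] (u : I × J → ℝ) (h0 : ∀ p, 0 ≤ u p)
    (hl : ∀ l, ∑ p, ind l p * u p ≤ 1) (c : K → ℝ) (F : Finset (I × J) → K → ℝ)
    (h : ∀ κ, Aff u fun z => F z κ - c κ) :
    ∃ z, Mt z ∧ (∀ p ∈ z, u p ≠ 0) ∧ ∑ p, u p < #z + 1 ∧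
      ∑ κ, Real.exp (F z κ) ≤ ∑ κ, Real.exp (c κ) := by
  choose α β h1 h2 using h
  obtain ⟨z, hz1, hz2, hz3, hz4⟩ := round_matching (fun a b => u (a, b))
    (fun a b => ∑ κ, Real.exp (c κ) * β κ (a, b)) (fun a b => h0 _)
    (fun a => by simpa only [sum_ind_inl] using hl (Sum.inl a))
    (fun b => by simpa only [sum_ind_inr] using hl (Sum.inr b))
  refine ⟨z, hz2, hz1, by rwa [Fintype.sum_prod_type], ?_⟩
  rw [← Fintype.sum_prod_type'] at hz4
  simp only [Prod.mk.eta, sum_mul] at hz4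
  rw [sum_comm, sum_comm (s := univ) (t := univ)] at hz4
  calc ∑ κ, Real.exp (F z κ)
      ≤ ∑ κ, (Real.exp (c κ) * α κ + ∑ p ∈ z, Real.exp (c κ) * β κ p) := by
        refine sum_le_sum fun κ _ => ?_
        have e1 : F z κ = c κ + (F z κ - c κ) := by ring
        rw [e1, Real.exp_add, ← mul_sum, ← mul_add]
        exact mul_le_mul_of_nonneg_left (h1 κ z hz2 hz1) (Real.exp_pos _).le
    _ ≤ ∑ κ, (Real.exp (c κ) * α κ + ∑ p, Real.exp (c κ) * β κ p * u p) := by
        rw [sum_add_distrib, sum_add_distrib]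
        linarith
    _ ≤ ∑ κ, Real.exp (c κ) := by
        refine sum_le_sum fun κ _ => ?_
        simp only [mul_assoc, ← mul_sum, ← mul_add]
        exact mul_le_of_le_one_right (Real.exp_pos _).le (h2 κ)

/-- The weight of a cell which is left for the symbols outside `S`. -/
noncomputable def rem (w : I × J → X → ℝ) (S : Finset X) (p : I × J) : ℝ := 1 - ∑ x ∈ S, w p x

/-- The conditional weight of the cell `p` for the symbol `x`, given the used cells `U`. -/
noncomputable def cw (w : I × J → X → ℝ) (S : Finset X) (U : Finset (I × J)) (x : X)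
    (p : I × J) : ℝ := w p x * (if p ∈ U then 0 else 1) / rem w S p

/-- The exponents in the potential function. -/
noncomputable def ex {K : Type*} (w : I × J → X → ℝ) (g v γ : ℝ) (cond : K → X → Prop)
    [∀ κ x, Decidable (cond κ x)] (S : Finset X) (U : Finset (I × J)) (c : K → ℝ) :
    (X × (I ⊕ J)) × Bool ⊕ K → ℝ
  | Sum.inl k => (if k.2 then g else -g) *
      (∑ p, ind k.1.2 p * cw w S U k.1.1 p - ∑ p, ind k.1.2 p * w p k.1.1) -
        g ^ 2 * ∑ x ∈ S, v * ∑ p, w p x * (ind k.1.2 p * w p k.1.1)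
  | Sum.inr κ => c κ - ∑ x ∈ S, if cond κ x then γ else 0

/-- The properties of the matching chosen for the symbol `x`. -/
def Good (w : I × J → X → ℝ) (s : ℝ) (x : X) (z : Finset (I × J)) : Prop :=
  (∀ p ∈ z, w p x ≠ 0) ∧ Mt z ∧ ∃ u : I × J → ℝ, (∀ p, 0 ≤ u p) ∧
    (∀ l, ∑ p, ind l p * w p x - s ≤ ∑ p, ind l p * u p) ∧ ∑ p, u p < #z + 1

/-- The numerical assumptions. -/
structure Hyp {K : Type*} (w : I × J → X → ℝ) (s b g L δ : ℝ) (lk : K → I ⊕ J)
    (cond : K → X → Prop) : Prop where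
  hs : 0 < s
  hg : 0 < g
  hb : 0 ≤ b
  hδ : 0 ≤ δ
  w0 : ∀ p x, 0 ≤ w p x
  wb : ∀ p x, w p x ≤ b
  cell : ∀ p, ∑ x, w p x ≤ 1 - s
  line : ∀ x l, ∑ p, ind l p * w p x ≤ 1 - s
  cnd : ∀ κ x, cond κ x → 1 - δ ≤ ∑ p, ind (lk κ) p * w p x
  gb : g * b ≤ s
  gs : g * (b / s ^ 3) + L / g ≤ s

section Step

variable {K : Type*} [Fintype K] {w : I × J → X → ℝ} {s b g L δ : ℝ} {lk : K → I ⊕ J}
  {cond : K → X → Prop} [∀ κ x, Decidable (cond κ x)]

theorem Hyp.rem_ge (H : Hyp w s b g L δ lk cond) (S : Finset X) (p : I × J) : s ≤ rem w S p := by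
  have h1 : ∑ x ∈ S, w p x ≤ ∑ x, w p x :=
    sum_le_sum_of_subset_of_nonneg (subset_univ _) fun x _ _ => H.w0 p x
  have := H.cell p
  unfold rem
  linarith

theorem Hyp.cw_nonneg (H : Hyp w s b g L δ lk cond) (S : Finset X) (U : Finset (I × J)) (x : X)
    (p : I × J) : 0 ≤ cw w S U x p := by
  unfold cw
  have := H.w0 p x
  have := H.hs.le.trans (H.rem_ge S p)
  split_ifs <;> positivity

theorem Hyp.cw_le (H : Hyp w s b g L δ lk cond) (S : Finset X) (U : Finset (I × J)) (x : X)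
    (p : I × J) : cw w S U x p ≤ w p x / s := by
  unfold cw
  have h0 := H.w0 p x
  have hs := H.hs
  split_ifs
  · simp only [mul_zero, zero_div]
    positivity
  · rw [mul_one]
    exact div_le_div_of_nonneg_left h0 hs (H.rem_ge S p)

theorem Hyp.dev (H : Hyp w s b g L δ lk cond) {S : Finset X} {U : Finset (I × J)} {c : K → ℝ}
    {γ : ℝ} (h : ∀ κ, ex w g (b / s ^ 3) γ cond S U c κ < L) (x : X) (l : I ⊕ J) :
    |∑ p, ind l p * cw w S U x p - ∑ p, ind l p * w p x| ≤ s := by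
  have h1 := h (Sum.inl ((x, l), true))
  have h2 := h (Sum.inl ((x, l), false))
  simp only [ex, if_true, Bool.false_eq_true, if_false] at h1 h2
  have hv : 0 ≤ b / s ^ 3 := div_nonneg H.hb (pow_pos H.hs 3).le
  have h3 : ∑ x' ∈ S, b / s ^ 3 * ∑ p, w p x' * (ind l p * w p x) ≤ b / s ^ 3 := by
    rw [← mul_sum, sum_comm]
    apply mul_le_of_le_one_right hv
    have h4 : ∑ p, ∑ x' ∈ S, w p x' * (ind l p * w p x) ≤ ∑ p, ind l p * w p x := by
      refine sum_le_sum fun p _ => ?_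
      rw [← sum_mul]
      apply mul_le_of_le_one_left (mul_nonneg (ind_nonneg l p) (H.w0 p x))
      have := H.rem_ge S p
      have := H.hs
      unfold rem at *
      linarith
    have := H.line x l
    have := H.hs
    linarith
  have hg := H.hg
  have h5 : g ^ 2 * (b / s ^ 3) + L ≤ g * s := by
    have := mul_le_mul_of_nonneg_left H.gs hg.le
    rw [mul_add, mul_div_cancel₀ _ hg.ne'] at this
    linarith
  have h6 := mul_le_mul_of_nonneg_left h3 (sq_nonneg g)
  rw [abs_le]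
  constructor
  · apply le_of_mul_le_mul_left _ hg
    linarith
  · apply le_of_mul_le_mul_left _ hg
    linarith

theorem Hyp.shift (H : Hyp w s b g L δ lk cond) {S : Finset X} {U z : Finset (I × J)} {x' : X}
    (hx : x' ∉ S) (hz : Disjoint z U) (x : X) (l : I ⊕ J) :
    ∑ p, ind l p * cw w (insert x' S) (U ∪ z) x p - ∑ p, ind l p * cw w S U x p =
      ∑ p, cw w S U x' p * (ind l p * w p x / rem w (insert x' S) p) -
        ∑ p ∈ z, ind l p * w p x / rem w (insert x' S) p := by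
  rw [← Fintype.sum_ite_mem z, ← sum_sub_distrib, ← sum_sub_distrib]
  refine sum_congr rfl fun p _ => ?_
  have h1 : rem w (insert x' S) p ≠ 0 := (H.hs.trans_le (H.rem_ge _ p)).ne'
  have h2 : rem w S p ≠ 0 := (H.hs.trans_le (H.rem_ge _ p)).ne'
  have h3 : w p x' = rem w S p - rem w (insert x' S) p := by
    unfold rem
    rw [sum_insert hx]
    ring
  unfold cw
  rw [h3]
  by_cases hp : p ∈ z
  · have hU : p ∉ U := disjoint_left.1 hz hp
    simp only [mem_union, hp, hU, or_true, if_true, if_false]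
    field_simp
    ring
  · by_cases hU : p ∈ U
    · simp [hp, hU]
    · simp only [mem_union, hp, hU, or_self, if_false]
      field_simp
      ring

theorem Hyp.step (H : Hyp w s b g L δ lk cond) {S : Finset X} {U : Finset (I × J)} {c : K → ℝ}
    (h : ∀ κ, ex w g (b / s ^ 3) (2 * (δ + s)) cond S U c κ < L) {x' : X} (hx : x' ∉ S) :
    ∃ z, Disjoint z U ∧ Good w s x' z ∧
      ∑ κ, Real.exp (ex w g (b / s ^ 3) (2 * (δ + s)) cond (insert x' S) (U ∪ z)
        (fun κ => c κ + if cond κ x' then 1 - ∑ p ∈ z, ind (lk κ) p else 0) κ) ≤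
      ∑ κ, Real.exp (ex w g (b / s ^ 3) (2 * (δ + s)) cond S U c κ) := by
  have hs := H.hs
  have hdev := fun l => abs_le.1 (H.dev h x' l)
  have hsupp : ∀ z : Finset (I × J), (∀ p ∈ z, cw w S U x' p ≠ 0) → Disjoint z U :=
    fun z hz => disjoint_left.2 fun p hp hU => hz p hp (by simp [cw, hU])
  obtain ⟨z, hz1, hz2, hz3, hz4⟩ := aff_round (cw w S U x') (H.cw_nonneg S U x')
    (fun l => by linarith [(hdev l).2, H.line x' l])
    (ex w g (b / s ^ 3) (2 * (δ + s)) cond S U c)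
    (fun z => ex w g (b / s ^ 3) (2 * (δ + s)) cond (insert x' S) (U ∪ z)
      (fun κ => c κ + if cond κ x' then 1 - ∑ p ∈ z, ind (lk κ) p else 0)) (by
      rintro (⟨⟨x, l⟩, ε⟩ | κ)
      · have hk0 : ∀ p, 0 ≤ ind l p * w p x / rem w (insert x' S) p := fun p =>
          div_nonneg (mul_nonneg (ind_nonneg l p) (H.w0 p x)) (hs.le.trans (H.rem_ge _ p))
        have hk1 : ∀ p, ind l p * w p x / rem w (insert x' S) p ≤ ind l p * w p x / s := fun p =>
          div_le_div_of_nonneg_left (mul_nonneg (ind_nonneg l p) (H.w0 p x)) hs (H.rem_ge _ p)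
        have hk2 : ∀ p, ind l p * w p x / rem w (insert x' S) p ≤ b / s := fun p =>
          (hk1 p).trans (div_le_div_of_nonneg_right
            ((mul_le_of_le_one_left (H.w0 p x) (ind_le_one l p)).trans (H.wb p x)) hs.le)
        have ht : (if ε then g else -g) ^ 2 = g ^ 2 := by cases ε <;> simp
        refine (aff_mart (cw w S U x') (fun p => ind l p * w p x / rem w (insert x' S) p)
          (if ε then g else -g) (b / s ^ 3 * ∑ p, w p x' * (ind l p * w p x)) l
          (H.cw_nonneg S U x') (fun p hp h0 => hp (by simp [h0])) (fun p => ?_) ?_).mono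
          fun z _ hz => le_of_eq ?_
        · have h1 : |(if ε then g else -g)| = g := by cases ε <;> simp [abs_of_pos H.hg]
          rw [abs_mul, h1, abs_of_nonneg (hk0 p)]
          refine (mul_le_mul_of_nonneg_left (hk2 p) H.hg.le).trans ?_
          rw [← mul_div_assoc, div_le_one hs]
          exact H.gb
        · rw [mul_sum]
          refine sum_le_sum fun p _ => ?_
          calc cw w S U x' p * (ind l p * w p x / rem w (insert x' S) p) ^ 2
              ≤ w p x' / s * (ind l p * w p x / s * (b / s)) := by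
                rw [sq]
                exact mul_le_mul (H.cw_le S U x' p)
                  (mul_le_mul (hk1 p) (hk2 p) (hk0 p) ((hk0 p).trans (hk1 p)))
                  (mul_nonneg (hk0 p) (hk0 p)) (div_nonneg (H.w0 p x') hs.le)
            _ = _ := by
                field_simp
        · simp only [ex]
          rw [← H.shift hx (hsupp z hz) x l, sum_insert hx, ht]
          ring
      · by_cases hc : cond κ x'
        · refine (aff_unc (cw w S U x') (lk κ) (δ + s) (by linarith [H.hδ])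
            (by linarith [(hdev (lk κ)).1, H.cnd κ x' hc])).mono fun z _ _ => le_of_eq ?_
          simp only [ex]
          rw [sum_insert hx, if_pos hc, if_pos hc]
          ring
        · refine (aff_zero _).mono fun z _ _ => le_of_eq ?_
          simp only [ex]
          rw [sum_insert hx, if_neg hc, if_neg hc]
          ring)
  refine ⟨z, hsupp z hz2, ⟨fun p hp h0 => hz2 p hp (by simp [cw, h0]), hz1, cw w S U x',
    H.cw_nonneg S U x', fun l => by linarith [(hdev l).1], hz3⟩, hz4⟩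

theorem Hyp.induct (H : Hyp w s b g L δ lk cond)
    (hL : (Fintype.card ((X × (I ⊕ J)) × Bool ⊕ K) : ℝ) < Real.exp L) (S : Finset X) :
    ∃ (μ : X → Finset (I × J)) (U : Finset (I × J)), (∀ x ∈ S, μ x ⊆ U ∧ Good w s x (μ x)) ∧
      (∀ x ∈ S, ∀ x' ∈ S, x ≠ x' → Disjoint (μ x) (μ x')) ∧
      ∑ κ, Real.exp (ex w g (b / s ^ 3) (2 * (δ + s)) cond S U
        (fun κ => ∑ x ∈ S, if cond κ x then 1 - ∑ p ∈ μ x, ind (lk κ) p else 0) κ) <
        Real.exp L := by
  induction S using Finset.induction_on with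
  | empty =>
    refine ⟨fun _ => ∅, ∅, by simp, by simp, lt_of_eq_of_lt ?_ hL⟩
    rw [← card_univ, card_eq_sum_ones, Nat.cast_sum]
    refine sum_congr rfl ?_
    rintro (k | κ) _ <;> simp [ex, cw, rem]
  | insert x' S hx ih =>
    obtain ⟨μ, U, h1, h2, h3⟩ := ih
    obtain ⟨z, hz1, hz2, hz3⟩ := H.step (S := S) (U := U) (fun κ => Real.exp_lt_exp.1
      ((single_le_sum (fun κ _ => (Real.exp_pos _).le) (mem_univ κ)).trans_lt h3)) hx
    have hne : ∀ x ∈ S, Function.update μ x' z x = μ x := fun x hxS =>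
      Function.update_of_ne (ne_of_mem_of_not_mem hxS hx) _ _
    refine ⟨Function.update μ x' z, U ∪ z, ?_, ?_, lt_of_eq_of_lt ?_ (hz3.trans_lt h3)⟩
    · intro x hxS
      rcases mem_insert.1 hxS with rfl | hxS
      · rw [Function.update_self]
        exact ⟨subset_union_right, hz2⟩
      · rw [hne x hxS]
        exact ⟨(h1 x hxS).1.trans subset_union_left, (h1 x hxS).2⟩
    · intro x hxS y hyS hxy
      rcases mem_insert.1 hxS with a | a <;> rcases mem_insert.1 hyS with a' | a'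
      · exact absurd (a.trans a'.symm) hxy
      · rw [a, Function.update_self, hne y a']
        exact hz1.mono_right (h1 y a').1
      · rw [a', Function.update_self, hne x a]
        exact (hz1.mono_right (h1 x a).1).symm
      · rw [hne x a, hne y a']
        exact h2 x a y a' hxy
    · congr! 4 with κ _ κ'
      rw [sum_insert hx, Function.update_self, add_comm]
      congr 1
      exact sum_congr rfl fun x hxS => by rw [hne x hxS]

theorem Hyp.main (H : Hyp w s b g L δ lk cond)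
    (hL : (Fintype.card ((X × (I ⊕ J)) × Bool ⊕ K) : ℝ) < Real.exp L) :
    ∃ μ : X → Finset (I × J), (∀ x, Good w s x (μ x)) ∧
      (∀ x x', x ≠ x' → Disjoint (μ x) (μ x')) ∧
      ∀ κ, ∑ x with cond κ x, (1 - ∑ p ∈ μ x, ind (lk κ) p) ≤
        2 * (δ + s) * #{x | cond κ x} + L := by
  obtain ⟨μ, U, h1, h2, h3⟩ := H.induct hL univ
  refine ⟨μ, fun x => (h1 x (mem_univ x)).2, fun x x' => h2 x (mem_univ _) x' (mem_univ _),
    fun κ => ?_⟩
  have h4 := Real.exp_lt_exp.1
    ((single_le_sum (fun κ _ => (Real.exp_pos _).le) (mem_univ (Sum.inr κ))).trans_lt h3)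
  simp only [ex] at h4
  rw [← sum_filter, ← sum_filter, sum_const, nsmul_eq_mul] at h4
  linarith

end Step

theorem unc_le {α : Type*} [DecidableEq α] (f : I × J → α) (z : Finset (I × J))
    (hinj : ∀ p ∈ z, ∀ q ∈ z, f p = f q → p = q) (A : Finset α) (hA : ∀ p ∈ z, f p ∈ A)
    (u : I × J → ℝ) (h0 : ∀ p, 0 ≤ u p) (η : ℝ)
    (hu : ∀ a ∈ A, 1 - η ≤ ∑ p, (if f p = a then 1 else 0) * u p) (hz : ∑ p, u p < #z + 1)
    (B : Finset α) (hB : ∀ a ∈ B, a ∈ A ∧ ∀ p ∈ z, f p ≠ a) : (#B : ℝ) ≤ η * #A + 1 := by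
  have h1 : #B + #z ≤ #A := by
    rw [← card_image_of_injOn (s := z) (f := f) fun p hp q hq h => hinj p hp q hq h,
      ← card_union_of_disjoint]
    · apply card_le_card
      intro a ha
      rcases mem_union.1 ha with h | h
      · exact (hB a h).1
      · obtain ⟨p, hp, rfl⟩ := mem_image.1 h
        exact hA p hp
    · rw [disjoint_left]
      intro a ha h
      obtain ⟨p, hp, rfl⟩ := mem_image.1 h
      exact (hB _ ha).2 p hp rfl
  have h2 := sum_le_sum hu
  rw [sum_const, nsmul_eq_mul, sum_comm] at h2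
  have h3 : ∑ p, ∑ a ∈ A, (if f p = a then 1 else 0) * u p ≤ ∑ p, u p := by
    refine sum_le_sum fun p _ => ?_
    rw [← sum_mul, sum_ite_eq]
    split_ifs
    · rw [one_mul]
    · rw [zero_mul]
      exact h0 p
  have h4 : (#B : ℝ) + #z ≤ #A := by exact_mod_cast h1
  linarith

theorem sum_ind_le_one {z : Finset (I × J)} (hz : Mt z) (l : I ⊕ J) : ∑ p ∈ z, ind l p ≤ 1 := by
  by_cases hex : ∃ p ∈ z, ind l p ≠ 0
  · obtain ⟨p, hp, hfp⟩ := hex
    rw [sum_eq_single_of_mem p hp fun q hq hne => by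
      by_contra hh
      exact hne (ind_single hz l hq hp hh hfp)]
    exact ind_le_one l p
  · push Not at hex
    rw [sum_eq_zero hex]
    exact zero_le_one

theorem card_unc_le (μ : X → Finset (I × J)) (hμ : ∀ x, Mt (μ x)) (l : I ⊕ J) (C B : Finset X)
    (hB : ∀ x ∈ B, x ∈ C ∧ ∀ p ∈ μ x, ind l p = 0) :
    (#B : ℝ) ≤ ∑ x ∈ C, (1 - ∑ p ∈ μ x, ind l p) := by
  refine le_trans (le_of_eq ?_) (sum_le_sum_of_subset_of_nonneg (fun x hx => (hB x hx).1)
    fun x _ _ => sub_nonneg.2 (sum_ind_le_one (hμ x) l))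
  rw [card_eq_sum_ones, Nat.cast_sum]
  exact sum_congr rfl fun x hx => by simp [sum_eq_zero (hB x hx).2]

theorem count_lt (D : Des I J X) (hn : 100 ≤ D.n) :
    Fintype.card ((X × (I ⊕ J)) × Bool ⊕ (J × I ⊕ J)) < D.n ^ 6 := by
  have h1 := D.r_le (by omega)
  have h2 := D.c_le (by omega)
  have h3 := D.v_le
  simp only [Fintype.card_sum, Fintype.card_prod, Fintype.card_bool]
  set n := D.n
  set r := Fintype.card I
  set c := Fintype.card J
  set v := Fintype.card X
  have a0 : 100 * n ≤ n * n := Nat.mul_le_mul_right _ hn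
  have a1 : r ≤ n * n := by omega
  have a2 : v * (r + c) ≤ 4 * (n * n) * (3 * (n * n)) := Nat.mul_le_mul (by omega) (by omega)
  have a3 : c * r ≤ 2 * (n * n) * (n * n) := Nat.mul_le_mul h2 a1
  have a4 : 1 * (n * n) ≤ n * n * (n * n) := Nat.mul_le_mul_right _ (by omega)
  have a5 : 100 * (n * n * (n * n)) ≤ n * n * (n * n * (n * n)) :=
    Nat.mul_le_mul_right _ (by omega)
  have a6 : n ^ 6 = n * n * (n * n * (n * n)) := by ring
  have a7 : 4 * (n * n) * (3 * (n * n)) = 12 * (n * n * (n * n)) := by ring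
  have a8 : 2 * (n * n) * (n * n) = 2 * (n * n * (n * n)) := by ring
  omega

/-- The lines watched by the counters of uncovered lines. -/
def lkey : J × I ⊕ J → I ⊕ J
  | Sum.inl k => Sum.inl k.2
  | Sum.inr j => Sum.inr j

/-- The symbols watched by the counters of uncovered lines. -/
def ckey (D : Des I J X) (M : Finset (Ln I J X)) : J × I ⊕ J → X → Prop
  | Sum.inl k, x => k.1 ∈ D.B x ∧ sym x k.2 ∈ M
  | Sum.inr j, x => edg j x ∈ M

theorem hyp_of_frac (D : Des I J X) (hn : 100 ≤ D.n) (M : Finset (Ln I J X))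
    (y : I → J → X → ℝ) (σ L : ℝ) (hσ0 : 0 < σ) (hσ : σ ≤ 1 / 10)
    (hy : FracDec M y (2 / D.n) (σ / 2)) (hL : 1 ≤ L) (hnσ : 100 * L ≤ D.n * σ ^ 5) :
    Hyp (fun (p : I × J) x => (1 - 2 * σ) * y p.1 p.2 x) σ (2 / D.n) (2 * L / σ) L (5 / 2 * σ)
      lkey (ckey D M) ∧
    (∀ x i, sym x i ∈ M → 1 - 5 / 2 * σ ≤
      ∑ p : I × J, ind (Sum.inl i) p * ((1 - 2 * σ) * y p.1 p.2 x)) := by
  have hn0 : (0 : ℝ) < D.n := by exact_mod_cast (by omega : 0 < D.n)
  have up : ∀ t : ℝ, t = 0 ∨ |t - 1| ≤ σ / 2 → (1 - 2 * σ) * t ≤ 1 - σ := by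
    rintro t (h | h)
    · rw [h]
      linarith
    · nlinarith [(abs_le.1 h).2]
  have lo : ∀ t : ℝ, |t - 1| ≤ σ / 2 → 1 - 5 / 2 * σ ≤ (1 - 2 * σ) * t := by
    intro t h
    nlinarith [(abs_le.1 h).1]
  have hsym : ∀ x i, sym x i ∈ M → 1 - 5 / 2 * σ ≤
      ∑ p : I × J, ind (Sum.inl i) p * ((1 - 2 * σ) * y p.1 p.2 x) := by
    intro x i h
    rw [sum_ind_inl, ← mul_sum]
    exact lo _ (hy.sym x i h)
  have hσ2 : σ ^ 5 ≤ σ ^ 2 := pow_le_pow_of_le_one hσ0.le (by linarith) (by norm_num)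
  refine ⟨⟨hσ0, by positivity, by positivity, by positivity,
    fun p x => mul_nonneg (by linarith) (hy.nonneg _ _ _),
    fun p x => (mul_le_of_le_one_left (hy.nonneg _ _ _) (by linarith)).trans (hy.le _ _ _),
    fun p => ?_, fun x l => ?_, fun κ x h => ?_, ?_, ?_⟩, hsym⟩
  · rw [← mul_sum]
    apply up
    by_cases h : cel p.1 p.2 ∈ M
    · exact Or.inr (hy.cel _ _ h)
    · exact Or.inl (sum_eq_zero fun x _ => by
        by_contra hh
        exact h (hy.supp _ _ _ hh).1)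
  · rcases l with i | j
    · rw [sum_ind_inl, ← mul_sum]
      apply up
      by_cases h : sym x i ∈ M
      · exact Or.inr (hy.sym _ _ h)
      · exact Or.inl (sum_eq_zero fun j _ => by
          by_contra hh
          exact h (hy.supp _ _ _ hh).2.1)
    · rw [sum_ind_inr, ← mul_sum]
      apply up
      by_cases h : edg j x ∈ M
      · exact Or.inr (hy.edg _ _ h)
      · exact Or.inl (sum_eq_zero fun i _ => by
          by_contra hh
          exact h (hy.supp _ _ _ hh).2.2)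
  · rcases κ with ⟨j, i⟩ | j
    · exact hsym x i h.2
    · simp only [lkey]
      rw [sum_ind_inr, ← mul_sum]
      exact lo _ (hy.edg j x h)
  · rw [div_mul_div_comm, div_le_iff₀ (by positivity)]
    nlinarith [mul_le_mul_of_nonneg_left hσ2 hn0.le]
  · have e1 : L / (2 * L / σ) = σ / 2 := by field_simp
    have e2 : 2 * L / σ * (2 / D.n / σ ^ 3) = 4 * L / (D.n * σ ^ 4) := by
      field_simp
      ring
    have e3 : 4 * L / (D.n * σ ^ 4) ≤ σ / 2 := by
      rw [div_le_iff₀ (by positivity)]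
      nlinarith
    rw [e1, e2]
    linarith

end Main

open Main in
theorem main_phase (D : Des I J X) (hn : 100 ≤ D.n) (M : Finset (Ln I J X)) (hM : M ⊆ valid D)
    (y : I → J → X → ℝ) (σ L : ℝ) (hσ0 : 0 < σ) (hσ : σ ≤ 1 / 10)
    (hy : FracDec M y (2 / D.n) (σ / 2)) (hL : (D.n : ℝ) ^ 6 ≤ Real.exp L)
    (hnσ : 100 * L ≤ D.n * σ ^ 5) :
    ∃ S ⊆ M, DecF S ∧ (∀ x, (sX (M \ S) x : ℝ) ≤ 10 * σ * D.n) ∧
      (∀ x, (eX (M \ S) x : ℝ) ≤ 10 * σ * D.n) ∧ (∀ j, (eJ (M \ S) j : ℝ) ≤ 20 * σ * D.n) ∧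
      (∀ j i, (sN D (M \ S) j i : ℝ) ≤ 10 * σ * D.n) := by
  classical
  have hn1 : (100 : ℝ) ≤ D.n := by exact_mod_cast hn
  have hL1 : 1 ≤ L := by
    by_contra h
    have h1 := Real.exp_lt_exp.2 (not_le.1 h)
    have h2 := Real.exp_one_lt_three
    have h3 : (100 : ℝ) ^ 6 ≤ (D.n : ℝ) ^ 6 := pow_le_pow_left₀ (by norm_num) hn1 6
    norm_num at h3
    linarith
  have hLσ : 100 * L ≤ σ * D.n := by
    have : σ ^ 5 ≤ σ ^ 1 := pow_le_pow_of_le_one hσ0.le (by linarith) (by norm_num)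
    nlinarith
  obtain ⟨H, hsym⟩ := hyp_of_frac D hn M y σ L hσ0 hσ hy hL1 hnσ
  obtain ⟨μ, hg, hd, hu⟩ := H.main (lt_of_lt_of_le (by exact_mod_cast count_lt D hn) hL)
  have hsupp : ∀ x, ∀ p ∈ μ x, cel p.1 p.2 ∈ M ∧ sym x p.1 ∈ M ∧ edg p.2 x ∈ M :=
    fun x p hp => hy.supp _ _ _ (right_ne_zero_of_mul ((hg x).1 p hp))
  have hmt : ∀ x, Mt (μ x) := fun x => (hg x).2.1
  set T : Finset (I × J × X) := {t | (t.1, t.2.1) ∈ μ t.2.2} with hT
  have mT : ∀ t : I × J × X, t ∈ T ↔ (t.1, t.2.1) ∈ μ t.2.2 := fun t => by simp [hT]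
  have nsym : ∀ x i, sym x i ∉ T.biUnion triF → ∀ p ∈ μ x, p.1 ≠ i := by
    rintro x i h p hp rfl
    exact h (mem_biUnion.2 ⟨(p.1, p.2, x), (mT _).2 hp, by simp [triF]⟩)
  have nedg : ∀ x j, edg j x ∉ T.biUnion triF → ∀ p ∈ μ x, p.2 ≠ j := by
    rintro x j h p hp rfl
    exact h (mem_biUnion.2 ⟨(p.1, p.2, x), (mT _).2 hp, by simp [triF]⟩)
  refine ⟨T.biUnion triF, ?_, decF_biUnion T ?_, fun x => ?_, fun x => ?_, fun j => ?_,
    fun j i => ?_⟩
  · intro l hl
    obtain ⟨t, ht, hl⟩ := mem_biUnion.1 hl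
    have := hsupp _ _ ((mT t).1 ht)
    simp only [triF, mem_insert, mem_singleton] at hl
    rcases hl with rfl | rfl | rfl
    exacts [this.1, this.2.1, this.2.2]
  · rintro ⟨i, j, x⟩ ha ⟨i', j', x'⟩ hb hne
    rw [mT] at ha hb
    have h1 : ¬ (i = i' ∧ j = j') := by
      rintro ⟨rfl, rfl⟩
      exact disjoint_left.1 (hd x x' fun h => hne (by rw [h])) ha hb
    have h2 : ¬ (x = x' ∧ i = i') := by
      rintro ⟨rfl, rfl⟩
      exact h1 ⟨rfl, congrArg Prod.snd (hmt x _ ha _ hb (Or.inl rfl))⟩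
    have h3 : ¬ (j = j' ∧ x = x') := by
      rintro ⟨rfl, rfl⟩
      exact h1 ⟨congrArg Prod.fst (hmt x _ ha _ hb (Or.inr rfl)), rfl⟩
    rw [disjoint_left]
    intro l hl hl'
    simp only [triF, mem_insert, mem_singleton] at hl hl'
    rcases hl with rfl | rfl | rfl <;> simp at hl' <;> tauto
  · obtain ⟨u, u0, u1, u2⟩ := (hg x).2.2
    have h1 := unc_le Prod.fst (μ x) (fun p hp q hq h => hmt x p hp q hq (Or.inl h))
      {i | sym x i ∈ M} (fun p hp => by simpa using (hsupp x p hp).2.1) u u0 (7 / 2 * σ)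
      (fun i hi => by
        have a1 := u1 (Sum.inl i)
        have a2 := hsym x i (by simpa using hi)
        change _ ≤ ∑ p, ind (Sum.inl i) p * u p
        linarith) u2 {i | sym x i ∈ M \ T.biUnion triF} fun i hi => by
        simp only [mem_filter, mem_univ, true_and, mem_sdiff] at hi ⊢
        exact ⟨hi.1, nsym x i hi.2⟩
    have h2 : (#{i | sym x i ∈ M} : ℝ) ≤ D.n := by
      rw [← D.cardA x]
      exact_mod_cast card_le_card fun i hi => (sym_mem_valid D x i).1 (hM (by simpa using hi))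
    unfold sX
    nlinarith
  · obtain ⟨u, u0, u1, u2⟩ := (hg x).2.2
    have h1 := unc_le Prod.snd (μ x) (fun p hp q hq h => hmt x p hp q hq (Or.inr h))
      {j | edg j x ∈ M} (fun p hp => by simpa using (hsupp x p hp).2.2) u u0 (7 / 2 * σ)
      (fun j hj => by
        have a1 := u1 (Sum.inr j)
        have a2 := H.cnd (Sum.inr j) x (by simpa [ckey] using hj)
        change _ ≤ ∑ p, ind (Sum.inr j) p * u p
        simp only [lkey] at a2
        linarith) u2 {j | edg j x ∈ M \ T.biUnion triF} fun j hj => by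
        simp only [mem_filter, mem_univ, true_and, mem_sdiff] at hj ⊢
        exact ⟨hj.1, nedg x j hj.2⟩
    have h2 : (#{j | edg j x ∈ M} : ℝ) ≤ D.n := by
      rw [← D.cardB x]
      exact_mod_cast card_le_card fun j hj => (edg_mem_valid D j x).1 (hM (by simpa using hj))
    unfold eX
    nlinarith
  · have h1 := (card_unc_le μ hmt (Sum.inr j) {x | ckey D M (Sum.inr j) x}
      {x | edg j x ∈ M \ T.biUnion triF} fun x hx => by
        simp only [mem_filter, mem_univ, true_and, mem_sdiff] at hx ⊢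
        exact ⟨hx.1, fun p hp => if_neg (nedg x j hx.2 p hp)⟩).trans (hu (Sum.inr j))
    have h2 : (#{x | ckey D M (Sum.inr j) x} : ℝ) ≤ 2 * D.n := by
      have a1 : #{x | ckey D M (Sum.inr j) x} ≤ #{x | j ∈ D.B x} := card_le_card fun x hx => by
        simp only [mem_filter, mem_univ, true_and] at hx ⊢
        exact (edg_mem_valid D j x).1 (hM hx)
      have a2 := D.lam_lt (by omega)
      rw [D.degJ] at a1
      exact_mod_cast (by omega : #{x | ckey D M (Sum.inr j) x} ≤ 2 * D.n)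
    unfold eJ
    nlinarith
  · have h1 := (card_unc_le μ hmt (Sum.inl i) {x | ckey D M (Sum.inl (j, i)) x}
      {x | j ∈ D.B x ∧ sym x i ∈ M \ T.biUnion triF} fun x hx => by
        simp only [mem_filter, mem_univ, true_and, mem_sdiff] at hx ⊢
        exact ⟨⟨hx.1, hx.2.1⟩, fun p hp => if_neg (nsym x i hx.2.2 p hp)⟩).trans
      (hu (Sum.inl (j, i)))
    have h2 : (#{x | ckey D M (Sum.inl (j, i)) x} : ℝ) ≤ D.n := by
      rw [← D.rc i j]
      exact_mod_cast card_le_card fun x hx => by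
        simp only [mem_filter, mem_univ, true_and] at hx ⊢
        exact ⟨(sym_mem_valid D x i).1 (hM hx.2), hx.1⟩
    unfold sN
    nlinarith

end Pool.Agent.Lib.MP_9dc2ba_co.Large
end
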