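import Mathlib
import Pool.Agent.Lib.MP_9dc2ba_co.Large.Prob
import Pool.Agent.Lib.MP_9dc2ba_co.Large.Round

/-!
Fractional perfect matchings in nearly regular bipartite graphs with large codegrees, and the
third phase: all remaining symbol lines and edges are covered using cells of a reserved zone.
-/

open Finset

set_option linter.unusedSectionVars false

namespace Pool.Agent.Lib.MP_9dc2ba_co.Large

namespace P3

variable {α β : Type*}

/-- First correction term. -/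
def t1 (A : Finset α) (B : Finset β) (g h : α → β → ℝ) (p : α) (q : β) : ℝ :=
  ∑ a ∈ A, ∑ b ∈ B, g a q * g a b * h p b

/-- Second correction term. -/
def t2 (A : Finset α) (B : Finset β) (g h : α → β → ℝ) (p : α) (q : β) : ℝ :=
  ∑ a ∈ A, ∑ b ∈ B, g a q * g p b * h a b

/-- Third correction term. -/
def t3 (A : Finset α) (B : Finset β) (g h : α → β → ℝ) (p : α) (q : β) : ℝ :=
  ∑ a ∈ A, ∑ b ∈ B, g p b * g a b * h a q

/-- The number of walks of length three. -/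
def pw (A : Finset α) (B : Finset β) (g : α → β → ℝ) (p : α) (q : β) : ℝ :=
  ∑ a ∈ A, ∑ b ∈ B, g p b * g a b * g a q

variable (A : Finset α) (B : Finset β) (g h : α → β → ℝ)

theorem row_t1 (p : α) :
    ∑ q ∈ B, g p q * t1 A B g h p q = ∑ b ∈ B, h p b * pw A B g p b := by
  simp only [t1, pw, mul_sum]
  rw [sum_comm]
  conv_rhs => rw [sum_comm]
  refine sum_congr rfl fun a _ => ?_
  rw [sum_comm]
  refine sum_congr rfl fun b _ => sum_congr rfl fun q _ => by ring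

theorem row_t23 (p : α) :
    ∑ q ∈ B, g p q * t2 A B g h p q = ∑ q ∈ B, g p q * t3 A B g h p q := by
  simp only [t2, t3, mul_sum]
  rw [sum_comm]
  conv_rhs => rw [sum_comm]
  refine sum_congr rfl fun a _ => ?_
  rw [sum_comm]
  refine sum_congr rfl fun b _ => sum_congr rfl fun q _ => by ring

theorem col_t3 (q : β) :
    ∑ p ∈ A, g p q * t3 A B g h p q = ∑ a ∈ A, h a q * pw A B g a q := by
  simp only [t3, pw, mul_sum]
  rw [sum_comm]
  refine sum_congr rfl fun a _ => sum_congr rfl fun p _ => sum_congr rfl fun b _ => by ring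

theorem col_t12 (q : β) :
    ∑ p ∈ A, g p q * t1 A B g h p q = ∑ p ∈ A, g p q * t2 A B g h p q := by
  simp only [t1, t2, mul_sum]
  rw [sum_comm]
  refine sum_congr rfl fun a _ => sum_congr rfl fun p _ => sum_congr rfl fun b _ => by ring

variable {A B g h}

theorem abs_dsum_le {u : α → β → ℝ} {v : α → β → ℝ} {H C : ℝ} (hH : 0 ≤ H)
    (hu : ∀ a ∈ A, ∀ b ∈ B, 0 ≤ u a b) (hv : ∀ a ∈ A, ∀ b ∈ B, |v a b| ≤ H)
    (hC : ∑ a ∈ A, ∑ b ∈ B, u a b ≤ C) : |∑ a ∈ A, ∑ b ∈ B, u a b * v a b| ≤ C * H := by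
  calc |∑ a ∈ A, ∑ b ∈ B, u a b * v a b| ≤ ∑ a ∈ A, |∑ b ∈ B, u a b * v a b| :=
        abs_sum_le_sum_abs _ _
    _ ≤ ∑ a ∈ A, ∑ b ∈ B, u a b * H := by
        refine sum_le_sum fun a ha => (abs_sum_le_sum_abs _ _).trans (sum_le_sum fun b hb => ?_)
        rw [abs_mul, abs_of_nonneg (hu a ha b hb)]
        exact mul_le_mul_of_nonneg_left (hv a ha b hb) (hu a ha b hb)
    _ = (∑ a ∈ A, ∑ b ∈ B, u a b) * H := by simp only [sum_mul]
    _ ≤ C * H := mul_le_mul_of_nonneg_right hC hH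

theorem t_bounds {D H : ℝ} (hD : 0 ≤ D) (hH : 0 ≤ H) (hg : ∀ a b, 0 ≤ g a b)
    (hA : ∀ a ∈ A, ∑ b ∈ B, g a b ≤ D) (hB : ∀ b ∈ B, ∑ a ∈ A, g a b ≤ D)
    (hh : ∀ a ∈ A, ∀ b ∈ B, |h a b| ≤ H) {p : α} (hp : p ∈ A) {q : β} (hq : q ∈ B) :
    |t1 A B g h p q| ≤ D * D * H ∧ |t2 A B g h p q| ≤ D * D * H ∧
      |t3 A B g h p q| ≤ D * D * H := by
  refine ⟨?_, ?_, ?_⟩
  · refine abs_dsum_le (u := fun a b => g a q * g a b) (v := fun _ b => h p b) hH
      (fun a _ b _ => mul_nonneg (hg _ _) (hg _ _)) (fun _ _ b hb => hh p hp b hb) ?_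
    calc ∑ a ∈ A, ∑ b ∈ B, g a q * g a b ≤ ∑ a ∈ A, g a q * D := by
          refine sum_le_sum fun a ha => ?_
          rw [← mul_sum]
          exact mul_le_mul_of_nonneg_left (hA a ha) (hg _ _)
      _ ≤ D * D := by
          rw [← sum_mul]
          exact mul_le_mul_of_nonneg_right (hB q hq) hD
  · refine abs_dsum_le (u := fun a b => g a q * g p b) (v := fun a b => h a b) hH
      (fun a _ b _ => mul_nonneg (hg _ _) (hg _ _)) hh ?_
    calc ∑ a ∈ A, ∑ b ∈ B, g a q * g p b ≤ ∑ a ∈ A, g a q * D := by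
          refine sum_le_sum fun a _ => ?_
          rw [← mul_sum]
          exact mul_le_mul_of_nonneg_left (hA p hp) (hg _ _)
      _ ≤ D * D := by
          rw [← sum_mul]
          exact mul_le_mul_of_nonneg_right (hB q hq) hD
  · refine abs_dsum_le (u := fun a b => g p b * g a b) (v := fun a _ => h a q) hH
      (fun a _ b _ => mul_nonneg (hg _ _) (hg _ _)) (fun a ha _ _ => hh a ha q hq) ?_
    rw [sum_comm]
    calc ∑ b ∈ B, ∑ a ∈ A, g p b * g a b ≤ ∑ b ∈ B, g p b * D := by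
          refine sum_le_sum fun b hb => ?_
          rw [← mul_sum]
          exact mul_le_mul_of_nonneg_left (hB b hb) (hg _ _)
      _ ≤ D * D := by
          rw [← sum_mul]
          exact mul_le_mul_of_nonneg_right (hA p hp) hD

/-- Prescribed small row and column sums are those of a small matrix. -/
theorem exists_f (hAB : #A = #B) (hm : 0 < #A) (eA : α → ℝ) (eB : β → ℝ) {ε : ℝ}
    (hA : ∀ a ∈ A, |eA a| ≤ ε) (hB : ∀ b ∈ B, |eB b| ≤ ε)
    (hs : ∑ a ∈ A, eA a = ∑ b ∈ B, eB b) :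
    ∃ f : α → β → ℝ, (∀ a ∈ A, ∀ b ∈ B, |f a b| ≤ 3 * ε / #A) ∧
      (∀ a, ∑ b ∈ B, f a b = eA a) ∧ ∀ b, ∑ a ∈ A, f a b = eB b := by
  have hm' : (0 : ℝ) < #A := by exact_mod_cast hm
  set E := ∑ a ∈ A, eA a with hE
  have hEle : |E| ≤ #A * ε := by
    refine (abs_sum_le_sum_abs _ _).trans ?_
    calc ∑ a ∈ A, |eA a| ≤ ∑ _a ∈ A, ε := sum_le_sum hA
      _ = #A * ε := by simp
  refine ⟨fun a b => (eA a + eB b - E / #A) / #A, fun a ha b hb => ?_, fun a => ?_, fun b => ?_⟩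
  · rw [abs_div, abs_of_pos hm']
    refine div_le_div_of_nonneg_right ?_ hm'.le
    have h1 : |E / #A| ≤ ε := by
      rw [abs_div, abs_of_pos hm', div_le_iff₀ hm']
      linarith
    have h2 := abs_le.1 (hA a ha)
    have h3 := abs_le.1 (hB b hb)
    have h4 := abs_le.1 h1
    rw [abs_le]
    constructor <;> linarith [h2.1, h2.2, h3.1, h3.2, h4.1, h4.2]
  · rw [← sum_div, sum_sub_distrib, sum_add_distrib, ← hs]
    simp only [sum_const, nsmul_eq_mul, ← hAB]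
    field_simp
    ring
  · rw [← sum_div, sum_sub_distrib, sum_add_distrib, ← hE]
    simp only [sum_const, nsmul_eq_mul]
    field_simp
    ring

end P3

open P3 in
theorem frac_pm {α β : Type*} [DecidableEq α] [DecidableEq β] (A : Finset α) (B : Finset β)
    (G : α → β → Prop) [∀ a b, Decidable (G a b)] (hAB : #A = #B) (d γ : ℝ) (hd : 0 < d)
    (degA : ∀ a ∈ A, |(#{b ∈ B | G a b} : ℝ) - d| ≤ d / 200)
    (degB : ∀ b ∈ B, |(#{a ∈ A | G a b} : ℝ) - d| ≤ d / 200)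
    (cod : ∀ a ∈ A, ∀ a' ∈ A, γ ≤ #{b ∈ B | G a b ∧ G a' b}) (hγ : d ^ 2 ≤ 20 * #A * γ) :
    ∃ u : α → β → ℝ, (∀ a b, 0 ≤ u a b ∧ u a b ≤ 2 / d) ∧
      (∀ a b, u a b ≠ 0 → a ∈ A ∧ b ∈ B ∧ G a b) ∧ (∀ a ∈ A, ∑ b ∈ B, u a b = 1) ∧
      (∀ b ∈ B, ∑ a ∈ A, u a b = 1) := by
  have hd2 : 0 < d ^ 2 := by positivity
  have hm : 0 < #A := by
    rcases Nat.eq_zero_or_pos #A with h | h
    · rw [h] at hγ
      simp only [Nat.cast_zero, mul_zero, zero_mul] at hγ
      linarith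
    · exact h
  have hm' : (0 : ℝ) < #A := by exact_mod_cast hm
  have hγ0 : 0 < γ := by
    by_contra hc
    have : 20 * (#A : ℝ) * γ ≤ 0 :=
      mul_nonpos_of_nonneg_of_nonpos (by positivity) (not_lt.1 hc)
    linarith
  set g : α → β → ℝ := fun a b => if G a b then 1 else 0 with hg
  have hg0 : ∀ a b, 0 ≤ g a b := fun a b => by simp only [hg]; split_ifs <;> norm_num
  have hrow : ∀ a, ∑ b ∈ B, g a b = #{b ∈ B | G a b} := fun a => by simp [hg]
  have hcol : ∀ b, ∑ a ∈ A, g a b = #{a ∈ A | G a b} := fun b => by simp [hg]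
  have hcod : ∀ a a', ∑ b ∈ B, g a b * g a' b = #{b ∈ B | G a b ∧ G a' b} := fun a a' => by
    rw [← sum_boole]
    refine sum_congr rfl fun b _ => ?_
    simp only [hg]
    by_cases h1 : G a b <;> by_cases h2 : G a' b <;> simp [h1, h2]
  have hrA : ∀ a ∈ A, |∑ b ∈ B, g a b - d| ≤ d / 200 := fun a ha => by
    rw [hrow]; exact degA a ha
  have hrB : ∀ b ∈ B, |∑ a ∈ A, g a b - d| ≤ d / 200 := fun b hb => by
    rw [hcol]; exact degB b hb
  obtain ⟨f, hf, hfr, hfc⟩ := exists_f hAB hm (fun a => 1 - (∑ b ∈ B, g a b) / d)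
    (fun b => 1 - (∑ a ∈ A, g a b) / d) (ε := 1 / 200)
    (fun a ha => by
      have h1 : 1 - (∑ b ∈ B, g a b) / d = -(∑ b ∈ B, g a b - d) / d := by field_simp; ring
      rw [h1, abs_div, abs_neg, abs_of_pos hd, div_le_iff₀ hd]
      linarith [hrA a ha])
    (fun b hb => by
      have h1 : 1 - (∑ a ∈ A, g a b) / d = -(∑ a ∈ A, g a b - d) / d := by field_simp; ring
      rw [h1, abs_div, abs_neg, abs_of_pos hd, div_le_iff₀ hd]
      linarith [hrB b hb])
    (by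
      rw [sum_sub_distrib, sum_sub_distrib, ← sum_div, ← sum_div, sum_comm]
      simp [hAB])
  have hpw : ∀ a ∈ A, ∀ b ∈ B, 199 / 200 * d * γ ≤ pw A B g a b := fun a ha b hb => by
    have h1 : 199 / 200 * d ≤ ∑ a' ∈ A, g a' b := by linarith [(abs_le.1 (hrB b hb)).1]
    calc 199 / 200 * d * γ ≤ (∑ a' ∈ A, g a' b) * γ := mul_le_mul_of_nonneg_right h1 hγ0.le
      _ = ∑ a' ∈ A, γ * g a' b := by rw [sum_mul]; exact sum_congr rfl fun _ _ => mul_comm _ _
      _ ≤ pw A B g a b := by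
        refine sum_le_sum fun a' ha' => ?_
        rw [← sum_mul, hcod]
        exact mul_le_mul_of_nonneg_right (cod a ha a' ha') (hg0 _ _)
  have hP0 : 0 < 199 / 200 * d * γ := by positivity
  set h : α → β → ℝ := fun a b => f a b / pw A B g a b with hh
  have hhp : ∀ a ∈ A, ∀ b ∈ B, h a b * pw A B g a b = f a b := fun a ha b hb =>
    div_mul_cancel₀ _ (hP0.trans_le (hpw a ha b hb)).ne'
  set H : ℝ := 3 * (1 / 200) / #A / (199 / 200 * d * γ) with hH
  have hH0 : 0 ≤ H := by positivity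
  have hhb : ∀ a ∈ A, ∀ b ∈ B, |h a b| ≤ H := fun a ha b hb => by
    simp only [hh]
    rw [abs_div, abs_of_pos (hP0.trans_le (hpw a ha b hb))]
    exact div_le_div₀ (by positivity) (hf a ha b hb) hP0 (hpw a ha b hb)
  have hD : (0 : ℝ) ≤ 201 / 200 * d := by positivity
  have hsm : 3 * (201 / 200 * d * (201 / 200 * d) * H) ≤ 1 / d := by
    have h1 : 3 * (201 / 200 * d * (201 / 200 * d) * H) =
        (363609 / 7960000 * d ^ 2) / (#A * γ) / d := by
      rw [hH]; field_simp; ring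
    rw [h1]
    refine div_le_div_of_nonneg_right ?_ hd.le
    rw [div_le_one (by positivity)]
    have : 0 < (#A : ℝ) * γ := by positivity
    nlinarith
  have htb : ∀ p ∈ A, ∀ q ∈ B,
      |t1 A B g h p q - t2 A B g h p q + t3 A B g h p q| ≤ 1 / d := fun p hp q hq => by
    obtain ⟨h1, h2, h3⟩ := t_bounds (h := h) hD hH0 hg0
      (fun a ha => by linarith [(abs_le.1 (hrA a ha)).2])
      (fun b hb => by linarith [(abs_le.1 (hrB b hb)).2]) hhb hp hq
    rw [abs_le] at h1 h2 h3 ⊢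
    constructor <;> linarith [h1.1, h1.2, h2.1, h2.2, h3.1, h3.2]
  refine ⟨fun p q => if p ∈ A ∧ q ∈ B then
      g p q * (1 / d + (t1 A B g h p q - t2 A B g h p q + t3 A B g h p q)) else 0,
    fun p q => ?_, fun p q hne => ?_, fun p hp => ?_, fun q hq => ?_⟩
  · have h2d : 2 / d = 1 / d + 1 / d := by ring
    have h1d : 0 < 1 / d := by positivity
    dsimp only
    split_ifs with hpq
    · have := abs_le.1 (htb p hpq.1 q hpq.2)
      simp only [hg]
      split_ifs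
      · constructor <;> linarith [this.1, this.2]
      · constructor <;> linarith
    · constructor <;> linarith
  · dsimp only at hne
    split_ifs at hne with hpq
    · refine ⟨hpq.1, hpq.2, ?_⟩
      by_contra hG
      simp [hg, hG] at hne
    · exact absurd rfl hne
  · rw [sum_congr rfl fun q hq => if_pos ⟨hp, hq⟩]
    simp only [mul_add, mul_sub, sum_add_distrib, sum_sub_distrib]
    rw [row_t1, row_t23, sum_congr rfl fun b hb => hhp p hp b hb, hfr, ← sum_mul]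
    ring
  · rw [sum_congr rfl fun p hp => if_pos ⟨hp, hq⟩]
    simp only [mul_add, mul_sub, sum_add_distrib, sum_sub_distrib]
    rw [col_t3, col_t12, sum_congr rfl fun a ha => hhp a ha q hq, hfc, ← sum_mul]
    ring

namespace P3

/-- One step of the derandomised process: round a fractional matching without increasing the
exponential potential of the keys. -/
theorem step {α β K : Type*} [Fintype α] [Fintype β] [DecidableEq α] [DecidableEq β] [Fintype K]
    (u : α → β → ℝ) (h0 : ∀ a b, 0 ≤ u a b) (hr : ∀ a, ∑ b, u a b ≤ 1)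
    (hc : ∀ b, ∑ a, u a b ≤ 1) (Q : K → Finset (α × β))
    (hQ : ∀ k, ∀ p ∈ Q k, ∀ q ∈ Q k, p.1 = q.1 ∨ p.2 = q.2) (W c : K → ℝ)
    (hcq : ∀ k, ∑ p ∈ Q k, u p.1 p.2 ≤ c k) :
    ∃ μ : Finset (α × β), (∀ p ∈ μ, u p.1 p.2 ≠ 0) ∧
      (∀ p ∈ μ, ∀ q ∈ μ, p.1 = q.1 ∨ p.2 = q.2 → p = q) ∧ ∑ a, ∑ b, u a b < #μ + 1 ∧
      ∑ k, Real.exp (W k + (#(μ ∩ Q k) - 2 * c k)) ≤ ∑ k, Real.exp (W k) := by
  set w : K → ℝ := fun k => Real.exp (W k - 2 * c k) with hw
  have hw0 : ∀ k, 0 ≤ w k := fun k => (Real.exp_pos _).le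
  obtain ⟨μ, h1, h2, h3, h4⟩ := round_matching u
    (fun a b => ∑ k, if (a, b) ∈ Q k then w k else 0) h0 hr hc
  refine ⟨μ, h1, h2, h3, ?_⟩
  have hl : ∑ p ∈ μ, (∑ k, if (p.1, p.2) ∈ Q k then w k else 0) = ∑ k, w k * #(μ ∩ Q k) := by
    rw [sum_comm]
    refine sum_congr rfl fun k _ => ?_
    rw [← sum_filter, sum_const, nsmul_eq_mul, mul_comm, filter_mem_eq_inter]
  have hrr : ∑ a, ∑ b, (∑ k, if (a, b) ∈ Q k then w k else 0) * u a b =
      ∑ k, w k * ∑ p ∈ Q k, u p.1 p.2 := by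
    rw [← Fintype.sum_prod_type (f := fun p : α × β =>
      (∑ k, if (p.1, p.2) ∈ Q k then w k else 0) * u p.1 p.2)]
    simp only [sum_mul]
    rw [sum_comm]
    refine sum_congr rfl fun k _ => ?_
    simp only [ite_mul, zero_mul]
    rw [← sum_filter, filter_mem_eq_inter, univ_inter, mul_sum]
  rw [hl, hrr] at h4
  have hle : ∀ k, Real.exp (W k + (#(μ ∩ Q k) - 2 * c k)) ≤ w k + 2 * (w k * #(μ ∩ Q k)) := by
    intro k
    have hcard : #(μ ∩ Q k) ≤ 1 := card_le_one.2 fun p hp q hq =>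
      h2 p (mem_inter.1 hp).1 q (mem_inter.1 hq).1 (hQ k p (mem_inter.1 hp).2 q (mem_inter.1 hq).2)
    have he : Real.exp (W k + (#(μ ∩ Q k) - 2 * c k)) = w k * Real.exp #(μ ∩ Q k) := by
      rw [hw, ← Real.exp_add]
      congr 1
      ring
    rw [he]
    have h3e : Real.exp 1 ≤ 3 := by linarith [Real.exp_one_lt_d9]
    interval_cases h : #(μ ∩ Q k)
    · simp
    · have := hw0 k
      simp only [Nat.cast_one, mul_one]
      nlinarith
  calc ∑ k, Real.exp (W k + (#(μ ∩ Q k) - 2 * c k))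
      ≤ ∑ k, (w k + 2 * (w k * #(μ ∩ Q k))) := sum_le_sum fun k _ => hle k
    _ = ∑ k, w k + 2 * ∑ k, w k * #(μ ∩ Q k) := by rw [sum_add_distrib, mul_sum]
    _ ≤ ∑ k, w k + 2 * ∑ k, w k * ∑ p ∈ Q k, u p.1 p.2 := by linarith
    _ = ∑ k, w k * (1 + 2 * ∑ p ∈ Q k, u p.1 p.2) := by
        rw [mul_sum, ← sum_add_distrib]
        exact sum_congr rfl fun k _ => by ring
    _ ≤ ∑ k, Real.exp (W k) := by
        refine sum_le_sum fun k _ => ?_
        have e1 : Real.exp (W k) = w k * Real.exp (2 * c k) := by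
          rw [hw, ← Real.exp_add]
          congr 1
          ring
        rw [e1]
        refine mul_le_mul_of_nonneg_left ?_ (hw0 k)
        linarith [Real.add_one_le_exp (2 * c k), hcq k]

/-- A matching inside `A × B` with at least `#A = #B` edges is perfect. -/
theorem perfect {α β : Type*} [DecidableEq α] [DecidableEq β] {A : Finset α} {B : Finset β}
    (hAB : #A = #B) {μ : Finset (α × β)} (hs : ∀ p ∈ μ, p.1 ∈ A ∧ p.2 ∈ B)
    (hm : ∀ p ∈ μ, ∀ q ∈ μ, p.1 = q.1 ∨ p.2 = q.2 → p = q) (hc : #A ≤ #μ) :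
    (∀ a ∈ A, ∃ b, (a, b) ∈ μ) ∧ ∀ b ∈ B, ∃ a, (a, b) ∈ μ := by
  constructor
  · have h1 : μ.image Prod.fst = A := by
      refine eq_of_subset_of_card_le (fun a ha => ?_) ?_
      · obtain ⟨p, hp, rfl⟩ := mem_image.1 ha
        exact (hs p hp).1
      · rwa [card_image_of_injOn fun p hp q hq h => hm p hp q hq (Or.inl h)]
    intro a ha
    rw [← h1] at ha
    obtain ⟨p, hp, rfl⟩ := mem_image.1 ha
    exact ⟨p.2, hp⟩
  · have h1 : μ.image Prod.snd = B := by
      refine eq_of_subset_of_card_le (fun a ha => ?_) ?_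
      · obtain ⟨p, hp, rfl⟩ := mem_image.1 ha
        exact (hs p hp).2
      · rw [card_image_of_injOn fun p hp q hq h => hm p hp q hq (Or.inr h), ← hAB]
        exact hc
    intro b hb
    rw [← h1] at hb
    obtain ⟨p, hp, rfl⟩ := mem_image.1 hb
    exact ⟨p.1, hp⟩

variable {I J X : Type*} [Fintype I] [Fintype J] [Fintype X] [DecidableEq I] [DecidableEq J]
  [DecidableEq X]

/-- The cells watched by a key. -/
def key (Z : Finset (Ln I J X)) (a : X → Finset I) (b : X → Finset J) (k : X × (I ⊕ J)) :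
    Finset (I × J) :=
  {p | (k.2 = Sum.inl p.1 ∨ k.2 = Sum.inr p.2) ∧ p.1 ∈ a k.1 ∧ p.2 ∈ b k.1 ∧ cel p.1 p.2 ∈ Z}

variable {Z : Finset (Ln I J X)} {a : X → Finset I} {b : X → Finset J}

theorem key_line (k : X × (I ⊕ J)) :
    ∀ p ∈ key Z a b k, ∀ q ∈ key Z a b k, p.1 = q.1 ∨ p.2 = q.2 := by
  intro p hp q hq
  simp only [key, mem_filter, mem_univ, true_and] at hp hq
  rcases hp.1 with h | h <;> rcases hq.1 with h' | h' <;> rw [h] at h' <;> simp_all

theorem card_key_row (x : X) (i : I) :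
    #(key Z a b (x, Sum.inl i)) ≤ #{j ∈ b x | cel i j ∈ Z} := by
  refine card_le_card_of_injOn Prod.snd (fun p hp => ?_) (fun p hp q hq h => ?_)
  · simp only [key, coe_filter, mem_univ, true_and, Set.mem_ofPred_eq, Sum.inl.injEq,
      reduceCtorEq, or_false] at hp ⊢
    exact ⟨hp.2.2.1, hp.1 ▸ hp.2.2.2⟩
  · simp only [key, coe_filter, mem_univ, true_and, Set.mem_ofPred_eq, Sum.inl.injEq,
      reduceCtorEq, or_false] at hp hq
    exact Prod.ext (hp.1.symm.trans hq.1) h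

theorem card_key_col (x : X) (j : J) :
    #(key Z a b (x, Sum.inr j)) ≤ #{i ∈ a x | cel i j ∈ Z} := by
  refine card_le_card_of_injOn Prod.fst (fun p hp => ?_) (fun p hp q hq h => ?_)
  · simp only [key, coe_filter, mem_univ, true_and, Set.mem_ofPred_eq, Sum.inr.injEq,
      reduceCtorEq, false_or] at hp ⊢
    exact ⟨hp.2.1, hp.1 ▸ hp.2.2.2⟩
  · simp only [key, coe_filter, mem_univ, true_and, Set.mem_ofPred_eq, Sum.inr.injEq,
      reduceCtorEq, false_or] at hp hq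
    exact Prod.ext h (hp.1.symm.trans hq.1)

theorem used_row (U : Finset (I × J)) {x : X} {i : I} (hi : i ∈ a x) :
    #{j ∈ b x | cel i j ∈ Z ∧ (i, j) ∈ U} ≤ #(U ∩ key Z a b (x, Sum.inl i)) := by
  refine card_le_card_of_injOn (fun j => (i, j)) (fun j hj => ?_) (fun p _ q _ h => ?_)
  · simp only [coe_filter, Set.mem_ofPred_eq] at hj
    simp [key, hi, hj.1, hj.2.1, hj.2.2]
  · simpa using h

theorem used_col (U : Finset (I × J)) {x : X} {j : J} (hj : j ∈ b x) :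
    #{i ∈ a x | cel i j ∈ Z ∧ (i, j) ∈ U} ≤ #(U ∩ key Z a b (x, Sum.inr j)) := by
  refine card_le_card_of_injOn (fun i => (i, j)) (fun i hi => ?_) (fun p _ q _ h => ?_)
  · simp only [coe_filter, Set.mem_ofPred_eq] at hi
    simp [key, hj, hi.1, hi.2.1, hi.2.2]
  · simpa using h

theorem card_split {γ : Type*} (s : Finset γ) (p q : γ → Prop) [DecidablePred p]
    [DecidablePred q] :
    (#{y ∈ s | p y ∧ ¬ q y} : ℝ) = #{y ∈ s | p y} - #{y ∈ s | p y ∧ q y} := by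
  have := card_filter_add_card_filter_not (s := {y ∈ s | p y}) q
  rw [filter_filter, filter_filter] at this
  rw [← this]
  push_cast
  ring

/-- The compensator of a key at a symbol. -/
noncomputable def cmp (Z : Finset (Ln I J X)) (a : X → Finset I) (b : X → Finset J) (d : ℝ)
    (x : X) (k : X × (I ⊕ J)) : ℝ :=
  #{p ∈ key Z a b k | p.1 ∈ a x ∧ p.2 ∈ b x} * (2 / d)

theorem sum_cmp_le {d κ : ℝ} (hd : 0 < d)
    (mult : ∀ i j, (#{x | i ∈ a x ∧ j ∈ b x} : ℝ) ≤ κ) (S : Finset X) (k : X × (I ⊕ J)) :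
    ∑ x ∈ S, cmp Z a b d x k ≤ #(key Z a b k) * κ * (2 / d) := by
  simp only [cmp]
  rw [← sum_mul]
  refine mul_le_mul_of_nonneg_right ?_ (by positivity)
  calc ∑ x ∈ S, (#{p ∈ key Z a b k | p.1 ∈ a x ∧ p.2 ∈ b x} : ℝ)
      ≤ ∑ x, (#{p ∈ key Z a b k | p.1 ∈ a x ∧ p.2 ∈ b x} : ℝ) :=
        sum_le_sum_of_subset_of_nonneg (subset_univ _) fun _ _ _ => by positivity
    _ = ∑ p ∈ key Z a b k, (#{x | p.1 ∈ a x ∧ p.2 ∈ b x} : ℝ) := by
        simp only [card_filter, Nat.cast_sum]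
        rw [sum_comm]
    _ ≤ ∑ _p ∈ key Z a b k, κ := sum_le_sum fun p _ => mult p.1 p.2
    _ = #(key Z a b k) * κ := by simp

/-- The invariant of the process. -/
structure Inv (Z : Finset (Ln I J X)) (a : X → Finset I) (b : X → Finset J) (d L : ℝ)
    (S : Finset X) (μ : X → Finset (I × J)) : Prop where
  supp : ∀ x ∈ S, ∀ p ∈ μ x, p.1 ∈ a x ∧ p.2 ∈ b x ∧ cel p.1 p.2 ∈ Z
  mat : ∀ x ∈ S, ∀ p ∈ μ x, ∀ q ∈ μ x, p.1 = q.1 ∨ p.2 = q.2 → p = q
  row : ∀ x ∈ S, ∀ i ∈ a x, ∃ j, (i, j) ∈ μ x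
  col : ∀ x ∈ S, ∀ j ∈ b x, ∃ i, (i, j) ∈ μ x
  dis : ∀ x ∈ S, ∀ x' ∈ S, x ≠ x' → Disjoint (μ x) (μ x')
  pot : ∑ k, Real.exp (∑ x ∈ S, ((#(μ x ∩ key Z a b k) : ℝ) - 2 * cmp Z a b d x k) - L) < 1

theorem Inv.used {d L κ : ℝ} {S : Finset X} {μ : X → Finset (I × J)} (h : Inv Z a b d L S μ)
    (hd : 0 < d) (mult : ∀ i j, (#{x | i ∈ a x ∧ j ∈ b x} : ℝ) ≤ κ) (hκ : 0 ≤ κ)
    (k : X × (I ⊕ J)) (hk : (#(key Z a b k) : ℝ) ≤ d + d / 400) :
    (#(S.biUnion μ ∩ key Z a b k) : ℝ) ≤ 5 * κ + L := by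
  have h1 : Real.exp (∑ x ∈ S, ((#(μ x ∩ key Z a b k) : ℝ) - 2 * cmp Z a b d x k) - L) < 1 :=
    lt_of_le_of_lt (single_le_sum (f := fun k => Real.exp
      (∑ x ∈ S, ((#(μ x ∩ key Z a b k) : ℝ) - 2 * cmp Z a b d x k) - L))
      (fun _ _ => (Real.exp_pos _).le) (mem_univ k)) h.pot
  rw [Real.exp_lt_one_iff, sum_sub_distrib, ← mul_sum] at h1
  have h2 := sum_cmp_le (Z := Z) hd mult S k
  have h3 : #(key Z a b k) * κ * (2 / d) ≤ (d + d / 400) * κ * (2 / d) := by gcongr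
  have h4 : (d + d / 400) * κ * (2 / d) = 401 / 200 * κ := by field_simp; ring
  have h5 : (#(S.biUnion μ ∩ key Z a b k) : ℝ) ≤ ∑ x ∈ S, (#(μ x ∩ key Z a b k) : ℝ) := by
    rw [biUnion_inter]
    exact_mod_cast card_biUnion_le
  linarith

theorem Inv.insert {d γ κ L : ℝ} (hab : ∀ x, #(a x) = #(b x)) (hd : 0 < d)
    (degA : ∀ x, ∀ i ∈ a x, |(#{j ∈ b x | cel i j ∈ Z} : ℝ) - d| ≤ d / 400)
    (degB : ∀ x, ∀ j ∈ b x, |(#{i ∈ a x | cel i j ∈ Z} : ℝ) - d| ≤ d / 400)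
    (cod : ∀ x, ∀ i ∈ a x, ∀ i' ∈ a x, 2 * γ ≤ #{j ∈ b x | cel i j ∈ Z ∧ cel i' j ∈ Z})
    (hγ : ∀ x, d ^ 2 ≤ 20 * #(a x) * γ) (mult : ∀ i j, (#{x | i ∈ a x ∧ j ∈ b x} : ℝ) ≤ κ)
    (h1 : 5 * κ + L ≤ d / 400) (h2 : 2 * (5 * κ + L) ≤ γ) {S : Finset X}
    {μ : X → Finset (I × J)} (h : Inv Z a b d L S μ) {x : X} (hx : x ∉ S) :
    ∃ μ', Inv Z a b d L (insert x S) μ' := by
  set U := S.biUnion μ with hU
  have hκ : ∀ (_ : I) (_ : J), 0 ≤ κ := fun i j => le_trans (by positivity) (mult i j)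
  have hrow : ∀ i ∈ a x, (#{j ∈ b x | cel i j ∈ Z ∧ (i, j) ∈ U} : ℝ) ≤ 5 * κ + L := by
    intro i hi
    have hb : (b x).Nonempty := card_pos.1 (hab x ▸ card_pos.2 ⟨i, hi⟩)
    refine le_trans ?_ (h.used hd mult (hκ i hb.choose) (x, Sum.inl i) ?_)
    · exact_mod_cast used_row U hi
    · refine le_trans ?_ (by linarith [(abs_le.1 (degA x i hi)).2] :
        (#{j ∈ b x | cel i j ∈ Z} : ℝ) ≤ d + d / 400)
      exact Nat.cast_le.2 (card_key_row x i)
  have hcol : ∀ j ∈ b x, (#{i ∈ a x | cel i j ∈ Z ∧ (i, j) ∈ U} : ℝ) ≤ 5 * κ + L := by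
    intro j hj
    have hb : (a x).Nonempty := card_pos.1 (hab x ▸ card_pos.2 ⟨j, hj⟩)
    refine le_trans ?_ (h.used hd mult (hκ hb.choose j) (x, Sum.inr j) ?_)
    · exact_mod_cast used_col U hj
    · refine le_trans ?_ (by linarith [(abs_le.1 (degB x j hj)).2] :
        (#{i ∈ a x | cel i j ∈ Z} : ℝ) ≤ d + d / 400)
      exact Nat.cast_le.2 (card_key_col x j)
  obtain ⟨u, hu, hsupp, hur, huc⟩ := frac_pm (a x) (b x)
    (fun i j => cel i j ∈ Z ∧ (i, j) ∉ U) (hab x) d γ hd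
    (fun i hi => by
      rw [card_split (b x) (fun j => cel i j ∈ Z) fun j => (i, j) ∈ U]
      have e1 := abs_le.1 (degA x i hi)
      have e2 := hrow i hi
      have e3 : (0 : ℝ) ≤ #{j ∈ b x | cel i j ∈ Z ∧ (i, j) ∈ U} := by positivity
      rw [abs_le]
      constructor <;> linarith [e1.1, e1.2])
    (fun j hj => by
      rw [card_split (a x) (fun i => cel i j ∈ Z) fun i => (i, j) ∈ U]
      have e1 := abs_le.1 (degB x j hj)
      have e2 := hcol j hj
      have e3 : (0 : ℝ) ≤ #{i ∈ a x | cel i j ∈ Z ∧ (i, j) ∈ U} := by positivity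
      rw [abs_le]
      constructor <;> linarith [e1.1, e1.2])
    (fun i hi i' hi' => by
      have e1 := cod x i hi i' hi'
      have e2 := hrow i hi
      have e3 := hrow i' hi'
      have e4 : #{j ∈ b x | cel i j ∈ Z ∧ cel i' j ∈ Z} ≤
          #{j ∈ b x | (cel i j ∈ Z ∧ (i, j) ∉ U) ∧ (cel i' j ∈ Z ∧ (i', j) ∉ U)} +
          (#{j ∈ b x | cel i j ∈ Z ∧ (i, j) ∈ U} + #{j ∈ b x | cel i' j ∈ Z ∧ (i', j) ∈ U}) := by
        refine le_trans (card_le_card ?_)
          ((card_union_le _ _).trans (Nat.add_le_add_left (card_union_le _ _) _))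
        intro j hj
        simp only [mem_filter, mem_union] at hj ⊢
        tauto
      have e5 : (#{j ∈ b x | cel i j ∈ Z ∧ cel i' j ∈ Z} : ℝ) ≤
          #{j ∈ b x | (cel i j ∈ Z ∧ (i, j) ∉ U) ∧ (cel i' j ∈ Z ∧ (i', j) ∉ U)} +
          (#{j ∈ b x | cel i j ∈ Z ∧ (i, j) ∈ U} +
            #{j ∈ b x | cel i' j ∈ Z ∧ (i', j) ∈ U}) := by exact_mod_cast e4
      linarith)
    (hγ x)
  have hz : ∀ i j, ¬ (i ∈ a x ∧ j ∈ b x) → u i j = 0 := fun i j hn => by
    by_contra hne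
    exact hn ⟨(hsupp i j hne).1, (hsupp i j hne).2.1⟩
  have hr1 : ∀ i, ∑ j, u i j = if i ∈ a x then 1 else 0 := fun i => by
    split_ifs with hi
    · rw [← hur i hi]
      exact (sum_subset (subset_univ _) fun j _ hj => hz i j fun hh => hj hh.2).symm
    · exact sum_eq_zero fun j _ => hz i j fun hh => hi hh.1
  have hc1 : ∀ j, ∑ i, u i j = if j ∈ b x then 1 else 0 := fun j => by
    split_ifs with hj
    · rw [← huc j hj]
      exact (sum_subset (subset_univ _) fun i _ hi => hz i j fun hh => hi hh.1).symm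
    · exact sum_eq_zero fun i _ => hz i j fun hh => hj hh.2
  obtain ⟨ν, n1, n2, n3, n4⟩ := step u (fun i j => (hu i j).1)
    (fun i => by rw [hr1]; split_ifs <;> norm_num) (fun j => by rw [hc1]; split_ifs <;> norm_num)
    (key Z a b) key_line
    (fun k => ∑ y ∈ S, ((#(μ y ∩ key Z a b k) : ℝ) - 2 * cmp Z a b d y k) - L)
    (cmp Z a b d x) (fun k => by
      rw [cmp, ← nsmul_eq_mul, ← sum_const, sum_filter]
      refine sum_le_sum fun p _ => ?_
      split_ifs with hp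
      · exact (hu _ _).2
      · exact (hz _ _ hp).le)
  have hcard : #(a x) ≤ #ν := by
    simp only [hr1, sum_boole, filter_mem_eq_inter, univ_inter] at n3
    have : #(a x) < #ν + 1 := by exact_mod_cast n3
    omega
  obtain ⟨p1, p2⟩ := perfect (hab x)
    (fun p hp => ⟨(hsupp _ _ (n1 p hp)).1, (hsupp _ _ (n1 p hp)).2.1⟩) n2 hcard
  have hup : ∀ y ∈ S, Function.update μ x ν y = μ y := fun y hy =>
    Function.update_of_ne (fun e : y = x => hx (e ▸ hy)) _ _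
  have hdis : ∀ y ∈ S, Disjoint ν (μ y) := fun y hy => disjoint_left.2 fun p hp hp' =>
    (hsupp _ _ (n1 p hp)).2.2.2 (mem_biUnion.2 ⟨y, hy, hp'⟩)
  refine ⟨Function.update μ x ν, ?_, ?_, ?_, ?_, ?_, ?_⟩
  · refine forall_mem_insert _ _ _ |>.2 ⟨?_, fun y hy => ?_⟩
    · rw [Function.update_self]
      exact fun p hp => ⟨(hsupp _ _ (n1 p hp)).1, (hsupp _ _ (n1 p hp)).2.1,
        (hsupp _ _ (n1 p hp)).2.2.1⟩
    · rw [hup y hy]; exact h.supp y hy
  · refine forall_mem_insert _ _ _ |>.2 ⟨?_, fun y hy => ?_⟩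
    · rw [Function.update_self]; exact n2
    · rw [hup y hy]; exact h.mat y hy
  · refine forall_mem_insert _ _ _ |>.2 ⟨?_, fun y hy => ?_⟩
    · rw [Function.update_self]; exact p1
    · rw [hup y hy]; exact h.row y hy
  · refine forall_mem_insert _ _ _ |>.2 ⟨?_, fun y hy => ?_⟩
    · rw [Function.update_self]; exact p2
    · rw [hup y hy]; exact h.col y hy
  · intro y hy y' hy' hne
    rcases mem_insert.1 hy with rfl | hy1 <;> rcases mem_insert.1 hy' with rfl | hy2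
    · exact absurd rfl hne
    · rw [Function.update_self, hup y' hy2]; exact hdis y' hy2
    · rw [Function.update_self, hup y hy1]; exact (hdis y hy1).symm
    · rw [hup y hy1, hup y' hy2]; exact h.dis y hy1 y' hy2 hne
  · refine lt_of_le_of_lt (le_of_eq ?_) (lt_of_le_of_lt n4 h.pot)
    refine sum_congr rfl fun k _ => ?_
    rw [sum_insert hx, Function.update_self, sum_congr rfl fun y hy => by rw [hup y hy]]
    congr 1
    ring

end P3

variable {I J X : Type*} [Fintype I] [Fintype J] [Fintype X] [DecidableEq I] [DecidableEq J]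
  [DecidableEq X]

theorem phase3 (Z : Finset (Ln I J X)) (a : X → Finset I) (b : X → Finset J)
    (hab : ∀ x, #(a x) = #(b x)) (d γ κ L : ℝ) (hd : 0 < d)
    (degA : ∀ x, ∀ i ∈ a x, |(#{j ∈ b x | cel i j ∈ Z} : ℝ) - d| ≤ d / 400)
    (degB : ∀ x, ∀ j ∈ b x, |(#{i ∈ a x | cel i j ∈ Z} : ℝ) - d| ≤ d / 400)
    (cod : ∀ x, ∀ i ∈ a x, ∀ i' ∈ a x, 2 * γ ≤ #{j ∈ b x | cel i j ∈ Z ∧ cel i' j ∈ Z})
    (hγ : ∀ x, d ^ 2 ≤ 20 * #(a x) * γ) (mult : ∀ i j, (#{x | i ∈ a x ∧ j ∈ b x} : ℝ) ≤ κ)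
    (hL : (Fintype.card X : ℝ) * (Fintype.card I + Fintype.card J) < Real.exp L) (hL0 : 0 ≤ L)
    (h1 : 5 * κ + L ≤ d / 400) (h2 : 2 * (5 * κ + L) ≤ γ) :
    ∃ S : Finset (Ln I J X), DecF S ∧ (∀ x i, sym x i ∈ S ↔ i ∈ a x) ∧
      (∀ j x, edg j x ∈ S ↔ j ∈ b x) ∧ ∀ i j, cel i j ∈ S → cel i j ∈ Z := by
  have _ := hL0
  have hall : ∀ S : Finset X, ∃ μ, P3.Inv Z a b d L S μ := by
    intro S
    induction S using Finset.induction_on with
    | empty =>
      refine ⟨fun _ => ∅, by simp, by simp, by simp, by simp, by simp, ?_⟩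
      simp only [sum_empty, zero_sub, sum_const, card_univ, Fintype.card_prod, Fintype.card_sum,
        nsmul_eq_mul, Nat.cast_mul, Nat.cast_add]
      rw [Real.exp_neg, ← div_eq_mul_inv, div_lt_one (Real.exp_pos _)]
      exact hL
    | insert x S hx ih =>
      obtain ⟨μ, h⟩ := ih
      exact P3.Inv.insert hab hd degA degB cod hγ mult h1 h2 h hx
  obtain ⟨μ, h⟩ := hall univ
  set T : Finset (I × J × X) := {t | (t.1, t.2.1) ∈ μ t.2.2} with hT
  have hmem : ∀ t : I × J × X, t ∈ T ↔ (t.1, t.2.1) ∈ μ t.2.2 := fun t => by simp [hT]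
  refine ⟨T.biUnion triF, decF_biUnion _ ?_, fun x i => ?_, fun j x => ?_, fun i j hij => ?_⟩
  · rintro ⟨i, j, x⟩ ht ⟨i', j', x'⟩ ht' hne
    rw [hmem] at ht ht'
    dsimp only at ht ht'
    have hxx : x = x' → i = i' ∨ j = j' → False := by
      rintro rfl hh
      have := h.mat x (mem_univ _) _ ht _ ht' hh
      simp only [Prod.mk.injEq] at this
      exact hne (by rw [this.1, this.2])
    have hcc : i = i' → j = j' → False := by
      rintro rfl rfl
      by_cases hx : x = x'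
      · exact hxx hx (Or.inl rfl)
      · exact disjoint_left.1 (h.dis x (mem_univ _) x' (mem_univ _) hx) ht ht'
    rw [disjoint_left]
    intro l hl hl'
    simp only [triF, mem_insert, mem_singleton] at hl hl'
    rcases hl with rfl | rfl | rfl <;> simp only [reduceCtorEq, Ln.cel.injEq, Ln.sym.injEq,
      Ln.edg.injEq, false_or, or_false] at hl'
    · exact hcc hl'.1 hl'.2
    · exact hxx hl'.1 (Or.inl hl'.2)
    · exact hxx hl'.2 (Or.inr hl'.1)
  · constructor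
    · intro hs
      obtain ⟨⟨i', j', x'⟩, ht, hl⟩ := mem_biUnion.1 hs
      simp only [triF, mem_insert, mem_singleton, reduceCtorEq, Ln.sym.injEq, false_or,
        or_false] at hl
      obtain ⟨rfl, rfl⟩ := hl
      exact (h.supp x (mem_univ _) _ ((hmem _).1 ht)).1
    · intro hi
      obtain ⟨j, hj⟩ := h.row x (mem_univ _) i hi
      exact mem_biUnion.2 ⟨(i, j, x), (hmem _).2 hj, by simp [triF]⟩
  · constructor
    · intro hs
      obtain ⟨⟨i', j', x'⟩, ht, hl⟩ := mem_biUnion.1 hs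
      simp only [triF, mem_insert, mem_singleton, reduceCtorEq, Ln.edg.injEq, false_or] at hl
      obtain ⟨rfl, rfl⟩ := hl
      exact (h.supp x (mem_univ _) _ ((hmem _).1 ht)).2.1
    · intro hj
      obtain ⟨i, hi⟩ := h.col x (mem_univ _) j hj
      exact mem_biUnion.2 ⟨(i, j, x), (hmem _).2 hi, by simp [triF]⟩
  · obtain ⟨⟨i', j', x'⟩, ht, hl⟩ := mem_biUnion.1 hij
    simp only [triF, mem_insert, mem_singleton, reduceCtorEq, Ln.cel.injEq, or_false] at hl
    obtain ⟨rfl, rfl⟩ := hl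
    exact (h.supp x' (mem_univ _) _ ((hmem _).1 ht)).2.2

end Pool.Agent.Lib.MP_9dc2ba_co.Large
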