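import Mathlib
import Pool.Agent.Lib.MP_9dc2ba_co.Large.Base3
import Pool.Agent.Lib.MP_9dc2ba_co.Large.Main
import Pool.Agent.Lib.MP_9dc2ba_co.Large.Boost
import Pool.Agent.Lib.MP_9dc2ba_co.Large.Wire
import Pool.Agent.Lib.MP_9dc2ba_co.Large.Phase3
import Pool.Agent.Lib.MP_9dc2ba_co.Defs

-- part Pool.Agent.Lib.MP_9dc2ba_co.Large.Absorb
section

/-!
The absorber.
-/

open Finset

set_option linter.unusedSectionVars false

namespace Pool.Agent.Lib.MP_9dc2ba_co.Large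

variable {I J X : Type*} [Fintype I] [Fintype J] [Fintype X] [DecidableEq I] [DecidableEq J]
  [DecidableEq X]

namespace Ab

theorem exists_hub (I : Type*) [Fintype I] [DecidableEq I] (hI : 1 ≤ Fintype.card I) :
    ∃ (h : ℕ) (ι : Cube h ↪ I) (π : I → Cube h), (∀ v, π (ι v) = v) ∧
      (∀ v, #{i | π i = v} ≤ 2) ∧ 2 ^ h ≤ Fintype.card I ∧ Fintype.card I ≤ 2 * 2 ^ h := by
  classical
  set h := Nat.log 2 (Fintype.card I)
  have h1 : 2 ^ h ≤ Fintype.card I := Nat.pow_log_le_self 2 (by omega)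
  have h2 : Fintype.card I < 2 ^ (h + 1) := Nat.lt_pow_succ_log_self (by norm_num) _
  have hc : Fintype.card (Cube h) = 2 ^ h := by simp
  obtain ⟨ι⟩ : Nonempty (Cube h ↪ I) := Function.Embedding.nonempty_of_card_le (by omega)
  have h3 : Fintype.card {i // i ∉ Set.range ι} ≤ Fintype.card (Cube h) := by
    rw [Fintype.card_subtype_compl, Set.card_range_of_injective ι.injective]
    omega
  obtain ⟨ψ⟩ : Nonempty ({i // i ∉ Set.range ι} ↪ Cube h) :=
    Function.Embedding.nonempty_of_card_le h3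
  refine ⟨h, ι, fun i => if hi : i ∈ Set.range ι then hi.choose else ψ ⟨i, hi⟩, fun v => ?_,
    fun v => ?_, h1, by omega⟩
  · have hv : ι v ∈ Set.range ι := ⟨v, rfl⟩
    simp only [dif_pos hv]
    exact ι.injective hv.choose_spec
  · calc _ ≤ #(univ : Finset Bool) := by
          refine card_le_card_of_injOn (fun i => decide (i ∈ Set.range ι))
            (fun _ _ => mem_coe.2 (mem_univ _)) ?_
          intro a ha b hb hab
          rw [mem_coe, mem_filter] at ha hb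
          have hab' : a ∈ Set.range ι ↔ b ∈ Set.range ι := by simpa using hab
          by_cases h4 : a ∈ Set.range ι
          · have h5 := hab'.1 h4
            have ha' := ha.2
            have hb' := hb.2
            simp only [dif_pos h4] at ha'
            simp only [dif_pos h5] at hb'
            rw [← h4.choose_spec, ← h5.choose_spec, ha', hb']
          · have h5 := fun h => h4 (hab'.2 h)
            have ha' := ha.2
            have hb' := hb.2
            simp only [dif_neg h4] at ha'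
            simp only [dif_neg h5] at hb'
            exact congrArg Subtype.val (ψ.injective (ha'.trans hb'.symm))
      _ = 2 := by simp

theorem exists_pow_between (x : ℝ) (hx : 1 ≤ x) : ∃ k : ℕ, x ≤ 2 ^ k ∧ (2 : ℝ) ^ k ≤ 2 * x := by
  obtain ⟨k, h1, h2⟩ := exists_nat_pow_near hx (show (1 : ℝ) < 2 by norm_num)
  exact ⟨k + 1, h2.le, by rw [pow_succ]; linarith⟩

theorem le_of_pow_le {k ω : ℕ} {x : ℝ} (h1 : (2 : ℝ) ^ k ≤ x) (h2 : x ≤ 2 ^ ω) : (k : ℝ) ≤ ω := by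
  have : k ≤ ω := (pow_le_pow_iff_right₀ (show (1 : ℝ) < 2 by norm_num)).1 (h1.trans h2)
  exact_mod_cast this

/-- The real cells of the networks at the columns, as lines. -/
def rootF {h0 : ℕ} (col : J → ℕ → Fin (2 ^ h0) → I) (mj : J → ℕ) : Finset (Ln I J X) :=
  ({p : Po J h0 | ¬ ((p.2.1 : ℕ) + 1 = h0 ∧ (p.2.2 : ℕ) < mj p.1)} : Finset (Po J h0)).image
    fun p => cel (own col p) p.1

theorem rootF_val {h0 : ℕ} (col : J → ℕ → Fin (2 ^ h0) → I) (mj : J → ℕ)
    (hinj : ∀ j ℓ t ℓ' t', ℓ ≤ h0 → ℓ' ≤ h0 → col j ℓ t = col j ℓ' t' → ℓ = ℓ' ∧ t = t') :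
    (rootF col mj : Finset (Ln I J X)).val = (rootM col mj).map fun p => cel p.1 p.2 := by
  unfold rootF rootM
  rw [image_val_of_injOn, ← sum_sing, sum_filter, mmap_sum]
  · refine sum_congr rfl fun p _ => ?_
    split_ifs <;> simp
  · rintro ⟨j, ℓ, t⟩ - ⟨j', ℓ', t'⟩ - h
    simp only [Ln.cel.injEq, own] at h
    obtain ⟨h, rfl⟩ := h
    obtain ⟨h1, h2⟩ := hinj j _ _ _ _ ℓ.2 ℓ'.2 h
    rw [h2, Fin.ext (Nat.succ_injective h1)]

theorem mem_rootF {h0 : ℕ} {col : J → ℕ → Fin (2 ^ h0) → I} {mj : J → ℕ} {l : Ln I J X}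
    (h : l ∈ rootF col mj) : ∃ p : Po J h0, l = cel (own col p) p.1 := by
  obtain ⟨p, -, rfl⟩ := mem_image.1 h
  exact ⟨p, rfl⟩

theorem rootF_sparse (D : Des I J X) {h0 : ℕ} (col : J → ℕ → Fin (2 ^ h0) → I) (mj : J → ℕ)
    (t : ℝ) (h1 : (h0 : ℝ) * 2 ^ h0 ≤ t)
    (h2 : ∀ x i, (#{j ∈ D.B x | ∃ p : Fin h0 × Fin (2 ^ h0), col j (p.1 + 1) p.2 = i} : ℝ) ≤ t) :
    Sparse D (rootF col mj) t := by
  have ht : 0 ≤ t := le_trans (by positivity) h1
  have e1 : ∀ x i, (sym x i : Ln I J X) ∉ rootF col mj := fun x i h => by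
    obtain ⟨p, hp⟩ := mem_rootF h
    cases hp
  have e2 : ∀ j x, (edg j x : Ln I J X) ∉ rootF col mj := fun x i h => by
    obtain ⟨p, hp⟩ := mem_rootF h
    cases hp
  refine ⟨fun j => le_trans ?_ h1, fun x => ?_, fun j => ?_, fun x => ?_,
    fun x i => le_trans ?_ (h2 x i), fun j i => ?_⟩
  · have : cJ (rootF col mj : Finset (Ln I J X)) j ≤ h0 * 2 ^ h0 := by
      calc _ ≤ #(univ.image fun p : Fin h0 × Fin (2 ^ h0) => col j (p.1 + 1) p.2) := by
            refine card_le_card fun i hi => ?_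
            obtain ⟨p, hp⟩ := mem_rootF (mem_filter.1 hi).2
            simp only [Ln.cel.injEq, own] at hp
            exact mem_image.2 ⟨p.2, mem_univ _, by rw [hp.1, hp.2]⟩
        _ ≤ _ := card_image_le.trans (by simp)
    exact_mod_cast this
  · simpa [sX, e1] using ht
  · simpa [eJ, e2] using ht
  · simpa [eX, e2] using ht
  · refine Nat.cast_le.2 (card_le_card fun j hj => ?_)
    simp only [mem_filter, mem_univ, true_and] at hj ⊢
    obtain ⟨p, hp⟩ := mem_rootF hj.2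
    simp only [Ln.cel.injEq, own] at hp
    exact ⟨hj.1, p.2, by rw [hp.1, hp.2]⟩
  · simpa [sN, e1] using ht

theorem inj3 {α : Type*} {a b c : α} (h1 : a ≠ b) (h2 : a ≠ c) (h3 : b ≠ c) :
    Function.Injective ![a, b, c] := by
  intro k k' e
  fin_cases k <;> fin_cases k' <;> simp_all

theorem leg_root' {α β : Type*} {a : α} {b c : β} {k : Fin 3} {j : α}
    (e : ![Sum.inl a, Sum.inr b, Sum.inr c] k = Sum.inl j) : k = 0 := by
  fin_cases k <;> simp_all

theorem leg_inj' {α P Q : Type*} {a a' : α} {p p' : P} {k k' : Fin 3} {ν : (P × Bool) ⊕ Q}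
    (e : ![Sum.inl a, Sum.inr (Sum.inl (p, false)), Sum.inr (Sum.inl (p, true))] k = Sum.inr ν)
    (e' : ![Sum.inl a', Sum.inr (Sum.inl (p', false)), Sum.inr (Sum.inl (p', true))] k' =
      Sum.inr ν) : p = p' ∧ k = k' := by
  fin_cases k <;> fin_cases k' <;> simp at e e' <;> subst e <;> simp_all

theorem base_ok (D : Des I J X) {h h0 : ℕ} (ι : Cube h ↪ I) (π : I → Cube h)
    (col : J → ℕ → Fin (2 ^ h0) → I) (M : ℕ) (β : ℝ)
    (hinj : ∀ j ℓ t ℓ' t', ℓ ≤ h0 → ℓ' ≤ h0 → col j ℓ t = col j ℓ' t' → ℓ = ℓ' ∧ t = t')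
    (htg : ∀ j ℓ t, ℓ < h0 → TG D j (col j (ℓ + 1) t) (col j ℓ t) (col j ℓ (sh h0 ℓ t)))
    (h1 : (h0 : ℝ) * 2 ^ h0 ≤ β * D.n) (h2 : ∀ i, 3 * (ndLoad col i : ℝ) ≤ β * Fintype.card J)
    (h3 : ∀ i, (#{ν | i ∈ (oc ι π col M).pal ν} : ℝ) ≤ β * Fintype.card J) :
    BaseOk D (oc ι π col M).pal (oc ι π col M).tc (oc ι π col M).leg (h + 5) β where
  tc_inj p := by
    have a1 : own col p ≠ pre col (p, false) := fun e => by
      have := (hinj _ _ _ _ _ p.2.1.2 p.2.1.2.le e).1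
      omega
    have a2 : own col p ≠ pre col (p, true) := fun e => by
      have := (hinj _ _ _ _ _ p.2.1.2 p.2.1.2.le e).1
      omega
    have a3 : pre col (p, false) ≠ pre col (p, true) := fun e =>
      sh_ne p.2.1.2 p.2.2 (hinj _ _ _ _ _ p.2.1.2.le p.2.1.2.le e).2.symm
    exact inj3 a1 a2 a3
  leg_root p k j e := leg_root' e
  leg_inj p k p' k' ν e e' := leg_inj' e e'
  tg p j e := by
    have : p.1 = j := Sum.inl_injective e
    rw [← this]
    exact htg p.1 p.2.1 p.2.2 p.2.1.2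
  gg p ν e := by cases e
  pal_card := pal_card ι π col M
  rootload j := by
    rw [root_card, Nat.cast_mul, Nat.cast_pow]
    exact h1
  tload i := le_trans (Nat.cast_le.2 (tc_load ι π col M i)) (by
    rw [Nat.cast_mul]
    exact h2 i)
  nload := h3

theorem cast_le_mul {a b c : ℕ} (h : a ≤ (b + 4) * c) : (a : ℝ) ≤ (b + 4) * c := by
  exact_mod_cast h

theorem cast_le_add {a b c d : ℕ} (h : a ≤ b + 4 * (c * c) * d) :
    (a : ℝ) ≤ b + 4 * (c * c) * d := by
  exact_mod_cast h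

end Ab

open Ab in
theorem absorber (D : Des I J X) (ω : ℕ) (hω : 10 ^ 30 ≤ ω) (hlog : D.n ^ 10 ≤ 2 ^ ω)
    (hn : ω ^ 20 ≤ D.n) (Z D0 U0 : Finset (Ln I J X)) (hZ : OnlyCel Z) (hD0 : D0 ⊆ Z)
    (hZU : Z ⊆ U0) (hU0 : Sparse D U0 (10 * D.n / ω ^ 12)) :
    ∃ 𝒜 ⊆ valid D, Disjoint 𝒜 U0 ∧ Sparse D 𝒜 (D.n / 2000) ∧
      ∀ Lc ⊆ Z, (∀ j, cJ Lc j = cJ D0 j) → (∀ i, cI Lc i = cI D0 i) → DecF (𝒜 ∪ Lc) := by
  classical
  have hnω : ω ≤ D.n := le_trans (Nat.le_self_pow (by norm_num) ω) hn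
  have hn4 : 10 ^ 4 ≤ D.n := le_trans (le_trans (by norm_num) hω) hnω
  have hn2 : 2 ≤ D.n := by omega
  obtain ⟨w, hw⟩ : ∃ w : ℝ, w = ω := ⟨_, rfl⟩
  have hw30 : (10 : ℝ) ^ 30 ≤ w := by rw [hw]; exact_mod_cast hω
  have hw1 : (1 : ℝ) ≤ w := le_trans (by norm_num) hw30
  have hw0 : (0 : ℝ) < w := by linarith
  have hp : ∀ a b : ℕ, a ≤ b → w ^ a ≤ w ^ b := fun a b hab => pow_le_pow_right₀ hw1 hab
  obtain ⟨u, hu⟩ : ∃ u : ℝ, u = D.n / w ^ 12 := ⟨_, rfl⟩
  obtain ⟨κ, hκ⟩ : ∃ κ : ℝ, κ = Fintype.card J / w ^ 12 := ⟨_, rfl⟩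
  have hnu : (D.n : ℝ) = w ^ 12 * u := by rw [hu]; field_simp
  have hcκ : (Fintype.card J : ℝ) = w ^ 12 * κ := by rw [hκ]; field_simp
  have hu8 : w ^ 8 ≤ u := by
    rw [hu, le_div_iff₀ (by positivity), ← pow_add, hw]
    exact_mod_cast hn
  have hwu : w ≤ u := le_trans (by simpa using hp 1 8 (by norm_num)) hu8
  have hu1 : 1 ≤ u := hw1.trans hwu
  have huκ : u ≤ κ := by
    rw [hu, hκ]
    exact div_le_div_of_nonneg_right (by exact_mod_cast D.n_le_c) (by positivity)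
  have hκ1 : 1 ≤ κ := hu1.trans huκ
  have hU0' : Sparse D U0 (10 * u) := by
    rw [hu, hw, ← mul_div_assoc]; exact hU0
  have hn1 : (1 : ℝ) ≤ D.n := by exact_mod_cast (by omega : 1 ≤ D.n)
  have hlog' : (D.n : ℝ) ^ 10 ≤ 2 ^ ω := by exact_mod_cast hlog
  have hc2 : (Fintype.card J : ℝ) ≤ 2 ^ ω := by
    have h1 : Fintype.card J ≤ D.n ^ 10 := by
      calc _ ≤ 2 * (D.n * D.n) := D.c_le hn2
        _ ≤ D.n * (D.n * D.n) := Nat.mul_le_mul_right _ hn2
        _ = D.n ^ 3 := by ring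
        _ ≤ D.n ^ 10 := Nat.pow_le_pow_right (by omega) (by norm_num)
    exact_mod_cast h1.trans hlog
  have hL : (D.n : ℝ) ^ 6 ≤ Real.exp w := by
    calc (D.n : ℝ) ^ 6 ≤ D.n ^ 10 := pow_le_pow_right₀ hn1 (by norm_num)
      _ ≤ 2 ^ ω := hlog'
      _ ≤ Real.exp 1 ^ ω := pow_le_pow_left₀ (by norm_num) (by
          have := Real.add_one_le_exp 1
          linarith) _
      _ = Real.exp w := by rw [← Real.exp_nat_mul, mul_one, hw]
  obtain ⟨h, ι, π, hπ, hfib, hr1, hr2⟩ := exists_hub I (le_trans (by omega) D.n_le_r)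
  have hhw : (h : ℝ) ≤ w := by
    rw [hw]
    exact le_of_pow_le (x := Fintype.card J) (by exact_mod_cast hr1.trans D.le) hc2
  obtain ⟨h0, a1, a2⟩ := exists_pow_between (20 * u) (by linarith)
  have hh0 : 1 ≤ h0 := by
    by_contra hc
    obtain rfl : h0 = 0 := by omega
    simp only [pow_zero] at a1
    linarith
  have w12 : (10 : ℝ) ^ 30 * w ^ 11 ≤ w ^ 12 := by
    rw [pow_succ w 11, mul_comm]
    exact mul_le_mul_of_nonneg_left hw30 (by positivity)
  have hu0 : 0 ≤ u := by linarith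
  have hκ0 : 0 ≤ κ := by linarith
  have w12u : (10 : ℝ) ^ 30 * (w ^ 11 * u) ≤ D.n := by
    rw [hnu, ← mul_assoc]
    exact mul_le_mul_of_nonneg_right w12 hu0
  have hpu : ∀ a b : ℕ, a ≤ b → w ^ a * u ≤ w ^ b * u := fun a b hab =>
    mul_le_mul_of_nonneg_right (hp a b hab) hu0
  have hpκ : ∀ a b : ℕ, a ≤ b → w ^ a * κ ≤ w ^ b * κ := fun a b hab =>
    mul_le_mul_of_nonneg_right (hp a b hab) hκ0
  have q0 := hpu 0 11 (by norm_num)
  have q1 := hpu 1 11 (by norm_num)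
  simp only [pow_zero, pow_one, one_mul] at q0 q1
  have hh0w : (h0 : ℝ) ≤ w := by
    rw [hw]
    refine le_of_pow_le (x := Fintype.card J) (a2.trans ?_) hc2
    have : (D.n : ℝ) ≤ Fintype.card J := by exact_mod_cast D.n_le_c
    linarith
  have b1 : (h0 : ℝ) * 2 ^ h0 ≤ 40 * (w * u) := by
    calc (h0 : ℝ) * 2 ^ h0 ≤ w * (2 * (20 * u)) := by gcongr
      _ = _ := by ring
  obtain ⟨col, zp, c1, c2, c3, c4, c5, c6, c7⟩ := colour_phase D (by omega) h h0 hh0 ι π hfib hπ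
    hr2 Z U0 hZU (10 * u) (350 * u) w hU0' (fun j => by
      have h1 : (cJ Z j : ℝ) ≤ cJ U0 j := by exact_mod_cast card_mem_mono' _ hZU
      have h2 := hU0'.cJ j
      have : (2 : ℝ) * cJ Z j ≤ 2 ^ h0 := by linarith
      exact_mod_cast this) (by
        rw [add_mul, one_mul]
        linarith) hL (by linarith)
  have hcb : 350 * u * Fintype.card J / D.n = 350 * κ := by
    rw [hcκ, hnu]
    field_simp
  rw [hcb] at c6 c7
  have hown : ∀ p, own col p ∈ Set.range ι := fun p => (c3 _ _ _ (by omega) p.2.1.2).1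
  have d1 : ∀ i, (ndLoad col i : ℝ) ≤ 700 * (w * κ) := fun i => by
    calc (ndLoad col i : ℝ) ≤ (h0 + 1) * (350 * κ) := c6 i
      _ ≤ (w + w) * (350 * κ) := by gcongr
      _ = _ := by ring
  have k12 := hpκ 1 2 (by norm_num)
  have k15 := hpκ 1 5 (by norm_num)
  have k25 := hpκ 2 5 (by norm_num)
  have k58 := hpκ 5 8 (by norm_num)
  have k0 := hpκ 0 6 (by norm_num)
  have k50 : 0 ≤ w ^ 5 * κ := by positivity
  simp only [pow_one, pow_zero, one_mul] at k12 k15 k0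
  have d2 : ∀ i, (sigLoad ι π col i : ℝ) ≤ 14000 * (w ^ 2 * κ) := fun i => by
    have e1 := sigLoad_le ι π col hπ i (18 * h0 * (350 * κ)) (fun d hd => c7 d hd (π i))
    have e2 : ((h : ℝ) + 1) * (18 * h0 * (350 * κ)) ≤ (w + w) * (18 * w * (350 * κ)) := by gcongr
    have e3 := d1 i
    have e4 : (w + w) * (18 * w * (350 * κ)) = 12600 * (w ^ 2 * κ) := by ring
    linarith
  obtain ⟨Bs, hBs, hBs'⟩ : ∃ Bs : ℕ, (∀ i, sigLoad ι π col i ≤ Bs) ∧
      (Bs : ℝ) ≤ 14000 * (w ^ 2 * κ) :=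
    ⟨⌊14000 * (w ^ 2 * κ)⌋₊, fun i => Nat.le_floor (d2 i), Nat.floor_le (by positivity)⟩
  obtain ⟨M, hM⟩ : ∃ M, M = 4 * ((h + 4) * Bs) := ⟨_, rfl⟩
  have hh5 : (h : ℝ) + 5 ≤ 2 * w := by linarith
  have hM' : (M : ℝ) ≤ 112000 * (w ^ 3 * κ) := by
    rw [hM]
    push_cast
    calc (4 : ℝ) * ((h + 4) * Bs) ≤ 4 * ((2 * w) * (14000 * (w ^ 2 * κ))) := by
          gcongr
          linarith
      _ = _ := by ring
  have d3 : ∀ i, (#{ν | i ∈ (oc ι π col M).pal ν} : ℝ) ≤ 500000 * (w ^ 5 * κ) := fun i => by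
    have e1 : (#{ν | i ∈ (oc ι π col M).pal ν} : ℝ) ≤ sigLoad ι π col i + 4 * (h * h) * M :=
      cast_le_add (nd_load ι π col M hπ i)
    have e2 : (4 : ℝ) * (h * h) * M ≤ 4 * (w * w) * (112000 * (w ^ 3 * κ)) := by gcongr
    have e3 := d2 i
    have e4 : 4 * (w * w) * (112000 * (w ^ 3 * κ)) = 448000 * (w ^ 5 * κ) := by ring
    linarith
  obtain ⟨h1, a3, a4⟩ := exists_pow_between (2000000 * (w ^ 6 * κ)) (by linarith)
  have hh1w : (h1 : ℝ) ≤ w := by
    rw [hw]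
    refine le_of_pow_le (x := Fintype.card J) (a4.trans ?_) hc2
    have e1 := hpκ 6 11 (by norm_num)
    have e2 := mul_le_mul_of_nonneg_right w12 hκ0
    have e3 : 0 ≤ w ^ 11 * κ := by positivity
    rw [hcκ]
    rw [mul_assoc] at e2
    linarith
  have hβc : 500000 * w ^ 5 / w ^ 12 * Fintype.card J = 500000 * (w ^ 5 * κ) := by
    rw [hcκ]; field_simp
  have hβn : 500000 * w ^ 5 / w ^ 12 * D.n = 500000 * (w ^ 5 * u) := by
    rw [hnu]; field_simp
  have hβc' : 10 ^ 9 * w ^ 8 / w ^ 12 * Fintype.card J = 10 ^ 9 * (w ^ 8 * κ) := by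
    rw [hcκ]; field_simp
  have hβn' : 10 ^ 9 * w ^ 8 / w ^ 12 * D.n = 10 ^ 9 * (w ^ 8 * u) := by
    rw [hnu]; field_simp
  have u15 := hpu 1 5 (by norm_num)
  have u08 := hpu 0 8 (by norm_num)
  have u50 : 0 ≤ w ^ 5 * u := by positivity
  have wu0 : 0 ≤ w * u := by positivity
  simp only [pow_one, pow_zero, one_mul] at u15 u08
  have hR : Sparse D (rootF col (cJ D0)) (350 * (w * u)) :=
    rootF_sparse D col _ _ (by linarith) fun x i => (c5 x i).trans (by
      calc (h0 : ℝ) * (350 * u) ≤ w * (350 * u) := by gcongr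
        _ = _ := by ring)
  obtain ⟨σ0, hσ0⟩ := exists_state ι π col M hπ hown hh0 zp Z D0 hD0 c1 Bs hBs hM.ge
  obtain ⟨𝒜, A1, A2, A3, A4⟩ := place_open D hn4 (oc ι π col M) σ0 (h + 5) (h + 3) h1 (by omega)
    (500000 * w ^ 5 / w ^ 12) (10 ^ 9 * w ^ 8 / w ^ 12) w (10 * u + 350 * (w * u))
    (4 * 10 ^ 19 * (w ^ 10 * u))
    (base_ok D ι π col M _ c2 c4 (by rw [hβn]; linarith)
      (fun i => by rw [hβc]; have := d1 i; linarith) (fun i => by rw [hβc]; exact d3 i))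
    (fun ν => (node_card ι π col M ν).trans (by omega)) (cb_mem ι π col M) (Adj ι π)
    (adj_symm ι π) (adj_irrefl ι π) (adj_deg ι π hπ hfib) (tm_adj ι π col M hπ)
    (fun a b => by
      have e0 : ∀ b, (#{τ | (oc ι π col M).cb τ = b} : ℝ) ≤ 1000000 * (w ^ 6 * κ) := fun b => by
        have e1 : (#{τ | (oc ι π col M).cb τ = b} : ℝ) ≤
            (h + 4) * #{ν | b ∈ (oc ι π col M).pal ν} := cast_le_mul (cb_card ι π col M b)
        have e2 : ((h : ℝ) + 4) * #{ν | b ∈ (oc ι π col M).pal ν} ≤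
            (2 * w) * (500000 * (w ^ 5 * κ)) :=
          mul_le_mul (by linarith) (d3 b) (Nat.cast_nonneg _) (by linarith)
        calc _ ≤ _ := e1.trans e2
          _ = _ := by ring
      have e3 : #{τ | ((oc ι π col M).ca τ = a ∧ (oc ι π col M).cb τ = b) ∨
          ((oc ι π col M).ca τ = b ∧ (oc ι π col M).cb τ = a)} ≤
          #{τ | (oc ι π col M).cb τ = b} + #{τ | (oc ι π col M).cb τ = a} := by
        refine le_trans (card_le_card fun τ hτ => ?_) (card_union_le _ _)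
        simp only [mem_filter, mem_univ, true_and, mem_union] at hτ ⊢
        tauto
      have e4 : ((#{τ | (oc ι π col M).cb τ = b} + #{τ | (oc ι π col M).cb τ = a} : ℕ) : ℝ) ≤
          ((2 ^ h1 : ℕ) : ℝ) := by
        push_cast
        have := e0 a
        have := e0 b
        linarith
      exact e3.trans (Nat.cast_le.1 e4))
    (by
      rw [hβc, hβc']
      have e1 : (32 : ℝ) * ((h + 3 : ℕ) : ℝ) * (h1 + 1) * 2 ^ h1 ≤
          32 * (2 * w) * (w + w) * (2 * (2000000 * (w ^ 6 * κ))) := by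
        gcongr
        push_cast
        linarith
      have e2 : 32 * (2 * w) * (w + w) * (2 * (2000000 * (w ^ 6 * κ))) =
          512000000 * (w ^ 8 * κ) := by ring
      linarith)
    (U0 ∪ rootF col (cJ D0)) (hU0'.union hR) hL (by rw [hβn']; linarith)
    (by
      rw [mul_assoc, hβn']
      have e1 : (((h + 5 : ℕ) : ℝ)) ^ 2 ≤ (2 * w) ^ 2 := by
        gcongr
        push_cast
        exact hh5
      calc (10 : ℝ) ^ 10 * ((h + 5 : ℕ) : ℝ) ^ 2 * (10 ^ 9 * (w ^ 8 * u)) ≤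
            10 ^ 10 * (2 * w) ^ 2 * (10 ^ 9 * (w ^ 8 * u)) := by gcongr
        _ = _ := by ring)
    (by
      have e1 : (1000 : ℝ) * ((h + 5 : ℕ) : ℝ) *
          (10 * u + 350 * (w * u) + 4 * 10 ^ 19 * (w ^ 10 * u)) ≤
          1000 * (2 * w) * (10 * u + 350 * (w * u) + 4 * 10 ^ 19 * (w ^ 10 * u)) := by
        gcongr
        push_cast
        exact hh5
      have e2 := hpu 2 11 (by norm_num)
      have e3 : 0 ≤ w ^ 11 * u := by positivity
      have e4 : 1000 * (2 * w) * (10 * u + 350 * (w * u) + 4 * 10 ^ 19 * (w ^ 10 * u)) =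
          20000 * (w * u) + 700000 * (w ^ 2 * u) + 8 * 10 ^ 22 * (w ^ 11 * u) := by ring
      linarith)
  have hRU : Disjoint (rootF col (cJ D0)) U0 := by
    rw [disjoint_left]
    intro l hl
    obtain ⟨p, rfl⟩ := mem_rootF hl
    exact (c3 _ _ _ (by omega) p.2.1.2).2
  rw [disjoint_union_right] at A2
  refine ⟨𝒜 ∪ rootF col (cJ D0), union_subset A1 fun l hl => ?_,
    disjoint_union_left.2 ⟨A2.1, hRU⟩, (A3.union hR).mono Subset.rfl ?_, fun Lc hL hJ hI => ?_⟩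
  · obtain ⟨p, rfl⟩ := mem_rootF hl
    simp
  · have e2 := hpu 10 11 (by norm_num)
    have e3 : 0 ≤ w ^ 11 * u := by positivity
    linarith
  · obtain ⟨s, σ, e1, e2⟩ := hσ0 Lc hL hJ hI
    have e3 := A4 _ s σ e1 e2
    have hLU : Lc ⊆ U0 := hL.trans hZU
    rw [Multiset.map_add, cellM_map (fun l hl => hZ l (hL hl)), ← rootF_val col _ c2] at e3
    unfold DecF
    rw [← disjUnion_eq_union _ _ (disjoint_union_left.2
      ⟨A2.1.mono_right hLU, hRU.mono_right hLU⟩), disjUnion_val, ← disjUnion_eq_union _ _ A2.2,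
      disjUnion_val, add_assoc]
    exact e3

end Pool.Agent.Lib.MP_9dc2ba_co.Large
end

-- part Pool.Agent.Lib.MP_9dc2ba_co.Large.Final
section

/-!
Assembly: the lines of a large design decompose into triangles.
-/

open Finset

set_option linter.unusedSectionVars false

namespace Pool.Agent.Lib.MP_9dc2ba_co.Large

variable {I J X : Type*} [Fintype I] [Fintype J] [Fintype X] [DecidableEq I] [DecidableEq J]
  [DecidableEq X]

namespace Fi

theorem card_mem_sdiff {α β : Type*} [Fintype α] [DecidableEq β] (f : α → β) {U U' : Finset β}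
    (h : U' ⊆ U) : #{a | f a ∈ U} = #{a | f a ∈ U'} + #{a | f a ∈ U \ U'} := by
  rw [← card_mem_union_of_disjoint f disjoint_sdiff, union_sdiff_of_subset h]

theorem card_mem_zero {α β : Type*} [Fintype α] [DecidableEq β] (f : α → β) {U : Finset β}
    (h : ∀ a, f a ∉ U) : #{a | f a ∈ U} = 0 := by
  simp [h]

/-- Covering the leftover cells by triangles whose other lines are reserved. -/
theorem cover_down (D : Des I J X) (hn : 100 ≤ D.n) (F R : Finset (Ln I J X))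
    (hR : R ⊆ valid D) (t ml β L : ℝ) (hml0 : 0 < ml) (hml : ml ≤ D.n) (hβ : 0 ≤ β)
    (hloc : ∀ i j, 2 * ml ≤ #{x | sym x i ∈ R ∧ edg j x ∈ R})
    (load1 : ∀ j, (cJ F j : ℝ) ≤ β * D.n) (load2 : ∀ i, (cI F i : ℝ) ≤ β * Fintype.card J)
    (hsm : 4 * t ≤ ml) (hsm' : 60 * t ≤ D.n) (hL : (D.n : ℝ) ^ 6 ≤ Real.exp L)
    (ht : 130 * β * D.n * (D.n / ml) + 4 * L ≤ t) :
    ∃ S ⊆ F ∪ R, DecF S ∧ (∀ i j, cel i j ∈ F → cel i j ∈ S) ∧ (∀ x, (sX S x : ℝ) ≤ t) ∧
      ∀ x, (eX S x : ℝ) ≤ t := by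
  obtain ⟨y, hy, hdis, hsp⟩ := place_sym D hn (T := {p : I × J // cel p.1 p.2 ∈ F})
    (fun p => {p.1.1}) (fun p => some p.1.2)
    (fun p => {x | sym x p.1.1 ∈ R ∧ edg p.1.2 x ∈ R}) ∅ 0 t ml β L hml0 hml hβ
    (fun _ => by simp)
    (fun p j hj x hx => by
      obtain rfl : p.1.2 = j := Option.some.inj hj
      simpa using hR (mem_filter.1 hx).2.2)
    (fun p _ _ => hloc _ _) (fun p hp => by simp at hp)
    (fun j => by
      refine le_trans (Nat.cast_le.2 ?_) (load1 j)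
      refine card_le_card_of_injOn (fun p => p.1.1) (fun p hp => ?_) fun p hp q hq h => ?_
      · simp only [coe_filter, mem_univ, true_and, Set.mem_ofPred_eq, Option.some.injEq] at hp ⊢
        exact hp ▸ p.2
      · simp only [coe_filter, mem_univ, true_and, Set.mem_ofPred_eq, Option.some.injEq] at hp hq
        exact Subtype.ext (Prod.ext h (hp.trans hq.symm)))
    (fun i => by
      refine le_trans (Nat.cast_le.2 ?_) (load2 i)
      refine card_le_card_of_injOn (fun p => p.1.2) (fun p hp => ?_) fun p hp q hq h => ?_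
      · simp only [coe_filter, mem_univ, true_and, Set.mem_ofPred_eq, mem_singleton] at hp ⊢
        exact hp ▸ p.2
      · simp only [coe_filter, mem_univ, true_and, Set.mem_ofPred_eq, mem_singleton] at hp hq
        exact Subtype.ext (Prod.ext (hp.symm.trans hq) h))
    (Sparse.empty D) (by linarith) (by linarith) hL ht
  have hsl : ∀ (i : I) (j : J) (x : X) (l : Ln I J X),
      l ∈ symLn {i} (some j) x ↔ l = sym x i ∨ l = edg j x := fun i j x l => by
    simp [symLn]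
  set T : Finset (I × J × X) :=
    univ.image fun p : {p : I × J // cel p.1 p.2 ∈ F} => (p.1.1, p.1.2, y p) with hT
  have hmem : ∀ l, l ∈ T.biUnion triF ↔ ∃ p : {p : I × J // cel p.1 p.2 ∈ F},
      l = cel p.1.1 p.1.2 ∨ l ∈ symLn {p.1.1} (some p.1.2) (y p) := fun l => by
    simp only [hT, mem_biUnion, mem_image, mem_univ, true_and, exists_exists_eq_and, triF,
      mem_insert, mem_singleton, hsl]
  refine ⟨T.biUnion triF, fun l hl => ?_, decF_biUnion _ ?_, fun i j hij => ?_, fun x => ?_,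
    fun x => ?_⟩
  · obtain ⟨p, rfl | hp⟩ := (hmem l).1 hl
    · exact mem_union_left _ p.2
    · have := (mem_filter.1 (hy p).1).2
      rcases (hsl _ _ _ _).1 hp with rfl | rfl
      · exact mem_union_right _ this.1
      · exact mem_union_right _ this.2
  · intro a ha b hb hab
    obtain ⟨p, -, rfl⟩ := mem_image.1 ha
    obtain ⟨q, -, rfl⟩ := mem_image.1 hb
    have hpq : p ≠ q := fun h => hab (by rw [h])
    have hd := disjoint_left.1 (hdis p q hpq)
    rw [disjoint_left]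
    intro l hl hl'
    simp only [triF, mem_insert, mem_singleton] at hl hl'
    rcases hl with rfl | hl
    · simp only [Ln.cel.injEq, reduceCtorEq, or_false] at hl'
      exact hpq (Subtype.ext (Prod.ext hl'.1 hl'.2))
    · rcases hl' with rfl | hl'
      · simp at hl
      · exact hd ((hsl _ _ _ _).2 hl) ((hsl _ _ _ _).2 hl')
  · exact (hmem _).2 ⟨⟨(i, j), hij⟩, Or.inl rfl⟩
  · refine le_trans (Nat.cast_le.2 (card_le_card fun i hi => ?_)) (hsp.sX x)
    simp only [mem_filter, mem_univ, true_and] at hi ⊢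
    obtain ⟨p, hp | hp⟩ := (hmem _).1 hi
    · simp at hp
    · exact mem_biUnion.2 ⟨p, mem_univ _, hp⟩
  · refine le_trans (Nat.cast_le.2 (card_le_card fun i hi => ?_)) (hsp.eX x)
    simp only [mem_filter, mem_univ, true_and] at hi ⊢
    obtain ⟨p, hp | hp⟩ := (hmem _).1 hi
    · simp at hp
    · exact mem_biUnion.2 ⟨p, mem_univ _, hp⟩

/-- Counting with the reserved lines replaced by the remaining lines. -/
theorem card_swap {α β : Type*} [Fintype α] [DecidableEq β] (f : α → β) (p : α → Prop)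
    [DecidablePred p] (F R S : Finset β) :
    (#{a | f a ∈ R ∧ p a} : ℝ) - #{a | f a ∈ S} ≤
        #{a ∈ ({a | f a ∈ (F ∪ R) \ S} : Finset α) | p a} ∧
      (#{a ∈ ({a | f a ∈ (F ∪ R) \ S} : Finset α) | p a} : ℝ) ≤
        #{a | f a ∈ R ∧ p a} + #{a | f a ∈ F} := by
  classical
  constructor
  · rw [sub_le_iff_le_add]
    norm_cast
    refine le_trans (card_le_card fun a ha => ?_) (card_union_le _ _)
    simp only [mem_filter, mem_univ, true_and, mem_union, mem_sdiff] at ha ⊢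
    tauto
  · norm_cast
    refine le_trans (card_le_card fun a ha => ?_) (card_union_le _ _)
    simp only [mem_filter, mem_univ, true_and, mem_union, mem_sdiff] at ha ⊢
    tauto

/-- The third phase applied to the lines remaining after the first two phases. -/
theorem finish (D : Des I J X) (hn : 100 ≤ D.n) (F R S Z : Finset (Ln I J X))
    (hF : F ⊆ valid D) (hR : R ⊆ valid D) (d γ κ L e s t g m z : ℝ) (hd : 0 < d) (hγ0 : 0 ≤ γ)
    (hab : ∀ x, sX ((F ∪ R) \ S) x = eX ((F ∪ R) \ S) x)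
    (dA : ∀ x i, |(#{j | edg j x ∈ R ∧ cel i j ∈ Z} : ℝ) - d| ≤ e)
    (dB : ∀ x j, |(#{i | sym x i ∈ R ∧ cel i j ∈ Z} : ℝ) - d| ≤ e)
    (cod : ∀ x i i', g ≤ #{j | edg j x ∈ R ∧ cel i j ∈ Z ∧ cel i' j ∈ Z})
    (hm : ∀ i j, (#{x | sym x i ∈ R ∧ edg j x ∈ R} : ℝ) ≤ m) (hz : ∀ x, z ≤ sX R x)
    (s1 : ∀ x, (sX F x : ℝ) ≤ s) (s2 : ∀ x, (eX F x : ℝ) ≤ s) (s3 : ∀ j, (eJ F j : ℝ) ≤ 2 * s)
    (s4 : ∀ j i, (sN D F j i : ℝ) ≤ s) (t1 : ∀ x, (sX S x : ℝ) ≤ t) (t2 : ∀ x, (eX S x : ℝ) ≤ t)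
    (a1 : e + s ≤ d / 400) (a2 : e + t ≤ d / 400) (a3 : 2 * γ + t ≤ g)
    (a4 : d ^ 2 ≤ 20 * (z - t) * γ) (a5 : m + 3 * s ≤ κ) (hL : (D.n : ℝ) ^ 6 ≤ Real.exp L)
    (hL0 : 0 ≤ L) (h1 : 5 * κ + L ≤ d / 400) (h2 : 2 * (5 * κ + L) ≤ γ) :
    ∃ S3 : Finset (Ln I J X), DecF S3 ∧ (∀ x i, sym x i ∈ S3 ↔ sym x i ∈ (F ∪ R) \ S) ∧
      (∀ j x, edg j x ∈ S3 ↔ edg j x ∈ (F ∪ R) \ S) ∧ ∀ i j, cel i j ∈ S3 → cel i j ∈ Z := by
  obtain ⟨S3, q1, q2, q3, q4⟩ := phase3 Z (fun x => {i | sym x i ∈ (F ∪ R) \ S})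
    (fun x => {j | edg j x ∈ (F ∪ R) \ S}) hab d γ κ L hd
    (fun x i _ => by
      obtain ⟨c1, c2⟩ := card_swap (fun j => edg j x) (fun j => cel i j ∈ Z) F R S
      have e1 := abs_le.1 (dA x i)
      have e2 := s2 x
      have e3 := t2 x
      unfold eX at e2 e3
      rw [abs_le]
      constructor <;> linarith [e1.1, e1.2])
    (fun x j _ => by
      obtain ⟨c1, c2⟩ := card_swap (fun i => sym x i) (fun i => cel i j ∈ Z) F R S
      have e1 := abs_le.1 (dB x j)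
      have e2 := s1 x
      have e3 := t1 x
      unfold sX at e2 e3
      rw [abs_le]
      constructor <;> linarith [e1.1, e1.2])
    (fun x i _ i' _ => by
      obtain ⟨c1, -⟩ := card_swap (fun j => edg j x) (fun j => cel i j ∈ Z ∧ cel i' j ∈ Z) F R S
      have e1 := cod x i i'
      have e3 := t2 x
      unfold eX at e3
      linarith)
    (fun x => by
      obtain ⟨c1, -⟩ := card_swap (fun i => sym x i) (fun _ => True) F R S
      simp only [and_true, filter_true] at c1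
      have e1 := hz x
      have e3 := t1 x
      unfold sX at e1 e3
      refine a4.trans (mul_le_mul_of_nonneg_right ?_ hγ0)
      linarith)
    (fun i j => by
      have e1 : #{x | i ∈ ({i | sym x i ∈ (F ∪ R) \ S} : Finset I) ∧
          j ∈ ({j | edg j x ∈ (F ∪ R) \ S} : Finset J)} ≤
          #{x | sym x i ∈ R ∧ edg j x ∈ R} + (sN D F j i + eJ F j) := by
        refine le_trans (card_le_card fun x hx => ?_)
          ((card_union_le _ _).trans (Nat.add_le_add_left (card_union_le _ _) _))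
        simp only [mem_filter, mem_univ, true_and, mem_union, mem_sdiff] at hx ⊢
        have hB : j ∈ D.B x := by
          rcases hx.2.1 with h | h
          · simpa using hF h
          · simpa using hR h
        tauto
      have e2 := (Nat.cast_le (α := ℝ)).2 e1
      push_cast at e2
      linarith [hm i j, s3 j, s4 j i])
    (by
      refine lt_of_lt_of_le ?_ hL
      have h1 := D.c_le (by omega)
      have h2 := D.v_le
      have h3 := D.le
      have h4 : Fintype.card X * (Fintype.card I + Fintype.card J) ≤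
          4 * (D.n * D.n) * (4 * (D.n * D.n)) := Nat.mul_le_mul (by omega) (by omega)
      have h5 : 100 * 100 ≤ D.n * D.n := Nat.mul_le_mul hn hn
      have h6 : D.n ^ 6 = (D.n * D.n) * ((D.n * D.n) * (D.n * D.n)) := by ring
      have h7 : Fintype.card X * (Fintype.card I + Fintype.card J) < D.n ^ 6 := by
        rw [h6]
        have h8 := Nat.mul_le_mul_right ((D.n * D.n) * (D.n * D.n)) h5
        nlinarith
      exact_mod_cast h7)
    hL0 h1 h2
  exact ⟨S3, q1, fun x i => by simpa using q2 x i, fun j x => by simpa using q3 j x, q4⟩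

theorem cnt1 {α β : Type*} [Fintype α] [DecidableEq β] (f : α → β) {V R Z E A : Finset β}
    (hUv : (R ∪ Z) ∪ A ⊆ V) (hAd : Disjoint A (R ∪ Z)) (hRZ : Disjoint R Z) (hE : E ⊆ Z) :
    #{a | f a ∈ V} = #{a | f a ∈ V \ ((R ∪ Z) ∪ A)} + #{a | f a ∈ R} + #{a | f a ∈ E} +
      #{a | f a ∈ A ∪ (Z \ E)} := by
  rw [card_mem_sdiff f hUv, card_mem_union_of_disjoint f hAd.symm,
    card_mem_union_of_disjoint f hRZ, card_mem_sdiff f hE,
    card_mem_union_of_disjoint f ((hAd.mono_right subset_union_right).mono_right sdiff_subset)]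
  ring

theorem cnt2 {α β : Type*} [Fintype α] [DecidableEq β] (f : α → β) {M R S1 S2 : Finset β}
    (h1 : S1 ⊆ M) (hd : Disjoint M R) (h2 : S2 ⊆ M \ S1 ∪ R) :
    #{a | f a ∈ M} + #{a | f a ∈ R} =
      #{a | f a ∈ S1} + #{a | f a ∈ S2} + #{a | f a ∈ (M \ S1 ∪ R) \ S2} := by
  have := card_mem_sdiff f h2
  rw [card_mem_union_of_disjoint f (hd.mono_left sdiff_subset)] at this
  rw [card_mem_sdiff f h1]
  omega

theorem assemble {V R Z A S1 S2 S3 : Finset (Ln I J X)} (hUv : (R ∪ Z) ∪ A ⊆ V)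
    (hAR : Disjoint A R) (hAZ : Disjoint A Z) (hRZ : Disjoint R Z) (hS1 : S1 ⊆ V \ (R ∪ Z ∪ A))
    (hS2 : S2 ⊆ (V \ (R ∪ Z ∪ A)) \ S1 ∪ R)
    (h3 : ∀ l ∈ S3, l ∈ ((V \ (R ∪ Z ∪ A)) \ S1 ∪ R) \ S2 ∨ l ∈ Z)
    (h3' : ∀ l ∈ ((V \ (R ∪ Z ∪ A)) \ S1 ∪ R) \ S2, l ∈ S3) (hd1 : DecF S1) (hd2 : DecF S2)
    (hd3 : DecF S3) (hd4 : DecF (A ∪ (Z \ S3))) : DecF V := by
  have key : ∀ l, (l ∈ S1 → l ∈ V \ (R ∪ Z ∪ A)) ∧ (l ∈ S2 → l ∈ (V \ (R ∪ Z ∪ A)) \ S1 ∪ R) ∧
      (l ∈ S3 → l ∈ ((V \ (R ∪ Z ∪ A)) \ S1 ∪ R) \ S2 ∨ l ∈ Z) ∧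
      (l ∈ ((V \ (R ∪ Z ∪ A)) \ S1 ∪ R) \ S2 → l ∈ S3) ∧ (l ∈ R → l ∉ Z) ∧ (l ∈ A → l ∉ R) ∧
      (l ∈ A → l ∉ Z) ∧ (l ∈ R ∪ Z ∪ A → l ∈ V) := fun l =>
    ⟨fun h => hS1 h, fun h => hS2 h, h3 l, h3' l, fun h => disjoint_left.1 hRZ h,
      fun h => disjoint_left.1 hAR h, fun h => disjoint_left.1 hAZ h, fun h => hUv h⟩
  simp only [mem_union, mem_sdiff] at key
  have heq : V = ((S1 ∪ S2) ∪ S3) ∪ (A ∪ (Z \ S3)) := by
    ext l
    have := key l
    simp only [mem_union, mem_sdiff]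
    grind
  rw [heq]
  refine ((hd1.union hd2 ?_).union hd3 ?_).union hd4 ?_ <;>
  · rw [disjoint_left]
    intro l hl hl'
    have := key l
    grind

theorem abs_sub_of {a b c d u t : ℝ} (h : a + c = b + d) (h1 : |c - u| ≤ t) (h2 : |d - u| ≤ t) :
    |a - b| ≤ 2 * t := by
  rw [abs_le] at h1 h2 ⊢
  constructor <;> linarith [h1.1, h1.2, h2.1, h2.2]

theorem core (D : Des I J X) (ω : ℕ) (hω : 10 ^ 30 ≤ ω) (hlog : D.n ^ 10 ≤ 2 ^ ω)
    (hn20 : ω ^ 20 ≤ D.n) (hn8 : 10 ^ 8 ≤ D.n) (ξ ζ τ σ t L : ℝ) (hζ : 0 < ζ) (hζξ : ζ ≤ ξ)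
    (hξ : ξ ≤ 1 / 10) (hτ : 0 < τ) (hσ : 0 < σ) (hσ' : σ ≤ 1 / 10) (hL0 : 0 ≤ L)
    (hL : (D.n : ℝ) ^ 6 ≤ Real.exp L) (a1 : 4 * L * D.n ≤ τ ^ 2)
    (a2 : 6 * ξ * D.n + 3 * τ ≤ 10 * D.n / ω ^ 12) (a3 : 10 * (D.n : ℝ) / ω ^ 12 ≤ D.n / 2000)
    (a4 : 400 * τ ≤ σ * D.n) (a5 : 100 * L ≤ D.n * σ ^ 5) (a6 : 6 * τ ≤ ζ ^ 2 * D.n)
    (a7 : 12 * t ≤ ζ ^ 2 * D.n)
    (a8 : 130 * (21 * σ) * D.n * (D.n / (ζ ^ 2 * D.n / 3)) + 4 * L ≤ t)
    (a9 : (ξ ^ 2 + ζ) * ζ * D.n + 10 * τ + 10 * σ * D.n ≤ 2 * ξ * ζ * D.n / 400)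
    (a9' : (ξ ^ 2 + ζ) * ζ * D.n + 10 * τ + t ≤ 2 * ξ * ζ * D.n / 400)
    (a10 : 3 * τ + t ≤ ξ ^ 2 * ζ * D.n / 3) (a11 : τ + t ≤ 2 / 5 * (ζ * D.n))
    (a12 : 2 * τ + 30 * σ * D.n ≤ ζ ^ 2 * D.n)
    (a13 : 10 * ζ ^ 2 * D.n + L ≤ 2 * ξ * ζ * D.n / 400)
    (a14 : 20 * ζ ^ 2 * D.n + 2 * L ≤ ξ ^ 2 * ζ * D.n / 3) : DecF (valid D) := by
  have hn : 100 ≤ D.n := le_trans (by norm_num) hn8
  have hn0 : (0 : ℝ) < D.n := by exact_mod_cast (by omega : 0 < D.n)
  have hξ0 : 0 < ξ := hζ.trans_le hζξ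
  obtain ⟨R, Z, E, hR, hRc, hZ, hE, z1, z2, z3, z4, z5, z6, z7, z8, z9, z10, z11⟩ :=
    zone D hn ξ ζ τ L hζ hζξ hξ hτ.le hL a1
  obtain ⟨A, hAv, hAd, hAs, habs⟩ := absorber D ω hω hlog hn20 Z (Z \ E) (R ∪ Z) hZ sdiff_subset
    subset_union_right (z11.mono Subset.rfl a2)
  have hdec0 : DecF (A ∪ (Z \ E)) := habs _ sdiff_subset (fun _ => rfl) fun _ => rfl
  have hZv : Z ⊆ valid D := fun l hl => by
    obtain ⟨i, j, rfl⟩ := hZ l hl
    simp
  have hRZ : Disjoint R Z := disjoint_left.2 fun l h1 h2 => by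
    obtain ⟨i, j, rfl⟩ := hZ l h2
    exact hRc i j h1
  have hZs : ∀ x i, sym x i ∉ Z := fun x i h => by simpa using hZ _ h
  have hZe : ∀ j x, edg j x ∉ Z := fun j x h => by simpa using hZ _ h
  have hAZ : Disjoint A Z := hAd.mono_right subset_union_right
  have hAR : Disjoint A R := hAd.mono_right subset_union_left
  set U := (R ∪ Z) ∪ A with hU
  have hUv : U ⊆ valid D := union_subset (union_subset hR hZv) hAv
  set M := valid D \ U with hM
  have vX : ∀ x, sX (valid D) x = eX (valid D) x := fun x => by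
    simp only [sX, eX, sym_mem_valid, edg_mem_valid, filter_mem_eq_inter, univ_inter, D.cardA,
      D.cardB]
  have vJ : ∀ j, cJ (valid D) j = eJ (valid D) j := fun j => by
    simp only [cJ, eJ, cel_mem_valid, edg_mem_valid, filter_true, card_univ, D.degJ, D.cardI]
  have vI : ∀ i, cI (valid D) i = sI (valid D) i := fun i => by
    simp only [cI, sI, cel_mem_valid, sym_mem_valid, filter_true, card_univ, D.degI]
  have bX : ∀ x, sX M x + sX R x = eX M x + eX R x := fun x => by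
    have e1 := cnt1 (fun i => sym x i) hUv hAd hRZ hE
    have e2 := cnt1 (fun j => edg j x) hUv hAd hRZ hE
    rw [card_mem_zero (U := E) _ fun i h => hZs x i (hE h)] at e1
    rw [card_mem_zero (U := E) _ fun j h => hZe j x (hE h)] at e2
    have e3 := hdec0.balX x
    have e4 := vX x
    rw [← hU, ← hM] at e1 e2
    unfold sX eX at e3 e4 ⊢
    omega
  have bJ : ∀ j, cJ M j + cJ E j = eJ M j + eJ R j := fun j => by
    have e1 := cnt1 (fun i => cel i j) hUv hAd hRZ hE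
    have e2 := cnt1 (fun x => edg j x) hUv hAd hRZ hE
    rw [card_mem_zero (U := R) _ fun i => hRc i j] at e1
    rw [card_mem_zero (U := E) _ fun x h => hZe j x (hE h)] at e2
    have e3 := hdec0.balJ j
    have e4 := vJ j
    rw [← hU, ← hM] at e1 e2
    unfold cJ eJ at e3 e4 ⊢
    omega
  have bI : ∀ i, cI M i + cI E i = sI M i + sI R i := fun i => by
    have e1 := cnt1 (fun j => cel i j) hUv hAd hRZ hE
    have e2 := cnt1 (fun x => sym x i) hUv hAd hRZ hE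
    rw [card_mem_zero (U := R) _ fun j => hRc i j] at e1
    rw [card_mem_zero (U := E) _ fun x h => hZs x i (hE h)] at e2
    have e3 := hdec0.balI i
    have e4 := vI i
    rw [← hU, ← hM] at e1 e2
    unfold cI sI at e3 e4 ⊢
    omega
  have dX : ∀ x, |(sX M x : ℝ) - eX M x| ≤ 2 * τ := fun x =>
    abs_sub_of (by exact_mod_cast bX x) (z1 x) (z2 x)
  have dJ : ∀ j, |(cJ M j : ℝ) - eJ M j| ≤ 2 * τ := fun j =>
    abs_sub_of (by exact_mod_cast bJ j) (z4 j) (z3 j)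
  have dI : ∀ i, |(cI M i : ℝ) - sI M i| ≤ 2 * τ * Fintype.card J / D.n := fun i =>
    (abs_sub_of (by exact_mod_cast bI i) (z6 i) (z5 i)).trans_eq (by ring)
  obtain ⟨y, hy⟩ := boost D hn8 U ((z11.union hAs).mono Subset.rfl (by linarith)) (2 * τ)
    (by linarith) dX dJ dI
  have hδ : 100 * (2 * τ) / D.n ≤ σ / 2 := by
    rw [div_le_iff₀ hn0]
    linarith
  obtain ⟨S1, hS1, hd1, m1, m2, m3, m4⟩ := main_phase D hn M sdiff_subset y σ L hσ hσ'
    ⟨hy.nonneg, hy.le, hy.supp, fun i j h => (hy.cel i j h).trans hδ,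
      fun i j h => (hy.sym i j h).trans hδ, fun i j h => (hy.edg i j h).trans hδ⟩ hL a5
  set F := M \ S1 with hF
  have hc0 : (0 : ℝ) ≤ Fintype.card J := by positivity
  have l1 : ∀ j, (cJ F j : ℝ) ≤ 21 * σ * D.n := fun j => by
    have e1 : cJ M j = cJ S1 j + cJ F j := card_mem_sdiff (fun i => cel i j) hS1
    have e2 : eJ M j = eJ S1 j + eJ F j := card_mem_sdiff (fun x => edg j x) hS1
    have e3 := (abs_le.1 (dJ j)).2
    rw [e1, e2, hd1.balJ j] at e3
    push_cast at e3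
    linarith [m3 j]
  have l2 : ∀ i, (cI F i : ℝ) ≤ 21 * σ * Fintype.card J := fun i => by
    have e1 : cI M i = cI S1 i + cI F i := card_mem_sdiff (fun j => cel i j) hS1
    have e2 : sI M i = sI S1 i + sI F i := card_mem_sdiff (fun x => sym x i) hS1
    have e3 := (abs_le.1 (dI i)).2
    rw [e1, e2, hd1.balI i] at e3
    push_cast at e3
    have e4 := D.sI_le (by omega) m4 i
    have e5 : 10 * σ * D.n * Fintype.card J / D.n = 10 * σ * Fintype.card J := by field_simp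
    have e6 : 2 * τ * Fintype.card J / D.n ≤ σ * Fintype.card J := by
      rw [div_le_iff₀ hn0]
      have := mul_le_mul_of_nonneg_right (show 2 * τ ≤ σ * D.n by linarith) hc0
      linarith
    have e7 : 0 ≤ σ * Fintype.card J := by positivity
    linarith
  have hζn : ζ ^ 2 * D.n ≤ D.n := by
    have : ζ ^ 2 ≤ 1 := by nlinarith
    nlinarith
  obtain ⟨S2, hS2, hd2, hc2, t1, t2⟩ := cover_down D hn F R hR t (ζ ^ 2 * D.n / 3) (21 * σ) L
    (by positivity) (by linarith) (by positivity)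
    (fun i j => by linarith [(abs_le.1 (z7 i j)).1]) l1 l2 (by linarith)
    (by
      have : ζ ^ 2 ≤ 1 / 100 := by nlinarith
      nlinarith) hL a8
  have hMR : Disjoint M R :=
    disjoint_left.2 fun l h1 h2 => (mem_sdiff.1 h1).2 (mem_union_left _ (mem_union_left _ h2))
  set G := (F ∪ R) \ S2 with hG
  have hGc : ∀ i j, cel i j ∉ G := fun i j h => by
    rcases mem_union.1 (mem_sdiff.1 h).1 with h1 | h1
    · exact (mem_sdiff.1 h).2 (hc2 i j h1)
    · exact hRc i j h1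
  have hab : ∀ x, sX G x = eX G x := fun x => by
    have e1 : sX M x + sX R x = sX S1 x + sX S2 x + sX G x := cnt2 (fun i => sym x i) hS1 hMR hS2
    have e2 : eX M x + eX R x = eX S1 x + eX S2 x + eX G x := cnt2 (fun j => edg j x) hS1 hMR hS2
    have e3 := hd1.balX x
    have e4 := hd2.balX x
    have e5 := bX x
    omega
  have gJ : ∀ j, eJ G j = cJ E j := fun j => by
    have e1 : cJ M j + cJ R j = cJ S1 j + cJ S2 j + cJ G j := cnt2 (fun i => cel i j) hS1 hMR hS2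
    have e2 : eJ M j + eJ R j = eJ S1 j + eJ S2 j + eJ G j := cnt2 (fun x => edg j x) hS1 hMR hS2
    have e3 := hd1.balJ j
    have e4 := hd2.balJ j
    have e5 := bJ j
    have e6 : cJ R j = 0 := card_mem_zero _ fun i => hRc i j
    have e7 : cJ G j = 0 := card_mem_zero _ fun i => hGc i j
    omega
  have gI : ∀ i, sI G i = cI E i := fun i => by
    have e1 : cI M i + cI R i = cI S1 i + cI S2 i + cI G i := cnt2 (fun j => cel i j) hS1 hMR hS2
    have e2 : sI M i + sI R i = sI S1 i + sI S2 i + sI G i := cnt2 (fun x => sym x i) hS1 hMR hS2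
    have e3 := hd1.balI i
    have e4 := hd2.balI i
    have e5 := bI i
    have e6 : cI R i = 0 := card_mem_zero _ fun j => hRc i j
    have e7 : cI G i = 0 := card_mem_zero _ fun j => hGc i j
    omega
  have hFv : F ⊆ valid D := sdiff_subset.trans sdiff_subset
  obtain ⟨S3, hd3, q2, q3, q4⟩ := finish D hn F R S2 Z hFv hR (2 * ξ * ζ * D.n)
    (ξ ^ 2 * ζ * D.n / 3) (2 * ζ ^ 2 * D.n) L ((ξ ^ 2 + ζ) * ζ * D.n + 10 * τ) (10 * σ * D.n) t
    (ξ ^ 2 * ζ * D.n - 3 * τ) (ζ ^ 2 * D.n + 2 * τ) (ζ * D.n - τ) (by positivity) (by positivity)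
    hab z8 z9 z10 (fun i j => by linarith [(abs_le.1 (z7 i j)).2])
    (fun x => by linarith [(abs_le.1 (z1 x)).1]) m1 m2 (fun j => by linarith [m3 j]) m4 t1 t2
    a9 a9' (by linarith)
    (by
      have e1 : 3 / 5 * (ζ * D.n) ≤ ζ * D.n - τ - t := by linarith
      have e2 := mul_le_mul_of_nonneg_right e1
        (show 0 ≤ 20 * (ξ ^ 2 * ζ * D.n / 3) by positivity)
      linarith)
    (by linarith) hL hL0 (by linarith) (by linarith)
  have hcJ : ∀ j, cJ (Z \ S3) j = cJ (Z \ E) j := fun j => by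
    have e1 : cJ Z j = cJ E j + cJ (Z \ E) j := card_mem_sdiff (fun i => cel i j) hE
    have e2 : cJ Z j = cJ (Z ∩ S3) j + cJ (Z \ (Z ∩ S3)) j :=
      card_mem_sdiff (fun i => cel i j) inter_subset_left
    have e3 : cJ (Z ∩ S3) j = cJ S3 j := by
      unfold cJ
      congr 1
      ext i
      simpa using q4 i j
    have e4 : eJ S3 j = eJ G j := by
      unfold eJ
      simp only [q3, hG]
    rw [sdiff_inter_self_left, e3, hd3.balJ j, e4, gJ] at e2
    omega
  have hcI : ∀ i, cI (Z \ S3) i = cI (Z \ E) i := fun i => by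
    have e1 : cI Z i = cI E i + cI (Z \ E) i := card_mem_sdiff (fun j => cel i j) hE
    have e2 : cI Z i = cI (Z ∩ S3) i + cI (Z \ (Z ∩ S3)) i :=
      card_mem_sdiff (fun j => cel i j) inter_subset_left
    have e3 : cI (Z ∩ S3) i = cI S3 i := by
      unfold cI
      congr 1
      ext j
      simpa using q4 i j
    have e4 : sI S3 i = sI G i := by
      unfold sI
      simp only [q2, hG]
    rw [sdiff_inter_self_left, e3, hd3.balI i, e4, gI] at e2
    omega
  have hd4 := habs (Z \ S3) sdiff_subset hcJ hcI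
  have h3 : ∀ l ∈ S3, l ∈ G ∨ l ∈ Z := fun l hl => by
    cases l with
    | cel i j => exact Or.inr (q4 i j hl)
    | sym x i => exact Or.inl ((q2 x i).1 hl)
    | edg j x => exact Or.inl ((q3 j x).1 hl)
  have h3' : ∀ l ∈ G, l ∈ S3 := fun l hl => by
    cases l with
    | cel i j => exact absurd hl (hGc i j)
    | sym x i => exact (q2 x i).2 hl
    | edg j x => exact (q3 j x).2 hl
  exact assemble hUv hAR hAZ hRZ hS1 hS2 h3 h3' hd1 hd2 hd3 hd4

end Fi

theorem decomp (D : Des I J X) (ω : ℕ) (hω : 10 ^ 30 ≤ ω) (hlog : D.n ^ 10 ≤ 2 ^ ω)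
    (hn : ω ^ 520 ≤ D.n) : DecF (valid D) := by
  have hω1 : 1 ≤ ω := le_trans (by norm_num) hω
  have hn20 : ω ^ 20 ≤ D.n := (Nat.pow_le_pow_right hω1 (by norm_num)).trans hn
  have hn8 : 10 ^ 8 ≤ D.n :=
    le_trans (by norm_num) (hω.trans ((Nat.le_self_pow (by norm_num) ω).trans hn))
  have hw : (10 : ℝ) ^ 30 ≤ ω := by exact_mod_cast hω
  have hw0 : (0 : ℝ) < ω := lt_of_lt_of_le (by norm_num) hw
  have hn0 : (0 : ℝ) < D.n := by exact_mod_cast (by omega : 0 < D.n)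
  obtain ⟨ε, hε⟩ : ∃ ε : ℝ, ε = (ω : ℝ)⁻¹ := ⟨_, rfl⟩
  have hε0 : 0 < ε := hε ▸ inv_pos.2 hw0
  have hεw : ε * ω = 1 := hε ▸ inv_mul_cancel₀ hw0.ne'
  have hε1 : ε ≤ 1 / 10 ^ 30 := by
    rw [hε, one_div]
    exact inv_anti₀ (by norm_num) hw
  have hε2 : ε ≤ 1 := hε1.trans (by norm_num)
  have hp : ∀ k l : ℕ, k < l → ε ^ l ≤ ε ^ k / 10 ^ 30 := fun k l h => by
    calc ε ^ l ≤ ε ^ (k + 1) := pow_le_pow_of_le_one hε0.le hε2 h
      _ = ε ^ k * ε := pow_succ _ _
      _ ≤ ε ^ k * (1 / 10 ^ 30) := mul_le_mul_of_nonneg_left hε1 (by positivity)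
      _ = _ := by ring
  have hm : ∀ k l : ℕ, k < l → ε ^ l * D.n ≤ ε ^ k * D.n / 10 ^ 30 := fun k l h => by
    have := mul_le_mul_of_nonneg_right (hp k l h) hn0.le
    linarith
  have hm0 : ∀ k : ℕ, 0 ≤ ε ^ k * D.n := fun k => by positivity
  have hLn : (ω : ℝ) ≤ ε ^ 519 * D.n := by
    have h1 : (ω : ℝ) ^ 520 ≤ D.n := by exact_mod_cast hn
    calc (ω : ℝ) = ε ^ 519 * ω ^ 520 := by
          rw [pow_succ (ω : ℝ) 519, ← mul_assoc, ← mul_pow, hεw, one_pow, one_mul]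
      _ ≤ _ := mul_le_mul_of_nonneg_left h1 (by positivity)
  have hdiv : 10 * (D.n : ℝ) / ω ^ 12 = 10 * (ε ^ 12 * D.n) := by
    rw [hε, inv_pow]
    ring
  have hL : (D.n : ℝ) ^ 6 ≤ Real.exp ω := by
    have h1 : D.n ^ 6 ≤ 2 ^ ω := (Nat.pow_le_pow_right (by omega) (by norm_num)).trans hlog
    have h2 : (D.n : ℝ) ^ 6 ≤ 2 ^ ω := by exact_mod_cast h1
    refine h2.trans ?_
    rw [← Real.exp_one_pow]
    exact pow_le_pow_left₀ (by norm_num) (by linarith [Real.add_one_le_exp 1]) _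
  refine Fi.core D ω hω hlog hn20 hn8 (ε ^ 12) (ε ^ 25) (ε ^ 103 * D.n) (ε ^ 102)
    (10 ^ 4 * (ε ^ 52 * D.n)) ω (by positivity) (pow_le_pow_of_le_one hε0.le hε2 (by norm_num))
    (by linarith [hp 0 12 (by norm_num)]) (by positivity) (by positivity)
    (by linarith [hp 0 102 (by norm_num)]) hw0.le hL ?_ ?_ ?_ ?_ ?_ ?_ ?_ ?_ ?_ ?_ ?_ ?_ ?_ ?_ ?_
  · have h1 : 4 * (ω : ℝ) ≤ ε ^ 206 * D.n := by linarith [hm 206 519 (by norm_num), hm0 206]
    have := mul_le_mul_of_nonneg_right h1 hn0.le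
    linarith
  · rw [hdiv]
    linarith [hm 12 103 (by norm_num), hm0 12]
  · rw [hdiv]
    linarith [hm 0 12 (by norm_num)]
  · linarith [hm 102 103 (by norm_num), hm0 102]
  · linarith [hm 510 519 (by norm_num), hm0 510]
  · linarith [hm 50 103 (by norm_num), hm0 50]
  · linarith [hm 50 52 (by norm_num), hm0 50]
  · have h1 : 130 * (21 * ε ^ 102) * D.n * (D.n / ((ε ^ 25) ^ 2 * D.n / 3)) =
        8190 * (ε ^ 52 * D.n) := by
      field_simp
      ring
    rw [h1]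
    linarith [hm 52 519 (by norm_num), hm0 52]
  · linarith [hm 37 49 (by norm_num), hm 37 50 (by norm_num), hm 37 103 (by norm_num),
      hm 37 102 (by norm_num), hm0 37]
  · linarith [hm 37 49 (by norm_num), hm 37 50 (by norm_num), hm 37 103 (by norm_num),
      hm 37 52 (by norm_num), hm0 37]
  · linarith [hm 49 52 (by norm_num), hm 49 103 (by norm_num), hm0 49]
  · linarith [hm 25 52 (by norm_num), hm 25 103 (by norm_num), hm0 25]
  · linarith [hm 50 102 (by norm_num), hm 50 103 (by norm_num), hm0 50]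
  · linarith [hm 37 50 (by norm_num), hm 37 519 (by norm_num), hm0 37]
  · linarith [hm 49 50 (by norm_num), hm 49 519 (by norm_num), hm0 49]

end Pool.Agent.Lib.MP_9dc2ba_co.Large
end

-- part Pool.Agent.Lib.MP_9dc2ba_co.Large.Top
section

/-!
From unordered triple arrays to the design data and from a triangle decomposition to an array.
-/

open Finset

set_option linter.unusedSectionVars false

namespace Pool.Agent.Lib.MP_9dc2ba_co.Large

variable {I J X : Type*} [Fintype I] [Fintype J] [Fintype X] [DecidableEq I] [DecidableEq J]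
  [DecidableEq X]

theorem exists_omega (n : ℕ) (hn : (10 ^ 30) ^ 520 ≤ n) :
    ∃ ω : ℕ, 10 ^ 30 ≤ ω ∧ n ^ 10 ≤ 2 ^ ω ∧ ω ^ 520 ≤ n := by
  generalize hK : 520 = K at hn ⊢
  have hK0 : K ≠ 0 := by omega
  obtain ⟨ω, h1, h2⟩ : ∃ ω, ω ^ K ≤ n ∧ n < (ω + 1) ^ K :=
    ⟨Nat.nthRoot K n, Nat.pow_nthRoot_le (Or.inl hK0), Nat.lt_pow_nthRoot_add_one hK0 n⟩
  have h3 : 10 ^ 30 ≤ ω := by
    have := lt_of_pow_lt_pow_left₀ K (Nat.zero_le _) (hn.trans_lt h2)
    omega
  refine ⟨ω, h3, ?_, h1⟩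
  obtain ⟨m, hm⟩ : ∃ m, m = ω / 10400 := ⟨_, rfl⟩
  have h4 : ω + 1 ≤ 2 ^ (2 * m) := by
    have a1 : m < 2 ^ m := Nat.lt_two_pow_self
    have a2 : 20000 ≤ m := by omega
    have a3 : ω + 1 ≤ 10400 * (m + 1) := by omega
    calc ω + 1 ≤ m * m := by nlinarith
      _ ≤ 2 ^ m * 2 ^ m := Nat.mul_le_mul a1.le a1.le
      _ = _ := by rw [← pow_add, two_mul]
  calc n ^ 10 ≤ ((ω + 1) ^ K) ^ 10 := Nat.pow_le_pow_left h2.le _
    _ ≤ ((2 ^ (2 * m)) ^ K) ^ 10 := Nat.pow_le_pow_left (Nat.pow_le_pow_left h4 _) _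
    _ = 2 ^ (2 * m * K * 10) := by rw [← pow_mul, ← pow_mul, mul_assoc (2 * m)]
    _ ≤ 2 ^ ω := Nat.pow_le_pow_right (by norm_num) (by rw [← hK]; omega)

theorem array_of_dec (D : Des I J X) (h : DecF (valid D)) :
    ∃ T : I → J → X, (∀ i, Function.Injective fun j => T i j) ∧
      (∀ j, Function.Injective fun i => T i j) ∧
      (∀ i x, i ∈ D.A x ↔ ∃ j, T i j = x) ∧ (∀ j x, j ∈ D.B x ↔ ∃ i, T i j = x) := by
  obtain ⟨P, hP⟩ := h
  have hnd : (P.bind tri).Nodup := hP ▸ (valid D).nodup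
  have hmem : ∀ l, l ∈ valid D ↔ ∃ t ∈ P, l ∈ tri t := fun l => by
    rw [Finset.mem_def, hP, Multiset.mem_bind]
  have huniq : ∀ t ∈ P, ∀ t' ∈ P, ∀ l, l ∈ tri t → l ∈ tri t' → t = t' := by
    intro t ht t' ht' l hl hl'
    by_contra hne
    have hd := (Multiset.nodup_bind.1 hnd).2
    have := hd.forall ht ht' hne
    exact Multiset.disjoint_left.1 this hl hl'
  have hex : ∀ i j, ∃ x, (i, j, x) ∈ P := by
    intro i j
    obtain ⟨⟨i', j', x⟩, ht, hl⟩ := (hmem (cel i j)).1 (by simp)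
    simp only [tri, Multiset.insert_eq_cons, Multiset.mem_cons, Ln.cel.injEq, reduceCtorEq,
      Multiset.mem_singleton, or_false] at hl
    exact ⟨x, by rw [hl.1, hl.2]; exact ht⟩
  choose T hT using hex
  have hfun : ∀ i j x, (i, j, x) ∈ P → T i j = x := by
    intro i j x hx
    have := huniq _ (hT i j) _ hx (cel i j) (by simp [tri]) (by simp [tri])
    simpa using this
  refine ⟨T, fun i j j' e => ?_, fun j i i' e => ?_, fun i x => ?_, fun j x => ?_⟩
  · have e' : T i j = T i j' := e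
    have := huniq _ (hT i j) _ (hT i j') (sym (T i j) i) (by simp [tri]) (by simp [tri, e'])
    simp only [Prod.mk.injEq] at this
    exact this.2.1
  · have e' : T i j = T i' j := e
    have := huniq _ (hT i j) _ (hT i' j) (edg j (T i j)) (by simp [tri]) (by simp [tri, e'])
    simp only [Prod.mk.injEq] at this
    exact this.1
  · rw [← sym_mem_valid, hmem]
    constructor
    · rintro ⟨⟨i', j, x'⟩, ht, hl⟩
      simp only [tri, Multiset.insert_eq_cons, Multiset.mem_cons, Ln.sym.injEq, reduceCtorEq,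
        Multiset.mem_singleton, or_false, false_or] at hl
      exact ⟨j, hfun _ _ _ (by rw [hl.1, hl.2]; exact ht)⟩
    · rintro ⟨j, rfl⟩
      exact ⟨_, hT i j, by simp [tri]⟩
  · rw [← edg_mem_valid, hmem]
    constructor
    · rintro ⟨⟨i, j', x'⟩, ht, hl⟩
      simp only [tri, Multiset.insert_eq_cons, Multiset.mem_cons, Ln.edg.injEq, reduceCtorEq,
        Multiset.mem_singleton, false_or] at hl
      exact ⟨i, hfun _ _ _ (by rw [hl.1, hl.2]; exact ht)⟩
    · rintro ⟨i, rfl⟩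
      exact ⟨_, hT i j, by simp [tri]⟩

theorem sum_card_pair {α β : Type*} [Fintype α] [Fintype β] [DecidableEq α] [DecidableEq β]
    (A : X → Finset α) (B : X → Finset β) :
    ∑ a, ∑ b, #{x | a ∈ A x ∧ b ∈ B x} = ∑ x, #(A x) * #(B x) := by
  simp only [card_filter]
  rw [sum_congr rfl fun a _ => sum_comm, sum_comm]
  refine sum_congr rfl fun x _ => ?_
  rw [card_eq_sum_ones, card_eq_sum_ones, ← Fintype.sum_ite_mem (A x), ← Fintype.sum_ite_mem (B x),
    sum_mul_sum]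
  refine sum_congr rfl fun a _ => sum_congr rfl fun b _ => ?_
  by_cases h1 : a ∈ A x <;> by_cases h2 : b ∈ B x <;> simp [h1, h2]

theorem pair_const {α : Type*} [Fintype α] [DecidableEq α] (A : X → Finset α) (e d l : ℕ)
    (hA : ∀ x, #(A x) = e) (hd : ∀ a, #{x | a ∈ A x} = d)
    (hl : ∀ a a', a ≠ a' → #{x | a ∈ A x ∧ a' ∈ A x} = l) :
    Fintype.card α * (d + (Fintype.card α - 1) * l) = Fintype.card X * (e * e) := by
  have h := sum_card_pair A A
  simp only [hA, sum_const, card_univ, smul_eq_mul] at h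
  rw [← h]
  symm
  rw [← smul_eq_mul, ← card_univ, ← sum_const]
  refine sum_congr rfl fun a _ => ?_
  rw [← add_sum_erase _ _ (mem_univ a), sum_congr rfl fun b hb => hl a b (ne_of_mem_erase hb).symm,
    sum_const, card_erase_of_mem (mem_univ a), smul_eq_mul]
  simp [hd]

theorem exists_des {R : I → Set X} {C : J → Set X} {e : ℕ} (hU : IsUnorderedTripleArray R C e)
    (hv : Fintype.card X + 1 = Fintype.card I + Fintype.card J) (he : 2 ≤ e) [Nonempty X]
    (hle : Fintype.card I ≤ Fintype.card J) :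
    ∃ D : Des I J X, D.n = e ∧ (∀ i x, i ∈ D.A x ↔ x ∈ R i) ∧ (∀ j x, j ∈ D.B x ↔ x ∈ C j) := by
  classical
  have nc : ∀ {α : Type _} [Fintype α] (s : Set α) (p : α → Prop) [DecidablePred p],
      (∀ a, p a ↔ a ∈ s) → #{a | p a} = s.ncard := by
    intro α _ s p _ h
    rw [← Set.ncard_coe_finset]
    congr 1
    ext a
    simp [h]
  set A : X → Finset I := fun x => {i | x ∈ R i} with hAdef
  set B : X → Finset J := fun x => {j | x ∈ C j} with hBdef
  have mA : ∀ i x, i ∈ A x ↔ x ∈ R i := by simp [hAdef]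
  have mB : ∀ j x, j ∈ B x ↔ x ∈ C j := by simp [hBdef]
  have cA : ∀ x, #(A x) = e := fun x => by
    rw [← hU.rep_row x, ← Set.ncard_coe_finset]
    congr 1
    ext; simp [mA]
  have cB : ∀ x, #(B x) = e := fun x => by
    rw [← hU.rep_col x, ← Set.ncard_coe_finset]
    congr 1
    ext; simp [mB]
  have dI : ∀ i, #{x | i ∈ A x} = Fintype.card J := fun i => by
    rw [nc (R i) _ (mA i), hU.card_row, Nat.card_eq_fintype_card]
  have dJ : ∀ j, #{x | j ∈ B x} = Fintype.card I := fun j => by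
    rw [nc (C j) _ (mB j), hU.card_col, Nat.card_eq_fintype_card]
  obtain ⟨lrc, hrc⟩ := hU.row_col
  obtain ⟨lrr, hrr⟩ := hU.row_row
  obtain ⟨lcc, hcc⟩ := hU.col_col
  have rc : ∀ i j, #{x | i ∈ A x ∧ j ∈ B x} = lrc := fun i j => by
    rw [nc (R i ∩ C j) _ (by simp [mA, mB]), hrc]
  have rr : ∀ i i', i ≠ i' → #{x | i ∈ A x ∧ i' ∈ A x} = lrr := fun i j h => by
    rw [nc (R i ∩ R j) _ (by simp [mA]), hrr _ _ h]
  have cc : ∀ j j', j ≠ j' → #{x | j ∈ B x ∧ j' ∈ B x} = lcc := fun i j h => by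
    rw [nc (C i ∩ C j) _ (by simp [mB]), hcc _ _ h]
  have her : e ≤ Fintype.card I := by
    rw [← cA (Classical.arbitrary X)]
    exact card_le_univ _
  have e0 : Fintype.card I * Fintype.card J = Fintype.card X * e := by
    have := sum_card_pair A (fun _ => (univ : Finset Unit))
    simpa [dI, cA] using this
  have e1 := sum_card_pair A B
  simp only [rc, cA, cB, sum_const, card_univ, smul_eq_mul] at e1
  have e2 := pair_const A e _ _ cA dI rr
  have e3 := pair_const B e _ _ cB dJ cc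
  obtain ⟨lam, hlam⟩ := Nat.exists_eq_add_of_le her
  obtain ⟨mu, hmu⟩ := Nat.exists_eq_add_of_le (her.trans hle)
  obtain ⟨k, rfl⟩ : ∃ k, e = k + 1 := ⟨e - 1, by omega⟩
  have hX : Fintype.card X = 2 * k + 1 + lam + mu := by omega
  rw [← mul_assoc, ← e0] at e2 e3
  rw [← mul_assoc, ← mul_assoc, ← e0] at e1
  have hpos : 0 < Fintype.card I * Fintype.card J := by rw [hlam, hmu]; positivity
  have f1 : lrc = k + 1 := Nat.eq_of_mul_eq_mul_left hpos e1
  rw [mul_assoc] at e2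
  rw [mul_comm (Fintype.card I), mul_assoc] at e3
  have f2 := Nat.eq_of_mul_eq_mul_left (by omega) e2
  have f3 := Nat.eq_of_mul_eq_mul_left (by omega) e3
  rw [hX, hlam, hmu] at e0
  rw [hlam, hmu, show k + 1 + lam - 1 = k + lam by omega] at f2
  rw [hlam, hmu, show k + 1 + mu - 1 = k + mu by omega] at f3
  have g0 : lam * mu = (k + 1) * k := by nlinarith
  have g2 : lrr = mu := Nat.eq_of_mul_eq_mul_left (show 0 < k + lam by omega) (by nlinarith)
  have g3 : lcc = lam := Nat.eq_of_mul_eq_mul_left (show 0 < k + mu by omega) (by nlinarith)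
  exact ⟨⟨A, B, k + 1, lam, cA, cB, hlam, hv, fun j => by rw [dJ, hlam], dI,
    fun i j => by rw [rc, f1], fun j j' h => by rw [cc _ _ h, g3],
    fun i i' h => by rw [rr _ _ h, g2, hmu, add_comm], by rw [hmu]; nlinarith, hle⟩, rfl, mA, mB⟩

theorem order_large {I J S : Type*} {R : I → Set S} {C : J → Set S} {e : ℕ}
    (he : (10 ^ 30) ^ 520 ≤ e) (hU : IsUnorderedTripleArray R C e) [Nonempty S]
    (hv : Nat.card S + 1 = Nat.card I + Nat.card J) (hle : Nat.card I ≤ Nat.card J) :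
    ∃ T : I → J → S, (∀ i, Function.Injective fun j => T i j) ∧
      (∀ j, Function.Injective fun i => T i j) ∧ (∀ i, Set.range (fun j => T i j) = R i) ∧
      (∀ j, Set.range (fun i => T i j) = C j) := by
  classical
  have := hU.finite_rows
  have := hU.finite_cols
  have := hU.finite_symbols
  have := Fintype.ofFinite I
  have := Fintype.ofFinite J
  have := Fintype.ofFinite S
  simp only [Nat.card_eq_fintype_card] at hv hle
  obtain ⟨ω, h1, h2, h3⟩ := exists_omega e he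
  have he2 : 2 ≤ e := le_trans (le_trans (by omega) (Nat.le_self_pow (by norm_num) ω)) h3
  obtain ⟨D, rfl, hA, hB⟩ := exists_des hU hv he2 hle
  obtain ⟨T, t1, t2, t3, t4⟩ := array_of_dec D (decomp D ω h1 h2 h3)
  refine ⟨T, t1, t2, fun i => ?_, fun j => ?_⟩
  · ext x
    rw [← hA, t3]
    rfl
  · ext x
    rw [← hB, t4]
    rfl

end Pool.Agent.Lib.MP_9dc2ba_co.Large
end
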